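import Pool.Agent.H27.SX.Defs

/-!
# The area of the convex hull of finitely many points of the plane (SX-9)
-/

set_option autoImplicit false

open MeasureTheory Metric Set Filter Module
open scoped Topology MeasureTheory RealInnerProductSpace Nat Pointwise

namespace SX

namespace Ar

/-- the determinant of two vectors of the plane -/
def dt (p q : EuclideanSpace ℝ (Fin 2)) : ℝ := p 0 * q 1 - p 1 * q 0

/-- the triangle with the vertices `0`, `p`, `q` -/
def Tr (p q : EuclideanSpace ℝ (Fin 2)) : Set (EuclideanSpace ℝ (Fin 2)) :=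
  {x | ∃ s t : ℝ, 0 ≤ s ∧ 0 ≤ t ∧ s + t ≤ 1 ∧ x = s • p + t • q}

/-! ### three points to two points -/

theorem three (p q r : EuclideanSpace ℝ (Fin 2)) {s t u : ℝ} (hs : 0 ≤ s) (ht : 0 ≤ t)
    (hu : 0 ≤ u) : ∃ s' t' : ℝ, 0 ≤ s' ∧ 0 ≤ t' ∧ s' + t' ≤ s + t + u ∧
      (s • p + t • q + u • r = s' • p + t' • q ∨ s • p + t • q + u • r = s' • p + t' • r ∨
        s • p + t • q + u • r = s' • q + t' • r) := by
  have h1 : ¬ LinearIndependent ℝ ![p, q, r] := by
    intro h
    have := h.fintype_card_le_finrank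
    simp at this
  obtain ⟨g, hg, hne⟩ : ∃ g : Fin 3 → ℝ, ∑ i, g i • (![p, q, r] : Fin 3 → _) i = 0 ∧
      ∃ i, g i ≠ 0 := Fintype.not_linearIndependent_iff.1 h1
  obtain ⟨g, hg, hne, hsum⟩ : ∃ g : Fin 3 → ℝ, ∑ i, g i • (![p, q, r] : Fin 3 → _) i = 0 ∧
      (∃ i, g i ≠ 0) ∧ 0 ≤ ∑ i, g i := by
    rcases le_total 0 (∑ i, g i) with h | h
    · exact ⟨g, hg, hne, h⟩
    · refine ⟨-g, ?_, ?_, ?_⟩
      · simp only [Pi.neg_apply, neg_smul, Finset.sum_neg_distrib, hg, neg_zero]
      · obtain ⟨i, hi⟩ := hne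
        exact ⟨i, by simpa using hi⟩
      · simp only [Pi.neg_apply, Finset.sum_neg_distrib]
        linarith
  have hpos : ∃ i, 0 < g i := by
    by_contra hcon
    push Not at hcon
    obtain ⟨i, hi⟩ := hne
    have h2 : ∑ j, g j < 0 := Finset.sum_neg' (fun j _ => hcon j) ⟨i, Finset.mem_univ _,
      lt_of_le_of_ne (hcon i) hi⟩
    linarith
  set w : Fin 3 → ℝ := ![s, t, u] with hw
  have hw0 : ∀ i, 0 ≤ w i := by
    intro i
    fin_cases i
    · exact hs
    · exact ht
    · exact hu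
  obtain ⟨i, hi, hmin⟩ := Finset.exists_min_image (Finset.univ.filter fun i => 0 < g i)
    (fun i => w i / g i) (by
      obtain ⟨i, hi⟩ := hpos
      exact ⟨i, by simpa using hi⟩)
  have hgi : 0 < g i := by simpa using hi
  set l : ℝ := w i / g i with hl
  have hl0 : 0 ≤ l := div_nonneg (hw0 i) hgi.le
  have hnew : ∀ j, 0 ≤ w j - l * g j := by
    intro j
    rcases le_or_gt (g j) 0 with h | h
    · have : l * g j ≤ 0 := mul_nonpos_of_nonneg_of_nonpos hl0 h
      linarith [hw0 j]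
    · have h3 : l ≤ w j / g j := hmin j (by simpa using h)
      have h4 := mul_le_mul_of_nonneg_right h3 h.le
      rw [div_mul_cancel₀ _ h.ne'] at h4
      linarith
  have hzero : w i - l * g i = 0 := by
    rw [hl, div_mul_cancel₀ _ hgi.ne']
    ring
  have hsum' : (w 0 - l * g 0) + (w 1 - l * g 1) + (w 2 - l * g 2) ≤ s + t + u := by
    have h5 : 0 ≤ l * ∑ j, g j := mul_nonneg hl0 hsum
    rw [Fin.sum_univ_three] at h5
    have h6 : w 0 = s := rfl
    have h7 : w 1 = t := rfl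
    have h8 : w 2 = u := rfl
    rw [h6, h7, h8]
    nlinarith
  have hcomb : s • p + t • q + u • r =
      (w 0 - l * g 0) • p + (w 1 - l * g 1) • q + (w 2 - l * g 2) • r := by
    rw [Fin.sum_univ_three] at hg
    have h9 : g 0 • p + g 1 • q + g 2 • r = 0 := hg
    have h6 : w 0 = s := rfl
    have h7 : w 1 = t := rfl
    have h8 : w 2 = u := rfl
    rw [h6, h7, h8]
    have h10 : (s - l * g 0) • p + (t - l * g 1) • q + (u - l * g 2) • r =
        s • p + t • q + u • r - l • (g 0 • p + g 1 • q + g 2 • r) := by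
      module
    rw [h10, h9, smul_zero, sub_zero]
  have hcases : i = 0 ∨ i = 1 ∨ i = 2 := by
    fin_cases i
    · exact Or.inl rfl
    · exact Or.inr (Or.inl rfl)
    · exact Or.inr (Or.inr rfl)
  rcases hcases with rfl | rfl | rfl
  · refine ⟨_, _, hnew 1, hnew 2, by linarith, Or.inr (Or.inr ?_)⟩
    rw [hcomb, hzero, zero_smul, zero_add]
  · refine ⟨_, _, hnew 0, hnew 2, by linarith, Or.inr (Or.inl ?_)⟩
    rw [hcomb, hzero, zero_smul, add_zero]
  · refine ⟨_, _, hnew 0, hnew 1, by linarith, Or.inl ?_⟩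
    rw [hcomb, hzero, zero_smul, add_zero]

theorem two (P : Finset (EuclideanSpace ℝ (Fin 2))) (w : EuclideanSpace ℝ (Fin 2) → ℝ)
    (hw : ∀ y ∈ P, 0 ≤ w y) :
    ∃ p ∈ insert 0 P, ∃ q ∈ insert 0 P, ∃ s t : ℝ, 0 ≤ s ∧ 0 ≤ t ∧ s + t ≤ ∑ y ∈ P, w y ∧
      ∑ y ∈ P, w y • y = s • p + t • q := by
  classical
  induction P using Finset.induction_on with
  | empty => exact ⟨0, by simp, 0, by simp, 0, 0, le_rfl, le_rfl, by simp, by simp⟩
  | insert r Q hr ih =>
    obtain ⟨p, hp, q, hq, s, t, hs, ht, hst, hx⟩ :=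
      ih (fun y hy => hw y (Finset.mem_insert_of_mem hy))
    obtain ⟨s', t', hs', ht', hst', h⟩ := three p q r hs ht (hw r (Finset.mem_insert_self _ _))
    have hp' : p ∈ insert 0 (insert r Q) := by
      rw [Finset.mem_insert] at hp ⊢
      exact hp.imp id Finset.mem_insert_of_mem
    have hq' : q ∈ insert 0 (insert r Q) := by
      rw [Finset.mem_insert] at hq ⊢
      exact hq.imp id Finset.mem_insert_of_mem
    have hr' : r ∈ insert 0 (insert r Q) :=
      Finset.mem_insert_of_mem (Finset.mem_insert_self _ _)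
    have hsum : s' + t' ≤ ∑ y ∈ insert r Q, w y := by
      rw [Finset.sum_insert hr]
      linarith
    have hsum2 : ∑ y ∈ insert r Q, w y • y = s • p + t • q + w r • r := by
      rw [Finset.sum_insert hr, hx, add_comm]
    rcases h with h | h | h
    · exact ⟨p, hp', q, hq', s', t', hs', ht', hsum, hsum2.trans h⟩
    · exact ⟨p, hp', r, hr', s', t', hs', ht', hsum, hsum2.trans h⟩
    · exact ⟨q, hq', r, hr', s', t', hs', ht', hsum, hsum2.trans h⟩

theorem two' (P : Finset (EuclideanSpace ℝ (Fin 2))) {x : EuclideanSpace ℝ (Fin 2)}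
    (hx : x ∈ convexHull ℝ (insert 0 (P : Set (EuclideanSpace ℝ (Fin 2))))) :
    ∃ p ∈ insert 0 P, ∃ q ∈ insert 0 P, ∃ s t : ℝ, 0 ≤ s ∧ 0 ≤ t ∧ s + t ≤ 1 ∧
      x = s • p + t • q := by
  classical
  rw [← Finset.coe_insert, Finset.mem_convexHull'] at hx
  obtain ⟨w, hw0, hw1, hwx⟩ := hx
  obtain ⟨p, hp, q, hq, s, t, hs, ht, hst, h⟩ := two (insert 0 P) w hw0
  rw [Finset.insert_idem] at hp hq
  exact ⟨p, hp, q, hq, s, t, hs, ht, hw1 ▸ hst, hwx ▸ h⟩

/-! ### the area of a triangle -/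

/-- the standard triangle -/
def T0 : Set (EuclideanSpace ℝ (Fin 2)) := {y | 0 ≤ y 0 ∧ 0 ≤ y 1 ∧ y 0 + y 1 ≤ 1}

/-- the point `(1,1)` -/
noncomputable def on : EuclideanSpace ℝ (Fin 2) := WithLp.toLp 2 (fun _ => 1)

theorem vol_null (a : EuclideanSpace ℝ (Fin 2) →ₗ[ℝ] ℝ) (ha : a ≠ 0) :
    volume {x : EuclideanSpace ℝ (Fin 2) | a x = 0} = 0 := by
  have h1 : LinearMap.ker a ≠ ⊤ := by
    intro h
    exact ha (LinearMap.ker_eq_top.1 h)
  exact Measure.addHaar_submodule volume (LinearMap.ker a) h1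

theorem vol_sq : volume {y : EuclideanSpace ℝ (Fin 2) | ∀ i, y i ∈ Icc (0 : ℝ) 1} = 1 := by
  have h1 := (EuclideanSpace.volume_preserving_symm_measurableEquiv_toLp (Fin 2)).measure_preimage
    (s := Set.pi univ fun _ => Icc (0 : ℝ) 1)
    (MeasurableSet.univ_pi fun _ => measurableSet_Icc).nullMeasurableSet
  have h2 : (volume : Measure (Fin 2 → ℝ)) (Set.pi univ fun _ => Icc (0 : ℝ) 1) = 1 := by
    rw [volume_pi_pi]
    simp
  rw [h2] at h1
  rw [← h1]
  congr 1
  ext y
  constructor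
  · intro h i _
    exact h i
  · intro h i
    exact h i (mem_univ i)

/-- the difference `y 0 + y 1` as a linear form -/
noncomputable def sm : EuclideanSpace ℝ (Fin 2) →ₗ[ℝ] ℝ :=
  { toFun := fun y => y 0 + y 1
    map_add' := fun x y => by
      simp only [PiLp.add_apply]
      ring
    map_smul' := fun c x => by
      simp only [PiLp.smul_apply, smul_eq_mul, RingHom.id_apply]
      ring }

theorem isClosed_T0 : IsClosed T0 := by
  have h0 : Continuous fun y : EuclideanSpace ℝ (Fin 2) => y 0 := by fun_prop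
  have h1 : Continuous fun y : EuclideanSpace ℝ (Fin 2) => y 1 := by fun_prop
  exact (isClosed_le continuous_const h0).inter ((isClosed_le continuous_const h1).inter
    (isClosed_le (h0.add h1) continuous_const))

theorem vol_T0 : volume T0 ≤ ENNReal.ofReal (1 / 2) := by
  set T1 : Set (EuclideanSpace ℝ (Fin 2)) := (fun y => on - y) ⁻¹' T0 with hT1
  have h1 : volume T1 = volume T0 :=
    (Measure.measurePreserving_sub_left volume on).measure_preimage
      isClosed_T0.measurableSet.nullMeasurableSet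
  have hm : MeasurableSet T1 :=
    (isClosed_T0.preimage (continuous_const.sub continuous_id)).measurableSet
  have hon : ∀ i, on i = 1 := fun i => rfl
  have h2 : T0 ∪ T1 ⊆ {y : EuclideanSpace ℝ (Fin 2) | ∀ i, y i ∈ Icc (0 : ℝ) 1} := by
    rintro y (hy | hy)
    · obtain ⟨h3, h4, h5⟩ := hy
      intro i
      fin_cases i
      · exact ⟨h3, by simp only [Fin.zero_eta]; linarith⟩
      · exact ⟨h4, by simp only [Fin.mk_one]; linarith⟩
    · obtain ⟨h3, h4, h5⟩ := hy
      simp only [PiLp.sub_apply, hon] at h3 h4 h5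
      intro i
      fin_cases i
      · exact ⟨by simp only [Fin.zero_eta]; linarith, by simp only [Fin.zero_eta]; linarith⟩
      · exact ⟨by simp only [Fin.mk_one]; linarith, by simp only [Fin.mk_one]; linarith⟩
  have h3 : volume (T0 ∩ T1) = 0 := by
    have h4 : T0 ∩ T1 ⊆ (fun y : EuclideanSpace ℝ (Fin 2) =>
        y - WithLp.toLp 2 (fun _ => (1 / 2 : ℝ))) ⁻¹'
        {x : EuclideanSpace ℝ (Fin 2) | sm x = 0} := by
      rintro y ⟨⟨h5, h6, h7⟩, ⟨h8, h9, h10⟩⟩
      simp only [PiLp.sub_apply, hon] at h8 h9 h10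
      show (y 0 - 1 / 2) + (y 1 - 1 / 2) = 0
      linarith
    refine measure_mono_null h4 ?_
    rw [(measurePreserving_sub_right volume _).measure_preimage]
    · refine vol_null sm ?_
      intro h
      have h5 : sm on = 0 := by rw [h]; rfl
      have h6 : sm on = 2 := by
        show on 0 + on 1 = 2
        rw [hon, hon]
        norm_num
      linarith
    · refine MeasurableSet.nullMeasurableSet ?_
      have h5 : Continuous fun y : EuclideanSpace ℝ (Fin 2) => y 0 + y 1 := by fun_prop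
      exact (isClosed_singleton.preimage h5).measurableSet (s := {x | sm x = 0})
  have h4 := measure_union_add_inter (μ := volume) T0 hm
  rw [h3, add_zero, h1] at h4
  have h5 : volume (T0 ∪ T1) ≤ 1 := vol_sq ▸ measure_mono h2
  rw [h4] at h5
  rw [← two_mul] at h5
  have h6 : ENNReal.ofReal (1 / 2) = 2⁻¹ := by
    rw [one_div, ENNReal.ofReal_inv_of_pos two_pos, ENNReal.ofReal_ofNat]
  rw [h6]
  calc volume T0 = 2⁻¹ * (2 * volume T0) := by
        rw [← mul_assoc, ENNReal.inv_mul_cancel (by norm_num) (by norm_num), one_mul]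
    _ ≤ 2⁻¹ * 1 := by gcongr
    _ = 2⁻¹ := mul_one _

theorem vol_Tr (p q : EuclideanSpace ℝ (Fin 2)) :
    volume (Tr p q) ≤ ENNReal.ofReal (|dt p q| / 2) := by
  set M : Matrix (Fin 2) (Fin 2) ℝ := !![p 0, q 0; p 1, q 1] with hM
  have h1 : Tr p q ⊆ (Matrix.toLpLin 2 2 M) '' T0 := by
    rintro x ⟨s, t, hs, ht, hst, rfl⟩
    refine ⟨WithLp.toLp 2 ![s, t], ⟨hs, ht, hst⟩, ?_⟩
    ext i
    fin_cases i
    · simp [Matrix.toLpLin_apply, hM]
    · simp [Matrix.toLpLin_apply, hM]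
  refine (measure_mono h1).trans ?_
  rw [Measure.addHaar_image_linearMap, LinearMap.det_toLpLin, hM, Matrix.det_fin_two_of]
  have h2 : |p 0 * q 1 - q 0 * p 1| = |dt p q| := by
    rw [dt, mul_comm (q 0)]
  rw [h2, div_eq_mul_one_div, ENNReal.ofReal_mul (abs_nonneg _)]
  gcongr
  exact vol_T0

/-! ### the edges -/

theorem dt_self (p : EuclideanSpace ℝ (Fin 2)) : dt p p = 0 := by
  rw [dt]
  ring

theorem dt_neg (p q : EuclideanSpace ℝ (Fin 2)) : dt q p = - dt p q := by
  rw [dt, dt]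
  ring

theorem dt_comb (p q r : EuclideanSpace ℝ (Fin 2)) (s t : ℝ) :
    dt (s • p + t • q) r = s * dt p r + t * dt q r := by
  simp only [dt, PiLp.add_apply, PiLp.smul_apply, smul_eq_mul]
  ring

theorem dt_comb' (p q r : EuclideanSpace ℝ (Fin 2)) (s t : ℝ) :
    dt r (s • p + t • q) = s * dt r p + t * dt r q := by
  simp only [dt, PiLp.add_apply, PiLp.smul_apply, smul_eq_mul]
  ring

/-- Cramer's rule -/
theorem cramer (p q x : EuclideanSpace ℝ (Fin 2)) (h : dt p q ≠ 0) :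
    x = (dt x q / dt p q) • p + (dt p x / dt p q) • q := by
  have h' : p 0 * q 1 - p 1 * q 0 ≠ 0 := h
  ext i
  fin_cases i
  · simp only [dt, PiLp.add_apply, PiLp.smul_apply, smul_eq_mul, Fin.zero_eta]
    rw [div_mul_eq_mul_div, div_mul_eq_mul_div, ← add_div, eq_div_iff h']
    ring
  · simp only [dt, PiLp.add_apply, PiLp.smul_apply, smul_eq_mul, Fin.mk_one]
    rw [div_mul_eq_mul_div, div_mul_eq_mul_div, ← add_div, eq_div_iff h']
    ring

/-- the identity between four vectors -/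
theorem plu (p q n x : EuclideanSpace ℝ (Fin 2)) :
    dt p q * dt n x = dt n q * dt p x - dt p n * dt x q := by
  simp only [dt]
  ring

theorem dt_le (p q : EuclideanSpace ℝ (Fin 2)) : |dt p q| / 2 ≤ (‖p‖ ^ 2 + ‖q‖ ^ 2) / 4 := by
  rw [EuclideanSpace.norm_sq_eq, EuclideanSpace.norm_sq_eq, Fin.sum_univ_two, Fin.sum_univ_two]
  simp only [Real.norm_eq_abs, sq_abs]
  have h1 : |dt p q| ≤ (p 0 ^ 2 + p 1 ^ 2 + (q 0 ^ 2 + q 1 ^ 2)) / 2 := by
    rw [dt, abs_le]
    constructor
    · nlinarith [sq_nonneg (p 0 + q 1), sq_nonneg (p 1 - q 0)]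
    · nlinarith [sq_nonneg (p 0 - q 1), sq_nonneg (p 1 + q 0)]
  linarith

/-- the edges of a finite set -/
def Edge (P : Finset (EuclideanSpace ℝ (Fin 2))) (p q : EuclideanSpace ℝ (Fin 2)) : Prop :=
  0 < dt p q ∧ ∀ n ∈ P, dt n q + dt p n ≤ dt p q

/-- no point is in the convex hull of the others and `0` -/
def Irr (P : Finset (EuclideanSpace ℝ (Fin 2))) : Prop :=
  ∀ r ∈ P, r ∉ convexHull ℝ (insert 0 ((P : Set (EuclideanSpace ℝ (Fin 2))) \ {r}))

theorem Irr.ne {P : Finset (EuclideanSpace ℝ (Fin 2))} (hP : Irr P)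
    {p q r : EuclideanSpace ℝ (Fin 2)} (hp : p ∈ P) (hq : q ∈ P) (hr : r ∈ P) (hpr : p ≠ r)
    (hqr : q ≠ r) {a b : ℝ} (ha : 0 ≤ a) (hb : 0 ≤ b) (hab : a + b = 1) :
    r ≠ a • p + b • q := by
  intro h
  have hc := convex_convexHull ℝ (insert 0 ((P : Set (EuclideanSpace ℝ (Fin 2))) \ {r}))
    (subset_convexHull ℝ _ (mem_insert_of_mem _ ⟨hp, hpr⟩))
    (subset_convexHull ℝ _ (mem_insert_of_mem _ ⟨hq, hqr⟩)) ha hb hab
  rw [← h] at hc
  exact hP r hr hc

theorem edge_right {P : Finset (EuclideanSpace ℝ (Fin 2))} (hP : Irr P)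
    {p q q' : EuclideanSpace ℝ (Fin 2)} (hp : p ∈ P) (hq : q ∈ P) (hq' : q' ∈ P)
    (h : Edge P p q) (h' : Edge P p q') : q = q' := by
  by_contra hne
  have h1 := h.2 q' hq'
  have h2 := h'.2 q hq
  have h3 := dt_neg q q'
  have hpq : p ≠ q := by
    rintro rfl
    exact absurd h.1 (by rw [dt_self]; exact lt_irrefl 0)
  have hpq' : p ≠ q' := by
    rintro rfl
    exact absurd h'.1 (by rw [dt_self]; exact lt_irrefl 0)
  have h4 : dt q' q = dt p q - dt p q' := by linarith
  have h5 := cramer p q q' h.1.ne'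
  have h6 := cramer p q' q h'.1.ne'
  rcases le_total (dt p q') (dt p q) with hle | hle
  · refine hP.ne hp hq hq' hpq' hne (a := dt q' q / dt p q) (b := dt p q' / dt p q)
      (div_nonneg (by linarith) h.1.le) (div_nonneg h'.1.le h.1.le) ?_ h5
    rw [← add_div, h4, sub_add_cancel, div_self h.1.ne']
  · refine hP.ne hp hq' hq hpq (Ne.symm hne) (a := dt q q' / dt p q') (b := dt p q / dt p q')
      (div_nonneg (by linarith) h'.1.le) (div_nonneg h.1.le h'.1.le) ?_ h6
    have h7 : dt q q' = dt p q' - dt p q := by linarith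
    rw [← add_div, h7, sub_add_cancel, div_self h'.1.ne']

theorem edge_left {P : Finset (EuclideanSpace ℝ (Fin 2))} (hP : Irr P)
    {p p' q : EuclideanSpace ℝ (Fin 2)} (hp : p ∈ P) (hp' : p' ∈ P) (hq : q ∈ P)
    (h : Edge P p q) (h' : Edge P p' q) : p = p' := by
  by_contra hne
  have h1 := h.2 p' hp'
  have h2 := h'.2 p hp
  have h3 := dt_neg p p'
  have hpq : p ≠ q := by
    rintro rfl
    exact absurd h.1 (by rw [dt_self]; exact lt_irrefl 0)
  have hpq' : p' ≠ q := by
    rintro rfl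
    exact absurd h'.1 (by rw [dt_self]; exact lt_irrefl 0)
  have h4 : dt p p' = dt p q - dt p' q := by linarith
  have h5 := cramer p q p' h.1.ne'
  have h6 := cramer p' q p h'.1.ne'
  rcases le_total (dt p' q) (dt p q) with hle | hle
  · refine hP.ne hp hq hp' hne (Ne.symm hpq') (a := dt p' q / dt p q) (b := dt p p' / dt p q)
      (div_nonneg h'.1.le h.1.le) (div_nonneg (by linarith) h.1.le) ?_ h5
    rw [← add_div, h4, add_sub_cancel, div_self h.1.ne']
  · refine hP.ne hp' hq hp (Ne.symm hne) (Ne.symm hpq) (a := dt p q / dt p' q)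
      (b := dt p' p / dt p' q)
      (div_nonneg h.1.le h'.1.le) (div_nonneg (by linarith) h'.1.le) ?_ h6
    have h7 : dt p' p = dt p' q - dt p q := by linarith
    rw [← add_div, h7, add_sub_cancel, div_self h'.1.ne']

/-! ### the edges cover -/

theorem cover {P : Finset (EuclideanSpace ℝ (Fin 2))} {x : EuclideanSpace ℝ (Fin 2)}
    (hx : x ∈ convexHull ℝ (insert 0 (P : Set (EuclideanSpace ℝ (Fin 2))))) (h0 : x ≠ 0)
    (hg : ∀ r ∈ P, dt r x ≠ 0) : ∃ p ∈ P, ∃ q ∈ P, Edge P p q ∧ x ∈ Tr p q := by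
  classical
  set F := (P ×ˢ P).filter fun z : EuclideanSpace ℝ (Fin 2) × EuclideanSpace ℝ (Fin 2) =>
    0 < dt z.1 z.2 ∧ 0 < dt x z.2 ∧ 0 < dt z.1 x with hF
  have hex : ∃ z ∈ F, (dt x z.2 + dt z.1 x) / dt z.1 z.2 ≤ 1 := by
    obtain ⟨p, hp, q, hq, s, t, hs, ht, hst, rfl⟩ := two' P hx
    have hpP : p ∈ P := by
      rcases Finset.mem_insert.1 hp with rfl | h
      · exfalso
        rcases Finset.mem_insert.1 hq with rfl | h'
        · exact h0 (by simp)
        · exact hg q h' (by rw [dt_comb', dt_self]; simp [dt])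
      · exact h
    have hqP : q ∈ P := by
      rcases Finset.mem_insert.1 hq with rfl | h
      · exfalso
        exact hg p hpP (by rw [dt_comb', dt_self]; simp [dt])
      · exact h
    have h1 := hg p hpP
    have h2 := hg q hqP
    rw [dt_comb', dt_self, mul_zero, zero_add] at h1
    rw [dt_comb', dt_self, mul_zero, add_zero] at h2
    have hD : dt p q ≠ 0 := right_ne_zero_of_mul h1
    have ht' : 0 < t := lt_of_le_of_ne ht (left_ne_zero_of_mul h1).symm
    have hs' : 0 < s := lt_of_le_of_ne hs (left_ne_zero_of_mul h2).symm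
    rcases lt_or_gt_of_ne hD with hneg | hpos
    · have hqp : 0 < dt q p := by
        rw [dt_neg p q]
        linarith
      refine ⟨(q, p), Finset.mem_filter.2 ⟨Finset.mem_product.2 ⟨hqP, hpP⟩, hqp, ?_, ?_⟩, ?_⟩
      · show 0 < dt (s • p + t • q) p
        rw [dt_comb, dt_self, mul_zero, zero_add]
        exact mul_pos ht' hqp
      · show 0 < dt q (s • p + t • q)
        rw [dt_comb', dt_self, mul_zero, add_zero]
        exact mul_pos hs' hqp
      · show (dt (s • p + t • q) p + dt q (s • p + t • q)) / dt q p ≤ 1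
        rw [dt_comb, dt_comb', dt_self, dt_self, mul_zero, mul_zero, zero_add, add_zero,
          ← add_mul, mul_div_assoc, div_self hqp.ne', mul_one, add_comm]
        exact hst
    · refine ⟨(p, q), Finset.mem_filter.2 ⟨Finset.mem_product.2 ⟨hpP, hqP⟩, hpos, ?_, ?_⟩, ?_⟩
      · show 0 < dt (s • p + t • q) q
        rw [dt_comb, dt_self, mul_zero, add_zero]
        exact mul_pos hs' hpos
      · show 0 < dt p (s • p + t • q)
        rw [dt_comb', dt_self, mul_zero, zero_add]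
        exact mul_pos ht' hpos
      · show (dt (s • p + t • q) q + dt p (s • p + t • q)) / dt p q ≤ 1
        rw [dt_comb, dt_comb', dt_self, dt_self, mul_zero, mul_zero, zero_add, add_zero,
          ← add_mul, mul_div_assoc, div_self hpos.ne', mul_one]
        exact hst
  obtain ⟨z0, hz0, hz1⟩ := hex
  obtain ⟨⟨p, q⟩, hz, hmin⟩ := Finset.exists_min_image F
    (fun z => (dt x z.2 + dt z.1 x) / dt z.1 z.2) ⟨z0, hz0⟩
  obtain ⟨hPP, hD, hxq, hpx⟩ := Finset.mem_filter.1 hz
  obtain ⟨hp, hq⟩ := Finset.mem_product.1 hPP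
  simp only at hD hxq hpx hp hq hmin
  refine ⟨p, hp, q, hq, ⟨hD, ?_⟩, dt x q / dt p q, dt p x / dt p q, ?_, ?_, ?_, cramer p q x hD.ne'⟩
  · intro n hn
    by_contra hcon
    push Not at hcon
    have hplu := plu p q n x
    have hgn := hg n hn
    by_cases hA : 0 < dt n q ∧ dt x q * dt p n ≤ dt p x * dt n q
    · obtain ⟨ha, hab⟩ := hA
      have hnx : 0 < dt n x := by
        refine lt_of_le_of_ne ?_ hgn.symm
        have h1 : 0 ≤ dt p q * dt n x := by
          rw [hplu]
          nlinarith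
        exact nonneg_of_mul_nonneg_right h1 hD
      have h2 := hmin (n, q) (Finset.mem_filter.2 ⟨Finset.mem_product.2 ⟨hn, hq⟩, ha, hxq, hnx⟩)
      simp only at h2
      rw [div_le_div_iff₀ hD ha] at h2
      nlinarith
    · have hb' : dt p x * dt n q < dt x q * dt p n := by
        by_contra hcon2
        push Not at hcon2
        have ha : ¬ 0 < dt n q := fun h => hA ⟨h, hcon2⟩
        push Not at ha
        have hb : 0 < dt p n := by linarith
        have h3 : 0 < dt x q * dt p n := mul_pos hxq hb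
        have h4 : dt p x * dt n q ≤ 0 := mul_nonpos_of_nonneg_of_nonpos hpx.le ha
        linarith
      have hb : 0 < dt p n := by
        by_contra hcon2
        push Not at hcon2
        have ha : 0 < dt n q := by linarith
        have h3 : dt x q * dt p n ≤ 0 := mul_nonpos_of_nonneg_of_nonpos hxq.le hcon2
        have h4 : 0 < dt p x * dt n q := mul_pos hpx ha
        linarith
      have hxn : 0 < dt x n := by
        have h5 : 0 < dt p q * dt x n := by
          rw [dt_neg n x, mul_neg, hplu]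
          linarith
        exact (mul_pos_iff_of_pos_left hD).1 h5
      have h2 := hmin (p, n) (Finset.mem_filter.2 ⟨Finset.mem_product.2 ⟨hp, hn⟩, hb, hxn, hpx⟩)
      simp only at h2
      rw [div_le_div_iff₀ hD hb] at h2
      have h6 := dt_neg n x
      nlinarith
  · exact div_nonneg hxq.le hD.le
  · exact div_nonneg hpx.le hD.le
  · rw [← add_div]
    exact (hmin z0 hz0).trans hz1

/-! ### the area -/

theorem Irr.ne_zero {P : Finset (EuclideanSpace ℝ (Fin 2))} (hP : Irr P)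
    {r : EuclideanSpace ℝ (Fin 2)} (hr : r ∈ P) : r ≠ 0 := by
  rintro rfl
  exact hP 0 hr (subset_convexHull ℝ _ (mem_insert _ _))

/-- the linear form `dt r` -/
noncomputable def dl (r : EuclideanSpace ℝ (Fin 2)) : EuclideanSpace ℝ (Fin 2) →ₗ[ℝ] ℝ :=
  { toFun := fun y => dt r y
    map_add' := fun x y => by
      simp only [dt, PiLp.add_apply]
      ring
    map_smul' := fun c x => by
      simp only [dt, PiLp.smul_apply, smul_eq_mul, RingHom.id_apply]
      ring }

theorem vol_line {r : EuclideanSpace ℝ (Fin 2)} (hr : r ≠ 0) :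
    volume {x : EuclideanSpace ℝ (Fin 2) | dt r x = 0} = 0 := by
  refine vol_null (dl r) ?_
  intro h
  apply hr
  have h1 : dl r (WithLp.toLp 2 ![0, 1]) = 0 := by rw [h]; rfl
  have h2 : dl r (WithLp.toLp 2 ![1, 0]) = 0 := by rw [h]; rfl
  have h3 : r 0 * 1 - r 1 * 0 = 0 := h1
  have h4 : r 0 * 0 - r 1 * 1 = 0 := h2
  ext i
  fin_cases i
  · show r 0 = 0
    linarith
  · show r 1 = 0
    linarith

theorem irr_area {P : Finset (EuclideanSpace ℝ (Fin 2))} (hP : Irr P) :
    volume (convexHull ℝ (insert 0 (P : Set (EuclideanSpace ℝ (Fin 2))))) ≤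
      ENNReal.ofReal ((∑ r ∈ P, ‖r‖ ^ 2) / 2) := by
  classical
  set E := (P ×ˢ P).filter fun z : EuclideanSpace ℝ (Fin 2) × EuclideanSpace ℝ (Fin 2) =>
    Edge P z.1 z.2 with hE
  have h1 : convexHull ℝ (insert 0 (P : Set (EuclideanSpace ℝ (Fin 2)))) ⊆
      ({0} ∪ ⋃ r ∈ P, {x : EuclideanSpace ℝ (Fin 2) | dt r x = 0}) ∪ ⋃ z ∈ E, Tr z.1 z.2 := by
    intro x hx
    by_cases h0 : x = 0
    · exact Or.inl (Or.inl h0)
    by_cases hg : ∀ r ∈ P, dt r x ≠ 0
    · obtain ⟨p, hp, q, hq, he, hT⟩ := cover hx h0 hg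
      refine Or.inr (mem_iUnion₂.2 ⟨(p, q), ?_, hT⟩)
      exact Finset.mem_filter.2 ⟨Finset.mem_product.2 ⟨hp, hq⟩, he⟩
    · push Not at hg
      obtain ⟨r, hr, h⟩ := hg
      exact Or.inl (Or.inr (mem_biUnion hr h))
  have h2 : volume ({0} ∪ ⋃ r ∈ P, {x : EuclideanSpace ℝ (Fin 2) | dt r x = 0}) = 0 := by
    rw [measure_union_null_iff]
    refine ⟨measure_singleton 0, ?_⟩
    exact (measure_biUnion_null_iff P.countable_toSet).2 fun r hr => vol_line (hP.ne_zero hr)
  have h3 : (E.image Prod.fst) ⊆ P := by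
    intro p hp
    obtain ⟨z, hz, rfl⟩ := Finset.mem_image.1 hp
    exact (Finset.mem_product.1 (Finset.mem_filter.1 hz).1).1
  have h4 : (E.image Prod.snd) ⊆ P := by
    intro p hp
    obtain ⟨z, hz, rfl⟩ := Finset.mem_image.1 hp
    exact (Finset.mem_product.1 (Finset.mem_filter.1 hz).1).2
  have h5 : ∑ z ∈ E, ‖z.1‖ ^ 2 ≤ ∑ r ∈ P, ‖r‖ ^ 2 := by
    have h6 : ∑ r ∈ E.image Prod.fst, ‖r‖ ^ 2 = ∑ z ∈ E, ‖z.1‖ ^ 2 := by
      refine Finset.sum_image ?_
      rintro ⟨p, q⟩ hz ⟨p', q'⟩ hz' heq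
      have heq' : p = p' := heq
      subst heq'
      obtain ⟨h7, h8⟩ := Finset.mem_filter.1 hz
      obtain ⟨h9, h10⟩ := Finset.mem_filter.1 hz'
      have h11 := edge_right hP (Finset.mem_product.1 h7).1 (Finset.mem_product.1 h7).2
        (Finset.mem_product.1 h9).2 h8 h10
      exact Prod.ext rfl h11
    rw [← h6]
    exact Finset.sum_le_sum_of_subset_of_nonneg h3 fun r _ _ => sq_nonneg _
  have h5' : ∑ z ∈ E, ‖z.2‖ ^ 2 ≤ ∑ r ∈ P, ‖r‖ ^ 2 := by
    have h6 : ∑ r ∈ E.image Prod.snd, ‖r‖ ^ 2 = ∑ z ∈ E, ‖z.2‖ ^ 2 := by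
      refine Finset.sum_image ?_
      rintro ⟨p, q⟩ hz ⟨p', q'⟩ hz' heq
      have heq' : q = q' := heq
      subst heq'
      obtain ⟨h7, h8⟩ := Finset.mem_filter.1 hz
      obtain ⟨h9, h10⟩ := Finset.mem_filter.1 hz'
      have h11 := edge_left hP (Finset.mem_product.1 h7).1 (Finset.mem_product.1 h9).1
        (Finset.mem_product.1 h7).2 h8 h10
      exact Prod.ext h11 rfl
    rw [← h6]
    exact Finset.sum_le_sum_of_subset_of_nonneg h4 fun r _ _ => sq_nonneg _
  calc volume (convexHull ℝ (insert 0 (P : Set (EuclideanSpace ℝ (Fin 2)))))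
      ≤ volume (({0} ∪ ⋃ r ∈ P, {x : EuclideanSpace ℝ (Fin 2) | dt r x = 0}) ∪
          ⋃ z ∈ E, Tr z.1 z.2) := measure_mono h1
    _ ≤ volume ({0} ∪ ⋃ r ∈ P, {x : EuclideanSpace ℝ (Fin 2) | dt r x = 0}) +
          volume (⋃ z ∈ E, Tr z.1 z.2) := measure_union_le _ _
    _ = volume (⋃ z ∈ E, Tr z.1 z.2) := by rw [h2, zero_add]
    _ ≤ ∑ z ∈ E, volume (Tr z.1 z.2) := measure_biUnion_finset_le _ _
    _ ≤ ∑ z ∈ E, ENNReal.ofReal ((‖z.1‖ ^ 2 + ‖z.2‖ ^ 2) / 4) := by
        refine Finset.sum_le_sum fun z _ => (vol_Tr _ _).trans ?_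
        exact ENNReal.ofReal_le_ofReal (dt_le _ _)
    _ = ENNReal.ofReal (∑ z ∈ E, (‖z.1‖ ^ 2 + ‖z.2‖ ^ 2) / 4) := by
        rw [ENNReal.ofReal_sum_of_nonneg]
        intro z _
        positivity
    _ ≤ ENNReal.ofReal ((∑ r ∈ P, ‖r‖ ^ 2) / 2) := by
        refine ENNReal.ofReal_le_ofReal ?_
        rw [← Finset.sum_div, Finset.sum_add_distrib]
        linarith

theorem fin_area (P : Finset (EuclideanSpace ℝ (Fin 2))) :
    volume (convexHull ℝ (insert 0 (P : Set (EuclideanSpace ℝ (Fin 2))))) ≤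
      ENNReal.ofReal ((∑ r ∈ P, ‖r‖ ^ 2) / 2) := by
  classical
  induction P using Finset.strongInduction with
  | H P ih =>
    by_cases hP : Irr P
    · exact irr_area hP
    · rw [Irr] at hP
      push Not at hP
      obtain ⟨r, hr, h⟩ := hP
      have h1 := ih (P.erase r) (Finset.erase_ssubset hr)
      rw [Finset.coe_erase] at h1
      have h2 : convexHull ℝ (insert 0 (P : Set (EuclideanSpace ℝ (Fin 2)))) ⊆
          convexHull ℝ (insert 0 ((P : Set (EuclideanSpace ℝ (Fin 2))) \ {r})) := by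
        refine convexHull_min ?_ (convex_convexHull ℝ _)
        rintro x (rfl | hx)
        · exact subset_convexHull ℝ _ (mem_insert _ _)
        · by_cases hxr : x = r
          · rw [hxr]
            exact h
          · exact subset_convexHull ℝ _ (mem_insert_of_mem _ ⟨hx, hxr⟩)
      refine (measure_mono h2).trans (h1.trans (ENNReal.ofReal_le_ofReal ?_))
      have h3 : ∑ x ∈ P.erase r, ‖x‖ ^ 2 ≤ ∑ x ∈ P, ‖x‖ ^ 2 :=
        Finset.sum_le_sum_of_subset_of_nonneg (Finset.erase_subset _ _) fun x _ _ => sq_nonneg _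
      linarith

end Ar

theorem area {n : ℕ} (p : Fin n → EuclideanSpace ℝ (Fin 2)) :
    volume (convexHull ℝ (range p)) ≤ ENNReal.ofReal ((∑ i, ‖p i‖ ^ 2) / 2) := by
  classical
  set P : Finset (EuclideanSpace ℝ (Fin 2)) := Finset.univ.image p with hP
  have h1 : range p ⊆ insert 0 (P : Set (EuclideanSpace ℝ (Fin 2))) := by
    rintro _ ⟨i, rfl⟩
    exact mem_insert_of_mem _ (Finset.mem_coe.2 (Finset.mem_image_of_mem p (Finset.mem_univ i)))
  refine (measure_mono (convexHull_mono h1)).trans ((Ar.fin_area P).trans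
    (ENNReal.ofReal_le_ofReal ?_))
  have h2 : ∑ r ∈ P, ‖r‖ ^ 2 ≤ ∑ i, ‖p i‖ ^ 2 := by
    have h3 := Finset.sum_fiberwise_of_maps_to (s := Finset.univ) (t := P) (g := p)
      (fun i _ => Finset.mem_image_of_mem p (Finset.mem_univ i)) (fun i => ‖p i‖ ^ 2)
    rw [← h3]
    refine Finset.sum_le_sum fun r hr => ?_
    obtain ⟨i, _, hi⟩ := Finset.mem_image.1 hr
    have h4 : ‖p i‖ ^ 2 ≤ ∑ j ∈ Finset.univ.filter (fun j => p j = r), ‖p j‖ ^ 2 :=
      Finset.single_le_sum (f := fun j => ‖p j‖ ^ 2) (fun j _ => sq_nonneg _)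
        (Finset.mem_filter.2 ⟨Finset.mem_univ i, hi⟩)
    rw [hi] at h4
    exact h4
  linarith

end SX
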