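import Pool.Agent.H27.SX.Defs

/-! Covers by balls from the definition of Hausdorff measure (project SX, row SX-17). -/

set_option autoImplicit false

open MeasureTheory Metric Set Filter Module
open scoped Topology MeasureTheory RealInnerProductSpace Nat Pointwise

namespace SX

open SP SP.Mea

theorem Hp_nonempty {k : ℕ} (hk : 1 ≤ k) : (Hp k).Nonempty := by
  refine ⟨EuclideanSpace.single (⟨0, hk⟩ : Fin k) 1, ?_⟩
  simp [Hp, PiLp.single_apply]

theorem ball_cover (k m : ℕ) (hk : 1 ≤ k) (hm : 1 ≤ m) : ∃ C > 0, ∀ Z : Set (V k), Z ⊆ Hp k →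
    ∀ η > 0, μHE[m] Z < ENNReal.ofReal η → ∃ (q : ℕ → V k) (ρ : ℕ → ℝ), (∀ n, q n ∈ Hp k) ∧
      (∀ n, 0 < ρ n) ∧ Z ⊆ ⋃ n, ball (q n) (ρ n) ∧ Summable (fun n => ρ n ^ m) ∧
      ∑' n, ρ n ^ m ≤ C * η := by
  classical
  set c := Measure.addHaarScalarFactor (volume : Measure (EuclideanSpace ℝ (Fin m))) μH[m]
    with hc
  have hc0 : c ≠ 0 := Measure.addHaarScalarFactor_volume_hausdorffMeasure_ne_zero m
  have hcR : (0 : ℝ) < c := by
    have := NNReal.coe_pos.2 (pos_iff_ne_zero.2 hc0)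
    exact this
  refine ⟨2 ^ m / c, by positivity, fun Z hZ η hη hμ => ?_⟩
  obtain ⟨x0, hx0⟩ := Hp_nonempty hk
  set η' : ℝ := η / c with hη'
  have hη'0 : 0 < η' := by positivity
  have hH : μH[m] Z < ENNReal.ofReal η' := by
    have h1 : μHE[m] Z = (c : ENNReal) * μH[m] Z := by
      rw [Measure.euclideanHausdorffMeasure_def, Measure.smul_apply, ENNReal.smul_def]
      rfl
    rw [h1] at hμ
    rw [hη', ENNReal.ofReal_div_of_pos hcR, ENNReal.ofReal_coe_nnreal,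
      ENNReal.lt_div_iff_mul_lt (Or.inl (by exact_mod_cast hc0)) (Or.inl ENNReal.coe_ne_top),
      mul_comm]
    exact hμ
  rw [Measure.hausdorffMeasure_apply] at hH
  have hH1 := lt_of_le_of_lt (le_iSup₂ (f := fun (r : ENNReal) (_ : 0 < r) =>
    ⨅ (t : ℕ → Set (V k)) (_ : Z ⊆ ⋃ n, t n) (_ : ∀ n, ediam (t n) ≤ r),
          ∑' n, ⨆ _ : (t n).Nonempty, ediam (t n) ^ (m : ℝ)) (1 : ENNReal) one_pos) hH
  simp only [iInf_lt_iff] at hH1
  obtain ⟨t, ht1, ht2, ht3⟩ := hH1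
  -- the radii
  set d : ℕ → ℝ := fun n => if (t n ∩ Z).Nonempty then (ediam (t n)).toReal else 0 with hd
  have hd0 : ∀ n, 0 ≤ d n := by
    intro n; simp only [hd]; split_ifs
    · exact ENNReal.toReal_nonneg
    · exact le_rfl
  set s : ℝ := min η' 1 with hs
  have hs0 : 0 < s := lt_min hη'0 one_pos
  have hs1 : s ≤ 1 := min_le_right _ _
  set τ : ℕ → ℝ := fun n => s * (1 / 2) ^ (n + 1) with hτ
  have hτ0 : ∀ n, 0 < τ n := by intro n; simp only [hτ]; positivity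
  have hτ1 : ∀ n, τ n ≤ 1 := by
    intro n
    calc s * (1 / 2) ^ (n + 1) ≤ 1 * 1 := by
          apply mul_le_mul hs1 (pow_le_one₀ (by norm_num) (by norm_num)) (by positivity) zero_le_one
      _ = 1 := one_mul 1
  have hτm : ∀ n, τ n ^ m ≤ s * (1 / 2) ^ (n + 1) := fun n => by
    calc τ n ^ m ≤ τ n ^ 1 := pow_le_pow_of_le_one (hτ0 n).le (hτ1 n) hm
      _ = _ := by rw [pow_one]
  have hgeo : HasSum (fun n : ℕ => s * (1 / 2 : ℝ) ^ (n + 1)) s := by
    have h := (hasSum_geometric_two.mul_left (s * (1 / 2)))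
    have e : s * (1 / 2) * 2 = s := by ring
    rw [e] at h
    have e2 : (fun n : ℕ => s * (1 / 2 : ℝ) ^ (n + 1)) = fun n => s * (1 / 2) * (1 / 2) ^ n := by
      funext n; rw [pow_succ]; ring
    rw [e2]; exact h
  have hτs : Summable (fun n => τ n ^ m) :=
    Summable.of_nonneg_of_le (fun n => by have := hτ0 n; positivity) hτm hgeo.summable
  have hτt : ∑' n, τ n ^ m ≤ η' := by
    calc ∑' n, τ n ^ m ≤ ∑' n, s * (1 / 2 : ℝ) ^ (n + 1) := hτs.tsum_le_tsum hτm hgeo.summable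
      _ = s := hgeo.tsum_eq
      _ ≤ η' := min_le_left _ _
  -- the diameters
  have hfin : ∀ n, ediam (t n) ≠ ⊤ := fun n => ne_top_of_le_ne_top ENNReal.one_ne_top (ht2 n)
  have hle : ∀ n, ENNReal.ofReal (d n ^ m) ≤ ⨆ _ : (t n).Nonempty, ediam (t n) ^ (m : ℝ) := by
    intro n
    by_cases h : (t n ∩ Z).Nonempty
    · have h1 : (t n).Nonempty := h.mono inter_subset_left
      have h2 : d n = (ediam (t n)).toReal := by simp only [hd, if_pos h]
      rw [h2, ENNReal.ofReal_pow ENNReal.toReal_nonneg, ENNReal.ofReal_toReal (hfin n)]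
      refine le_trans (le_of_eq ?_) (le_iSup (fun _ : (t n).Nonempty =>
        ediam (t n) ^ (m : ℝ)) h1)
      rw [ENNReal.rpow_natCast]
    · have h2 : d n = 0 := by simp only [hd, if_neg h]
      rw [h2, zero_pow (by omega)]
      simp
  have hsum : ∑' n, ENNReal.ofReal (d n ^ m) < ENNReal.ofReal η' :=
    (ENNReal.tsum_le_tsum hle).trans_lt ht3
  have hdm0 : ∀ n, 0 ≤ d n ^ m := fun n => pow_nonneg (hd0 n) m
  have hds : Summable (fun n => d n ^ m) := by
    have h := ENNReal.summable_toReal (hsum.trans ENNReal.ofReal_lt_top).ne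
    simpa [ENNReal.toReal_ofReal, hdm0] using h
  have hdt : ∑' n, d n ^ m ≤ η' := by
    rw [← ENNReal.ofReal_tsum_of_nonneg hdm0 hds] at hsum
    exact (ENNReal.ofReal_le_ofReal_iff hη'0.le).1 hsum.le
  -- the balls
  have hpt : ∀ n, ∃ q ∈ Hp k, (t n ∩ Z).Nonempty → q ∈ t n := by
    intro n
    by_cases h : (t n ∩ Z).Nonempty
    · obtain ⟨q, h1, h2⟩ := h
      exact ⟨q, hZ h2, fun _ => h1⟩
    · exact ⟨x0, hx0, fun h' => absurd h' h⟩
  choose q hq1 hq2 using hpt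
  have hpow : ∀ n, (d n + τ n) ^ m ≤ 2 ^ (m - 1) * (d n ^ m + τ n ^ m) := fun n =>
    add_pow_le (hd0 n) (hτ0 n).le m
  have hS : Summable (fun n => (d n + τ n) ^ m) :=
    Summable.of_nonneg_of_le (fun n => by have := hd0 n; have := hτ0 n; positivity) hpow
      ((hds.add hτs).mul_left _)
  refine ⟨q, fun n => d n + τ n, hq1, fun n => add_pos_of_nonneg_of_pos (hd0 n) (hτ0 n), ?_, hS, ?_⟩
  · intro x hx
    obtain ⟨n, hn⟩ := mem_iUnion.1 (ht1 hx)
    have h : (t n ∩ Z).Nonempty := ⟨x, hn, hx⟩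
    refine mem_iUnion.2 ⟨n, ?_⟩
    have h2 : d n = (ediam (t n)).toReal := by simp only [hd, if_pos h]
    rw [mem_ball, dist_edist]
    have h3 : edist x (q n) ≤ ediam (t n) := edist_le_ediam_of_mem hn (hq2 n h)
    have h4 := ENNReal.toReal_mono (hfin n) h3
    have h5 := hτ0 n
    simp only [h2]
    linarith
  · calc ∑' n, (d n + τ n) ^ m ≤ ∑' n, 2 ^ (m - 1) * (d n ^ m + τ n ^ m) :=
          hS.tsum_le_tsum hpow ((hds.add hτs).mul_left _)
      _ = 2 ^ (m - 1) * (∑' n, d n ^ m + ∑' n, τ n ^ m) := by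
          rw [tsum_mul_left, hds.tsum_add hτs]
      _ ≤ 2 ^ (m - 1) * (η' + η') := by gcongr
      _ = 2 ^ m / c * η := by
          obtain ⟨j, rfl⟩ : ∃ j, m = j + 1 := ⟨m - 1, by omega⟩
          rw [hη', pow_succ]
          simp only [Nat.add_sub_cancel]
          ring

end SX
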