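import Pool.Agent.H27.SX.Defs
import Pool.Agent.H59.SP.Ex
import Pool.Agent.H59.SP.ExAdm
import Pool.Agent.H59.SP.ExMeet
import Pool.Agent.H59.SP.ExSeg

/-!
# Sperner partitions: the base case `k = 4` (project SX, row SX-24)
-/

set_option autoImplicit false

open MeasureTheory Metric Set Filter Module
open scoped Topology MeasureTheory RealInnerProductSpace Nat Pointwise

namespace SX

open SP SP.Mea

/-- the length of a segment -/
private lemma base_seg {k : ℕ} (p q : V k) :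
    μHE[1] (segment ℝ p q) ≤ ENNReal.ofReal (dist p q) := by
  rcases eq_or_ne p q with rfl | hpq
  · have h1 : segment ℝ p p = {p} := segment_same ℝ p
    have : NullSingletonClass (μH[((1 : ℕ) : ℝ)] : Measure (V k)) :=
      Measure.nullSingletonClass_hausdorff (V k) (by norm_num)
    rw [h1, Measure.euclideanHausdorffMeasure_def, Measure.smul_apply, measure_singleton,
      smul_zero]
    exact zero_le
  · have hd0 : 0 < dist p q := dist_pos.2 hpq
    set v : V k := (dist p q)⁻¹ • (q - p) with hv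
    have hv1 : ‖v‖ = 1 := by
      rw [hv, norm_smul, norm_inv, Real.norm_of_nonneg hd0.le, dist_comm, dist_eq_norm]
      rw [dist_comm, dist_eq_norm] at hd0
      exact inv_mul_cancel₀ hd0.ne'
    have hq : q = p + dist p q • v := by
      rw [hv, smul_smul, mul_inv_cancel₀ hd0.ne', one_smul]; abel
    let g : ℝ → V k := fun t => p + t • v
    have hg : Isometry g := by
      refine Isometry.of_dist_eq fun s t => ?_
      simp only [g]
      rw [dist_add_left, dist_eq_norm, ← sub_smul, norm_smul, hv1, mul_one, Real.dist_eq,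
        Real.norm_eq_abs]
    have hsub : segment ℝ p q ⊆ g '' Icc 0 (dist p q) := by
      rintro x ⟨a, b, ha, hb, hab, rfl⟩
      refine ⟨b * dist p q, ⟨by positivity, ?_⟩, ?_⟩
      · nlinarith
      · simp only [g]
        have ha' : a = 1 - b := by linarith
        have h2 : (b * dist p q) • v = b • (q - p) := by
          rw [mul_smul]
          congr 1
          rw [hv, smul_smul, mul_inv_cancel₀ hd0.ne', one_smul]
        rw [ha', h2, sub_smul, one_smul, smul_sub]
        abel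
    calc μHE[1] (segment ℝ p q) ≤ μHE[1] (g '' Icc 0 (dist p q)) := measure_mono hsub
      _ = μHE[1] (Icc 0 (dist p q)) := hg.euclideanHausdorffMeasure_image _
      _ = volume (Icc 0 (dist p q)) := by
          have := InnerProductSpace.euclideanHausdorffMeasure_eq_volume (V := ℝ)
          rw [finrank_self] at this
          rw [this]
      _ ≤ ENNReal.ofReal (dist p q) := by
          rw [Real.volume_Icc, sub_zero]

/-- finitely many planes -/
private lemma base_planar {k m : ℕ} {ι : Type} [Fintype ι] (T : ι → Set (V k)) (S : Set (V k))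
    (h : ∀ i, ∃ p ∈ Hp k, ∃ v : Fin m → V k, (∀ a, v a ∈ E0 k) ∧
      T i ⊆ range (fun t : Fin m → ℝ => p + ∑ a, t a • v a))
    (hS : S ⊆ ⋃ i, T i) : Planar k m S := by
  choose p hp v hv hT using h
  let e := Fintype.equivFin ι
  refine ⟨Fintype.card ι, fun n => p (e.symm n), fun n => v (e.symm n), fun n => hp _,
    fun n => hv _, fun x hx => ?_⟩
  obtain ⟨i, hi⟩ := mem_iUnion.1 (hS hx)
  refine mem_iUnion.2 ⟨e i, ?_⟩
  have := hT i hi
  simp only [Equiv.symm_apply_apply]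
  exact this

/-- a segment lies in a line -/
private lemma base_line {k : ℕ} {p q : V k} (hp : p ∈ Hp k) (hq : q ∈ Hp k) :
    ∃ p' ∈ Hp k, ∃ v : Fin 1 → V k, (∀ a, v a ∈ E0 k) ∧
      segment ℝ p q ⊆ range (fun t : Fin 1 → ℝ => p' + ∑ a, t a • v a) := by
  refine ⟨p, hp, fun _ => q - p, fun _ => ?_, ?_⟩
  · rw [mem_E0]
    simp only [Hp, mem_ofPred_eq] at hp hq
    simp [hp, hq]
  · rintro x ⟨a, b, ha, hb, hab, rfl⟩
    refine ⟨fun _ => b, ?_⟩
    have ha' : a = 1 - b := by linarith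
    simp only [Finset.univ_unique, Finset.sum_singleton]
    rw [ha', sub_smul, one_smul, smul_sub]
    abel

/-- a level set of a linear form is a plane -/
private lemma base_plane (f : V 4 →ₗ[ℝ] ℝ) (c : ℝ) {e : V 4} (he : e ∈ E0 4) (hfe : f e ≠ 0) :
    ∃ p ∈ Hp 4, ∃ v : Fin 2 → V 4, (∀ a, v a ∈ E0 4) ∧
      {x | x ∈ Hp 4 ∧ f x = c} ⊆ range (fun t : Fin 2 → ℝ => p + ∑ a, t a • v a) := by
  obtain ⟨p0, hp0⟩ : ∃ p0 : V 4, p0 ∈ Hp 4 := ⟨EuclideanSpace.single 0 1, by simp [Hp]⟩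
  let g : E0 4 →ₗ[ℝ] ℝ := f.comp (E0 4).subtype
  have hg : Function.Surjective g := by
    intro r
    refine ⟨(r / f e) • ⟨e, he⟩, ?_⟩
    simp only [g, map_smul, LinearMap.comp_apply, Submodule.subtype_apply, smul_eq_mul]
    exact div_mul_cancel₀ _ hfe
  have hfin : finrank ℝ (LinearMap.ker g) = 2 := by
    have h1 := g.finrank_range_add_finrank_ker
    rw [LinearMap.range_eq_top.2 hg, finrank_top, finrank_self, finrank_E0 (by norm_num)] at h1
    omega
  let b : Basis (Fin 2) ℝ (LinearMap.ker g) := finBasisOfFinrankEq ℝ _ hfin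
  refine ⟨p0 + ((c - f p0) / f e) • e, ?_, fun a => ((b a : E0 4) : V 4), fun a => (b a : E0 4).2,
    ?_⟩
  · have h2 := mem_E0.1 he
    simp only [Hp, mem_ofPred_eq] at hp0 ⊢
    simp only [PiLp.add_apply, PiLp.smul_apply, smul_eq_mul, Finset.sum_add_distrib,
      ← Finset.mul_sum]
    rw [h2, hp0, mul_zero, add_zero]
  · rintro x ⟨hx, hfx⟩
    have hy : x - (p0 + ((c - f p0) / f e) • e) ∈ E0 4 := by
      rw [mem_E0]
      have h2 := mem_E0.1 he
      simp only [Hp, mem_ofPred_eq] at hp0 hx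
      simp only [PiLp.sub_apply, PiLp.add_apply, PiLp.smul_apply, smul_eq_mul,
        Finset.sum_sub_distrib, Finset.sum_add_distrib, ← Finset.mul_sum]
      rw [h2, hp0, hx]
      ring
    have hk : (⟨_, hy⟩ : E0 4) ∈ LinearMap.ker g := by
      rw [LinearMap.mem_ker]
      simp only [g, LinearMap.comp_apply, Submodule.subtype_apply, map_sub, map_add, map_smul,
        smul_eq_mul, hfx]
      rw [div_mul_cancel₀ _ hfe]
      ring
    refine ⟨fun a => b.repr ⟨_, hk⟩ a, ?_⟩
    have h3 := congrArg (fun z : LinearMap.ker g => ((z : E0 4) : V 4)) (b.sum_repr ⟨_, hk⟩)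
    simp only [Submodule.coe_sum, Submodule.coe_smul] at h3
    simp only
    rw [h3]
    abel

/-- the coordinate forms -/
private noncomputable def base_c (i : Fin 4) : V 4 →ₗ[ℝ] ℝ :=
  { toFun := fun x => x i
    map_add' := fun _ _ => rfl
    map_smul' := fun _ _ => rfl }

private lemma base_c_apply (i : Fin 4) (x : V 4) : base_c i x = x i := rfl

private lemma base_dir (i j : Fin 4) :
    (EuclideanSpace.single i (1 : ℝ) - EuclideanSpace.single j 1 : V 4) ∈ E0 4 := by
  rw [mem_E0]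
  simp

/-- the four cases of equations -/
private noncomputable def base_T (δ : ℝ) (u : Fin 4 × Fin 4 × Fin 4) : Set (V 4) :=
  {x | x ∈ Hp 4 ∧ u.1 ≠ u.2.1 ∧ (
    (u.2.2 = 0 ∧ x u.1 - x u.2.1 = 0) ∨
    (u.2.2 = 1 ∧ x u.1 - x u.2.1 = LL 4 δ) ∨
    (u.2.2 = 2 ∧ x u.1 - x u.2.1 = LL 4 (1 - δ)) ∨
    (u.2.2 = 3 ∧ blI 4 u.1 ∧ ¬ blI 4 u.2.1 ∧ x u.1 - x u.2.1 - sI 4 x = - (1 / 2)))}

private lemma base_aa : aa 4 = 2 := by
  unfold aa
  norm_num

private lemma base_bb : bb 4 = 2 := by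
  unfold bb
  norm_num

private lemma base_T_plane (δ : ℝ) (u : Fin 4 × Fin 4 × Fin 4) :
    ∃ p ∈ Hp 4, ∃ v : Fin 2 → V 4, (∀ a, v a ∈ E0 4) ∧
      base_T δ u ⊆ range (fun t : Fin 2 → ℝ => p + ∑ a, t a • v a) := by
  obtain ⟨i, j, c⟩ := u
  by_cases hij : i = j
  · refine ⟨EuclideanSpace.single 0 1, by simp [Hp], fun _ => 0, fun _ => Submodule.zero_mem _, ?_⟩
    rintro x ⟨-, h, -⟩
    exact absurd hij h
  · have hji : j ≠ i := fun h => hij h.symm
    have hv : ((base_c i - base_c j) : V 4 →ₗ[ℝ] ℝ)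
        (EuclideanSpace.single i (1 : ℝ) - EuclideanSpace.single j 1) ≠ 0 := by
      simp only [LinearMap.sub_apply, base_c_apply, PiLp.sub_apply, PiLp.single_apply]
      simp [hij, hji]
    fin_cases c
    · obtain ⟨p, hp, v, hv1, hs⟩ := base_plane (base_c i - base_c j) 0 (base_dir i j) hv
      refine ⟨p, hp, v, hv1, Subset.trans ?_ hs⟩
      rintro x ⟨hx, -, h⟩
      refine ⟨hx, ?_⟩
      simpa [base_c_apply] using h
    · obtain ⟨p, hp, v, hv1, hs⟩ := base_plane (base_c i - base_c j) (LL 4 δ) (base_dir i j) hv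
      refine ⟨p, hp, v, hv1, Subset.trans ?_ hs⟩
      rintro x ⟨hx, -, h⟩
      refine ⟨hx, ?_⟩
      simpa [base_c_apply] using h
    · obtain ⟨p, hp, v, hv1, hs⟩ := base_plane (base_c i - base_c j) (LL 4 (1 - δ))
        (base_dir i j) hv
      refine ⟨p, hp, v, hv1, Subset.trans ?_ hs⟩
      rintro x ⟨hx, -, h⟩
      refine ⟨hx, ?_⟩
      simpa [base_c_apply] using h
    · by_cases hb : blI 4 i ∧ ¬ blI 4 j
      · obtain ⟨hi, hj⟩ := hb
        let s : V 4 →ₗ[ℝ] ℝ := ∑ l with blI 4 l, base_c l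
        have hs : ∀ x, s x = sI 4 x := by
          intro x
          simp only [s, LinearMap.sum_apply, base_c_apply]
          rfl
        have hv' : ((base_c i - base_c j - s) : V 4 →ₗ[ℝ] ℝ)
            (EuclideanSpace.single i (1 : ℝ) - EuclideanSpace.single j 1) ≠ 0 := by
          simp only [LinearMap.sub_apply, base_c_apply, PiLp.sub_apply,
            PiLp.single_apply, s, LinearMap.sum_apply]
          simp only [Finset.sum_sub_distrib, Finset.mem_filter, Finset.mem_univ, true_and,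
            Finset.sum_ite_eq']
          simp [hij, hji, hi, hj]
        obtain ⟨p, hp, v, hv1, hs'⟩ := base_plane (base_c i - base_c j - s) (-(1 / 2))
          (base_dir i j) hv'
        refine ⟨p, hp, v, hv1, Subset.trans ?_ hs'⟩
        rintro x ⟨hx, -, h⟩
        refine ⟨hx, ?_⟩
        simp only [LinearMap.sub_apply, base_c_apply, hs]
        simpa [hi, hj] using h
      · refine ⟨EuclideanSpace.single 0 1, by simp [Hp], fun _ => 0,
          fun _ => Submodule.zero_mem _, ?_⟩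
        rintro x ⟨-, -, h⟩
        exfalso
        apply hb
        simp at h
        exact ⟨h.1, h.2.1⟩

/-- the values of the clamped function -/
private lemma base_DD (δ s : ℝ) : DD 4 δ s = LL 4 δ ∨ DD 4 δ s = LL 4 (1 - δ) ∨
    DD 4 δ s = s - 1 / 2 := by
  unfold DD
  rcases max_choice δ (min s (1 - δ)) with h | h
  · left
    rw [h]
  · rw [h]
    rcases min_choice s (1 - δ) with h' | h'
    · right; right
      rw [h', LL, base_aa, base_bb]
      ring
    · right; left
      rw [h']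

private lemma base_meet2 {δ : ℝ} :
    meet 4 (exA 4 δ) 2 ⊆ ⋃ u, base_T δ u := by
  rintro x ⟨T, hT, hx⟩
  have hT' : 1 < T.card := by omega
  obtain ⟨i, hi, j, hj, hij⟩ := Finset.one_lt_card.1 hT'
  have hxi := hx i hi
  have hxj := hx j hj
  have hH : x ∈ Hp 4 := hxi.1.2
  have key : ∀ i j : Fin 4, i ≠ j → blI 4 i → ¬ blI 4 j → x ∈ exA 4 δ i → x ∈ exA 4 δ j →
      x ∈ ⋃ u, base_T δ u := by
    intro i j hij hi hj hxi hxj
    have h1 : x i - x j = DD 4 δ (sI 4 x) :=
      le_antisymm (hxj.2.2.2 hj i hi) (hxi.2.2.1 hi j hj)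
    rcases base_DD δ (sI 4 x) with h | h | h
    · exact mem_iUnion.2 ⟨(i, j, 1), hH, hij, Or.inr (Or.inl ⟨rfl, h1.trans h⟩)⟩
    · exact mem_iUnion.2 ⟨(i, j, 2), hH, hij, Or.inr (Or.inr (Or.inl ⟨rfl, h1.trans h⟩))⟩
    · refine mem_iUnion.2 ⟨(i, j, 3), hH, hij, Or.inr (Or.inr (Or.inr ⟨rfl, hi, hj, ?_⟩))⟩
      show x i - x j - sI 4 x = _
      rw [h1, h]
      ring
  by_cases h : blI 4 i ↔ blI 4 j
  · refine mem_iUnion.2 ⟨(i, j, 0), hH, hij, Or.inl ⟨rfl, ?_⟩⟩
    exact sub_eq_zero.2 (le_antisymm (hxj.2.1 i h.symm) (hxi.2.1 j h))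
  · by_cases hbi : blI 4 i
    · exact key i j hij hbi (fun hbj => h (iff_of_true hbi hbj)) hxi hxj
    · have hbj : blI 4 j := by
        by_contra hbj
        exact h (iff_of_false hbi hbj)
      exact key j i hij.symm hbj hbi hxj hxi

/-- the short segments are short -/
private lemma base_short : Tendsto (fun δ => ∑ i : Fin 4, dist (sp 4 δ (some i)) (sq 4 δ (some i)))
    (𝓝[>] 0) (𝓝 0) := by
  have h4 : (4 : ℕ) ≤ 4 := le_rfl
  have h1 := ex_len h4
  have h2 : Tendsto (fun δ => dist (sp 4 δ none) (sq 4 δ none)) (𝓝[>] 0) (𝓝 (wd 4)) := by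
    have hc : Continuous (fun δ : ℝ => dist (pt 4 δ) (pt 4 (1 - δ))) :=
      (exs_pt_cont 4).dist ((exs_pt_cont 4).comp (continuous_const.sub continuous_id))
    have h3 : dist (pt 4 0) (pt 4 (1 - 0)) = wd 4 := by
      rw [EuclideanSpace.dist_eq, wd]
      congr 1
      have h5 : ∀ j : Fin 4, dist (pt 4 0 j) (pt 4 (1 - 0) j) ^ 2 = 1 / 4 := by
        intro j
        rw [Real.dist_eq, sq_abs]
        by_cases hj : blI 4 j
        · rw [exs_ptI hj, exs_ptI hj, base_aa]; norm_num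
        · rw [exs_ptJ hj, exs_ptJ hj, base_bb]; norm_num
      simp_rw [h5]
      norm_num
    rw [← h3]
    exact (hc.tendsto 0).mono_left nhdsWithin_le_nhds
  have h3 := h1.sub h2
  rw [sub_self] at h3
  refine h3.congr fun δ => ?_
  rw [Fintype.sum_option]
  ring

/-- the base case -/
theorem base {η : ℝ} (hη : 0 < η) : ∃ A : Fin 4 → Set (V 4), Adm 4 A ∧
    Planar 4 1 (meet 4 A 3) ∧ Planar 4 2 (meet 4 A 2) ∧
    μHE[1] (meet 4 A 3 \ DK 1) ≤ ENNReal.ofReal η := by
  have h4 : (4 : ℕ) ≤ 4 := le_rfl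
  obtain ⟨δ, hδs, hδ0, hδ1⟩ : ∃ δ : ℝ,
      ∑ i : Fin 4, dist (sp 4 δ (some i)) (sq 4 δ (some i)) < η ∧ 0 < δ ∧ δ < 1 / 2 := by
    have e1 : ∀ᶠ δ : ℝ in 𝓝[>] 0,
        ∑ i : Fin 4, dist (sp 4 δ (some i)) (sq 4 δ (some i)) < η :=
      base_short.eventually (gt_mem_nhds hη)
    have e2 : ∀ᶠ δ : ℝ in 𝓝[>] 0, 0 < δ := eventually_mem_nhdsWithin
    have e3 : ∀ᶠ δ : ℝ in 𝓝[>] 0, δ < 1 / 2 :=
      eventually_nhdsWithin_of_eventually_nhds (gt_mem_nhds (by norm_num))
    exact (e1.and (e2.and e3)).exists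
  have hA := ex_adm h4 hδ0 hδ1
  have hm : meet 4 (exA 4 δ) 3 = ⋃ a, segment ℝ (sp 4 δ a) (sq 4 δ a) := ex_meet h4 hδ0 hδ1
  refine ⟨exA 4 δ, hA, ?_, ?_, ?_⟩
  · refine base_planar (fun a : Option (Fin 4) => segment ℝ (sp 4 δ a) (sq 4 δ a)) _
      (fun a => ?_) hm.subset
    obtain ⟨h1, h2⟩ := ex_mem h4 δ a
    exact base_line h1 h2
  · exact base_planar (base_T δ) _ (base_T_plane δ) base_meet2
  · have hmain : segment ℝ (sp 4 δ none) (sq 4 δ none) ⊆ DK 1 := by
      intro x hx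
      have hxm : x ∈ meet 4 (exA 4 δ) 3 := by
        rw [hm]
        exact mem_iUnion.2 ⟨none, hx⟩
      have hxS : x ∈ Sx 4 := by
        obtain ⟨T, hT, hxT⟩ := hxm
        obtain ⟨i, hi⟩ : T.Nonempty := Finset.card_pos.1 (by omega)
        exact (hxT i hi).1
      refine ⟨hxS, fun i j hi hj => ?_, fun i j hi hj => ?_⟩
      · refine exs_main hx (iff_of_true ?_ ?_)
        · show i.val < 4 / 2
          omega
        · show j.val < 4 / 2
          omega
      · refine exs_main hx (iff_of_false ?_ ?_)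
        · show ¬ (i.val < 4 / 2)
          omega
        · show ¬ (j.val < 4 / 2)
          omega
    have hsub : meet 4 (exA 4 δ) 3 \ DK 1 ⊆
        ⋃ i : Fin 4, segment ℝ (sp 4 δ (some i)) (sq 4 δ (some i)) := by
      rintro x ⟨hx, hx'⟩
      rw [hm] at hx
      obtain ⟨a, ha⟩ := mem_iUnion.1 hx
      cases a with
      | none => exact absurd (hmain ha) hx'
      | some i => exact mem_iUnion.2 ⟨i, ha⟩
    calc μHE[1] (meet 4 (exA 4 δ) 3 \ DK 1)
        ≤ μHE[1] (⋃ i : Fin 4, segment ℝ (sp 4 δ (some i)) (sq 4 δ (some i))) :=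
          measure_mono hsub
      _ ≤ ∑ i : Fin 4, μHE[1] (segment ℝ (sp 4 δ (some i)) (sq 4 δ (some i))) :=
          measure_iUnion_fintype_le _ _
      _ ≤ ∑ i : Fin 4, ENNReal.ofReal (dist (sp 4 δ (some i)) (sq 4 δ (some i))) :=
          Finset.sum_le_sum fun i _ => base_seg _ _
      _ = ENNReal.ofReal (∑ i : Fin 4, dist (sp 4 δ (some i)) (sq 4 δ (some i))) :=
          (ENNReal.ofReal_sum_of_nonneg fun i _ => dist_nonneg).symm
      _ ≤ ENNReal.ofReal η := ENNReal.ofReal_le_ofReal hδs.le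

end SX
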