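import Pool.Agent.H27.SX.Defs

/-!
# The volume of the half open cell of the hyperplane of sum zero (project SX, row SX-6)
-/

set_option autoImplicit false

open MeasureTheory Metric Set Filter Module
open scoped Topology MeasureTheory RealInnerProductSpace Nat Pointwise

namespace SX

open SP SP.Mea

namespace Cell

/-- the first `n` coordinates, as coordinates of the hyperplane -/
noncomputable def ce (n : ℕ) : E0 (n + 1) ≃ₗ[ℝ] (Fin n → ℝ) where
  toFun x := fun i => (x : V (n + 1)) i.castSucc
  map_add' := by intros; rfl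
  map_smul' := by intros; rfl
  invFun θ := ⟨WithLp.toLp 2 (Fin.snoc (α := fun _ => ℝ) θ (-∑ i, θ i)), by
    rw [mem_E0, Fin.sum_univ_castSucc]; simp⟩
  left_inv := by
    intro x
    have hx := mem_E0.1 x.2
    rw [Fin.sum_univ_castSucc] at hx
    apply Subtype.ext
    ext i
    refine Fin.lastCases ?_ (fun j => ?_) i
    · simp; linarith
    · simp
  right_inv := by
    intro θ
    ext i
    simp

/-- the basis `e_i - e_last` -/
noncomputable def cb (n : ℕ) : Basis (Fin n) ℝ (E0 (n + 1)) := Basis.ofEquivFun (ce n)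

theorem cb_inner (n : ℕ) (j k : Fin n) :
    (⟪cb n j, cb n k⟫ : ℝ) = (if j = k then 1 else 0) + 1 := by
  have h1 : ∀ (j i : Fin n), ((cb n j : E0 (n + 1)) : V (n + 1)) i.castSucc =
      if i = j then 1 else 0 := by
    intro j i
    simp [cb, ce, Pi.single_apply]
  have h2 : ∀ (j : Fin n), ((cb n j : E0 (n + 1)) : V (n + 1)) (Fin.last n) = -1 := by
    intro j
    simp [cb, ce]
  rw [Submodule.coe_inner, PiLp.inner_apply, Fin.sum_univ_castSucc]
  simp only [h1, h2]
  simp [eq_comm]

theorem det_gram (n : ℕ) :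
    (Matrix.of fun j k : Fin n => ((if j = k then 1 else 0) + 1 : ℝ)).det = (n : ℝ) + 1 := by
  have h : (Matrix.of fun j k : Fin n => ((if j = k then 1 else 0) + 1 : ℝ)) =
      1 + Matrix.replicateCol Unit (fun _ : Fin n => (1 : ℝ)) *
        Matrix.replicateRow Unit (fun _ : Fin n => (1 : ℝ)) := by
    ext j k
    simp [Matrix.one_apply, Matrix.mul_apply]
  rw [h, Matrix.det_one_add_replicateCol_mul_replicateRow]
  simp [dotProduct]
  ring

end Cell

open Cell

theorem vol_cell (n : ℕ) :
    volume {x : E0 (n + 1) | ∀ i : Fin n, (x : V (n + 1)) i.castSucc ∈ Ico (0 : ℝ) 1} =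
      ENNReal.ofReal (Real.sqrt ((n : ℝ) + 1)) := by
  have hset : {x : E0 (n + 1) | ∀ i : Fin n, (x : V (n + 1)) i.castSucc ∈ Ico (0 : ℝ) 1} =
      ZSpan.fundamentalDomain (cb n) := by
    ext x
    rw [ZSpan.mem_fundamentalDomain]
    simp [cb, ce]
  have hr : finrank ℝ (E0 (n + 1)) = n := by
    rw [finrank_eq_card_basis (cb n), Fintype.card_fin]
  let o : OrthonormalBasis (Fin n) ℝ (E0 (n + 1)) :=
    (stdOrthonormalBasis ℝ (E0 (n + 1))).reindex (finCongr hr)
  rw [hset, ZSpan.measure_fundamentalDomain (cb n) volume o.toBasis,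
    measure_congr (ZSpan.fundamentalDomain_ae_parallelepiped o.toBasis volume)]
  rw [OrthonormalBasis.coe_toBasis, o.volume_parallelepiped, mul_one]
  congr 1
  rw [← Real.sqrt_sq_eq_abs]
  congr 1
  have hM : ((o.toBasis.toMatrix (cb n)).transpose * o.toBasis.toMatrix (cb n)) =
      Matrix.of fun j k : Fin n => ((if j = k then 1 else 0) + 1 : ℝ) := by
    ext j k
    rw [Matrix.mul_apply, Matrix.of_apply, ← cb_inner n j k]
    rw [← o.sum_inner_mul_inner]
    refine Finset.sum_congr rfl fun i _ => ?_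
    rw [Matrix.transpose_apply, Basis.toMatrix_apply, Basis.toMatrix_apply,
      OrthonormalBasis.coe_toBasis_repr_apply, OrthonormalBasis.coe_toBasis_repr_apply,
      o.repr_apply_apply, o.repr_apply_apply, real_inner_comm (cb n j) (o i)]
  have hd := congrArg Matrix.det hM
  rw [Matrix.det_mul, Matrix.det_transpose, det_gram] at hd
  rw [Basis.det_apply, sq]
  exact hd

end SX
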