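import Pool.Agent.H27.SX.Disc

/-!
Project SX (MP_38b231_co), row SX-5: from covers to colourings (helper48).
-/

set_option autoImplicit false
set_option linter.all false

open MeasureTheory Metric Set Filter Module
open scoped Topology MeasureTheory RealInnerProductSpace Nat Pointwise

namespace SX

open SP SP.Mea

theorem two_colours {k : ℕ} {A : Fin k → Set (V k)} (hA : Adm0 k A) {U : Set (V k)}
    (hU : IsOpen U) (hcov : meet k A 3 ⊆ U) (hk : 0 < k) :
    ∃ δ > 0, ∀ z ∈ Sx k, z ∉ U → ∃ p q : Fin k, ∀ x, dist x z < δ → ∀ i, x ∈ A i →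
      i = p ∨ i = q := by
  classical
  have hcomp : IsCompact (Sx k \ U) := (Comp_Sx_compact k).diff hU
  have hop : ∀ pq : Fin k × Fin k, IsOpen {x : V k | ∀ i, x ∈ A i → i = pq.1 ∨ i = pq.2} := by
    intro pq
    have h1 : {x : V k | ∀ i, x ∈ A i → i = pq.1 ∨ i = pq.2} =
        ⋂ i, {x : V k | x ∈ A i → i = pq.1 ∨ i = pq.2} := by
      ext x; simp
    rw [h1]
    apply isOpen_iInter_of_finite
    intro i
    by_cases h : i = pq.1 ∨ i = pq.2
    · have h2 : {x : V k | x ∈ A i → i = pq.1 ∨ i = pq.2} = univ := by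
        ext x; simp [h]
      rw [h2]
      exact isOpen_univ
    · have h2 : {x : V k | x ∈ A i → i = pq.1 ∨ i = pq.2} = (A i)ᶜ := by
        ext x
        simp only [mem_setOf_eq, mem_compl_iff]
        constructor
        · intro h3 h4
          exact h (h3 h4)
        · intro h3 h4
          exact absurd h4 h3
      rw [h2]
      exact (hA.closed i).isOpen_compl
  obtain ⟨δ, hδ, h⟩ := lebesgue_number_lemma_of_metric hcomp hop (by
    rintro z ⟨hz, hzU⟩
    rw [mem_iUnion]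
    have hcard : (Finset.univ.filter (fun i => z ∈ A i)).card < 3 := by
      by_contra hge
      exact hzU (hcov ⟨_, not_lt.1 hge, fun i hi => (Finset.mem_filter.1 hi).2⟩)
    have hex : ∃ p q : Fin k, Finset.univ.filter (fun i => z ∈ A i) ⊆ {p, q} := by
      rcases Nat.lt_or_ge (Finset.univ.filter (fun i => z ∈ A i)).card 1 with h0 | h0
      · refine ⟨⟨0, hk⟩, ⟨0, hk⟩, ?_⟩
        rw [Finset.card_eq_zero.1
          (show (Finset.univ.filter (fun i => z ∈ A i)).card = 0 by omega)]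
        exact Finset.empty_subset _
      rcases Nat.lt_or_ge (Finset.univ.filter (fun i => z ∈ A i)).card 2 with h1 | h1
      · obtain ⟨a, ha⟩ := Finset.card_eq_one.1
          (show (Finset.univ.filter (fun i => z ∈ A i)).card = 1 by omega)
        refine ⟨a, a, ?_⟩
        rw [ha]
        simp
      · obtain ⟨a, b, _, hab⟩ := Finset.card_eq_two.1
          (show (Finset.univ.filter (fun i => z ∈ A i)).card = 2 by omega)
        refine ⟨a, b, ?_⟩
        rw [hab]
    obtain ⟨p, q, hpq⟩ := hex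
    refine ⟨(p, q), fun i hi => ?_⟩
    have h3 := hpq (Finset.mem_filter.2 ⟨Finset.mem_univ i, hi⟩)
    simpa using h3)
  refine ⟨δ, hδ, fun z hz hzU => ?_⟩
  obtain ⟨pq, hpq⟩ := h z ⟨hz, hzU⟩
  exact ⟨pq.1, pq.2, fun x hx i hi => hpq (mem_ball.2 hx) i hi⟩

theorem col_pv_add {k : ℕ} (N : ℕ) (y : Fin k → ℕ) (s t : Fin k) :
    pv N (y + ee s + ee t) = pv N y + ((1 : ℝ) / N) • EuclideanSpace.single s (1 : ℝ)
      + ((1 : ℝ) / N) • EuclideanSpace.single t (1 : ℝ) := by
  ext i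
  simp only [pv, ee, Pi.add_apply, Nat.cast_add, PiLp.add_apply, PiLp.smul_apply, smul_eq_mul,
    EuclideanSpace.single_apply, Pi.single_apply, Nat.cast_ite, Nat.cast_one, Nat.cast_zero]
  ring

theorem col_dist {k : ℕ} {N : ℕ} (hN : 0 < N) (y : Fin k → ℕ) (s t s' t' : Fin k) :
    dist (pv N (y + ee s + ee t)) (pv N (y + ee s' + ee t')) ≤ 4 / N := by
  rw [col_pv_add, col_pv_add]
  have h1 : ∀ s : Fin k, ‖((1 : ℝ) / N) • (EuclideanSpace.single s (1 : ℝ) : V k)‖ = 1 / N := by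
    intro s
    rw [norm_smul, EuclideanSpace.norm_single, norm_one, mul_one, Real.norm_of_nonneg]
    positivity
  have h2 : ∀ s s' : Fin k, dist (((1 : ℝ) / N) • (EuclideanSpace.single s (1 : ℝ) : V k))
      (((1 : ℝ) / N) • (EuclideanSpace.single s' (1 : ℝ) : V k)) ≤ 2 / N := by
    intro s s'
    rw [dist_eq_norm]
    refine (norm_sub_le _ _).trans ?_
    rw [h1, h1]
    apply le_of_eq
    ring
  refine (dist_add_add_le _ _ _ _).trans ?_
  refine (add_le_add (dist_add_add_le _ _ _ _) le_rfl).trans ?_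
  rw [dist_self, zero_add]
  refine (add_le_add (h2 s s') (h2 t t')).trans (le_of_eq ?_)
  ring

theorem discrete_cov {m : ℕ} {A : Fin (m + 3) → Set (V (m + 3))} (hA : Adm0 (m + 3) A)
    {ι : Type} [Fintype ι] (K : ι → Set (V (m + 3))) (hK : ∀ i, IsOpen (K i))
    (hcov : meet (m + 3) A 3 ⊆ ⋃ i, K i) :
    ∃ N0 : ℕ, ∀ N ≥ N0, ∀ R : ι → ℕ, ((N + m).choose m : ℝ) ≤
      ∑ i, ((WN N (K i) + smp (m + 3) (R i)).card : ℝ) / ((R i + 2).choose 2 : ℝ) := by
  classical
  obtain ⟨δ, hδ, h⟩ := two_colours hA (isOpen_iUnion hK) hcov (by omega)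
  obtain ⟨n, hn⟩ := exists_nat_gt (4 / δ)
  refine ⟨n + 2, fun N hN R => ?_⟩
  have hN2 : 2 ≤ N := by omega
  have hN0 : (0 : ℝ) < N := by
    have : 0 < N := by omega
    exact_mod_cast this
  have hNδ : 4 / (N : ℝ) < δ := by
    rw [div_lt_iff₀ hN0]
    rw [div_lt_iff₀ hδ] at hn
    have h1 : (n : ℝ) ≤ N := by
      have : n ≤ N := by omega
      exact_mod_cast this
    nlinarith
  have hmem : ∀ x : Fin (m + 3) → ℕ, ∑ s, x s = N → pv N x ∈ Sx (m + 3) := by
    intro x hx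
    refine ⟨fun i => ?_, ?_⟩
    · exact div_nonneg (Nat.cast_nonneg _) (Nat.cast_nonneg _)
    · change ∑ i, (x i : ℝ) / (N : ℝ) = 1
      rw [← Finset.sum_div, ← Nat.cast_sum, hx, div_self hN0.ne']
  have hex : ∀ x : Fin (m + 3) → ℕ, ∃ i, (∑ s, x s = N → pv N x ∈ A i) := by
    intro x
    by_cases hx : ∑ s, x s = N
    · have h1 := hmem x hx
      rw [← hA.cover, mem_iUnion] at h1
      obtain ⟨i, hi⟩ := h1
      exact ⟨i, fun _ => hi⟩
    · exact ⟨0, fun h => absurd h hx⟩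
  choose c hc using hex
  have hWN : ∀ x : Fin (m + 3) → ℕ, ∑ s, x s = N → (∀ i, x ∉ WN N (K i)) →
      pv N x ∉ ⋃ i, K i := by
    intro x hx h1 h2
    obtain ⟨i, hi⟩ := mem_iUnion.1 h2
    apply h1 i
    rw [WN, Finset.mem_filter, smp, Finset.mem_piAntidiag]
    exact ⟨⟨hx, fun _ _ => Finset.mem_univ _⟩, hi⟩
  apply disc hN2 (fun i => WN N (K i)) c R
  · intro x hx _
    have h1 := hA.pos _ _ (hc x hx)
    have h2 : (0 : ℝ) < (x (c x) : ℝ) / (N : ℝ) := h1
    rw [div_pos_iff_of_pos_right hN0] at h2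
    have h3 : 0 < x (c x) := by exact_mod_cast h2
    omega
  · intro y hy
    have hsum : ∀ s t : Fin (m + 3), ∑ i, (y + ee s + ee t) i = N := by
      intro s t
      have h1 : ∀ s : Fin (m + 3), ∑ i, (ee s : Fin (m + 3) → ℕ) i = 1 := by
        intro s
        simp [ee]
      simp only [Pi.add_apply, Finset.sum_add_distrib, h1]
      omega
    by_cases hst : ∃ s₀ t₀ : Fin (m + 3), ∀ i, y + ee s₀ + ee t₀ ∉ WN N (K i)
    · obtain ⟨s₀, t₀, h0⟩ := hst
      obtain ⟨p, q, hpq⟩ := h _ (hmem _ (hsum s₀ t₀)) (hWN _ (hsum s₀ t₀) h0)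
      refine ⟨p, q, fun s t _ => ?_⟩
      apply hpq (pv N (y + ee s + ee t)) ((col_dist (by omega) y s t s₀ t₀).trans_lt hNδ)
      exact hc _ (hsum s t)
    · exact ⟨0, 0, fun s t h1 => absurd ⟨s, t, h1⟩ hst⟩

end SX
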