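import Pool.Agent.H27.SX.Defs

/-!
# The cone over an admissible partition is admissible (row SX-21)
-/

set_option autoImplicit false

open MeasureTheory Metric Set Filter Module
open scoped Topology MeasureTheory RealInnerProductSpace Nat Pointwise

namespace SX

open SP SP.Mea

section coneAdm

variable {k : ℕ}

private theorem coneAdm_cs (t : ℝ) (y : V k) (i : Fin k) : cn t y i.castSucc = (1 - t) * y i := by
  simp [cn]

private theorem coneAdm_last (t : ℝ) (y : V k) : cn t y (Fin.last k) = t := by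
  simp [cn]

private theorem coneAdm_cont : Continuous (fun p : ℝ × V k => cn p.1 p.2) := by
  unfold cn
  refine (PiLp.continuous_toLp 2 _).comp ?_
  refine continuous_pi fun i => ?_
  refine Fin.lastCases ?_ (fun j => ?_) i
  · simp only [Fin.snoc_last]; exact continuous_fst
  · simp only [Fin.snoc_castSucc]
    exact (continuous_const.sub continuous_fst).mul
      ((EuclideanSpace.proj j).continuous.comp continuous_snd)

private theorem coneAdm_inj {t t' : ℝ} {y y' : V k} (h : cn t y = cn t' y') :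
    t = t' ∧ (t ≠ 1 → y = y') := by
  have h1 : t = t' := by
    have := congrArg (fun z : V (k + 1) => z (Fin.last k)) h
    simpa [coneAdm_last] using this
  refine ⟨h1, fun h2 => ?_⟩
  subst h1
  ext i
  have := congrArg (fun z : V (k + 1) => z i.castSucc) h
  simp only [coneAdm_cs] at this
  exact mul_left_cancel₀ (sub_ne_zero.2 (Ne.symm h2)) this

private theorem coneAdm_Sx {t : ℝ} {y : V k} (h0 : 0 ≤ t) (h1 : t ≤ 1) (hy : y ∈ Sx k) :
    cn t y ∈ Sx (k + 1) := by
  refine ⟨fun i => ?_, ?_⟩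
  · refine Fin.lastCases ?_ (fun j => ?_) i
    · rw [coneAdm_last]; exact h0
    · rw [coneAdm_cs]; exact mul_nonneg (by linarith) (hy.1 j)
  · rw [Fin.sum_univ_castSucc, coneAdm_last]
    simp only [coneAdm_cs]
    rw [← Finset.mul_sum, hy.2]; ring

private theorem coneAdm_mem_cs {A : Fin k → Set (V k)} {δ : ℝ} {i : Fin k} {x : V (k + 1)} :
    x ∈ coneA δ A i.castSucc ↔ ∃ t ∈ Icc (0 : ℝ) (1 - δ), ∃ y ∈ A i, x = cn t y := by
  unfold coneA; rw [Fin.snoc_castSucc]; rfl

private theorem coneAdm_mem_last {A : Fin k → Set (V k)} {δ : ℝ} {x : V (k + 1)} :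
    x ∈ coneA δ A (Fin.last k) ↔ ∃ t ∈ Icc (1 - δ) (1 : ℝ), ∃ y ∈ Sx k, x = cn t y := by
  unfold coneA; rw [Fin.snoc_last]; rfl

private theorem coneAdm_exists (hk : 1 ≤ k) {x : V (k + 1)} (hx : x ∈ Sx (k + 1)) :
    ∃ t ∈ Icc (0 : ℝ) 1, ∃ y ∈ Sx k, x = cn t y := by
  have hs : ∑ i : Fin k, x i.castSucc = 1 - x (Fin.last k) := by
    have := hx.2
    rw [Fin.sum_univ_castSucc] at this; linarith
  have hl : x (Fin.last k) ≤ 1 := by
    have : 0 ≤ ∑ i : Fin k, x i.castSucc := Finset.sum_nonneg fun i _ => hx.1 _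
    linarith
  refine ⟨x (Fin.last k), ⟨hx.1 _, hl⟩, ?_⟩
  rcases eq_or_lt_of_le hl with h1 | h1
  · refine ⟨EuclideanSpace.single ⟨0, hk⟩ 1, ⟨fun i => ?_, ?_⟩, ?_⟩
    · rw [PiLp.single_apply]; split_ifs <;> norm_num
    · simp
    · have h0 : ∀ i : Fin k, x i.castSucc = 0 := by
        intro i
        rw [h1, sub_self] at hs
        exact (Finset.sum_eq_zero_iff_of_nonneg (fun (j : Fin k) _ => hx.1 j.castSucc)).1 hs i
          (Finset.mem_univ i)
      ext i
      refine Fin.lastCases ?_ (fun j => ?_) i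
      · rw [coneAdm_last]
      · rw [coneAdm_cs, h0, h1]; simp
  · have hne : 1 - x (Fin.last k) ≠ 0 := by linarith
    refine ⟨WithLp.toLp 2 (fun i => x i.castSucc / (1 - x (Fin.last k))), ⟨fun i => ?_, ?_⟩, ?_⟩
    · exact div_nonneg (hx.1 _) (by linarith)
    · simp only [← Finset.sum_div, hs]; exact div_self hne
    · ext i
      refine Fin.lastCases ?_ (fun j => ?_) i
      · rw [coneAdm_last]
      · rw [coneAdm_cs]
        exact (mul_div_cancel₀ _ hne).symm

theorem cone_adm {k : ℕ} (hk : 1 ≤ k) {A : Fin k → Set (V k)} (hA : Adm k A) {δ : ℝ}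
    (h0 : 0 < δ) (h1 : δ < 1) : Adm (k + 1) (coneA δ A) := by
  have hAS : ∀ i, A i ⊆ Sx k := fun i => hA.cover ▸ subset_iUnion A i
  have hAc : ∀ i, IsCompact (A i) := fun i =>
    (Comp_Sx_compact k).of_isClosed_subset (hA.closed i) (hAS i)
  refine ⟨⟨fun i => ?_, ?_, fun i x hx => ?_⟩, fun i j hij x hx => ?_⟩
  · -- closed
    refine Fin.lastCases ?_ (fun j => ?_) i
    · have : coneA δ A (Fin.last k) =
          (fun p : ℝ × V k => cn p.1 p.2) '' (Icc (1 - δ) (1 : ℝ) ×ˢ Sx k) := by
        ext x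
        rw [coneAdm_mem_last]
        constructor
        · rintro ⟨t, ht, y, hy, rfl⟩; exact ⟨(t, y), ⟨ht, hy⟩, rfl⟩
        · rintro ⟨⟨t, y⟩, ⟨ht, hy⟩, rfl⟩; exact ⟨t, ht, y, hy, rfl⟩
      rw [this]
      exact ((isCompact_Icc.prod (Comp_Sx_compact k)).image coneAdm_cont).isClosed
    · have : coneA δ A j.castSucc =
          (fun p : ℝ × V k => cn p.1 p.2) '' (Icc (0 : ℝ) (1 - δ) ×ˢ A j) := by
        ext x
        rw [coneAdm_mem_cs]
        constructor
        · rintro ⟨t, ht, y, hy, rfl⟩; exact ⟨(t, y), ⟨ht, hy⟩, rfl⟩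
        · rintro ⟨⟨t, y⟩, ⟨ht, hy⟩, rfl⟩; exact ⟨t, ht, y, hy, rfl⟩
      rw [this]
      exact ((isCompact_Icc.prod (hAc j)).image coneAdm_cont).isClosed
  · -- cover
    apply Subset.antisymm
    · refine iUnion_subset fun i => ?_
      refine Fin.lastCases ?_ (fun j => ?_) i
      · intro x hx
        obtain ⟨t, ht, y, hy, rfl⟩ := coneAdm_mem_last.1 hx
        exact coneAdm_Sx (by linarith [ht.1]) ht.2 hy
      · intro x hx
        obtain ⟨t, ht, y, hy, rfl⟩ := coneAdm_mem_cs.1 hx
        exact coneAdm_Sx ht.1 (by linarith [ht.2]) (hAS j hy)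
    · intro x hx
      obtain ⟨t, ht, y, hy, rfl⟩ := coneAdm_exists hk hx
      rcases le_total t (1 - δ) with h | h
      · have hy' := hy
        rw [← hA.cover] at hy'
        obtain ⟨j, hj⟩ := mem_iUnion.1 hy'
        exact mem_iUnion.2 ⟨j.castSucc, coneAdm_mem_cs.2 ⟨t, ⟨ht.1, h⟩, y, hj, rfl⟩⟩
      · exact mem_iUnion.2 ⟨Fin.last k, coneAdm_mem_last.2 ⟨t, ⟨h, ht.2⟩, y, hy, rfl⟩⟩
  · -- pos
    revert x
    refine Fin.lastCases ?_ (fun j => ?_) i
    · intro x hx
      obtain ⟨t, ht, y, hy, rfl⟩ := coneAdm_mem_last.1 hx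
      rw [coneAdm_last]; linarith [ht.1]
    · intro x hx
      obtain ⟨t, ht, y, hy, rfl⟩ := coneAdm_mem_cs.1 hx
      rw [coneAdm_cs]
      exact mul_pos (by linarith [ht.2]) (hA.pos j y hy)
  · -- overlap
    obtain ⟨hi, hj⟩ := hx
    revert hij hi hj
    refine Fin.lastCases (motive := fun i => i ≠ j → x ∈ coneA δ A i → x ∈ coneA δ A j →
      x ∈ closure (Sx (k + 1) \ coneA δ A i)) ?_ (fun i => ?_) i
    · refine Fin.lastCases (motive := fun j => Fin.last k ≠ j → x ∈ coneA δ A (Fin.last k) →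
        x ∈ coneA δ A j → x ∈ closure (Sx (k + 1) \ coneA δ A (Fin.last k))) ?_ (fun j => ?_) j
      · intro h; exact absurd rfl h
      · intro _ hi hj
        obtain ⟨t, ht, y, hy, rfl⟩ := coneAdm_mem_last.1 hi
        obtain ⟨t', ht', y', hy', he⟩ := coneAdm_mem_cs.1 hj
        obtain ⟨rfl, -⟩ := coneAdm_inj he
        have hteq : t = 1 - δ := le_antisymm ht'.2 ht.1
        have hc : Continuous (fun s : ℝ => cn (t - s) y) :=
          coneAdm_cont.comp ((continuous_const.sub continuous_id).prodMk continuous_const)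
        have hl : Tendsto (fun s : ℝ => cn (t - s) y) (𝓝[>] 0) (𝓝 (cn t y)) := by
          have := (hc.tendsto 0).mono_left (nhdsWithin_le_nhds (s := Ioi (0 : ℝ)))
          simpa using this
        refine mem_closure_of_tendsto hl ?_
        have hpos : (0 : ℝ) < 1 - δ := by linarith
        filter_upwards [Ioo_mem_nhdsGT hpos] with s hs
        refine ⟨coneAdm_Sx (by linarith [hs.2]) (by linarith [hs.1]) hy, fun hm => ?_⟩
        obtain ⟨t'', ht'', y'', hy'', he'⟩ := coneAdm_mem_last.1 hm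
        obtain ⟨h5, -⟩ := coneAdm_inj he'
        linarith [ht''.1, hs.1]
    · refine Fin.lastCases (motive := fun j => i.castSucc ≠ j → x ∈ coneA δ A i.castSucc →
        x ∈ coneA δ A j → x ∈ closure (Sx (k + 1) \ coneA δ A i.castSucc)) ?_ (fun j => ?_) j
      · intro _ hi hj
        obtain ⟨t, ht, y, hy, rfl⟩ := coneAdm_mem_cs.1 hi
        obtain ⟨t', ht', y', hy', he⟩ := coneAdm_mem_last.1 hj
        obtain ⟨rfl, -⟩ := coneAdm_inj he
        have hteq : t = 1 - δ := le_antisymm ht.2 ht'.1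
        have hc : Continuous (fun s : ℝ => cn (t + s) y) :=
          coneAdm_cont.comp ((continuous_const.add continuous_id).prodMk continuous_const)
        have hl : Tendsto (fun s : ℝ => cn (t + s) y) (𝓝[>] 0) (𝓝 (cn t y)) := by
          have := (hc.tendsto 0).mono_left (nhdsWithin_le_nhds (s := Ioi (0 : ℝ)))
          simpa using this
        refine mem_closure_of_tendsto hl ?_
        filter_upwards [Ioo_mem_nhdsGT h0] with s hs
        refine ⟨coneAdm_Sx (by linarith [hs.1]) (by linarith [hs.2]) (hAS i hy), fun hm => ?_⟩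
        obtain ⟨t'', ht'', y'', hy'', he'⟩ := coneAdm_mem_cs.1 hm
        obtain ⟨h5, -⟩ := coneAdm_inj he'
        linarith [ht''.2, hs.1]
      · intro hij hi hj
        obtain ⟨t, ht, y, hy, rfl⟩ := coneAdm_mem_cs.1 hi
        obtain ⟨t', ht', y', hy', he⟩ := coneAdm_mem_cs.1 hj
        obtain ⟨rfl, h5⟩ := coneAdm_inj he
        have ht1 : t ≠ 1 := by linarith [ht.2]
        obtain rfl := h5 ht1
        have hij' : i ≠ j := fun h => hij (by rw [h])
        have hcl := hA.overlap i j hij' ⟨hy, hy'⟩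
        have hc : Continuous (fun z : V k => cn t z) :=
          coneAdm_cont.comp (continuous_const.prodMk continuous_id)
        have := hc.closure_preimage_subset
        have hmaps : MapsTo (fun z : V k => cn t z) (Sx k \ A i)
            (Sx (k + 1) \ coneA δ A i.castSucc) := by
          intro z hz
          refine ⟨coneAdm_Sx ht.1 (by linarith [ht.2]) hz.1, fun hm => ?_⟩
          obtain ⟨t'', ht'', y'', hy'', he'⟩ := coneAdm_mem_cs.1 hm
          obtain ⟨-, h6⟩ := coneAdm_inj he'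
          exact hz.2 (h6 ht1 ▸ hy'')
        exact hmaps.closure hc hcl

end coneAdm

end SX
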