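import Mathlib
import Pool.Agent.H59.SP.Mea
import Pool.Agent.H59.SP.Comp

/-!
# Sperner partitions: the set where at least three parts meet. Definitions (project SX)
-/

set_option autoImplicit false

open MeasureTheory Metric Set Filter Module
open scoped Topology MeasureTheory RealInnerProductSpace Nat Pointwise

namespace SX

open SP SP.Mea

/-! ### algebra -/

/-- the `m + 3` linear forms in `m + 1` variables: the variables, and two more forms such that
`∑ s, ell s = 0` and `∑ s, s * ell s = 0` -/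
noncomputable def ell (m : ℕ) (s : Fin (m + 3)) : MvPolynomial (Fin (m + 1)) ℝ :=
  if h : s.val < m + 1 then MvPolynomial.X ⟨s.val, h⟩
  else if s.val = m + 1 then
    (∑ i : Fin (m + 1), MvPolynomial.C (i.val : ℝ) * MvPolynomial.X i)
      - MvPolynomial.C ((m : ℝ) + 2) * ∑ i : Fin (m + 1), MvPolynomial.X i
  else MvPolynomial.C ((m : ℝ) + 1) * (∑ i : Fin (m + 1), MvPolynomial.X i)
      - ∑ i : Fin (m + 1), MvPolynomial.C (i.val : ℝ) * MvPolynomial.X i

/-- the product of the forms with the exponents `x` -/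
noncomputable def mon (m : ℕ) (x : Fin (m + 3) → ℕ) : MvPolynomial (Fin (m + 1)) ℝ :=
  ∏ s, ell m s ^ x s

/-- the rank of a set of exponents -/
noncomputable def rk (m : ℕ) (W : Finset (Fin (m + 3) → ℕ)) : ℕ :=
  finrank ℝ (Submodule.span ℝ (mon m '' (W : Set (Fin (m + 3) → ℕ))))

/-- the unit vector -/
def ee {k : ℕ} (s : Fin k) : Fin k → ℕ := Pi.single s 1

/-- the exponents of degree `R` -/
def smp (k R : ℕ) : Finset (Fin k → ℕ) := Finset.piAntidiag Finset.univ R

/-- the point `x / N` -/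
noncomputable def pv {k : ℕ} (N : ℕ) (x : Fin k → ℕ) : V k :=
  WithLp.toLp 2 (fun s => (x s : ℝ) / (N : ℝ))

open Classical in
/-- the exponents `x` of degree `N` with `x / N ∈ K` -/
noncomputable def WN {k : ℕ} (N : ℕ) (K : Set (V k)) : Finset (Fin k → ℕ) :=
  (smp k N).filter (fun x => pv N x ∈ K)

/-! ### geometry -/

/-- the simplex with centroid `0` -/
def D0 (k : ℕ) : Set (V k) := {x | ∑ i, x i = 0 ∧ ∀ i, -(1 / (k : ℝ)) ≤ x i}

/-- orthonormal families parallel to the affine hull -/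
def Fr {k m : ℕ} (w : Fin m → V k) : Prop := Orthonormal ℝ w ∧ ∀ a, w a ∈ E0 k

/-- the coordinates of `x` with respect to `w` -/
noncomputable def cw {k m : ℕ} (w : Fin m → V k) (x : V k) : EuclideanSpace ℝ (Fin m) :=
  WithLp.toLp 2 (fun a => ⟪w a, x⟫)

/-- the component of `x` perpendicular to `w` -/
noncomputable def rs {k m : ℕ} (w : Fin m → V k) (x : V k) : V k := x - ∑ a, ⟪w a, x⟫ • w a

/-- `K` is `η`-flat in the direction `w` -/
def Flat {k m : ℕ} (η : ℝ) (w : Fin m → V k) (K : Set (V k)) : Prop :=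
  ∀ x ∈ K, ∀ y ∈ K, ‖rs w (x - y)‖ ≤ η * ‖x - y‖

/-- the thick cube -/
def TC {k m : ℕ} (w : Fin m → V k) (p : V k) (r h : ℝ) : Set (V k) :=
  {x | x ∈ Hp k ∧ (∀ a, ⟪w a, x - p⟫ ∈ Icc 0 r) ∧ ‖rs w (x - p)‖ ≤ h}

/-- the open thick cube -/
def TCo {k m : ℕ} (w : Fin m → V k) (p : V k) (r h : ℝ) : Set (V k) :=
  {x | (∀ a, ⟪w a, x - p⟫ ∈ Ioo 0 r) ∧ ‖rs w (x - p)‖ < h}

/-- `S` is covered, up to a set of `m`-dimensional measure `0`, by countably many immersed patches
of class `C¹` and dimension `m` in the affine hull of the simplex -/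
def Rect (k m : ℕ) (S : Set (V k)) : Prop :=
  ∃ f : ℕ → EuclideanSpace ℝ (Fin m) → V k,
    (∀ n, ContDiff ℝ 1 (f n)) ∧ (∀ n x, Function.Injective (fderiv ℝ (f n) x)) ∧
    (∀ n x, f n x ∈ Hp k) ∧ μHE[m] (S \ ⋃ n, range (f n)) = 0

/-- `S` lies in finitely many planes of dimension at most `m` in the affine hull -/
def Planar (k m : ℕ) (S : Set (V k)) : Prop :=
  ∃ (n : ℕ) (p : Fin n → V k) (v : Fin n → Fin m → V k), (∀ i, p i ∈ Hp k) ∧
    (∀ i a, v i a ∈ E0 k) ∧ S ⊆ ⋃ i, range (fun t : Fin m → ℝ => p i + ∑ a, t a • v i a)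

/-- the simplex `conv (c₁₂, c₃₄, e₅, …, e_k)`, `k = m + 3` -/
def DK (m : ℕ) : Set (V (m + 3)) :=
  {x | x ∈ Sx (m + 3) ∧ (∀ i j : Fin (m + 3), i.val = 0 → j.val = 1 → x i = x j) ∧
    ∀ i j : Fin (m + 3), i.val = 2 → j.val = 3 → x i = x j}

/-- the point of the simplex with `k + 1` vertices in the direction of `y`, at height `t` -/
noncomputable def cn {k : ℕ} (t : ℝ) (y : V k) : V (k + 1) :=
  WithLp.toLp 2 (Fin.snoc (fun i => (1 - t) * y i) t)

/-- the cone over a partition -/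
def coneA {k : ℕ} (δ : ℝ) (A : Fin k → Set (V k)) : Fin (k + 1) → Set (V (k + 1)) :=
  Fin.snoc (α := fun _ => Set (V (k + 1)))
    (fun i => {x | ∃ t ∈ Icc (0 : ℝ) (1 - δ), ∃ y ∈ A i, x = cn t y})
    {x | ∃ t ∈ Icc (1 - δ) 1, ∃ y ∈ Sx k, x = cn t y}

end SX
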