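import Mathlib
import Pool.Agent.H27.SX.Defs

/-!
# SX-23: Hausdorff measures of cones
-/

set_option autoImplicit false

open MeasureTheory Metric Set Filter Module
open scoped Topology MeasureTheory RealInnerProductSpace Nat Pointwise ENNReal NNReal

namespace SX

open SP SP.Mea

/-- one cover of the product -/
theorem prod_cover {X : Type*} [MetricSpace X] [MeasurableSpace X] [BorelSpace X] {m : ℕ}
    (hm : 1 ≤ m) (Z : Set X) (hZ : μH[(m : ℝ)] Z ≠ ⊤) {r : ℝ≥0∞} (hr : 0 < r) (hr1 : r ≤ 1) :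
    ∃ T : ℕ × ℕ → Set (ℝ × X), (∀ i, ediam (T i) ≤ r) ∧ Icc (0 : ℝ) 1 ×ˢ Z ⊆ ⋃ i, T i ∧
      ∑' i, ediam (T i) ^ ((m : ℝ) + 1) ≤ 2 * (μH[(m : ℝ)] Z + (r + r)) := by
  classical
  have hm0 : (0 : ℝ) < m := by exact_mod_cast hm
  have h1 : (⨅ (t : ℕ → Set X) (_ : Z ⊆ ⋃ n, t n) (_ : ∀ n, ediam (t n) ≤ r),
      ∑' n, ⨆ _ : (t n).Nonempty, ediam (t n) ^ (m : ℝ)) < μH[(m : ℝ)] Z + r := by
    refine lt_of_le_of_lt ?_ (ENNReal.lt_add_right hZ hr.ne')
    rw [Measure.hausdorffMeasure_apply]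
    exact le_iSup₂ (f := fun (r : ℝ≥0∞) (_ : 0 < r) =>
      ⨅ (t : ℕ → Set X) (_ : Z ⊆ ⋃ n, t n) (_ : ∀ n, ediam (t n) ≤ r),
      ∑' n, ⨆ _ : (t n).Nonempty, ediam (t n) ^ (m : ℝ)) r hr
  simp only [iInf_lt_iff] at h1
  obtain ⟨t, hcov, hdiam, hsum⟩ := h1
  have hsum' : ∑' n, ediam (t n) ^ (m : ℝ) < μH[(m : ℝ)] Z + r := by
    refine lt_of_le_of_lt (ENNReal.tsum_le_tsum fun n => ?_) hsum
    rcases (t n).eq_empty_or_nonempty with h | h
    · rw [h, ediam_empty, ENNReal.zero_rpow_of_pos hm0]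
      exact zero_le
    · exact le_iSup (fun _ : (t n).Nonempty => ediam (t n) ^ (m : ℝ)) h
  obtain ⟨e, he0, hes⟩ := ENNReal.exists_pos_sum_of_countable hr.ne' ℕ
  have her : ∀ i, (e i : ℝ≥0∞) ≤ r := fun i => (ENNReal.le_tsum i).trans hes.le
  set δ : ℕ → ℝ≥0∞ := fun i => max (ediam (t i)) (e i) with hδ
  have hδr : ∀ i, δ i ≤ r := fun i => max_le (hdiam i) (her i)
  have hδ1 : ∀ i, δ i ≤ 1 := fun i => (hδr i).trans hr1
  have hδt : ∀ i, δ i ≠ ⊤ := fun i => ne_top_of_le_ne_top ENNReal.one_ne_top (hδ1 i)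
  have hδ0 : ∀ i, 0 < δ i := fun i => lt_of_lt_of_le (by exact_mod_cast he0 i) (le_max_right _ _)
  set d : ℕ → ℝ := fun i => (δ i).toReal with hd
  have hd0 : ∀ i, 0 < d i := fun i => ENNReal.toReal_pos (hδ0 i).ne' (hδt i)
  have hd1 : ∀ i, d i ≤ 1 := fun i => by
    have := ENNReal.toReal_mono ENNReal.one_ne_top (hδ1 i)
    simpa using this
  have hdδ : ∀ i, ENNReal.ofReal (d i) = δ i := fun i => ENNReal.ofReal_toReal (hδt i)
  set J : ℕ → ℕ := fun i => ⌊1 / d i⌋₊ with hJ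
  set T : ℕ × ℕ → Set (ℝ × X) := fun p =>
    if p.2 ≤ J p.1 then Icc ((p.2 : ℝ) * d p.1) (((p.2 : ℝ) + 1) * d p.1) ×ˢ t p.1 else ∅ with hT
  have hTd : ∀ p, ediam (T p) ≤ if p.2 ≤ J p.1 then δ p.1 else 0 := by
    intro p
    simp only [hT]
    split_ifs with h
    · refine ediam_le ?_
      rintro ⟨a, b⟩ ⟨ha, hb⟩ ⟨a', b'⟩ ⟨ha', hb'⟩
      rw [Prod.edist_eq]
      refine max_le ?_ ((edist_le_ediam_of_mem hb hb').trans (le_max_left _ _))
      rw [← hdδ, edist_dist]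
      apply ENNReal.ofReal_le_ofReal
      rw [Real.dist_eq, abs_le]
      simp only [mem_Icc] at ha ha'
      constructor <;> nlinarith [ha.1, ha.2, ha'.1, ha'.2]
    · simp
  refine ⟨T, ?_, ?_, ?_⟩
  · intro p
    refine (hTd p).trans ?_
    split_ifs
    · exact hδr _
    · exact zero_le
  · rintro ⟨x, y⟩ ⟨hx, hy⟩
    obtain ⟨i, hi⟩ := mem_iUnion.1 (hcov hy)
    refine mem_iUnion.2 ⟨(i, ⌊x / d i⌋₊), ?_⟩
    have h2 : ⌊x / d i⌋₊ ≤ J i := by
      apply Nat.floor_le_floor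
      exact div_le_div_of_nonneg_right hx.2 (hd0 i).le
    simp only [hT]
    rw [if_pos h2]
    refine ⟨⟨?_, ?_⟩, hi⟩
    · have := Nat.floor_le (div_nonneg hx.1 (hd0 i).le)
      rw [le_div_iff₀ (hd0 i)] at this
      exact this
    · have := (Nat.lt_floor_add_one (x / d i)).le
      rw [div_le_iff₀ (hd0 i)] at this
      exact this
  · have h3 : ∀ i, ∑' j, ediam (T (i, j)) ^ ((m : ℝ) + 1) ≤
        2 * (ediam (t i) ^ (m : ℝ) + e i) := by
      intro i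
      have h4 : ∀ j, ediam (T (i, j)) ^ ((m : ℝ) + 1) ≤
          if j ∈ Finset.range (J i + 1) then δ i ^ ((m : ℝ) + 1) else 0 := by
        intro j
        have := hTd (i, j)
        simp only at this
        split_ifs with h
        · rw [Finset.mem_range, Nat.lt_succ_iff] at h
          rw [if_pos h] at this
          exact ENNReal.rpow_le_rpow this (by positivity)
        · rw [Finset.mem_range, Nat.lt_succ_iff] at h
          rw [if_neg h] at this
          have : ediam (T (i, j)) = 0 := le_antisymm this zero_le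
          rw [this, ENNReal.zero_rpow_of_pos (by positivity)]
      calc ∑' j, ediam (T (i, j)) ^ ((m : ℝ) + 1)
          ≤ ∑' j, if j ∈ Finset.range (J i + 1) then δ i ^ ((m : ℝ) + 1) else 0 :=
            ENNReal.tsum_le_tsum h4
        _ = ((J i + 1 : ℕ) : ℝ≥0∞) * δ i ^ ((m : ℝ) + 1) := by
            rw [tsum_eq_sum (s := Finset.range (J i + 1))]
            · rw [Finset.sum_congr rfl fun j hj => if_pos hj]
              simp
            · intro j hj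
              exact if_neg hj
        _ = (((J i + 1 : ℕ) : ℝ≥0∞) * δ i) * δ i ^ (m : ℝ) := by
            rw [ENNReal.rpow_add _ _ (hδ0 i).ne' (hδt i), ENNReal.rpow_one]
            ring
        _ ≤ 2 * δ i ^ (m : ℝ) := by
            gcongr
            rw [← hdδ i, ← ENNReal.ofReal_natCast, ← ENNReal.ofReal_mul (by positivity)]
            rw [show (2 : ℝ≥0∞) = ENNReal.ofReal 2 by simp]
            apply ENNReal.ofReal_le_ofReal
            have h5 : (J i : ℝ) ≤ 1 / d i := Nat.floor_le (by have := hd0 i; positivity)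
            push_cast
            calc ((J i : ℝ) + 1) * d i ≤ (1 / d i + 1) * d i := by
                  have := hd0 i
                  gcongr
              _ = 1 + d i := by
                  have := (hd0 i).ne'
                  field_simp
              _ ≤ 2 := by linarith [hd1 i]
        _ ≤ 2 * (ediam (t i) ^ (m : ℝ) + e i) := by
            gcongr
            simp only [hδ]
            rcases le_total (ediam (t i)) (e i) with h | h
            · rw [max_eq_right h]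
              refine le_trans ?_ le_add_self
              have h6 : (e i : ℝ≥0∞) ^ (m : ℝ) ≤ (e i : ℝ≥0∞) ^ (1 : ℝ) :=
                ENNReal.rpow_le_rpow_of_exponent_ge ((her i).trans hr1) (by exact_mod_cast hm)
              rwa [ENNReal.rpow_one] at h6
            · rw [max_eq_left h]
              exact le_self_add
    calc ∑' i, ediam (T i) ^ ((m : ℝ) + 1)
        = ∑' i, ∑' j, ediam (T (i, j)) ^ ((m : ℝ) + 1) :=
          ENNReal.tsum_prod (f := fun i j => ediam (T (i, j)) ^ ((m : ℝ) + 1))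
      _ ≤ ∑' i, 2 * (ediam (t i) ^ (m : ℝ) + e i) := ENNReal.tsum_le_tsum h3
      _ = 2 * (∑' i, ediam (t i) ^ (m : ℝ) + ∑' i, (e i : ℝ≥0∞)) := by
          rw [ENNReal.tsum_mul_left, ENNReal.tsum_add]
      _ ≤ 2 * ((μH[(m : ℝ)] Z + r) + r) := by
          gcongr
      _ = 2 * (μH[(m : ℝ)] Z + (r + r)) := by ring

/-- the Hausdorff measure of a product with an interval -/
theorem prod_haus {X : Type*} [MetricSpace X] [MeasurableSpace X] [BorelSpace X] {m : ℕ}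
    (hm : 1 ≤ m) (Z : Set X) :
    μH[(m : ℝ) + 1] (Icc (0 : ℝ) 1 ×ˢ Z) ≤ 2 * μH[(m : ℝ)] Z := by
  by_cases hZ : μH[(m : ℝ)] Z = ⊤
  · rw [hZ]
    simp
  set r : ℕ → ℝ≥0∞ := fun n => ((n : ℝ≥0∞) + 1)⁻¹ with hr
  have hr0 : ∀ n, 0 < r n := fun n => by
    simp only [hr, ENNReal.inv_pos]
    exact ENNReal.add_ne_top.2 ⟨ENNReal.natCast_ne_top n, ENNReal.one_ne_top⟩
  have hr1 : ∀ n, r n ≤ 1 := fun n => by
    simp only [hr]
    rw [ENNReal.inv_le_one]
    exact le_add_self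
  have hrt : Tendsto r atTop (𝓝 0) := by
    have := ENNReal.tendsto_inv_nat_nhds_zero
    have h2 := (tendsto_add_atTop_iff_nat 1).2 this
    simpa [hr] using h2
  choose T hT1 hT2 hT3 using fun n => prod_cover hm Z hZ (hr0 n) (hr1 n)
  have h1 := Measure.hausdorffMeasure_le_liminf_tsum (ι := fun _ : ℕ => ℕ × ℕ) ((m : ℝ) + 1)
    (Icc (0 : ℝ) 1 ×ˢ Z) r hrt T (Eventually.of_forall hT1) (Eventually.of_forall hT2)
  refine h1.trans ?_
  have h2 : Tendsto (fun n => 2 * (μH[(m : ℝ)] Z + (r n + r n))) atTop (𝓝 (2 * μH[(m : ℝ)] Z)) := by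
    have h3 := (tendsto_const_nhds (x := μH[(m : ℝ)] Z)).add (hrt.add hrt)
    rw [add_zero, add_zero] at h3
    exact ENNReal.Tendsto.const_mul h3 (Or.inr (by simp))
  rw [← h2.liminf_eq]
  exact liminf_le_liminf (Eventually.of_forall hT3)

/-- the map `(t, y) ↦ cn t y` -/
theorem cn_dist {k : ℕ} {s t : ℝ} {y z : V k} (hs : s ∈ Icc (0 : ℝ) 1) (hz : ‖z‖ ≤ 1) :
    dist (cn s y) (cn t z) ≤ 2 * dist s t + dist y z := by
  have h1 : ∀ (u : V k) (a : ℝ), ‖(WithLp.toLp 2 (Fin.snoc (fun i => u i) a) : V (k + 1))‖ ≤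
      ‖u‖ + |a| := by
    intro u a
    have h2 : ‖(WithLp.toLp 2 (Fin.snoc (fun i => u i) a) : V (k + 1))‖ ^ 2 = ‖u‖ ^ 2 + a ^ 2 := by
      rw [EuclideanSpace.norm_sq_eq, EuclideanSpace.norm_sq_eq, Fin.sum_univ_castSucc]
      simp
    have h3 : 0 ≤ ‖u‖ := norm_nonneg _
    have h4 : 0 ≤ |a| := abs_nonneg _
    have h5 : |a| ^ 2 = a ^ 2 := sq_abs a
    refine abs_le_of_sq_le_sq' ?_ (by positivity) |>.2
    rw [h2]
    nlinarith
  have h6 : cn s y - cn t z = WithLp.toLp 2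
      (Fin.snoc (fun i => ((1 - s) • (y - z) - (s - t) • z : V k) i) (s - t)) := by
    ext i
    refine Fin.lastCases ?_ (fun i => ?_) i
    · simp [cn]
    · simp [cn]
      ring
  rw [dist_eq_norm, h6]
  refine (h1 _ _).trans ?_
  have h7 : ‖((1 - s) • (y - z) - (s - t) • z : V k)‖ ≤ ‖y - z‖ + |s - t| := by
    refine (norm_sub_le _ _).trans ?_
    rw [norm_smul, norm_smul, Real.norm_eq_abs, Real.norm_eq_abs]
    have h8 : |1 - s| ≤ 1 := by
      rw [abs_le]; constructor <;> linarith [hs.1, hs.2]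
    have := norm_nonneg (y - z)
    have := abs_nonneg (s - t)
    have := norm_nonneg z
    nlinarith
  rw [Real.dist_eq, dist_eq_norm]
  linarith

theorem norm_le_one_of_mem {k : ℕ} {z : V k} (hz : z ∈ Sx k) : ‖z‖ ≤ 1 := by
  have h1 : ∀ i, z i ≤ 1 := by
    intro i
    rw [← hz.2]
    exact Finset.single_le_sum (f := fun i => z i) (fun i _ => hz.1 i) (Finset.mem_univ i)
  have h2 : ‖z‖ ^ 2 ≤ 1 := by
    rw [EuclideanSpace.norm_sq_eq, ← hz.2]
    apply Finset.sum_le_sum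
    intro i _
    rw [Real.norm_eq_abs, sq_abs]
    nlinarith [h1 i, hz.1 i]
  have := norm_nonneg z
  nlinarith

theorem cone_meas (k m : ℕ) (hm : 1 ≤ m) : ∃ C : ENNReal, C ≠ ⊤ ∧ ∀ Z : Set (V k), Z ⊆ Sx k →
    μHE[m + 1] {x : V (k + 1) | ∃ t ∈ Icc (0 : ℝ) 1, ∃ y ∈ Z, x = cn t y} ≤ C * μHE[m] Z := by
  set a : ℝ≥0 := Measure.addHaarScalarFactor (volume : Measure (EuclideanSpace ℝ (Fin m))) μH[m]
    with ha
  set b : ℝ≥0 := Measure.addHaarScalarFactor
    (volume : Measure (EuclideanSpace ℝ (Fin (m + 1)))) μH[(m + 1 : ℕ)] with hb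
  have ha0 : a ≠ 0 := Measure.addHaarScalarFactor_volume_hausdorffMeasure_ne_zero m
  refine ⟨(b : ℝ≥0∞) * (3 : ℝ≥0∞) ^ ((m : ℝ) + 1) * 2 * (a : ℝ≥0∞)⁻¹, ?_, ?_⟩
  · refine ENNReal.mul_ne_top (ENNReal.mul_ne_top (ENNReal.mul_ne_top ENNReal.coe_ne_top ?_)
      (by simp)) (ENNReal.inv_ne_top.2 (by exact_mod_cast ha0))
    exact ENNReal.rpow_ne_top_of_nonneg (by positivity) (by simp)
  intro Z hZ
  have h1 : {x : V (k + 1) | ∃ t ∈ Icc (0 : ℝ) 1, ∃ y ∈ Z, x = cn t y} =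
      (fun p : ℝ × V k => cn p.1 p.2) '' (Icc (0 : ℝ) 1 ×ˢ Z) := by
    ext x
    constructor
    · rintro ⟨t, ht, y, hy, rfl⟩
      exact ⟨(t, y), ⟨ht, hy⟩, rfl⟩
    · rintro ⟨⟨t, y⟩, ⟨ht, hy⟩, rfl⟩
      exact ⟨t, ht, y, hy, rfl⟩
  have h2 : LipschitzOnWith 3 (fun p : ℝ × V k => cn p.1 p.2) (Icc (0 : ℝ) 1 ×ˢ Z) := by
    apply LipschitzOnWith.of_dist_le_mul
    rintro ⟨s, y⟩ ⟨hs, hy⟩ ⟨t, z⟩ ⟨ht, hz⟩
    refine (cn_dist (y := y) (t := t) hs (norm_le_one_of_mem (hZ hz))).trans ?_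
    rw [Prod.dist_eq]
    have h3 := le_max_left (dist s t) (dist y z)
    have h4 := le_max_right (dist s t) (dist y z)
    push_cast
    linarith
  have h3 := h2.hausdorffMeasure_image_le (d := (m : ℝ) + 1) (by positivity)
  have h4 := h3.trans (mul_le_mul_right (prod_haus hm Z) _)
  rw [ENNReal.coe_ofNat] at h4
  rw [Measure.euclideanHausdorffMeasure_def, Measure.euclideanHausdorffMeasure_def,
    Measure.smul_apply, Measure.smul_apply, h1, ENNReal.smul_def, ENNReal.smul_def, smul_eq_mul,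
    smul_eq_mul, ← ha, ← hb]
  push_cast
  have h5 : (a : ℝ≥0∞)⁻¹ * a = 1 :=
    ENNReal.inv_mul_cancel (by exact_mod_cast ha0) ENNReal.coe_ne_top
  calc (b : ℝ≥0∞) * μH[(m : ℝ) + 1] ((fun p : ℝ × V k => cn p.1 p.2) '' (Icc (0 : ℝ) 1 ×ˢ Z))
      ≤ (b : ℝ≥0∞) * ((3 : ℝ≥0∞) ^ ((m : ℝ) + 1) * (2 * μH[(m : ℝ)] Z)) := by
        gcongr
    _ = (b : ℝ≥0∞) * (3 : ℝ≥0∞) ^ ((m : ℝ) + 1) * 2 * ((a : ℝ≥0∞)⁻¹ * a) *
        μH[(m : ℝ)] Z := by rw [h5]; ring
    _ = _ := by ring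

theorem copy_meas (k m : ℕ) (Z : Set (V k)) {δ : ℝ} (h0 : 0 < δ) :
    μHE[m] {x : V (k + 1) | ∃ y ∈ Z, x = cn (1 - δ) y} = ENNReal.ofReal (δ ^ m) * μHE[m] Z := by
  have hg : Isometry (fun z : V k => (WithLp.toLp 2 (Fin.snoc (fun i => z i) (1 - δ)) :
      V (k + 1))) := by
    refine Isometry.of_dist_eq fun y z => ?_
    rw [EuclideanSpace.dist_eq, EuclideanSpace.dist_eq, Fin.sum_univ_castSucc]
    simp
  have h1 : {x : V (k + 1) | ∃ y ∈ Z, x = cn (1 - δ) y} =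
      (fun z : V k => (WithLp.toLp 2 (Fin.snoc (fun i => z i) (1 - δ)) : V (k + 1))) '' (δ • Z) := by
    ext x
    constructor
    · rintro ⟨y, hy, rfl⟩
      refine ⟨δ • y, smul_mem_smul_set hy, ?_⟩
      simp [cn]
    · rintro ⟨_, ⟨y, hy, rfl⟩, rfl⟩
      refine ⟨y, hy, ?_⟩
      simp [cn]
  rw [h1, hg.euclideanHausdorffMeasure_image, Measure.euclideanHausdorffMeasure_smul₀ m h0.ne',
    ENNReal.smul_def, smul_eq_mul]
  congr 1
  rw [ENNReal.coe_pow, ENNReal.ofReal_pow h0.le, ← Real.enorm_of_nonneg h0.le]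
  rfl

end SX
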