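import Pool.Agent.H27.SX.Defs

/-!
# Project SX, row SX-22: the sets where several parts of a cone partition meet (helper49)
-/

set_option autoImplicit false

open MeasureTheory Metric Set Filter Module
open scoped Topology MeasureTheory RealInnerProductSpace Nat Pointwise

namespace SX

open SP SP.Mea

/-! ### coordinates -/

theorem coneMeet_cn_castSucc {k : ℕ} (t : ℝ) (y : V k) (i : Fin k) :
    cn t y i.castSucc = (1 - t) * y i := by
  simp [cn]

theorem coneMeet_cn_last {k : ℕ} (t : ℝ) (y : V k) : cn t y (Fin.last k) = t := by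
  simp [cn]

theorem coneMeet_cn_inj {k : ℕ} {t t' : ℝ} {y y' : V k} (h : cn t y = cn t' y') (ht : t < 1) :
    t = t' ∧ y = y' := by
  have h1 : t = t' := by
    have := congrArg (fun z : V (k + 1) => z (Fin.last k)) h
    simpa only [coneMeet_cn_last] using this
  refine ⟨h1, ?_⟩
  subst h1
  ext i
  have h2 := congrArg (fun z : V (k + 1) => z i.castSucc) h
  simp only [coneMeet_cn_castSucc] at h2
  exact mul_left_cancel₀ (by linarith : (1 - t) ≠ 0) h2

/-- append a coordinate -/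
noncomputable def coneMeet_up {k : ℕ} (y : V k) (s : ℝ) : V (k + 1) :=
  WithLp.toLp 2 (Fin.snoc (fun i => y i) s)

theorem coneMeet_up_castSucc {k : ℕ} (y : V k) (s : ℝ) (i : Fin k) :
    coneMeet_up y s i.castSucc = y i := by
  simp [coneMeet_up]

theorem coneMeet_up_last {k : ℕ} (y : V k) (s : ℝ) : coneMeet_up y s (Fin.last k) = s := by
  simp [coneMeet_up]

theorem coneMeet_sum_up {k : ℕ} (y : V k) (s : ℝ) :
    ∑ i, coneMeet_up y s i = ∑ i, y i + s := by
  rw [Fin.sum_univ_castSucc]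
  simp only [coneMeet_up_castSucc, coneMeet_up_last]

theorem coneMeet_sum_apply {k n : ℕ} (c : Fin n → ℝ) (w : Fin n → V k) (j : Fin k) :
    (∑ a, c a • w a : V k) j = ∑ a, c a * w a j := by
  simp

/-! ### planes -/

theorem coneMeet_mono {k m : ℕ} {S S' : Set (V k)} (h : S ⊆ S') (hP : Planar k m S') :
    Planar k m S := by
  obtain ⟨n, p, v, hp, hv, hS⟩ := hP
  exact ⟨n, p, v, hp, hv, h.trans hS⟩

theorem coneMeet_union {k m : ℕ} {S S' : Set (V k)} (hP : Planar k m S) (hP' : Planar k m S') :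
    Planar k m (S ∪ S') := by
  obtain ⟨n, p, v, hp, hv, hS⟩ := hP
  obtain ⟨n', p', v', hp', hv', hS'⟩ := hP'
  refine ⟨n + n', Fin.append p p', Fin.append v v', ?_, ?_, ?_⟩
  · intro i
    refine Fin.addCases (fun i => ?_) (fun i => ?_) i
    · rw [Fin.append_left]; exact hp i
    · rw [Fin.append_right]; exact hp' i
  · intro i
    refine Fin.addCases (fun i => ?_) (fun i => ?_) i
    · rw [Fin.append_left]; exact hv i
    · rw [Fin.append_right]; exact hv' i
  · rintro x (hx | hx)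
    · obtain ⟨i, t, rfl⟩ := mem_iUnion.1 (hS hx)
      refine mem_iUnion.2 ⟨Fin.castAdd n' i, t, ?_⟩
      rw [Fin.append_left, Fin.append_left]
    · obtain ⟨i, t, rfl⟩ := mem_iUnion.1 (hS' hx)
      refine mem_iUnion.2 ⟨Fin.natAdd n i, t, ?_⟩
      rw [Fin.append_right, Fin.append_right]

theorem coneMeet_cone {k m : ℕ} {S : Set (V k)} (hP : Planar k m S) :
    Planar (k + 1) (m + 1) {x | ∃ t : ℝ, ∃ y ∈ S, x = cn t y} := by
  obtain ⟨n, p, v, hp, hv, hS⟩ := hP
  refine ⟨n, fun i => coneMeet_up (p i) 0,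
    fun i => Fin.snoc (α := fun _ => V (k + 1)) (fun a => coneMeet_up (v i a) 0) (coneMeet_up (-p i) 1), ?_, ?_, ?_⟩
  · intro i
    change ∑ j, coneMeet_up (p i) 0 j = 1
    rw [coneMeet_sum_up, add_zero]
    exact hp i
  · intro i a
    refine Fin.lastCases ?_ (fun a => ?_) a
    · beta_reduce
      rw [Fin.snoc_last, mem_E0, coneMeet_sum_up]
      have h1 : ∑ j, p i j = 1 := hp i
      have h2 : ∑ j, (-p i) j = - ∑ j, p i j := by
        rw [← Finset.sum_neg_distrib]
        rfl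
      rw [h2, h1]
      norm_num
    · beta_reduce
      rw [Fin.snoc_castSucc, mem_E0, coneMeet_sum_up, add_zero]
      exact mem_E0.1 (hv i a)
  · rintro x ⟨t, y, hy, rfl⟩
    obtain ⟨i, s, rfl⟩ := mem_iUnion.1 (hS hy)
    refine mem_iUnion.2 ⟨i, Fin.snoc (α := fun _ => ℝ) (fun a => (1 - t) * s a) t, ?_⟩
    simp only [Fin.sum_univ_castSucc, Fin.snoc_castSucc, Fin.snoc_last]
    ext j
    refine Fin.lastCases ?_ (fun j => ?_) j
    · rw [coneMeet_cn_last]
      simp only [PiLp.add_apply, PiLp.smul_apply, coneMeet_up_last, coneMeet_sum_apply, smul_eq_mul]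
      simp
    · rw [coneMeet_cn_castSucc]
      simp only [PiLp.add_apply, PiLp.smul_apply, coneMeet_up_castSucc, coneMeet_sum_apply,
        smul_eq_mul, PiLp.neg_apply]
      rw [mul_add, Finset.mul_sum]
      have : ∀ a, (1 - t) * s a * v i a j = (1 - t) * (s a * v i a j) := fun a => by ring
      simp only [this]
      ring

theorem coneMeet_copy {k m : ℕ} {S : Set (V k)} (hP : Planar k m S) (s : ℝ) :
    Planar (k + 1) m {x | ∃ y ∈ S, x = cn s y} := by
  obtain ⟨n, p, v, hp, hv, hS⟩ := hP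
  refine ⟨n, fun i => cn s (p i), fun i a => coneMeet_up ((1 - s) • v i a) 0, ?_, ?_, ?_⟩
  · intro i
    change ∑ j, cn s (p i) j = 1
    rw [Fin.sum_univ_castSucc]
    simp only [coneMeet_cn_castSucc, coneMeet_cn_last]
    rw [← Finset.mul_sum]
    have h1 : ∑ j, p i j = 1 := hp i
    rw [h1]
    ring
  · intro i a
    rw [mem_E0, coneMeet_sum_up, add_zero]
    have h1 := mem_E0.1 (hv i a)
    simp only [PiLp.smul_apply, smul_eq_mul]
    rw [← Finset.mul_sum, h1, mul_zero]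
  · rintro x ⟨y, hy, rfl⟩
    obtain ⟨i, t, rfl⟩ := mem_iUnion.1 (hS hy)
    refine mem_iUnion.2 ⟨i, t, ?_⟩
    ext j
    refine Fin.lastCases ?_ (fun j => ?_) j
    · simp only [PiLp.add_apply, coneMeet_cn_last, coneMeet_up_last, coneMeet_sum_apply]
      simp
    · simp only [PiLp.add_apply, PiLp.smul_apply, coneMeet_cn_castSucc, coneMeet_up_castSucc,
        coneMeet_sum_apply, smul_eq_mul]
      rw [mul_add, Finset.mul_sum]
      have : ∀ a, t a * ((1 - s) * v i a j) = (1 - s) * (t a * v i a j) := fun a => by ring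
      simp only [this]

theorem coneMeet_simplex (m : ℕ) : Planar (m + 3) (m + 2) (Sx (m + 3)) := by
  refine ⟨1, fun _ => EuclideanSpace.single 0 1,
    fun _ a => EuclideanSpace.single a.succ 1 - EuclideanSpace.single 0 1, ?_, ?_, ?_⟩
  · intro _
    change ∑ j, (EuclideanSpace.single (0 : Fin (m + 3)) (1 : ℝ) : V (m + 3)) j = 1
    simp
  · intro _ a
    rw [mem_E0]
    simp
  · rintro x ⟨h0, h1⟩
    refine mem_iUnion.2 ⟨0, fun a => x a.succ, ?_⟩
    ext j
    refine Fin.cases ?_ (fun j => ?_) j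
    · simp only [PiLp.add_apply, coneMeet_sum_apply, PiLp.sub_apply, PiLp.single_apply]
      rw [Fin.sum_univ_succ] at h1
      have h2 : ∀ a : Fin (m + 2), ¬ ((0 : Fin (m + 3)) = a.succ) := fun a h => (Fin.succ_ne_zero a) h.symm
      simp only [h2, if_false, if_true]
      rw [← Finset.sum_mul]
      linarith
    · simp only [PiLp.add_apply, coneMeet_sum_apply, PiLp.sub_apply, PiLp.single_apply]
      have h2 : ¬ (j.succ = (0 : Fin (m + 3))) := Fin.succ_ne_zero j
      simp [h2, Fin.succ_inj]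

/-! ### the points in several parts of the cone -/

theorem coneMeet_castSucc {k : ℕ} {A : Fin k → Set (V k)} {δ : ℝ} (i : Fin k) :
    coneA δ A i.castSucc = {x | ∃ t ∈ Icc (0 : ℝ) (1 - δ), ∃ y ∈ A i, x = cn t y} := by
  unfold coneA
  rw [Fin.snoc_castSucc]

theorem coneMeet_last {k : ℕ} {A : Fin k → Set (V k)} {δ : ℝ} :
    coneA δ A (Fin.last k) = {x | ∃ t ∈ Icc (1 - δ) 1, ∃ y ∈ Sx k, x = cn t y} := by
  unfold coneA
  rw [Fin.snoc_last]

/-- the points in `j ≥ 1` lateral parts -/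
theorem coneMeet_lateral {k j : ℕ} (hj : 1 ≤ j) {A : Fin k → Set (V k)} {δ : ℝ} (h0 : 0 < δ)
    {x : V (k + 1)} (T : Finset (Fin k)) (hT : j ≤ T.card)
    (hx : ∀ i ∈ T, x ∈ coneA δ A i.castSucc) :
    ∃ t ∈ Icc (0 : ℝ) (1 - δ), ∃ y ∈ meet k A j, x = cn t y := by
  obtain ⟨i, hi⟩ := Finset.card_pos.1 (by omega : 0 < T.card)
  have h1 := hx i hi
  rw [coneMeet_castSucc] at h1
  obtain ⟨t, ht, y, hy, rfl⟩ := h1
  refine ⟨t, ht, y, ⟨T, hT, fun l hl => ?_⟩, rfl⟩
  have h2 := hx l hl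
  rw [coneMeet_castSucc] at h2
  obtain ⟨t', ht', y', hy', h3⟩ := h2
  have ht1 : t < 1 := by have := ht.2; linarith
  rw [(coneMeet_cn_inj h3 ht1).2]
  exact hy'

theorem coneMeet_gen {k j : ℕ} (hj : 1 ≤ j) {A : Fin k → Set (V k)} {δ : ℝ} (h0 : 0 < δ)
    {x : V (k + 1)} (hx : x ∈ meet (k + 1) (coneA δ A) (j + 1)) :
    (∃ t ∈ Icc (0 : ℝ) (1 - δ), ∃ y ∈ meet k A (j + 1), x = cn t y) ∨
      ((∃ y ∈ meet k A j, x = cn (1 - δ) y) ∧ ∃ y ∈ Sx k, x = cn (1 - δ) y) := by
  classical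
  obtain ⟨T, hT, hxT⟩ := hx
  set T' : Finset (Fin k) := Finset.univ.filter fun i => i.castSucc ∈ T with hT'
  have hT'x : ∀ i ∈ T', x ∈ coneA δ A i.castSucc := fun i hi =>
    hxT _ (Finset.mem_filter.1 hi).2
  have hsub : T ⊆ insert (Fin.last k) (T'.map Fin.castSuccEmb) := by
    intro i hi
    rw [Finset.mem_insert, Finset.mem_map]
    refine Fin.lastCases (fun _ => Or.inl rfl) (fun i hi => Or.inr ?_) i hi
    exact ⟨i, Finset.mem_filter.2 ⟨Finset.mem_univ _, hi⟩, rfl⟩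
  by_cases hl : Fin.last k ∈ T
  · right
    have hc : T.card ≤ T'.card + 1 := by
      refine (Finset.card_le_card hsub).trans ((Finset.card_insert_le _ _).trans ?_)
      rw [Finset.card_map]
    obtain ⟨t, ht, y, hy, hxy⟩ := coneMeet_lateral hj h0 T' (by omega) hT'x
    have h1 := hxT _ hl
    rw [coneMeet_last] at h1
    obtain ⟨t', ht', y', hy', hxy'⟩ := h1
    have ht1 : t < 1 := by have := ht.2; linarith
    have h2 : t = t' := (coneMeet_cn_inj (hxy.symm.trans hxy') ht1).1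
    have h3 : t = 1 - δ := le_antisymm ht.2 (by rw [h2]; exact ht'.1)
    have h4 : t' = 1 - δ := h2.symm.trans h3
    rw [h3] at hxy
    rw [h4] at hxy'
    exact ⟨⟨y, hy, hxy⟩, ⟨y', hy', hxy'⟩⟩
  · left
    have hc : T.card ≤ T'.card := by
      have h1 : T ⊆ T'.map Fin.castSuccEmb := by
        intro i hi
        rcases Finset.mem_insert.1 (hsub hi) with h | h
        · exact absurd (h ▸ hi) hl
        · exact h
      have h2 := Finset.card_le_card h1
      rwa [Finset.card_map] at h2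
    exact coneMeet_lateral (by omega) h0 T' (by omega) hT'x

theorem cone_meet3 {k : ℕ} {A : Fin k → Set (V k)} {δ : ℝ} (h0 : 0 < δ) (h1 : δ < 1) :
    meet (k + 1) (coneA δ A) 3 ⊆
      {x | ∃ t ∈ Icc (0 : ℝ) (1 - δ), ∃ y ∈ meet k A 3, x = cn t y} ∪
      {x | ∃ y ∈ meet k A 2, x = cn (1 - δ) y} := by
  intro x hx
  rcases coneMeet_gen (by norm_num : 1 ≤ 2) h0 hx with h | h
  · exact Or.inl h
  · exact Or.inr h.1

theorem cone_meet2 {k : ℕ} {A : Fin k → Set (V k)} {δ : ℝ} (h0 : 0 < δ) (h1 : δ < 1) :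
    meet (k + 1) (coneA δ A) 2 ⊆
      {x | ∃ t ∈ Icc (0 : ℝ) (1 - δ), ∃ y ∈ meet k A 2, x = cn t y} ∪
      {x | ∃ y ∈ Sx k, x = cn (1 - δ) y} := by
  intro x hx
  rcases coneMeet_gen (le_refl 1) h0 hx with h | h
  · exact Or.inl h
  · exact Or.inr h.2

theorem cone_planar3 {k m : ℕ} {A : Fin k → Set (V k)} {δ : ℝ} (h0 : 0 < δ) (h1 : δ < 1)
    (h3 : Planar k m (meet k A 3)) (h2 : Planar k (m + 1) (meet k A 2)) :
    Planar (k + 1) (m + 1) (meet (k + 1) (coneA δ A) 3) := by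
  refine coneMeet_mono ((cone_meet3 h0 h1).trans ?_)
    (coneMeet_union (coneMeet_cone h3) (coneMeet_copy h2 (1 - δ)))
  refine union_subset_union ?_ subset_rfl
  rintro x ⟨t, _, y, hy, rfl⟩
  exact ⟨t, y, hy, rfl⟩

theorem cone_planar2 {m : ℕ} {A : Fin (m + 3) → Set (V (m + 3))} {δ : ℝ} (h0 : 0 < δ)
    (h1 : δ < 1) (h2 : Planar (m + 3) (m + 1) (meet (m + 3) A 2)) :
    Planar (m + 4) (m + 2) (meet (m + 4) (coneA δ A) 2) := by
  refine coneMeet_mono ((cone_meet2 h0 h1).trans ?_)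
    (coneMeet_union (coneMeet_cone h2) (coneMeet_copy (coneMeet_simplex m) (1 - δ)))
  refine union_subset_union ?_ subset_rfl
  rintro x ⟨t, _, y, hy, rfl⟩
  exact ⟨t, y, hy, rfl⟩

end SX
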