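import Pool.Agent.H27.SX.Cell

/-!
Project SX (MP_38b231_co), row SX-7: counting lattice points of compact sets (helper23).
-/

set_option autoImplicit false

open MeasureTheory Metric Set Filter Module
open scoped Topology MeasureTheory RealInnerProductSpace Nat Pointwise

namespace SX

open SP SP.Mea

/-- the cell of the lattice -/
private noncomputable def count_cell (n : ℕ) : Set (E0 (n + 1)) :=
  {x : E0 (n + 1) | ∀ i : Fin n, (x : V (n + 1)) i.castSucc ∈ Ico (0 : ℝ) 1}

private theorem count_meas (n : ℕ) : MeasurableSet (count_cell n) := by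
  have h1 : count_cell n =
      ⋂ i : Fin n, (fun x : E0 (n + 1) => (x : V (n + 1)) i.castSucc) ⁻¹' Ico (0 : ℝ) 1 := by
    ext x
    simp [count_cell]
  rw [h1]
  refine MeasurableSet.iInter fun i => ?_
  have h2 : Continuous (fun x : E0 (n + 1) => (x : V (n + 1)) i.castSucc) :=
    (EuclideanSpace.proj (𝕜 := ℝ) i.castSucc).continuous.comp continuous_subtype_val
  exact h2.measurable measurableSet_Ico

private theorem count_norm {n : ℕ} {x : E0 (n + 1)} (hx : x ∈ count_cell n) :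
    ‖x‖ ≤ 2 * (n : ℝ) := by
  have h1 : ‖x‖ = ‖(x : V (n + 1))‖ := rfl
  have h0 := mem_E0.1 x.2
  rw [Fin.sum_univ_castSucc] at h0
  have h3 : ∀ i : Fin n, |(x : V (n + 1)) i.castSucc| ≤ 1 := by
    intro i
    have h4 := hx i
    rw [abs_le]
    constructor <;> linarith [h4.1, h4.2]
  have h5 : |(x : V (n + 1)) (Fin.last n)| ≤ n := by
    have h6 : (x : V (n + 1)) (Fin.last n) = -∑ i : Fin n, (x : V (n + 1)) i.castSucc := by
      linarith
    rw [h6, abs_neg]
    refine (Finset.abs_sum_le_sum_abs _ _).trans ?_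
    refine (Finset.sum_le_sum fun i _ => h3 i).trans ?_
    simp
  have h7 : ‖(x : V (n + 1))‖ ≤ ∑ i, |(x : V (n + 1)) i| := by
    rw [EuclideanSpace.norm_eq]
    refine Real.sqrt_le_iff.2 ⟨Finset.sum_nonneg fun i _ => abs_nonneg _, ?_⟩
    have h8 : ∀ i, ‖(x : V (n + 1)) i‖ ^ 2 = |(x : V (n + 1)) i| ^ 2 := fun i => by
      rw [Real.norm_eq_abs]
    rw [Finset.sum_congr rfl fun i _ => h8 i]
    exact Finset.sum_sq_le_sq_sum_of_nonneg fun i _ => abs_nonneg _
  rw [h1]
  refine h7.trans ?_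
  rw [Fin.sum_univ_castSucc]
  have h9 : ∑ i : Fin n, |(x : V (n + 1)) i.castSucc| ≤ n := by
    refine (Finset.sum_le_sum fun i _ => h3 i).trans ?_
    simp
  linarith

theorem count {n : ℕ} (hn : 1 ≤ n) {X : Set (V (n + 1))} (hX : IsCompact X) (hXH : X ⊆ Hp (n + 1))
    {η : ℝ} (hη : 0 < η) :
    ∃ N0 : ℕ, ∀ N ≥ N0, ∀ (T : Finset (Fin (n + 1) → ℕ)) (v : V (n + 1)),
      (∀ x ∈ T, pv N x + v ∈ X) →
      (T.card : ℝ) * Real.sqrt ((n : ℝ) + 1) ≤ (N : ℝ) ^ n * ((μHE[n] X).toReal + η) := by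
  classical
  let p0 : V (n + 1) := EuclideanSpace.single ⟨0, by omega⟩ (1 : ℝ)
  have hp : p0 ∈ Hp (n + 1) := by simp [Hp, p0]
  set Y : Set (E0 (n + 1)) := io p0 ⁻¹' X with hY
  have hYc : IsCompact Y := (io_isometry p0).isClosedEmbedding.isCompact_preimage hX
  have hvol : μHE[n] X = volume Y := by
    have h1 := mu_eq (k := n + 1) (by omega) hp X
    rw [inter_eq_left.2 hXH] at h1
    exact h1
  have hYf : volume Y ≠ ⊤ := hYc.measure_lt_top.ne
  have hlim : Tendsto (fun r => volume (cthickening r Y)) (𝓝 0) (𝓝 (volume Y)) :=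
    tendsto_measure_cthickening_of_isClosed ⟨1, one_pos,
      (hYc.isBounded.cthickening.measure_lt_top).ne⟩ hYc.isClosed
  have hlim2 : Tendsto (fun N : ℕ => 2 * (n : ℝ) / (N : ℝ)) atTop (𝓝 0) :=
    tendsto_const_div_atTop_nhds_zero_nat _
  have hev : ∀ᶠ N : ℕ in atTop,
      volume (cthickening (2 * (n : ℝ) / (N : ℝ)) Y) < volume Y + ENNReal.ofReal η := by
    refine (hlim.comp hlim2).eventually (gt_mem_nhds ?_)
    exact ENNReal.lt_add_right hYf (by
      rw [Ne, ENNReal.ofReal_eq_zero, not_le]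
      exact hη)
  obtain ⟨N0, hN0⟩ := eventually_atTop.1 (hev.and (eventually_ge_atTop 1))
  refine ⟨N0, fun N hN T v hT => ?_⟩
  obtain ⟨hNv, hN1⟩ := hN0 N hN
  have hNpos : (0 : ℝ) < N := by exact_mod_cast hN1
  have h1 : ∀ x ∈ T, ∃ e : E0 (n + 1), (e : V (n + 1)) + p0 = pv N x + v := by
    intro x hx
    have h2 : pv N x + v ∈ range (io p0) := by
      rw [range_io hp]
      exact hXH (hT x hx)
    exact h2
  choose! e he using h1
  let S : (Fin (n + 1) → ℕ) → Set (E0 (n + 1)) := fun x => e x +ᵥ ((1 / (N : ℝ)) • count_cell n)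
  have hSm : ∀ x ∈ T, MeasurableSet (S x) := fun x _ =>
    ((count_meas n).const_smul₀ _).const_vadd _
  have hfin : finrank ℝ (E0 (n + 1)) = n := by
    rw [finrank_E0 (by omega)]
    omega
  have hSv : ∀ x ∈ T, volume (S x) =
      ENNReal.ofReal ((1 / (N : ℝ)) ^ n * Real.sqrt ((n : ℝ) + 1)) := by
    intro x _
    have h2 : volume (S x) = volume ((1 / (N : ℝ)) • count_cell n) := measure_vadd _ _ _
    rw [h2, Measure.addHaar_smul, hfin]
    have h3 : volume (count_cell n) = ENNReal.ofReal (Real.sqrt ((n : ℝ) + 1)) := vol_cell n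
    rw [h3, abs_of_nonneg (by positivity), ← ENNReal.ofReal_mul (by positivity)]
  -- membership in a cell
  have hmem : ∀ x, ∀ y ∈ S x, ∃ c ∈ count_cell n, (y : V (n + 1)) = e x + (1 / (N : ℝ)) • c := by
    intro x y hy
    obtain ⟨z, hz, rfl⟩ := mem_vadd_set.1 hy
    obtain ⟨c, hc, rfl⟩ := mem_smul_set.1 hz
    exact ⟨c, hc, rfl⟩
  have hdisj : (T : Set (Fin (n + 1) → ℕ)).PairwiseDisjoint S := by
    intro x hx x' hx' hne
    rw [Function.onFun, Set.disjoint_left]
    intro y hy hy'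
    apply hne
    obtain ⟨c, hc, h2⟩ := hmem x y hy
    obtain ⟨c', hc', h3⟩ := hmem x' y hy'
    have hxe := he x hx
    have hxe' := he x' hx'
    have h4 : ∀ i : Fin (n + 1), (x i : ℝ) + (c : V (n + 1)) i = (x' i : ℝ) + (c' : V (n + 1)) i := by
      intro i
      have h5 := congrArg (fun z : V (n + 1) => z i) (h2.symm.trans h3)
      have h6 := congrArg (fun z : V (n + 1) => z i) hxe
      have h7 := congrArg (fun z : V (n + 1) => z i) hxe'
      simp only [PiLp.add_apply, PiLp.smul_apply, smul_eq_mul, pv] at h5 h6 h7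
      have h8 : (x i : ℝ) / N + 1 / N * (c : V (n + 1)) i =
          (x' i : ℝ) / N + 1 / N * (c' : V (n + 1)) i := by linarith
      field_simp at h8
      exact h8
    have h9 : ∀ i : Fin n, x i.castSucc = x' i.castSucc := by
      intro i
      have h10 := h4 i.castSucc
      have h11 := hc i
      have h12 := hc' i
      have h13 : ((x i.castSucc : ℕ) : ℝ) < x' i.castSucc + 1 := by
        linarith [h11.1, h11.2, h12.1, h12.2]
      have h14 : ((x' i.castSucc : ℕ) : ℝ) < x i.castSucc + 1 := by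
        linarith [h11.1, h11.2, h12.1, h12.2]
      have h15 : x i.castSucc < x' i.castSucc + 1 := by exact_mod_cast h13
      have h16 : x' i.castSucc < x i.castSucc + 1 := by exact_mod_cast h14
      omega
    have h17 : ∑ i, (x i : ℝ) = ∑ i, (x' i : ℝ) := by
      have h18 : ∑ i, ((x i : ℝ) + (c : V (n + 1)) i) =
          ∑ i, ((x' i : ℝ) + (c' : V (n + 1)) i) := Finset.sum_congr rfl fun i _ => h4 i
      rw [Finset.sum_add_distrib, Finset.sum_add_distrib, mem_E0.1 c.2, mem_E0.1 c'.2] at h18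
      linarith
    rw [Fin.sum_univ_castSucc, Fin.sum_univ_castSucc] at h17
    have h19 : ∑ i : Fin n, (x i.castSucc : ℝ) = ∑ i : Fin n, (x' i.castSucc : ℝ) :=
      Finset.sum_congr rfl fun i _ => by rw [h9 i]
    have h20 : x (Fin.last n) = x' (Fin.last n) := by
      have h21 : (x (Fin.last n) : ℝ) = x' (Fin.last n) := by linarith
      exact_mod_cast h21
    funext i
    refine Fin.lastCases h20 (fun i => h9 i) i
  have hsub : (⋃ x ∈ T, S x) ⊆ cthickening (2 * (n : ℝ) / (N : ℝ)) Y := by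
    intro y hy
    obtain ⟨x, hx, hyx⟩ := mem_iUnion₂.1 hy
    obtain ⟨c, hc, h2⟩ := hmem x y hyx
    have h3 : e x ∈ Y := by
      show (e x : V (n + 1)) + p0 ∈ X
      rw [he x hx]
      exact hT x hx
    refine mem_cthickening_of_dist_le y (e x) _ Y h3 ?_
    have h4 : dist y (e x) = ‖(1 / (N : ℝ)) • c‖ := by
      rw [dist_eq_norm]
      congr 1
      apply Subtype.ext
      show (y : V (n + 1)) - e x = _
      rw [h2]
      simp
    rw [h4, norm_smul, Real.norm_of_nonneg (by positivity)]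
    have h5 := count_norm hc
    calc 1 / (N : ℝ) * ‖c‖ ≤ 1 / (N : ℝ) * (2 * (n : ℝ)) :=
          mul_le_mul_of_nonneg_left h5 (by positivity)
      _ = 2 * (n : ℝ) / (N : ℝ) := by ring
  have hsum : ∑ x ∈ T, volume (S x) = volume (⋃ x ∈ T, S x) :=
    (measure_biUnion_finset hdisj hSm).symm
  have h2 : ∑ x ∈ T, volume (S x) ≤ volume Y + ENNReal.ofReal η := by
    rw [hsum]
    exact (measure_mono hsub).trans hNv.le
  rw [Finset.sum_congr rfl hSv, Finset.sum_const, nsmul_eq_mul] at h2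
  have h3 : ((T.card : ENNReal) * ENNReal.ofReal ((1 / (N : ℝ)) ^ n * Real.sqrt ((n : ℝ) + 1))).toReal
      ≤ (volume Y + ENNReal.ofReal η).toReal :=
    ENNReal.toReal_mono (ENNReal.add_ne_top.2 ⟨hYf, ENNReal.ofReal_ne_top⟩) h2
  rw [ENNReal.toReal_mul, ENNReal.toReal_natCast, ENNReal.toReal_ofReal (by positivity),
    ENNReal.toReal_add hYf ENNReal.ofReal_ne_top, ENNReal.toReal_ofReal hη.le, ← hvol] at h3
  have h4 : (0 : ℝ) < (N : ℝ) ^ n := by positivity
  calc (T.card : ℝ) * Real.sqrt ((n : ℝ) + 1)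
      = (N : ℝ) ^ n * ((T.card : ℝ) * ((1 / (N : ℝ)) ^ n * Real.sqrt ((n : ℝ) + 1))) := by
        rw [one_div, inv_pow]
        field_simp
    _ ≤ (N : ℝ) ^ n * ((μHE[n] X).toReal + η) := mul_le_mul_of_nonneg_left h3 h4.le

end SX
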