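import Pool.Agent.H27.SX.CovAux
import Pool.Agent.H27.SX.Col
import Pool.Agent.H27.SX.Count

/-!
# SX-8: the limit argument
-/

set_option autoImplicit false
set_option linter.all false

open MeasureTheory Metric Set Filter Module
open scoped Topology MeasureTheory RealInnerProductSpace Nat Pointwise

namespace SX

open SP SP.Mea

theorem cov {m : ℕ} {A : Fin (m + 3) → Set (V (m + 3))} (hA : Adm0 (m + 3) A)
    {ι : Type} [Fintype ι] (K : ι → Set (V (m + 3))) (hK : ∀ i, IsOpen (K i))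
    (hKb : ∀ i, Bornology.IsBounded (K i)) (hcov : meet (m + 3) A 3 ⊆ ⋃ i, K i)
    (ε : ι → ℝ) (hε : ∀ i, 0 < ε i) :
    Real.sqrt ((m : ℝ) + 3) / (m ! : ℝ) ≤
      ∑ i, 2 * (μHE[m + 2] (closure (K i ∩ Hp (m + 3)) + ε i • D0 (m + 3))).toReal / ε i ^ 2 :=
  CovAux_cov K hKb (discrete_cov hA K hK hcov)
    (fun X hX hXH η hη => count (n := m + 2) (by omega) hX hXH hη) ε hε

end SX
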