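import Pool.Agent.H27.SX.Defs

/-!
# SX-8: the limit argument, relative to the discrete inequality and to the lattice count
-/

set_option autoImplicit false
set_option linter.all false

open MeasureTheory Metric Set Filter Module
open scoped Topology MeasureTheory RealInnerProductSpace Nat Pointwise

namespace SX

open SP SP.Mea

theorem CovAux_D0_compact (k : ℕ) : IsCompact (D0 k) := by
  apply Metric.isCompact_of_isClosed_isBounded
  · have h : D0 k = {x : V k | ∑ i, x i = 0} ∩ ⋂ i, {x : V k | -(1 / (k : ℝ)) ≤ x i} := by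
      ext x
      simp [D0]
    rw [h]
    refine IsClosed.inter ?_ (isClosed_iInter fun i => ?_)
    · exact isClosed_eq (by fun_prop) continuous_const
    · exact isClosed_le continuous_const (by fun_prop)
  · rw [isBounded_iff_forall_norm_le]
    refine ⟨Real.sqrt (∑ _i : Fin k, ((k : ℝ) + 1) ^ 2), fun x hx => ?_⟩
    rw [EuclideanSpace.norm_eq]
    apply Real.sqrt_le_sqrt
    apply Finset.sum_le_sum
    intro i _
    rw [Real.norm_eq_abs]
    have hk : (1 : ℝ) ≤ k := by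
      have : 1 ≤ k := by
        have := i.2
        omega
      exact_mod_cast this
    have hk1 : 1 / (k : ℝ) ≤ 1 := by
      rw [div_le_one (by linarith)]
      exact hk
    have h1 : ∀ j, -1 ≤ x j := fun j => by
      have := hx.2 j
      linarith
    have h2 : x i ≤ k := by
      have h3 := hx.1
      rw [← Finset.add_sum_erase _ _ (Finset.mem_univ i)] at h3
      have h4 : ∑ j ∈ Finset.univ.erase i, (-1 : ℝ) ≤ ∑ j ∈ Finset.univ.erase i, x j :=
        Finset.sum_le_sum fun j _ => h1 j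
      rw [Finset.sum_const, Finset.card_erase_of_mem (Finset.mem_univ i), Finset.card_univ,
        Fintype.card_fin, nsmul_eq_mul] at h4
      have h5 : ((k - 1 : ℕ) : ℝ) ≤ k := by
        exact_mod_cast Nat.sub_le k 1
      linarith
    have h6 : |x i| ≤ (k : ℝ) + 1 := by
      rw [abs_le]
      constructor
      · have := h1 i
        linarith
      · linarith
    exact pow_le_pow_left₀ (abs_nonneg _) h6 2

theorem CovAux_Hp_closed (k : ℕ) : IsClosed (Hp k) := by
  have h : Hp k = {x : V k | ∑ i, x i = 1} := rfl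
  rw [h]
  exact isClosed_eq (by fun_prop) continuous_const

theorem CovAux_X_compact {k : ℕ} {K : Set (V k)} (hKb : Bornology.IsBounded K) (ε : ℝ) :
    IsCompact (closure (K ∩ Hp k) + ε • D0 k) := by
  refine IsCompact.add ?_ ((CovAux_D0_compact k).smul ε)
  exact (hKb.subset inter_subset_left).isCompact_closure

theorem CovAux_X_sub {k : ℕ} (K : Set (V k)) (ε : ℝ) :
    closure (K ∩ Hp k) + ε • D0 k ⊆ Hp k := by
  rintro _ ⟨x, hx, _, ⟨d, hd, rfl⟩, rfl⟩
  have h1 : x ∈ Hp k := by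
    have := closure_mono (inter_subset_right : K ∩ Hp k ⊆ Hp k) hx
    rwa [(CovAux_Hp_closed k).closure_eq] at this
  have h2 := hd.1
  simp only [Hp, mem_ofPred_eq] at h1 ⊢
  simp only [PiLp.add_apply, PiLp.smul_apply, smul_eq_mul, Finset.sum_add_distrib,
    ← Finset.mul_sum, h1, h2]
  ring

theorem CovAux_mem {k N R : ℕ} (hk : 1 ≤ k) (hN : 1 ≤ N) {K : Set (V k)} {ε : ℝ} (hε : 0 < ε)
    (hR : (R : ℝ) ≤ ε * N) (x : Fin k → ℕ) (hx : x ∈ WN N K + smp k R) :
    pv N x + WithLp.toLp 2 (fun _ => -((R : ℝ) / N * (1 / (k : ℝ)))) ∈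
      closure (K ∩ Hp k) + ε • D0 k := by
  classical
  have hN0 : (0 : ℝ) < N := by exact_mod_cast hN
  have hk0 : (0 : ℝ) < k := by exact_mod_cast hk
  rw [Finset.mem_add] at hx
  obtain ⟨y, hy, r, hr, rfl⟩ := hx
  unfold WN at hy
  rw [Finset.mem_filter] at hy
  obtain ⟨hy1, hy2⟩ := hy
  unfold smp at hy1 hr
  rw [Finset.mem_piAntidiag] at hy1 hr
  refine ⟨pv N y, subset_closure ⟨hy2, ?_⟩, pv N r + WithLp.toLp 2 (fun _ => -((R : ℝ) / N * (1 / (k : ℝ)))),
    ?_, ?_⟩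
  · simp only [Hp, mem_ofPred_eq, pv]
    rw [← Finset.sum_div, ← Nat.cast_sum, hy1.1]
    exact div_self hN0.ne'
  · refine ⟨ε⁻¹ • (pv N r + WithLp.toLp 2 (fun _ => -((R : ℝ) / N * (1 / (k : ℝ))))), ⟨?_, ?_⟩, ?_⟩
    · simp only [pv, PiLp.add_apply, PiLp.smul_apply, smul_eq_mul]
      rw [← Finset.mul_sum, Finset.sum_add_distrib, ← Finset.sum_div, ← Nat.cast_sum, hr.1]
      rw [Finset.sum_const, Finset.card_univ, Fintype.card_fin, nsmul_eq_mul]
      have : (k : ℝ) * -((R : ℝ) / N * (1 / (k : ℝ))) = -((R : ℝ) / N) := by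
        field_simp
      rw [this]
      ring
    · intro i
      simp only [pv, PiLp.add_apply, PiLp.smul_apply, smul_eq_mul]
      have h1 : (0 : ℝ) ≤ (r i : ℝ) / N := by positivity
      have h2 : (R : ℝ) / N ≤ ε := by
        rw [div_le_iff₀ hN0]
        exact hR
      have h3 : (R : ℝ) / N * (1 / (k : ℝ)) ≤ ε * (1 / (k : ℝ)) :=
        mul_le_mul_of_nonneg_right h2 (by positivity)
      have h4 : ε⁻¹ * (-(ε * (1 / (k : ℝ)))) = -(1 / (k : ℝ)) := by
        field_simp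
      rw [← h4]
      apply mul_le_mul_of_nonneg_left _ (by positivity)
      linarith
    · simp only [smul_smul, mul_inv_cancel₀ hε.ne', one_smul]
  · simp only [← add_assoc]
    congr 1
    ext i
    simp only [pv, PiLp.add_apply, Pi.add_apply]
    push_cast
    ring

/-- the limit argument: `hdc` is `discrete_cov`, `hct` is `count` -/
theorem CovAux_cov {m : ℕ} {ι : Type} [Fintype ι] (K : ι → Set (V (m + 3)))
    (hKb : ∀ i, Bornology.IsBounded (K i))
    (hdc : ∃ N0 : ℕ, ∀ N ≥ N0, ∀ R : ι → ℕ, ((N + m).choose m : ℝ) ≤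
      ∑ i, ((WN N (K i) + smp (m + 3) (R i)).card : ℝ) / ((R i + 2).choose 2 : ℝ))
    (hct : ∀ X : Set (V (m + 2 + 1)), IsCompact X → X ⊆ Hp (m + 2 + 1) → ∀ η : ℝ, 0 < η →
      ∃ N0 : ℕ, ∀ N ≥ N0, ∀ (T : Finset (Fin (m + 2 + 1) → ℕ)) (v : V (m + 2 + 1)),
      (∀ x ∈ T, pv N x + v ∈ X) →
      (T.card : ℝ) * Real.sqrt (((m + 2 : ℕ) : ℝ) + 1) ≤
        (N : ℝ) ^ (m + 2) * ((μHE[m + 2] X).toReal + η))
    (ε : ι → ℝ) (hε : ∀ i, 0 < ε i) :
    Real.sqrt ((m : ℝ) + 3) / (m ! : ℝ) ≤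
      ∑ i, 2 * (μHE[m + 2] (closure (K i ∩ Hp (m + 3)) + ε i • D0 (m + 3))).toReal / ε i ^ 2 := by
  classical
  have hsq : Real.sqrt (((m + 2 : ℕ) : ℝ) + 1) = Real.sqrt ((m : ℝ) + 3) := by
    congr 1
    push_cast
    ring
  rw [hsq] at hct
  set M : ι → ℝ := fun i =>
    (μHE[m + 2] (closure (K i ∩ Hp (m + 3)) + ε i • D0 (m + 3))).toReal with hM
  have key : ∀ η : ℝ, 0 < η → Real.sqrt ((m : ℝ) + 3) / (m ! : ℝ) ≤
      ∑ i, 2 * (M i + η) / ε i ^ 2 := by
    intro η hη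
    have h1 : ∀ i, ∃ N0 : ℕ, ∀ N ≥ N0, ∀ (T : Finset (Fin (m + 2 + 1) → ℕ)) (v : V (m + 2 + 1)),
        (∀ x ∈ T, pv N x + v ∈ closure (K i ∩ Hp (m + 3)) + ε i • D0 (m + 3)) →
        (T.card : ℝ) * Real.sqrt ((m : ℝ) + 3) ≤ (N : ℝ) ^ (m + 2) * (M i + η) := fun i =>
      hct _ (CovAux_X_compact (hKb i) (ε i)) (CovAux_X_sub (K i) (ε i)) η hη
    choose N1 hN1 using h1
    obtain ⟨N0, hN0⟩ := hdc
    obtain ⟨N, hN, hNi, hNp⟩ : ∃ N : ℕ, N0 ≤ N ∧ (∀ i, N1 i ≤ N) ∧ 1 ≤ N := by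
      refine ⟨N0 + ∑ i, N1 i + 1, by omega, fun i => ?_, by omega⟩
      have := Finset.single_le_sum (f := N1) (fun j _ => Nat.zero_le _) (Finset.mem_univ i)
      omega
    have hNR : (0 : ℝ) < N := by exact_mod_cast hNp
    set R : ι → ℕ := fun i => ⌊ε i * N⌋₊ with hRdef
    have h2 := hN0 N hN R
    have h3 : (N : ℝ) ^ m / (m ! : ℝ) ≤ ((N + m).choose m : ℝ) := by
      have h4 := Nat.pow_le_choose (α := ℝ) m (N + m)
      refine le_trans ?_ h4
      apply div_le_div_of_nonneg_right _ (by positivity)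
      have h5 : N + m + 1 - m = N + 1 := by omega
      rw [h5]
      push_cast
      exact pow_le_pow_left₀ hNR.le (by linarith) m
    have h6 : ∀ i, Real.sqrt ((m : ℝ) + 3) *
        (((WN N (K i) + smp (m + 3) (R i)).card : ℝ) / ((R i + 2).choose 2 : ℝ)) ≤
        (N : ℝ) ^ m * (2 * (M i + η) / ε i ^ 2) := by
      intro i
      have h7 := hN1 i N (hNi i) (WN N (K i) + smp (m + 3) (R i))
        (WithLp.toLp 2 (fun _ => -((R i : ℝ) / N * (1 / ((m + 3 : ℕ) : ℝ)))))
        (fun x hx => CovAux_mem (by omega) hNp (hε i) (Nat.floor_le (by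
          have := hε i
          positivity)) x hx)
      have h8 : (ε i * N) ^ 2 / 2 ≤ ((R i + 2).choose 2 : ℝ) := by
        rw [Nat.cast_choose_two]
        push_cast
        have h9 : ε i * N < (R i : ℝ) + 1 := Nat.lt_floor_add_one _
        have h10 : 0 ≤ ε i * N := by
          have := hε i
          positivity
        have h11 : (ε i * N) ^ 2 ≤ ((R i : ℝ) + 1) ^ 2 := pow_le_pow_left₀ h10 h9.le 2
        nlinarith [(Nat.cast_nonneg (R i) : (0 : ℝ) ≤ R i)]
      have h12 : 0 < (ε i * N) ^ 2 / 2 := by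
        have := hε i
        positivity
      have hM0 : 0 ≤ M i := ENNReal.toReal_nonneg
      calc Real.sqrt ((m : ℝ) + 3) *
          (((WN N (K i) + smp (m + 3) (R i)).card : ℝ) / ((R i + 2).choose 2 : ℝ))
          = (((WN N (K i) + smp (m + 3) (R i)).card : ℝ) * Real.sqrt ((m : ℝ) + 3)) /
            ((R i + 2).choose 2 : ℝ) := by ring
        _ ≤ ((N : ℝ) ^ (m + 2) * (M i + η)) / ((R i + 2).choose 2 : ℝ) :=
            div_le_div_of_nonneg_right h7 (by positivity)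
        _ ≤ ((N : ℝ) ^ (m + 2) * (M i + η)) / ((ε i * N) ^ 2 / 2) :=
            div_le_div_of_nonneg_left (by positivity) h12 h8
        _ = (N : ℝ) ^ m * (2 * (M i + η) / ε i ^ 2) := by
            have := (hε i).ne'
            field_simp
            ring
    have h13 : (N : ℝ) ^ m * (Real.sqrt ((m : ℝ) + 3) / (m ! : ℝ)) ≤
        (N : ℝ) ^ m * ∑ i, 2 * (M i + η) / ε i ^ 2 := by
      calc (N : ℝ) ^ m * (Real.sqrt ((m : ℝ) + 3) / (m ! : ℝ))
          = Real.sqrt ((m : ℝ) + 3) * ((N : ℝ) ^ m / (m ! : ℝ)) := by ring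
        _ ≤ Real.sqrt ((m : ℝ) + 3) * ((N + m).choose m : ℝ) :=
            mul_le_mul_of_nonneg_left h3 (Real.sqrt_nonneg _)
        _ ≤ Real.sqrt ((m : ℝ) + 3) *
            ∑ i, ((WN N (K i) + smp (m + 3) (R i)).card : ℝ) / ((R i + 2).choose 2 : ℝ) :=
            mul_le_mul_of_nonneg_left h2 (Real.sqrt_nonneg _)
        _ = ∑ i, Real.sqrt ((m : ℝ) + 3) *
            (((WN N (K i) + smp (m + 3) (R i)).card : ℝ) / ((R i + 2).choose 2 : ℝ)) :=
            Finset.mul_sum _ _ _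
        _ ≤ ∑ i, (N : ℝ) ^ m * (2 * (M i + η) / ε i ^ 2) := Finset.sum_le_sum fun i _ => h6 i
        _ = (N : ℝ) ^ m * ∑ i, 2 * (M i + η) / ε i ^ 2 := (Finset.mul_sum _ _ _).symm
    exact le_of_mul_le_mul_left h13 (by positivity)
  refine le_of_forall_pos_le_add fun δ hδ => ?_
  set S : ℝ := ∑ i, 2 / ε i ^ 2 with hS
  have hS0 : 0 ≤ S := Finset.sum_nonneg fun i _ => by
    have := hε i
    positivity
  have h14 := key (δ / (S + 1)) (by positivity)
  have h15 : ∑ i, 2 * (M i + δ / (S + 1)) / ε i ^ 2 =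
      ∑ i, 2 * M i / ε i ^ 2 + δ / (S + 1) * S := by
    rw [hS, Finset.mul_sum, ← Finset.sum_add_distrib]
    refine Finset.sum_congr rfl fun i _ => ?_
    ring
  rw [h15] at h14
  have h16 : δ / (S + 1) * S ≤ δ := by
    rw [div_mul_eq_mul_div, div_le_iff₀ (by linarith)]
    nlinarith
  linarith

end SX
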