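import Pool.Agent.H27.SX.Defs

/-!
Project SX (MP_38b231_co), row SX-16 (helper36): grid cover of a flat compact set by thick cubes.
-/

set_option autoImplicit false

open MeasureTheory Metric Set Filter Module
open scoped Topology MeasureTheory RealInnerProductSpace Nat Pointwise

namespace SX

open SP SP.Mea

/-- half open grid cube -/
def x16_cube {m : ℕ} (r : ℝ) (c : Fin m → ℤ) : Set (EuclideanSpace ℝ (Fin m)) :=
  {y | ∀ a, (c a : ℝ) * r ≤ y a ∧ y a < ((c a : ℝ) + 1) * r}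

theorem x16_cube_eq {m : ℕ} (r : ℝ) (c : Fin m → ℤ) : x16_cube r c =
    (WithLp.ofLp : EuclideanSpace ℝ (Fin m) → Fin m → ℝ) ⁻¹'
      (Set.univ.pi fun a => Ico ((c a : ℝ) * r) (((c a : ℝ) + 1) * r)) := by
  ext y
  simp [x16_cube, Set.mem_pi, Set.mem_Ico]

theorem x16_meas {m : ℕ} (r : ℝ) (c : Fin m → ℤ) : MeasurableSet (x16_cube r c) := by
  rw [x16_cube_eq]
  exact (MeasurableSet.univ_pi fun a => measurableSet_Ico).preimage
    (PiLp.continuous_ofLp 2 _).measurable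

theorem x16_vol {m : ℕ} {r : ℝ} (hr : 0 < r) (c : Fin m → ℤ) :
    volume (x16_cube r c) = ENNReal.ofReal (r ^ m) := by
  rw [x16_cube_eq, (PiLp.volume_preserving_ofLp (Fin m)).measure_preimage
    (MeasurableSet.univ_pi fun a => measurableSet_Ico).nullMeasurableSet, Real.volume_pi_Ico]
  have : ∀ a : Fin m, ENNReal.ofReal (((c a : ℝ) + 1) * r - (c a : ℝ) * r) =
      ENNReal.ofReal r := fun a => by congr 1; ring
  simp only [this]
  rw [Finset.prod_const, Finset.card_univ, Fintype.card_fin, ENNReal.ofReal_pow hr.le]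

theorem x16_disj {m : ℕ} {r : ℝ} (hr : 0 < r) {c c' : Fin m → ℤ} (h : c ≠ c') :
    Disjoint (x16_cube r c) (x16_cube r c') := by
  rw [Set.disjoint_left]
  intro y hy hy'
  apply h
  funext a
  have h1 := hy a
  have h2 := hy' a
  have h3 : (c a : ℝ) * r < ((c' a : ℝ) + 1) * r := h1.1.trans_lt h2.2
  have h4 : (c' a : ℝ) * r < ((c a : ℝ) + 1) * r := h2.1.trans_lt h1.2
  have h5 : (c a : ℝ) < (c' a : ℝ) + 1 := lt_of_mul_lt_mul_right h3 hr.le
  have h6 : (c' a : ℝ) < (c a : ℝ) + 1 := lt_of_mul_lt_mul_right h4 hr.le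
  have h7 : c a < c' a + 1 := by exact_mod_cast h5
  have h8 : c' a < c a + 1 := by exact_mod_cast h6
  omega

theorem x16_norm {m : ℕ} (hm : 1 ≤ m) {M : ℝ} (hM : 0 ≤ M) (y : EuclideanSpace ℝ (Fin m))
    (hy : ∀ a, |y a| ≤ M) : ‖y‖ ≤ m * M := by
  rw [EuclideanSpace.norm_eq]
  apply Real.sqrt_le_iff.2
  have hm' : (1 : ℝ) ≤ m := by exact_mod_cast hm
  refine ⟨by positivity, ?_⟩
  calc ∑ i, ‖y i‖ ^ 2 ≤ ∑ _i : Fin m, M ^ 2 := Finset.sum_le_sum fun i _ => by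
        rw [Real.norm_eq_abs]
        exact pow_le_pow_left₀ (abs_nonneg _) (hy i) 2
    _ = m * M ^ 2 := by simp
    _ ≤ (m * M) ^ 2 := by
        rw [mul_pow]
        exact mul_le_mul_of_nonneg_right (by nlinarith) (sq_nonneg M)

theorem x16_count {m : ℕ} (hm : 1 ≤ m) {F : Set (EuclideanSpace ℝ (Fin m))} (hF : IsCompact F)
    {r : ℝ} (hr : 0 < r) (C : Finset (Fin m → ℤ))
    (hC : ∀ c ∈ C, (x16_cube r c ∩ F).Nonempty) :
    (C.card : ℝ) * r ^ m ≤ (volume (cthickening (m * r) F)).toReal := by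
  have hsub : (⋃ c ∈ C, x16_cube r c) ⊆ cthickening (m * r) F := by
    intro y hy
    simp only [Set.mem_iUnion] at hy
    obtain ⟨c, hc, hyc⟩ := hy
    obtain ⟨y₀, hy₀, hF₀⟩ := hC c hc
    refine mem_cthickening_of_dist_le y y₀ _ _ hF₀ ?_
    rw [dist_eq_norm]
    refine x16_norm hm hr.le _ fun a => ?_
    have h1 := hyc a
    have h2 := hy₀ a
    rw [PiLp.sub_apply, abs_le]
    constructor <;> nlinarith
  have hfin : volume (cthickening (m * r) F) ≠ ⊤ := hF.cthickening.measure_lt_top.ne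
  have h1 : volume (⋃ c ∈ C, x16_cube r c) = (C.card : ENNReal) * ENNReal.ofReal (r ^ m) := by
    rw [measure_biUnion_finset (fun c _ c' _ h => x16_disj hr h) fun c _ => x16_meas r c]
    rw [Finset.sum_congr rfl fun c _ => x16_vol hr c, Finset.sum_const, nsmul_eq_mul]
  have h2 := measure_mono (μ := volume) hsub
  rw [h1] at h2
  have h3 := ENNReal.toReal_mono hfin h2
  rw [ENNReal.toReal_mul, ENNReal.toReal_natCast, ENNReal.toReal_ofReal (by positivity)] at h3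
  exact h3

theorem x16_inner_sum {k m : ℕ} {w : Fin m → V k} (hw : Fr w) (β : Fin m → ℝ) (a : Fin m) :
    ⟪w a, ∑ c, β c • w c⟫ = β a := hw.1.inner_right_fintype β a

theorem x16_rs_sub {k m : ℕ} {w : Fin m → V k} (hw : Fr w) (x : V k) (β : Fin m → ℝ) :
    rs w (x - ∑ c, β c • w c) = rs w x := by
  unfold rs
  have : ∀ a, ⟪w a, x - ∑ c, β c • w c⟫ = ⟪w a, x⟫ - β a := fun a => by
    rw [inner_sub_right, x16_inner_sum hw]
  simp only [this, sub_smul, Finset.sum_sub_distrib]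
  abel

theorem x16_norm_le {k m : ℕ} {w : Fin m → V k} (hw : Fr w) (x : V k) {M : ℝ}
    (hM : ∀ a, |⟪w a, x⟫| ≤ M) : ‖x‖ ≤ m * M + ‖rs w x‖ := by
  have h1 : x = (∑ a, ⟪w a, x⟫ • w a) + rs w x := by
    unfold rs
    abel
  calc ‖x‖ = ‖(∑ a, ⟪w a, x⟫ • w a) + rs w x‖ := by rw [← h1]
    _ ≤ ‖∑ a, ⟪w a, x⟫ • w a‖ + ‖rs w x‖ := norm_add_le _ _
    _ ≤ m * M + ‖rs w x‖ := by
        gcongr
        calc ‖∑ a, ⟪w a, x⟫ • w a‖ ≤ ∑ a, ‖⟪w a, x⟫ • w a‖ := norm_sum_le _ _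
          _ ≤ ∑ _a : Fin m, M := Finset.sum_le_sum fun a _ => by
              rw [norm_smul, hw.1.1 a, mul_one, Real.norm_eq_abs]
              exact hM a
          _ = m * M := by simp

theorem x16_scale {m : ℕ} {F : Set (EuclideanSpace ℝ (Fin m))} (hF : IsCompact F) {θ : ℝ}
    (hθ : 0 < θ) : ∃ δ : ℝ, 0 < δ ∧ ∀ ρ : ℝ, 0 ≤ ρ → ρ < δ →
      (volume (cthickening ρ F)).toReal ≤ (volume F).toReal + θ := by
  have h1 : Tendsto (fun ρ => volume (cthickening ρ F)) (𝓝 0) (𝓝 (volume F)) :=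
    tendsto_measure_cthickening_of_isCompact hF
  have h2 : Tendsto (fun ρ => (volume (cthickening ρ F)).toReal) (𝓝 0)
      (𝓝 (volume F).toReal) := (ENNReal.tendsto_toReal hF.measure_lt_top.ne).comp h1
  have h3 : ∀ᶠ ρ in 𝓝 (0 : ℝ), (volume (cthickening ρ F)).toReal < (volume F).toReal + θ :=
    h2.eventually_lt_const (by linarith)
  obtain ⟨δ, hδ, h4⟩ := Metric.eventually_nhds_iff.1 h3
  refine ⟨δ, hδ, fun ρ h0 h => (h4 ?_).le⟩
  rw [Real.dist_eq, sub_zero, abs_of_nonneg h0]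
  exact h

theorem cubes {k m : ℕ} (hm : 1 ≤ m) (w : Fin m → V k) (hw : Fr w) {K : Set (V k)}
    (hK : IsCompact K) (hH : K ⊆ Hp k) {η : ℝ} (hη : 0 < η) (hη2 : η ≤ 1 / 2)
    (hF : Flat η w K) {θ : ℝ} (hθ : 0 < θ) :
    ∃ (r : ℝ) (T : Finset (V k)), 0 < r ∧ r < θ ∧ (∀ p ∈ T, p ∈ Hp k) ∧
      K ⊆ ⋃ p ∈ T, TCo w p r (4 * m * η * r) ∧
      (T.card : ℝ) * r ^ m ≤ (volume (cw w '' K)).toReal + θ := by
  classical
  have hm' : (1 : ℝ) ≤ m := by exact_mod_cast hm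
  have hcw : Continuous (cw w) := by
    unfold cw
    exact (PiLp.continuous_toLp 2 _).comp
      (continuous_pi fun a => continuous_const.inner continuous_id)
  have hFc : IsCompact (cw w '' K) := hK.image hcw
  obtain ⟨δ, hδ, hvol⟩ := x16_scale hFc (half_pos hθ)
  -- the scale of the grid
  obtain ⟨r₀, hr₀, hr₀θ, hr₀δ⟩ : ∃ r₀ : ℝ, 0 < r₀ ∧ r₀ < θ ∧ m * r₀ < δ := by
    refine ⟨min (θ / 2) (δ / (2 * m)), by positivity, ?_, ?_⟩
    · exact (min_le_left _ _).trans_lt (by linarith)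
    · calc (m : ℝ) * min (θ / 2) (δ / (2 * m)) ≤ m * (δ / (2 * m)) :=
            mul_le_mul_of_nonneg_left (min_le_right _ _) (by positivity)
        _ = δ / 2 := by field_simp
        _ < δ := by linarith
  let idx : V k → Fin m → ℤ := fun x a => ⌊⟪w a, x⟫ / r₀⌋
  have hidx : ∀ x a, (idx x a : ℝ) * r₀ ≤ ⟪w a, x⟫ ∧ ⟪w a, x⟫ < ((idx x a : ℝ) + 1) * r₀ := by
    intro x a
    constructor
    · rw [← le_div_iff₀ hr₀]
      exact Int.floor_le _
    · rw [← div_lt_iff₀ hr₀]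
      exact Int.lt_floor_add_one _
  -- finitely many cubes
  obtain ⟨R, hR⟩ := hK.isBounded.exists_norm_le
  have hfin : (idx '' K).Finite := by
    obtain ⟨N, hN⟩ := exists_nat_gt (R / r₀ + 1)
    refine (Set.finite_Icc (fun _ : Fin m => -(N : ℤ)) (fun _ => (N : ℤ))).subset ?_
    rintro _ ⟨x, hx, rfl⟩
    have h1 : ∀ a, |⟪w a, x⟫ / r₀| ≤ R / r₀ := by
      intro a
      rw [abs_div, abs_of_pos hr₀]
      gcongr
      calc |⟪w a, x⟫| ≤ ‖w a‖ * ‖x‖ := abs_real_inner_le_norm _ _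
        _ ≤ 1 * R := by
            rw [hw.1.1 a]
            gcongr
            exact hR x hx
        _ = R := one_mul R
    constructor
    · intro a
      show -(N : ℤ) ≤ ⌊⟪w a, x⟫ / r₀⌋
      rw [Int.le_floor]
      push_cast
      have := (abs_le.1 (h1 a)).1
      linarith
    · intro a
      show ⌊⟪w a, x⟫ / r₀⌋ ≤ (N : ℤ)
      have h2 := (abs_le.1 (h1 a)).2
      have h3 : (⌊⟪w a, x⟫ / r₀⌋ : ℝ) ≤ N := (Int.floor_le _).trans (by linarith)
      exact_mod_cast h3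
  set C := hfin.toFinset with hCdef
  have hCard : (C.card : ℝ) * r₀ ^ m ≤ (volume (cw w '' K)).toReal + θ / 2 := by
    refine (x16_count hm hFc hr₀ C ?_).trans (hvol _ (by positivity) hr₀δ)
    intro c hc
    obtain ⟨x, hx, rfl⟩ := hfin.mem_toFinset.1 hc
    exact ⟨cw w x, fun a => hidx x a, ⟨x, hx, rfl⟩⟩
  -- the size of the cubes
  obtain ⟨r, hr, hr₀r, hrθ, hrm⟩ : ∃ r : ℝ, 0 < r ∧ r₀ < r ∧ r < θ ∧
      (C.card : ℝ) * r ^ m ≤ (C.card : ℝ) * r₀ ^ m + θ / 2 := by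
    have h1 : ∀ᶠ r in 𝓝[>] r₀, (C.card : ℝ) * r ^ m < (C.card : ℝ) * r₀ ^ m + θ / 2 := by
      have hc : Continuous fun r : ℝ => (C.card : ℝ) * r ^ m := by fun_prop
      exact ((hc.tendsto r₀).mono_left nhdsWithin_le_nhds).eventually_lt_const (by linarith)
    have h2 : ∀ᶠ r in 𝓝[>] r₀, r < θ :=
      (tendsto_id.mono_left nhdsWithin_le_nhds).eventually_lt_const hr₀θ
    obtain ⟨r, ⟨h3, h4⟩, h5⟩ := ((h1.and h2).and self_mem_nhdsWithin).exists
    exact ⟨r, hr₀.trans h5, h5, h4, h3.le⟩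
  -- the base points
  let x₀ : (Fin m → ℤ) → V k := fun c => if h : ∃ x ∈ K, idx x = c then h.choose else 0
  have hx₀ : ∀ c, (∃ x ∈ K, idx x = c) → x₀ c ∈ K ∧ idx (x₀ c) = c := by
    intro c hc
    simp only [x₀, dif_pos hc]
    exact hc.choose_spec
  let β : (Fin m → ℤ) → Fin m → ℝ := fun c a => (c a : ℝ) * r₀ - (r - r₀) / 2 - ⟪w a, x₀ c⟫
  let p : (Fin m → ℤ) → V k := fun c => x₀ c + ∑ a, β c a • w a
  refine ⟨r, C.image p, hr, hrθ, ?_, ?_, ?_⟩
  · intro q hq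
    obtain ⟨c, hc, rfl⟩ := Finset.mem_image.1 hq
    have hc' := hx₀ c (hfin.mem_toFinset.1 hc)
    have h1 : ∑ i, (x₀ c) i = 1 := hH hc'.1
    show ∑ i, (x₀ c + ∑ a, β c a • w a) i = 1
    have h2 : ∀ i, (x₀ c + ∑ a, β c a • w a) i = (x₀ c) i + ∑ a, β c a * (w a) i := by
      intro i
      simp
    simp only [h2, Finset.sum_add_distrib]
    rw [h1, Finset.sum_comm]
    have h3 : ∀ a, ∑ i, β c a * (w a) i = 0 := fun a => by
      rw [← Finset.mul_sum, mem_E0.1 (hw.2 a), mul_zero]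
    simp [h3]
  · intro x hx
    have hc : idx x ∈ C := hfin.mem_toFinset.2 ⟨x, hx, rfl⟩
    obtain ⟨h1, h2⟩ := hx₀ (idx x) ⟨x, hx, rfl⟩
    refine Set.mem_biUnion (Finset.mem_coe.2 (Finset.mem_image_of_mem p hc)) ?_
    have hxp : x - p (idx x) = (x - x₀ (idx x)) - ∑ a, β (idx x) a • w a := by
      simp only [p]
      abel
    constructor
    · intro a
      have h3 : ⟪w a, x - p (idx x)⟫ = ⟪w a, x⟫ - (idx x a : ℝ) * r₀ + (r - r₀) / 2 := by
        rw [hxp, inner_sub_right, x16_inner_sum hw, inner_sub_right]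
        simp only [β]
        ring
      have h4 := hidx x a
      rw [h3]
      constructor
      · linarith
      · nlinarith
    · rw [hxp, x16_rs_sub hw]
      have h3 : ‖rs w (x - x₀ (idx x))‖ ≤ η * ‖x - x₀ (idx x)‖ := hF x hx _ h1
      have h4 : ‖x - x₀ (idx x)‖ ≤ m * r₀ + ‖rs w (x - x₀ (idx x))‖ := by
        refine x16_norm_le hw _ fun a => ?_
        have h5 := hidx x a
        have h6 := hidx (x₀ (idx x)) a
        rw [h2] at h6
        rw [inner_sub_right, abs_le]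
        constructor <;> nlinarith
      have h5 : ‖x - x₀ (idx x)‖ ≤ 2 * (m * r₀) := by
        have h6 := norm_nonneg (x - x₀ (idx x))
        nlinarith
      have h6 : η * ‖x - x₀ (idx x)‖ ≤ η * (2 * (m * r₀)) :=
        mul_le_mul_of_nonneg_left h5 hη.le
      have h7 : 0 < (m : ℝ) * η := by positivity
      have h8 : η * (2 * (m * r₀)) < 4 * m * η * r := by nlinarith
      linarith
  · have h1 : ((C.image p).card : ℝ) ≤ C.card := by exact_mod_cast Finset.card_image_le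
    have h2 : ((C.image p).card : ℝ) * r ^ m ≤ (C.card : ℝ) * r ^ m :=
      mul_le_mul_of_nonneg_right h1 (by positivity)
    linarith

end SX
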