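import Mathlib
import Pool.Agent.H27.SX.Defs

/-!
# Project SX, row SX-3: the sumset inequality
-/

set_option autoImplicit false

open Module Finset
open scoped Pointwise

namespace SX

theorem sumset_sum_ell (m : ℕ) : ∑ s, ell m s = 0 := by
  rw [Fin.sum_univ_castSucc, Fin.sum_univ_castSucc]
  have h1 : ∀ s : Fin (m + 1), ell m s.castSucc.castSucc = MvPolynomial.X s := by
    intro s
    unfold ell
    rw [dif_pos (show (s.castSucc.castSucc : Fin (m + 3)).val < m + 1 from s.2)]
    rfl
  have h2 : ell m (Fin.last (m + 1)).castSucc =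
      (∑ i : Fin (m + 1), MvPolynomial.C (i.val : ℝ) * MvPolynomial.X i)
      - MvPolynomial.C ((m : ℝ) + 2) * ∑ i : Fin (m + 1), MvPolynomial.X i := by
    unfold ell
    rw [dif_neg (by simp), if_pos (by simp)]
  have h3 : ell m (Fin.last (m + 2)) =
      MvPolynomial.C ((m : ℝ) + 1) * (∑ i : Fin (m + 1), MvPolynomial.X i)
      - ∑ i : Fin (m + 1), MvPolynomial.C (i.val : ℝ) * MvPolynomial.X i := by
    unfold ell
    rw [dif_neg (by simp), if_neg (by simp)]
  rw [h2, h3]
  simp only [h1, map_add, map_one, map_ofNat]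
  ring

theorem sumset_sum_ell' (m : ℕ) :
    ∑ s : Fin (m + 3), MvPolynomial.C (s.val : ℝ) * ell m s = 0 := by
  rw [Fin.sum_univ_castSucc, Fin.sum_univ_castSucc]
  have h1 : ∀ s : Fin (m + 1), ell m s.castSucc.castSucc = MvPolynomial.X s := by
    intro s
    unfold ell
    rw [dif_pos (show (s.castSucc.castSucc : Fin (m + 3)).val < m + 1 from s.2)]
    rfl
  have h2 : ell m (Fin.last (m + 1)).castSucc =
      (∑ i : Fin (m + 1), MvPolynomial.C (i.val : ℝ) * MvPolynomial.X i)
      - MvPolynomial.C ((m : ℝ) + 2) * ∑ i : Fin (m + 1), MvPolynomial.X i := by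
    unfold ell
    rw [dif_neg (by simp), if_pos (by simp)]
  have h3 : ell m (Fin.last (m + 2)) =
      MvPolynomial.C ((m : ℝ) + 1) * (∑ i : Fin (m + 1), MvPolynomial.X i)
      - ∑ i : Fin (m + 1), MvPolynomial.C (i.val : ℝ) * MvPolynomial.X i := by
    unfold ell
    rw [dif_neg (by simp), if_neg (by simp)]
  rw [h2, h3]
  simp only [h1, Fin.val_castSucc, Fin.val_last, Nat.cast_add, Nat.cast_one, Nat.cast_ofNat,
    map_add, map_one, map_ofNat]
  ring

/-- the ring in which the lifted forms live -/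
abbrev SumR (m : ℕ) : Type := MvPolynomial (Fin 2) (MvPolynomial (Fin (m + 1)) ℝ)

/-- the lifted forms -/
noncomputable def sumZ (m : ℕ) (s : Fin (m + 3)) : SumR m :=
  MvPolynomial.C (ell m s) +
    (if s.val < m + 1 then 0
      else if s.val = m + 1 then ((m : ℝ) + 2) • MvPolynomial.X 0 - MvPolynomial.X 1
      else MvPolynomial.X 1 - ((m : ℝ) + 1) • MvPolynomial.X 0)

theorem sumset_sumZ (m : ℕ) : ∑ s, sumZ m s = MvPolynomial.X 0 := by
  unfold sumZ
  rw [Finset.sum_add_distrib, ← map_sum, sumset_sum_ell, map_zero, zero_add,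
    Fin.sum_univ_castSucc, Fin.sum_univ_castSucc]
  have h1 : ∀ s : Fin (m + 1), (s.castSucc.castSucc : Fin (m + 3)).val < m + 1 := by
    intro s
    exact s.2
  simp only [h1, if_true, Finset.sum_const_zero, zero_add]
  rw [if_neg (by simp), if_pos (by simp), if_neg (by simp), if_neg (by simp)]
  rw [add_smul, add_smul]
  simp only [one_smul, two_smul]
  abel

theorem sumset_sumZ' (m : ℕ) : ∑ s : Fin (m + 3), (s.val : ℝ) • sumZ m s = MvPolynomial.X 1 := by
  have h0 : ∀ s : Fin (m + 3), (s.val : ℝ) • sumZ m s =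
      MvPolynomial.C (MvPolynomial.C (s.val : ℝ) * ell m s) + (s.val : ℝ) •
      (if s.val < m + 1 then (0 : SumR m)
      else if s.val = m + 1 then ((m : ℝ) + 2) • MvPolynomial.X 0 - MvPolynomial.X 1
      else MvPolynomial.X 1 - ((m : ℝ) + 1) • MvPolynomial.X 0) := by
    intro s
    unfold sumZ
    rw [smul_add]
    congr 1
    rw [map_mul, Algebra.smul_def]
    rfl
  simp only [h0]
  rw [Finset.sum_add_distrib, ← map_sum, sumset_sum_ell', map_zero, zero_add,
    Fin.sum_univ_castSucc, Fin.sum_univ_castSucc]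
  have h1 : ∀ s : Fin (m + 1), (s.castSucc.castSucc : Fin (m + 3)).val < m + 1 := by
    intro s
    exact s.2
  simp only [h1, if_true, smul_zero, Finset.sum_const_zero, zero_add]
  rw [if_neg (by simp), if_pos (by simp), if_neg (by simp), if_neg (by simp)]
  simp only [Fin.val_castSucc, Fin.val_last, Nat.cast_add, Nat.cast_one, Nat.cast_ofNat]
  module

/-- the products of `n` elements of a family span the powers of its span -/
theorem sumset_pow_le {A : Type*} [CommRing A] [Algebra ℝ A] {k : ℕ} (Z : Fin k → A) (n : ℕ) :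
    (Submodule.span ℝ (Set.range Z)) ^ n ≤
      Submodule.span ℝ ((fun ρ : Fin k → ℕ => ∏ s, Z s ^ ρ s) ''
        (smp k n : Set (Fin k → ℕ))) := by
  induction n with
  | zero =>
    rw [pow_zero, Submodule.one_le]
    apply Submodule.subset_span
    refine ⟨0, ?_, ?_⟩
    · simp [smp]
    · simp
  | succ n ih =>
    rw [pow_succ]
    refine (mul_le_mul' ih le_rfl).trans ?_
    rw [Submodule.span_mul_span]
    apply Submodule.span_mono
    rintro _ ⟨_, ⟨ρ, hρ, rfl⟩, _, ⟨s, rfl⟩, rfl⟩
    refine ⟨ρ + Pi.single s 1, ?_, ?_⟩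
    · have h1 : ∑ i, ρ i = n := (Finset.mem_piAntidiag.mp (Finset.mem_coe.mp hρ)).1
      apply Finset.mem_coe.mpr
      apply Finset.mem_piAntidiag.mpr
      refine ⟨?_, fun i _ => Finset.mem_univ i⟩
      simp only [Pi.add_apply]
      rw [Finset.sum_add_distrib, h1, Finset.sum_pi_single']
      simp
    · beta_reduce
      simp only [Pi.add_apply, pow_add]
      rw [Finset.prod_mul_distrib]
      congr 1
      rw [Finset.prod_eq_single s]
      · simp
      · intro b _ hb
        simp [Pi.single_eq_of_ne hb]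
      · intro h
        exact absurd (Finset.mem_univ s) h

/-- the products over a sumset -/
theorem sumset_mem {A : Type*} [CommRing A] [Algebra ℝ A] {k : ℕ} (Z : Fin k → A) (R : ℕ)
    (W : Finset (Fin k → ℕ)) (x : Fin k → ℕ) (hx : x ∈ W) (f : A)
    (hf : f ∈ (Submodule.span ℝ (Set.range Z)) ^ R) :
    (∏ s, Z s ^ x s) * f ∈ Submodule.span ℝ ((fun ρ : Fin k → ℕ => ∏ s, Z s ^ ρ s) ''
        ((W + smp k R : Finset (Fin k → ℕ)) : Set (Fin k → ℕ))) := by
  have hf' := sumset_pow_le Z R hf
  clear hf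
  induction hf' using Submodule.span_induction with
  | mem g hg =>
    obtain ⟨ρ, hρ, rfl⟩ := hg
    apply Submodule.subset_span
    refine ⟨x + ρ, ?_, ?_⟩
    · apply Finset.mem_coe.mpr
      exact Finset.add_mem_add hx (Finset.mem_coe.mp hρ)
    · beta_reduce
      simp only [Pi.add_apply, pow_add]
      rw [Finset.prod_mul_distrib]
  | zero =>
    rw [mul_zero]
    exact Submodule.zero_mem _
  | add g h _ _ hg hh =>
    rw [mul_add]
    exact Submodule.add_mem _ hg hh
  | smul c g _ hg =>
    rw [mul_smul_comm]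
    exact Submodule.smul_mem _ c hg

/-- pairs with sum at most `R` -/
def sumT (R : ℕ) : Finset (ℕ × ℕ) := (range (R + 1)).biUnion (fun d => antidiagonal d)

theorem mem_sumT (R : ℕ) (p : ℕ × ℕ) : p ∈ sumT R ↔ p.1 + p.2 ≤ R := by
  unfold sumT
  rw [Finset.mem_biUnion]
  constructor
  · rintro ⟨d, hd, hp⟩
    rw [Finset.HasAntidiagonal.mem_antidiagonal] at hp
    have := Finset.mem_range.mp hd
    omega
  · intro h
    exact ⟨p.1 + p.2, Finset.mem_range.mpr (by omega), Finset.HasAntidiagonal.mem_antidiagonal.mpr rfl⟩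

theorem card_sumT (R : ℕ) : (sumT R).card = (R + 2).choose 2 := by
  unfold sumT
  rw [Finset.card_biUnion]
  · simp only [Finset.Nat.card_antidiagonal]
    induction R with
    | zero => rfl
    | succ R ih =>
      rw [Finset.sum_range_succ, ih, Nat.choose_succ_succ' (R + 2) 1, Nat.choose_one_right]
      ring
  · intro a _ b _ hab
    rw [Function.onFun, Finset.disjoint_left]
    intro p hp hq
    rw [Finset.HasAntidiagonal.mem_antidiagonal] at hp hq
    exact hab (hp.symm.trans hq)

/-- the exponent of the new variables -/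
noncomputable def sumE (p : ℕ × ℕ) : Fin 2 →₀ ℕ := Finsupp.single 0 p.1 + Finsupp.single 1 p.2

theorem sumE_le (p q : ℕ × ℕ) (h : sumE p ≤ sumE q) : p.1 ≤ q.1 ∧ p.2 ≤ q.2 := by
  have h0 := h 0
  have h1 := h 1
  simp [sumE] at h0 h1
  exact ⟨h0, h1⟩

/-- independence -/
theorem sumset_indep {P : Type*} [CommRing P] [IsDomain P] [Algebra ℝ P] {r R : ℕ}
    (y : Fin r → MvPolynomial (Fin 2) P) (q : P) (hq : q ≠ 0)
    (hy : LinearIndependent ℝ (fun i => MvPolynomial.constantCoeff (y i))) :
    LinearIndependent ℝ (fun ip : Fin r × sumT R =>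
      y ip.1 * MvPolynomial.monomial (sumE ip.2.1) (q ^ (R - ip.2.1.1 - ip.2.1.2))) := by
  rw [Fintype.linearIndependent_iff]
  intro g hg
  have key : ∀ n : ℕ, ∀ p : sumT R, p.1.1 + p.1.2 = n → ∀ i, g (i, p) = 0 := by
    intro n
    induction n using Nat.strong_induction_on with
    | _ n ih =>
      intro p0 hp0
      have h1 := congrArg (MvPolynomial.coeff (sumE p0.1)) hg
      rw [MvPolynomial.coeff_sum, MvPolynomial.coeff_zero, Fintype.sum_prod_type_right,
        Finset.sum_eq_single p0] at h1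
      · have h2 : ∀ i : Fin r, MvPolynomial.coeff (sumE p0.1) (g (i, p0) • (y i *
            MvPolynomial.monomial (sumE p0.1) (q ^ (R - p0.1.1 - p0.1.2)))) =
            (g (i, p0) • MvPolynomial.constantCoeff (y i)) * q ^ (R - p0.1.1 - p0.1.2) := by
          intro i
          rw [MvPolynomial.coeff_smul, MvPolynomial.coeff_mul_monomial', if_pos le_rfl,
            tsub_self, smul_mul_assoc]
          rfl
        simp only [h2] at h1
        rw [← Finset.sum_mul] at h1
        rcases mul_eq_zero.mp h1 with h3 | h3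
        · exact (Fintype.linearIndependent_iff.mp hy) (fun i => g (i, p0)) h3
        · exact absurd h3 (pow_ne_zero _ hq)
      · intro p _ hp
        apply Finset.sum_eq_zero
        intro i _
        by_cases hlt : p.1.1 + p.1.2 < n
        · rw [ih _ hlt p rfl i, zero_smul, MvPolynomial.coeff_zero]
        · rw [MvPolynomial.coeff_smul, MvPolynomial.coeff_mul_monomial', if_neg, smul_zero]
          intro hle
          have h4 : p.1.1 ≤ p0.1.1 ∧ p.1.2 ≤ p0.1.2 := sumE_le _ _ hle
          apply hp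
          apply Subtype.ext
          apply Prod.ext
          · omega
          · omega
      · intro h
        exact absurd (Finset.mem_univ _) h
  rintro ⟨i, p⟩
  exact key _ p rfl i

theorem sumset {m : ℕ} (W : Finset (Fin (m + 3) → ℕ)) (R : ℕ) :
    rk m W * (R + 2).choose 2 ≤ (W + smp (m + 3) R).card := by
  classical
  have hfW : Module.Finite ℝ (Submodule.span ℝ (mon m '' (W : Set (Fin (m + 3) → ℕ)))) :=
    Module.Finite.span_of_finite ℝ (W.finite_toSet.image _)
  obtain ⟨f, hf, -, hind⟩ := Submodule.exists_fun_fin_finrank_span_eq ℝ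
    (mon m '' (W : Set (Fin (m + 3) → ℕ)))
  choose x hxW hx using hf
  have hq : (MvPolynomial.X 0 : MvPolynomial (Fin (m + 1)) ℝ) ≠ 0 := MvPolynomial.X_ne_zero 0
  have hcc : ∀ s : Fin (m + 3), MvPolynomial.constantCoeff (sumZ m s) = ell m s := by
    intro s
    unfold sumZ
    rw [map_add, MvPolynomial.constantCoeff_C]
    split_ifs <;> simp [Algebra.smul_def]
  have hy : LinearIndependent ℝ (fun i : Fin (rk m W) =>
      MvPolynomial.constantCoeff (∏ s, sumZ m s ^ x i s)) := by
    have : (fun i : Fin (rk m W) => MvPolynomial.constantCoeff (∏ s, sumZ m s ^ x i s)) = f := by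
      funext i
      rw [map_prod, ← hx i]
      unfold mon
      refine Finset.prod_congr rfl fun s _ => ?_
      rw [map_pow, hcc]
    rw [this]
    exact hind
  have hI := sumset_indep (R := R) (fun i : Fin (rk m W) => ∏ s, sumZ m s ^ x i s)
    (MvPolynomial.X 0) hq hy
  have hZ0 : sumZ m 0 = MvPolynomial.C (MvPolynomial.X 0) := by
    unfold sumZ ell
    simp
  have hmem : ∀ p ∈ sumT R, (MvPolynomial.monomial (sumE p)
      ((MvPolynomial.X 0 : MvPolynomial (Fin (m + 1)) ℝ) ^ (R - p.1 - p.2)) : SumR m) ∈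
      (Submodule.span ℝ (Set.range (sumZ m))) ^ R := by
    intro p hp
    rw [mem_sumT] at hp
    have h1 : (MvPolynomial.monomial (sumE p)
        ((MvPolynomial.X 0 : MvPolynomial (Fin (m + 1)) ℝ) ^ (R - p.1 - p.2)) : SumR m) =
        (∑ s, sumZ m s) ^ p.1 * (∑ s : Fin (m + 3), (s.val : ℝ) • sumZ m s) ^ p.2 *
          sumZ m 0 ^ (R - p.1 - p.2) := by
      rw [sumset_sumZ, sumset_sumZ', hZ0]
      rw [MvPolynomial.monomial_eq, ← map_pow]
      unfold sumE
      rw [Finsupp.prod_fintype _ _ (fun i => pow_zero _), Fin.prod_univ_two]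
      simp only [Finsupp.add_apply, Finsupp.single_apply]
      simp
      ring
    rw [h1]
    have h2 : (R : ℕ) = p.1 + p.2 + (R - p.1 - p.2) := by omega
    have h3 : ∑ s, sumZ m s ∈ Submodule.span ℝ (Set.range (sumZ m)) :=
      Submodule.sum_mem _ (fun s _ => Submodule.subset_span ⟨s, rfl⟩)
    have h4 : ∑ s : Fin (m + 3), (s.val : ℝ) • sumZ m s ∈
        Submodule.span ℝ (Set.range (sumZ m)) :=
      Submodule.sum_mem _ (fun s _ => Submodule.smul_mem _ _ (Submodule.subset_span ⟨s, rfl⟩))
    have h5 : sumZ m 0 ∈ Submodule.span ℝ (Set.range (sumZ m)) :=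
      Submodule.subset_span ⟨0, rfl⟩
    have h6 := Submodule.mul_mem_mul (Submodule.mul_mem_mul
      (Submodule.pow_mem_pow _ h3 p.1) (Submodule.pow_mem_pow _ h4 p.2))
      (Submodule.pow_mem_pow _ h5 (R - p.1 - p.2))
    rw [← pow_add, ← pow_add, ← h2] at h6
    exact h6
  have hcard : Fintype.card (Fin (rk m W) × sumT R) = rk m W * (R + 2).choose 2 := by
    rw [Fintype.card_prod, Fintype.card_fin, Fintype.card_coe, card_sumT]
  obtain ⟨U, hU⟩ : ∃ U : Submodule ℝ (SumR m), U = Submodule.span ℝ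
      ((fun ρ : Fin (m + 3) → ℕ => ∏ s, sumZ m s ^ ρ s) ''
        ((W + smp (m + 3) R : Finset (Fin (m + 3) → ℕ)) : Set (Fin (m + 3) → ℕ))) := ⟨_, rfl⟩
  have hUmem : ∀ ip : Fin (rk m W) × sumT R, (∏ s, sumZ m s ^ x ip.1 s) *
      MvPolynomial.monomial (sumE ip.2.1)
        ((MvPolynomial.X 0 : MvPolynomial (Fin (m + 1)) ℝ) ^ (R - ip.2.1.1 - ip.2.1.2)) ∈ U := by
    intro ip
    rw [hU]
    exact sumset_mem (sumZ m) R W (x ip.1) (Finset.mem_coe.mp (hxW ip.1)) _
      (hmem ip.2.1 ip.2.2)
  have hfin : Module.Finite ℝ U := by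
    rw [hU]
    exact Module.Finite.span_of_finite ℝ (((W + smp (m + 3) R).finite_toSet).image _)
  have hI' : LinearIndependent ℝ (fun ip : Fin (rk m W) × sumT R =>
      (⟨_, hUmem ip⟩ : U)) := by
    apply LinearIndependent.of_comp U.subtype
    exact hI
  have h1 := hI'.fintype_card_le_finrank
  rw [hcard] at h1
  refine h1.trans ?_
  rw [hU, ← Finset.coe_image]
  exact (finrank_span_finset_le_card _).trans Finset.card_image_le

end SX
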