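import Pool.Agent.H27.SX.Rank
import Pool.Agent.H27.SX.Sumset

/-!
# Project SX: the discrete inequality for covers of the set of exceptional exponents
-/

set_option autoImplicit false

open MeasureTheory Metric Set Filter Module
open scoped Topology MeasureTheory RealInnerProductSpace Nat Pointwise

namespace SX

theorem rk_empty (m : ℕ) : rk m ∅ = 0 := by
  unfold rk
  rw [Finset.coe_empty, Set.image_empty, Submodule.span_empty, finrank_bot]

theorem rk_union {m : ℕ} (A B : Finset (Fin (m + 3) → ℕ)) : rk m (A ∪ B) ≤ rk m A + rk m B := by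
  unfold rk
  rw [Finset.coe_union, Set.image_union, Submodule.span_union]
  have hA : (mon m '' (A : Set (Fin (m + 3) → ℕ))).Finite := A.finite_toSet.image _
  have hB : (mon m '' (B : Set (Fin (m + 3) → ℕ))).Finite := B.finite_toSet.image _
  haveI := FiniteDimensional.span_of_finite ℝ hA
  haveI := FiniteDimensional.span_of_finite ℝ hB
  exact Submodule.finrank_add_le_finrank_add_finrank _ _

theorem rk_biUnion {m : ℕ} {ι : Type} [Fintype ι] (W : ι → Finset (Fin (m + 3) → ℕ)) :
    rk m (Finset.univ.biUnion W) ≤ ∑ i, rk m (W i) := by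
  classical
  have h : ∀ s : Finset ι, rk m (s.biUnion W) ≤ ∑ i ∈ s, rk m (W i) := by
    intro s
    induction s using Finset.induction_on with
    | empty => rw [Finset.biUnion_empty, rk_empty, Finset.sum_empty]
    | insert a s ha ih =>
      rw [Finset.biUnion_insert, Finset.sum_insert ha]
      exact (rk_union _ _).trans (Nat.add_le_add_left ih _)
  exact h Finset.univ

theorem disc {m N : ℕ} (hN : 2 ≤ N) {ι : Type} [Fintype ι] (W : ι → Finset (Fin (m + 3) → ℕ))
    (c : (Fin (m + 3) → ℕ) → Fin (m + 3)) (R : ι → ℕ)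
    (h1 : ∀ x, ∑ s, x s = N → (∀ i, x ∉ W i) → 1 ≤ x (c x))
    (h2 : ∀ y : Fin (m + 3) → ℕ, ∑ s, y s + 2 = N → ∃ p q, ∀ s t,
      (∀ i, y + ee s + ee t ∉ W i) → c (y + ee s + ee t) = p ∨ c (y + ee s + ee t) = q) :
    ((N + m).choose m : ℝ) ≤
      ∑ i, ((W i + smp (m + 3) (R i)).card : ℝ) / ((R i + 2).choose 2 : ℝ) := by
  have hmem : ∀ x : Fin (m + 3) → ℕ, x ∉ Finset.univ.biUnion W → ∀ i, x ∉ W i := by
    intro x hx i hi
    exact hx (Finset.mem_biUnion.2 ⟨i, Finset.mem_univ i, hi⟩)
  have h3 := rank_full hN (Finset.univ.biUnion W) c (fun x hx hW => h1 x hx (hmem x hW))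
    (fun y hy => by
      obtain ⟨p, q, hpq⟩ := h2 y hy
      exact ⟨p, q, fun s t hW => hpq s t (hmem _ hW)⟩)
  have h4 : ((N + m).choose m : ℝ) ≤ ∑ i, (rk m (W i) : ℝ) := by
    exact_mod_cast h3.trans (rk_biUnion W)
  refine h4.trans (Finset.sum_le_sum fun i _ => ?_)
  have h5 : 0 < (R i + 2).choose 2 := Nat.choose_pos (by omega)
  rw [le_div_iff₀ (by exact_mod_cast h5)]
  exact_mod_cast sumset (W i) (R i)

end SX
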