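import Pool.Agent.H27.SX.Defs

/-!
# Finite Minkowski content implies finite Hausdorff measure (project SX, row SX-12)
-/

set_option autoImplicit false

open MeasureTheory Metric Set Filter Module
open scoped Topology MeasureTheory RealInnerProductSpace Nat Pointwise ENNReal

namespace SX

open SP SP.Mea

/-- a ball of the affine hull -/
theorem fin_ball {k : ℕ} (hk : 2 ≤ k) {x : V k} (hx : x ∈ Hp k) {ε : ℝ} (hε : 0 < ε) :
    μHE[k - 1] (closedBall x ε ∩ Hp k) = ENNReal.ofReal (al (k - 1) * ε ^ (k - 1)) := by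
  rw [mu_eq hk hx]
  have h : io x ⁻¹' closedBall x ε = closedBall 0 ε := by
    ext y
    simp [io, mem_closedBall, dist_eq_norm]
  rw [h]
  refine vol_closedBall ?_ 0 hε
  rw [finrank_E0 hk]
  omega

/-- separated sets have few elements -/
theorem fin_card {k : ℕ} (hk : 2 ≤ k) {S : Set (V k)} (hH : S ⊆ Hp k) {ε : ℝ} (hε : 0 < ε)
    (F : Finset (V k)) (hF : ∀ x ∈ F, x ∈ S)
    (hs : ∀ x ∈ F, ∀ y ∈ F, x ≠ y → 2 * ε < dist x y) :
    (F.card : ℝ≥0∞) * ENNReal.ofReal (al (k - 1) * ε ^ (k - 1)) ≤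
      μHE[k - 1] (cthickening ε S ∩ Hp k) := by
  have hd : (F : Set (V k)).PairwiseDisjoint (fun x => closedBall x ε ∩ Hp k) := by
    intro x hx y hy hxy
    have h1 : Disjoint (closedBall x ε) (closedBall y ε) := by
      apply closedBall_disjoint_closedBall
      have := hs x hx y hy hxy
      linarith
    exact h1.mono inter_subset_left inter_subset_left
  have hHm : MeasurableSet (Hp k) := by
    have : IsClosed (Hp k) := by
      have hc : Continuous (fun x : V k => ∑ i, x i) := by fun_prop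
      exact isClosed_singleton.preimage hc
    exact this.measurableSet
  calc (F.card : ℝ≥0∞) * ENNReal.ofReal (al (k - 1) * ε ^ (k - 1))
      = ∑ x ∈ F, μHE[k - 1] (closedBall x ε ∩ Hp k) := by
        rw [Finset.sum_congr rfl fun x hx => fin_ball hk (hH (hF x hx)) hε]
        rw [Finset.sum_const, nsmul_eq_mul]
    _ = μHE[k - 1] (⋃ x ∈ F, closedBall x ε ∩ Hp k) :=
        (measure_biUnion_finset hd fun x _ => measurableSet_closedBall.inter hHm).symm
    _ ≤ μHE[k - 1] (cthickening ε S ∩ Hp k) := by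
        apply measure_mono
        intro y hy
        simp only [mem_iUnion] at hy
        obtain ⟨x, hx, hy⟩ := hy
        exact ⟨closedBall_subset_cthickening (hF x hx) ε hy.1, hy.2⟩

/-- maximal separated sets -/
theorem fin_net {X : Type*} [MetricSpace X] {S : Set X} {δ : ℝ} (hδ : 0 ≤ δ) {N : ℕ}
    (h : ∀ F : Finset X, (∀ x ∈ F, x ∈ S) → (∀ x ∈ F, ∀ y ∈ F, x ≠ y → δ < dist x y) →
      F.card ≤ N) :
    ∃ F : Finset X, (∀ x ∈ F, x ∈ S) ∧ (∀ x ∈ F, ∀ y ∈ F, x ≠ y → δ < dist x y) ∧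
      ∀ y ∈ S, ∃ x ∈ F, dist y x ≤ δ := by
  classical
  let P : ℕ → Prop := fun n => ∃ F : Finset X, (∀ x ∈ F, x ∈ S) ∧
    (∀ x ∈ F, ∀ y ∈ F, x ≠ y → δ < dist x y) ∧ F.card = n
  have hP0 : P 0 := ⟨∅, by simp, by simp, rfl⟩
  have hPN : ∀ n, P n → n ≤ N := by
    rintro n ⟨F, h1, h2, rfl⟩
    exact h F h1 h2
  obtain ⟨F, h1, h2, h3⟩ : P (Nat.findGreatest P N) :=
    Nat.findGreatest_spec (m := 0) (Nat.zero_le _) hP0
  refine ⟨F, h1, h2, fun y hy => ?_⟩
  by_contra! hcon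
  have hyF : y ∉ F := by
    intro hyF
    have h4 := hcon y hyF
    rw [dist_self] at h4
    linarith
  have h5 : P (Nat.findGreatest P N + 1) := by
    refine ⟨insert y F, ?_, ?_, by rw [Finset.card_insert_of_notMem hyF, h3]⟩
    · intro x hx
      rcases Finset.mem_insert.1 hx with rfl | hx
      · exact hy
      · exact h1 x hx
    · intro x hx z hz hxz
      rcases Finset.mem_insert.1 hx with hx1 | hx1
      · rcases Finset.mem_insert.1 hz with hz1 | hz1
        · exact absurd (hx1.trans hz1.symm) hxz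
        · rw [hx1]; exact hcon z hz1
      · rcases Finset.mem_insert.1 hz with hz1 | hz1
        · rw [hz1, dist_comm]; exact hcon x hx1
        · exact h2 x hx1 z hz1 hxz
  have h6 := Nat.le_findGreatest (hPN _ h5) h5
  omega

theorem fin_diam {X : Type*} [PseudoMetricSpace X] (x : X) {ε : ℝ} (hε : 0 ≤ ε) :
    Metric.ediam (closedBall x (2 * ε)) ≤ ENNReal.ofReal (4 * ε) := by
  rw [← Metric.closedEBall_ofReal (by positivity : (0 : ℝ) ≤ 2 * ε)]
  refine ediam_closedEBall_le.trans (le_of_eq ?_)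
  conv_rhs => rw [show (4 : ℝ) * ε = 2 * (2 * ε) by ring,
    ENNReal.ofReal_mul (by norm_num : (0:ℝ) ≤ 2), ENNReal.ofReal_ofNat]

/-- finite Minkowski content implies finite Hausdorff measure -/
theorem meas_fin {m : ℕ} {S : Set (V (m + 3))} (hS : IsCompact S) (hH : S ⊆ Hp (m + 3)) {L : ℝ}
    (hL : HasContent (m + 3) m S L) : μHE[m] S < ⊤ := by
  have hk : 2 ≤ m + 3 := by omega
  have e2 : m + 3 - 1 - m = 2 := by omega
  have e1 : m + 3 - 1 = m + 2 := by omega
  have hα := al_pos (m + 2)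
  have hα2 := al_pos 2
  have hfin : ∀ ε : ℝ, μHE[m + 2] (cthickening ε S ∩ Hp (m + 3)) < ⊤ := fun ε =>
    mu_fin hk hS.isBounded ε
  unfold HasContent at hL
  rw [e2, e1] at hL
  set c : ℝ := (|L| + 1) * al 2 with hc
  have hc0 : 0 < c := by positivity
  have hev : ∀ᶠ ε : ℝ in 𝓝[>] 0,
      μHE[m + 2] (cthickening ε S ∩ Hp (m + 3)) ≤ ENNReal.ofReal (c * ε ^ 2) := by
    have h1 : ∀ᶠ ε : ℝ in 𝓝[>] 0, (μHE[m + 2] (cthickening ε S ∩ Hp (m + 3))).toReal /
        (al 2 * ε ^ 2) < |L| + 1 :=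
      hL.eventually_lt_const (by linarith [le_abs_self L])
    filter_upwards [h1, self_mem_nhdsWithin] with ε h2 h3
    have h3' : 0 < ε := h3
    rw [div_lt_iff₀ (by positivity)] at h2
    rw [← ENNReal.ofReal_toReal (hfin ε).ne]
    apply ENNReal.ofReal_le_ofReal
    rw [hc]
    linarith
  set C : ℝ := c / al (m + 2) with hC
  have hC0 : 0 < C := by positivity
  -- separated sets
  have hcard : ∀ ε : ℝ, 0 < ε →
      μHE[m + 2] (cthickening ε S ∩ Hp (m + 3)) ≤ ENNReal.ofReal (c * ε ^ 2) →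
      ∀ F : Finset (V (m + 3)), (∀ x ∈ F, x ∈ S) →
      (∀ x ∈ F, ∀ y ∈ F, x ≠ y → 2 * ε < dist x y) → (F.card : ℝ) * ε ^ m ≤ C := by
    intro ε hε h1 F hF hs
    have h2 := (fin_card hk hH hε F hF hs).trans h1
    rw [e1, ← ENNReal.ofReal_natCast, ← ENNReal.ofReal_mul (by positivity),
      ENNReal.ofReal_le_ofReal_iff (by positivity)] at h2
    rw [hC, le_div_iff₀ hα]
    have h3 : (F.card : ℝ) * ε ^ m * al (m + 2) * ε ^ 2 ≤ c * ε ^ 2 := by
      calc _ = (F.card : ℝ) * (al (m + 2) * ε ^ (m + 2)) := by ring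
        _ ≤ _ := h2
    exact le_of_mul_le_mul_right h3 (by positivity)
  have hnet : ∀ ε : ℝ, ∃ F : Finset (V (m + 3)), 0 < ε →
      μHE[m + 2] (cthickening ε S ∩ Hp (m + 3)) ≤ ENNReal.ofReal (c * ε ^ 2) →
      ((F.card : ℝ) * ε ^ m ≤ C ∧ ∀ y ∈ S, ∃ x ∈ F, dist y x ≤ 2 * ε) := by
    intro ε
    by_cases h : 0 < ε ∧ μHE[m + 2] (cthickening ε S ∩ Hp (m + 3)) ≤ ENNReal.ofReal (c * ε ^ 2)
    · obtain ⟨hε, h1⟩ := h
      obtain ⟨F, h2, h3, h4⟩ := fin_net (S := S) (δ := 2 * ε) (by positivity)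
        (N := ⌈C / ε ^ m⌉₊) (fun F hF hs => by
          have h5 := hcard ε hε h1 F hF hs
          rw [← le_div_iff₀ (by positivity)] at h5
          exact_mod_cast h5.trans (Nat.le_ceil _))
      exact ⟨F, fun _ _ => ⟨hcard ε hε h1 F h2 h3, h4⟩⟩
    · exact ⟨∅, fun h1 h2 => absurd ⟨h1, h2⟩ h⟩
  choose F hF using hnet
  have hH : (μH[m] : Measure (V (m + 3))) S ≤ ENNReal.ofReal (4 ^ m * C) := by
    have hl := Measure.hausdorffMeasure_le_liminf_sum (m : ℝ) S (l := 𝓝[>] (0 : ℝ))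
      (ι := fun ε => F ε) (fun ε => ENNReal.ofReal (4 * ε)) (by
        have : Tendsto (fun ε : ℝ => ENNReal.ofReal (4 * ε)) (𝓝 0) (𝓝 (ENNReal.ofReal (4 * 0))) :=
          ENNReal.tendsto_ofReal (Tendsto.const_mul 4 tendsto_id)
        rw [mul_zero, ENNReal.ofReal_zero] at this
        exact this.mono_left nhdsWithin_le_nhds)
      (fun ε x => closedBall (x : V (m + 3)) (2 * ε)) (by
        filter_upwards [self_mem_nhdsWithin] with ε h3 x
        have h3' : 0 < ε := h3
        exact fin_diam _ h3'.le)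
      (by
        filter_upwards [hev, self_mem_nhdsWithin] with ε h1 h3 y hy
        obtain ⟨x, hx, hxy⟩ := (hF ε h3 h1).2 y hy
        exact mem_iUnion.2 ⟨⟨x, hx⟩, hxy⟩)
    refine hl.trans ?_
    refine liminf_le_of_frequently_le' (Eventually.frequently ?_)
    filter_upwards [hev, self_mem_nhdsWithin] with ε h1 h3
    have h3' : 0 < ε := h3
    have h4 : ∀ x : F ε, Metric.ediam (closedBall (x : V (m + 3)) (2 * ε)) ^ (m : ℝ)
        ≤ ENNReal.ofReal ((4 * ε) ^ m) := by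
      intro x
      rw [ENNReal.ofReal_pow (by positivity), ENNReal.rpow_natCast]
      gcongr
      exact fin_diam _ h3'.le
    refine (Finset.sum_le_sum fun x _ => h4 x).trans ?_
    rw [Finset.sum_const, nsmul_eq_mul, Finset.card_univ, Fintype.card_coe,
      ← ENNReal.ofReal_natCast, ← ENNReal.ofReal_mul (by positivity)]
    apply ENNReal.ofReal_le_ofReal
    calc ((F ε).card : ℝ) * (4 * ε) ^ m = 4 ^ m * ((F ε).card * ε ^ m) := by
          rw [mul_pow]; ring
      _ ≤ 4 ^ m * C := by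
          gcongr
          exact (hF ε h3 h1).1
  rw [Measure.euclideanHausdorffMeasure_def, Measure.smul_apply]
  exact ENNReal.mul_lt_top ENNReal.coe_lt_top (hH.trans_lt ENNReal.ofReal_lt_top)

end SX
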