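import Pool.Agent.H27.SX.Area

/-!
# Projections of the simplex have area at most one (SX-10)
-/

set_option autoImplicit false

open MeasureTheory Metric Set Filter Module
open scoped Topology MeasureTheory RealInnerProductSpace Nat Pointwise

namespace SX

open SP SP.Mea

/-- the projections of the vertices -/
noncomputable def proj_pt {k : ℕ} (w : Fin 2 → V k) (i : Fin k) : EuclideanSpace ℝ (Fin 2) :=
  WithLp.toLp 2 (fun a => w a i)

theorem proj_subset {k : ℕ} (hk : 1 ≤ k) (w : Fin 2 → V k) (hw : Fr w) :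
    cw w '' D0 k ⊆ convexHull ℝ (range (proj_pt w)) := by
  rintro _ ⟨x, ⟨hx0, hx⟩, rfl⟩
  have hk0 : (k : ℝ) ≠ 0 := by positivity
  have hsum : ∑ i, (x i + 1 / (k : ℝ)) = 1 := by
    rw [Finset.sum_add_distrib, hx0, zero_add, Finset.sum_const, Finset.card_univ, Fintype.card_fin,
      nsmul_eq_mul]
    field_simp
  have hcw : cw w x = ∑ i, (x i + 1 / (k : ℝ)) • proj_pt w i := by
    apply PiLp.ext
    intro a
    have h0 : ∑ i, w a i = 0 := mem_E0.1 (hw.2 a)
    have h1 : (∑ i, (x i + 1 / (k : ℝ)) • proj_pt w i) a = ∑ i, (x i + 1 / (k : ℝ)) * w a i := by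
      rw [WithLp.ofLp_sum, Finset.sum_apply]
      refine Finset.sum_congr rfl fun i _ => ?_
      rfl
    rw [h1]
    have h2 : cw w x a = ∑ i, x i * w a i := by
      show ⟪w a, x⟫ = _
      rw [PiLp.inner_apply]
      refine Finset.sum_congr rfl fun i _ => ?_
      simp
    rw [h2]
    simp only [add_mul]
    rw [Finset.sum_add_distrib, ← Finset.mul_sum, h0, mul_zero, add_zero]
  rw [hcw]
  refine (convex_convexHull ℝ _).sum_mem (fun i _ => ?_) hsum (fun i _ => ?_)
  · linarith [hx i]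
  · exact subset_convexHull ℝ _ (mem_range_self i)

theorem proj_sum {k : ℕ} (w : Fin 2 → V k) (hw : Fr w) : ∑ i, ‖proj_pt w i‖ ^ 2 = 2 := by
  have h1 : ∀ i, ‖proj_pt w i‖ ^ 2 = ∑ a, w a i ^ 2 := by
    intro i
    rw [EuclideanSpace.norm_sq_eq]
    refine Finset.sum_congr rfl fun a _ => ?_
    show ‖w a i‖ ^ 2 = _
    rw [Real.norm_eq_abs, sq_abs]
  simp only [h1]
  rw [Finset.sum_comm]
  have h2 : ∀ a, ∑ i, w a i ^ 2 = 1 := by
    intro a
    have h3 := hw.1.1 a
    have h4 : ‖w a‖ ^ 2 = ∑ i, w a i ^ 2 := by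
      rw [EuclideanSpace.norm_sq_eq]
      refine Finset.sum_congr rfl fun i _ => ?_
      rw [Real.norm_eq_abs, sq_abs]
    rw [← h4, h3, one_pow]
  simp only [h2]
  norm_num

/-- the projections of the simplex to a plane have area at most one -/
theorem proj_area {k : ℕ} (hk : 1 ≤ k) (w : Fin 2 → V k) (hw : Fr w) :
    volume (cw w '' D0 k) ≤ 1 := by
  refine (measure_mono (proj_subset hk w hw)).trans ((area (proj_pt w)).trans ?_)
  rw [proj_sum w hw]
  norm_num

end SX
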