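import Mathlib
import Pool.Agent.H27.SX.Proj

/-!
# The cost of thick cubes and of balls (project SX)
-/

set_option autoImplicit false

open MeasureTheory Metric Set Filter Module
open scoped Topology MeasureTheory RealInnerProductSpace Nat Pointwise

namespace SX

open SP SP.Mea

theorem D0_norm {k : ℕ} (hk : 1 ≤ k) {x : V k} (hx : x ∈ D0 k) :
    ‖x‖ ^ 2 ≤ 1 - 1 / (k : ℝ) := by
  obtain ⟨h0, h1⟩ := hx
  have hk0 : (0 : ℝ) < k := by exact_mod_cast hk
  rw [EuclideanSpace.norm_sq_eq]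
  have hy : ∀ i, 0 ≤ x i + 1 / (k : ℝ) := fun i => by linarith [h1 i]
  have hs : ∑ i, (x i + 1 / (k : ℝ)) = 1 := by
    rw [Finset.sum_add_distrib, h0]
    simp
    field_simp
  have hsq : ∑ i, (x i + 1 / (k : ℝ)) ^ 2 ≤ 1 := by
    calc ∑ i, (x i + 1 / (k : ℝ)) ^ 2 ≤ ∑ i, (x i + 1 / (k : ℝ)) := by
          refine Finset.sum_le_sum fun i _ => ?_
          have : x i + 1 / (k : ℝ) ≤ 1 := by
            have h := Finset.single_le_sum (f := fun i => x i + 1 / (k : ℝ))
              (fun j _ => hy j) (Finset.mem_univ i)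
            rw [hs] at h
            exact h
          nlinarith [hy i]
      _ = 1 := hs
  have hexp : ∑ i, (x i + 1 / (k : ℝ)) ^ 2 = ∑ i, ‖x i‖ ^ 2 + 1 / (k : ℝ) := by
    have : ∀ i, (x i + 1 / (k : ℝ)) ^ 2 = ‖x i‖ ^ 2 + (2 / (k : ℝ)) * x i + (1 / (k : ℝ)) ^ 2 := by
      intro i
      rw [Real.norm_eq_abs, sq_abs]
      ring
    simp_rw [this]
    rw [Finset.sum_add_distrib, Finset.sum_add_distrib, ← Finset.mul_sum, h0]
    simp
    field_simp
  linarith

theorem D0_norm_le {k : ℕ} (hk : 1 ≤ k) {x : V k} (hx : x ∈ D0 k) : ‖x‖ ≤ 1 := by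
  have h := D0_norm hk hx
  have hk0 : (0 : ℝ) < k := by exact_mod_cast hk
  have : (0 : ℝ) < 1 / k := by positivity
  nlinarith [norm_nonneg x]

/-- an orthonormal family in a space of dimension `m + 2` extends to a basis -/
theorem extend {E : Type*} [NormedAddCommGroup E] [InnerProductSpace ℝ E] [FiniteDimensional ℝ E]
    {m : ℕ} (hE : finrank ℝ E = m + 2) (w : Fin m → E) (hw : Orthonormal ℝ w) :
    ∃ b : OrthonormalBasis (Fin m ⊕ Fin 2) ℝ E, ∀ a, b (Sum.inl a) = w a := by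
  have hcard : finrank ℝ E = Fintype.card (Fin m ⊕ Fin 2) := by simp [hE]
  let v : Fin m ⊕ Fin 2 → E := Sum.elim w (fun _ => 0)
  have hv : Orthonormal ℝ ((range (Sum.inl : Fin m → Fin m ⊕ Fin 2)).domRestrict v) := by
    have h2 : (range (Sum.inl : Fin m → Fin m ⊕ Fin 2)).domRestrict v
        = w ∘ (Equiv.ofInjective (Sum.inl : Fin m → Fin m ⊕ Fin 2) Sum.inl_injective).symm := by
      ext ⟨_, a, rfl⟩
      simp [v, Equiv.ofInjective_symm_apply]
    rw [h2]
    exact hw.comp _ (Equiv.injective _)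
  obtain ⟨b, hb⟩ := hv.exists_orthonormalBasis_extension_of_card_eq hcard
  exact ⟨b, fun a => by rw [hb _ ⟨a, rfl⟩]; rfl⟩

/-- the coordinates with respect to such a basis -/
noncomputable def cmap {E : Type*} [NormedAddCommGroup E] [InnerProductSpace ℝ E]
    [FiniteDimensional ℝ E] [MeasurableSpace E] [BorelSpace E] {m : ℕ}
    (b : OrthonormalBasis (Fin m ⊕ Fin 2) ℝ E) : E ≃ᵐ (Fin m → ℝ) × (Fin 2 → ℝ) :=
  (b.measurableEquiv.trans (MeasurableEquiv.toLp 2 (Fin m ⊕ Fin 2 → ℝ)).symm).trans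
    (MeasurableEquiv.sumPiEquivProdPi (fun _ => ℝ))

theorem cmap_mp {E : Type*} [NormedAddCommGroup E] [InnerProductSpace ℝ E]
    [FiniteDimensional ℝ E] [MeasurableSpace E] [BorelSpace E] {m : ℕ}
    (b : OrthonormalBasis (Fin m ⊕ Fin 2) ℝ E) :
    MeasurePreserving (cmap b) volume volume := by
  unfold cmap
  refine MeasurePreserving.trans (MeasurePreserving.trans b.measurePreserving_measurableEquiv
    (EuclideanSpace.volume_preserving_symm_measurableEquiv_toLp _)) ?_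
  exact volume_measurePreserving_sumPiEquivProdPi (fun _ => ℝ)

theorem cmap_apply {E : Type*} [NormedAddCommGroup E] [InnerProductSpace ℝ E]
    [FiniteDimensional ℝ E] [MeasurableSpace E] [BorelSpace E] {m : ℕ}
    (b : OrthonormalBasis (Fin m ⊕ Fin 2) ℝ E) (x : E) :
    cmap b x = (fun a => ⟪b (Sum.inl a), x⟫, fun c => ⟪b (Sum.inr c), x⟫) := by
  have h : cmap b x = (fun a => b.repr x (Sum.inl a), fun c => b.repr x (Sum.inr c)) := rfl
  rw [h]
  simp only [OrthonormalBasis.repr_apply_apply]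

/-- the measure of a product set -/
theorem vol_prod {E : Type*} [NormedAddCommGroup E] [InnerProductSpace ℝ E]
    [FiniteDimensional ℝ E] [MeasurableSpace E] [BorelSpace E] {m : ℕ}
    (b : OrthonormalBasis (Fin m ⊕ Fin 2) ℝ E) (lo hi : ℝ) (T : Set (EuclideanSpace ℝ (Fin 2))) :
    volume {x : E | (∀ a, ⟪b (Sum.inl a), x⟫ ∈ Icc lo hi) ∧
      WithLp.toLp 2 (fun c => ⟪b (Sum.inr c), x⟫) ∈ T} = ENNReal.ofReal (hi - lo) ^ m * volume T := by
  have h1 : {x : E | (∀ a, ⟪b (Sum.inl a), x⟫ ∈ Icc lo hi) ∧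
      WithLp.toLp 2 (fun c => ⟪b (Sum.inr c), x⟫) ∈ T}
      = cmap b ⁻¹' (Icc (fun _ => lo) (fun _ => hi) ×ˢ
          ((MeasurableEquiv.toLp 2 (Fin 2 → ℝ)) ⁻¹' T)) := by
    ext x
    simp only [mem_preimage, mem_prod, cmap_apply, mem_ofPred_eq]
    refine and_congr ?_ Iff.rfl
    simp only [mem_Icc, Pi.le_def]
    exact ⟨fun h => ⟨fun a => (h a).1, fun a => (h a).2⟩, fun h a => ⟨h.1 a, h.2 a⟩⟩
  rw [h1, (cmap_mp b).measure_preimage_equiv, Measure.volume_eq_prod, Measure.prod_prod,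
    Real.volume_Icc_pi]
  congr 1
  · simp
  · exact (EuclideanSpace.volume_preserving_symm_measurableEquiv_toLp (Fin 2)).symm.measure_preimage_equiv T

/-- the basis of `E0` which extends an orthonormal family -/
theorem frame {m : ℕ} (w : Fin m → V (m + 3)) (hw : Fr w) :
    ∃ b : OrthonormalBasis (Fin m ⊕ Fin 2) ℝ (E0 (m + 3)),
      (∀ a, (b (Sum.inl a) : V (m + 3)) = w a) ∧
      Fr (fun c => (b (Sum.inr c) : V (m + 3))) := by
  let w0 : Fin m → E0 (m + 3) := fun a => ⟨w a, hw.2 a⟩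
  have hw0 : Orthonormal ℝ w0 := by
    have : Orthonormal ℝ ((E0 (m + 3)).subtypeₗᵢ ∘ w0) := hw.1
    exact (LinearIsometry.orthonormal_comp_iff _).1 this
  have hE : finrank ℝ (E0 (m + 3)) = m + 2 := by
    rw [finrank_E0 (by omega)]
    omega
  obtain ⟨b, hb⟩ := extend hE w0 hw0
  refine ⟨b, fun a => by rw [hb], ?_, fun c => (b (Sum.inr c)).2⟩
  have h1 : Orthonormal ℝ (b ∘ (Sum.inr : Fin 2 → Fin m ⊕ Fin 2)) :=
    b.orthonormal.comp _ Sum.inr_injective
  exact h1.comp_linearIsometry (E0 (m + 3)).subtypeₗᵢ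

/-- the residue is the component with respect to the rest of the basis -/
theorem rs_norm {m : ℕ} {w : Fin m → V (m + 3)}
    (b : OrthonormalBasis (Fin m ⊕ Fin 2) ℝ (E0 (m + 3)))
    (hb : ∀ a, (b (Sum.inl a) : V (m + 3)) = w a) {x : V (m + 3)} (hx : x ∈ E0 (m + 3)) :
    ‖cw (fun c => (b (Sum.inr c) : V (m + 3))) x‖ = ‖rs w x‖ := by
  have h1 := b.sum_repr' ⟨x, hx⟩
  rw [Fintype.sum_sum_type] at h1
  have h2 := congrArg (fun y : E0 (m + 3) => (y : V (m + 3))) h1
  simp only [Submodule.coe_add, Submodule.coe_sum, Submodule.coe_smul, Submodule.coe_inner, hb]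
    at h2
  have h3 : rs w x = ∑ c : Fin 2, ⟪(b (Sum.inr c) : V (m + 3)), x⟫ • (b (Sum.inr c) : V (m + 3)) := by
    unfold rs
    rw [sub_eq_iff_eq_add]
    exact h2.symm.trans (add_comm _ _)
  have ho : Orthonormal ℝ (fun c : Fin 2 => (b (Sum.inr c) : V (m + 3))) := by
    have h1 : Orthonormal ℝ (b ∘ (Sum.inr : Fin 2 → Fin m ⊕ Fin 2)) :=
      b.orthonormal.comp _ Sum.inr_injective
    exact h1.comp_linearIsometry (E0 (m + 3)).subtypeₗᵢ
  have h4 : ‖cw (fun c => (b (Sum.inr c) : V (m + 3))) x‖ ^ 2 = ‖rs w x‖ ^ 2 := by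
    rw [h3, EuclideanSpace.norm_sq_eq, ← real_inner_self_eq_norm_sq]
    rw [ho.inner_sum]
    refine Finset.sum_congr rfl fun c _ => ?_
    simp [cw, sq]
  exact (pow_left_inj₀ (norm_nonneg _) (norm_nonneg _) two_ne_zero).1 h4

theorem cw_add {k m : ℕ} (w : Fin m → V k) (x y : V k) : cw w (x + y) = cw w x + cw w y := by
  ext a
  simp [cw, inner_add_right]

theorem cw_smul {k m : ℕ} (w : Fin m → V k) (t : ℝ) (y : V k) : cw w (t • y) = t • cw w y := by
  ext a
  simp [cw, inner_smul_right]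

/-- the projection of the simplex contains a ball and is convex -/
theorem ball_proj {k : ℕ} (hk : 1 ≤ k) (w : Fin 2 → V k) (hw : Fr w) {h ε : ℝ} (hh : 0 ≤ h)
    (hε : 0 < ε) {u : EuclideanSpace ℝ (Fin 2)} (hu : ‖u‖ ≤ h) {d : V k} (hd : d ∈ D0 k) :
    u + ε • cw w d ∈ (ε + k * h) • (cw w '' D0 k) := by
  have hk0 : (0 : ℝ) < k := by exact_mod_cast hk
  have hpos : 0 < ε + k * h := by positivity
  set v : V k := ∑ a, u a • w a with hv
  have hv0 : v ∈ E0 k := Submodule.sum_mem _ fun a _ => Submodule.smul_mem _ _ (hw.2 a)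
  have hvn : ‖v‖ = ‖u‖ := by
    have : ‖v‖ ^ 2 = ‖u‖ ^ 2 := by
      rw [EuclideanSpace.norm_sq_eq u, ← real_inner_self_eq_norm_sq v, hv, hw.1.inner_sum]
      refine Finset.sum_congr rfl fun c _ => ?_
      simp [sq]
    exact (pow_left_inj₀ (norm_nonneg _) (norm_nonneg _) two_ne_zero).1 this
  have hcv : cw w v = u := by
    ext a
    simp only [cw, hv]
    exact hw.1.inner_right_fintype _ _
  refine ⟨(ε + k * h)⁻¹ • cw w (v + ε • d), ?_, ?_⟩
  · refine ⟨(ε + k * h)⁻¹ • (v + ε • d), ⟨?_, ?_⟩, by rw [cw_smul]⟩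
    · have h1 := mem_E0.1 hv0
      simp only [PiLp.smul_apply, PiLp.add_apply, smul_eq_mul, ← Finset.mul_sum,
        Finset.sum_add_distrib, h1, hd.1]
      simp
    · intro i
      have h2 : -h ≤ v i := by
        have := PiLp.norm_apply_le v i
        rw [Real.norm_eq_abs] at this
        have := neg_abs_le (v i)
        linarith
      have h3 := hd.2 i
      simp only [PiLp.smul_apply, PiLp.add_apply, smul_eq_mul]
      rw [← sub_nonneg]
      have h4 : (ε + k * h)⁻¹ * (v i + ε * d i) - -(1 / (k : ℝ))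
          = (ε + k * h)⁻¹ * ((v i + h) + ε * (d i - -(1 / (k : ℝ)))) := by
        field_simp
        ring
      rw [h4]
      have h5 : 0 ≤ v i + h := by linarith
      have h6 : 0 ≤ d i - -(1 / (k : ℝ)) := by linarith
      positivity
  · simp only
    rw [smul_smul, mul_inv_cancel₀ hpos.ne', one_smul, cw_add, cw_smul, hcv]

theorem Hp_add {k : ℕ} {x y : V k} (hx : x ∈ Hp k) (hy : ∑ i, y i = 0) : x + y ∈ Hp k := by
  simp only [Hp, mem_ofPred_eq] at hx ⊢
  simp [Finset.sum_add_distrib, hx, hy]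

theorem Hp_sub {k : ℕ} {x y : V k} (hx : x ∈ Hp k) (hy : y ∈ Hp k) : x - y ∈ E0 k := by
  rw [mem_E0]
  simp only [Hp, mem_ofPred_eq] at hx hy
  simp [hx, hy]

/-- `flat_cost` from the bound for the projections of the simplex -/
theorem flat_cost_of {m : ℕ}
    (harea : ∀ w : Fin 2 → V (m + 3), Fr w → volume (cw w '' D0 (m + 3)) ≤ 1)
    (w : Fin m → V (m + 3)) (hw : Fr w) (p : V (m + 3))
    (hp : p ∈ Hp (m + 3)) {r h ε : ℝ} (hr : 0 ≤ r) (hh : 0 ≤ h) (hε : 0 < ε) :
    μHE[m + 2] (TC w p r h + ε • D0 (m + 3)) ≤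
      ENNReal.ofReal ((r + 2 * ε) ^ m * (ε + (m + 3) * h) ^ 2) := by
  obtain ⟨b, hb, hF⟩ := frame w hw
  set P : Set (EuclideanSpace ℝ (Fin 2)) :=
    cw (fun c => (b (Sum.inr c) : V (m + 3))) '' D0 (m + 3) with hP
  have hsub : TC w p r h + ε • D0 (m + 3) ⊆ Hp (m + 3) := by
    rintro _ ⟨x, hx, _, ⟨d, hd, rfl⟩, rfl⟩
    refine Hp_add hx.1 ?_
    simp [← Finset.mul_sum, hd.1]
  have hmu := mu_eq (k := m + 3) (by omega) hp (TC w p r h + ε • D0 (m + 3))
  rw [inter_eq_left.2 hsub] at hmu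
  have hmu2 : μHE[m + 2] (TC w p r h + ε • D0 (m + 3))
      = volume (io p ⁻¹' (TC w p r h + ε • D0 (m + 3))) := hmu
  rw [hmu2]
  have hk : ((m + 3 : ℕ) : ℝ) = (m : ℝ) + 3 := by push_cast; ring
  calc volume (io p ⁻¹' (TC w p r h + ε • D0 (m + 3)))
      ≤ volume {x : E0 (m + 3) | (∀ a, ⟪b (Sum.inl a), x⟫ ∈ Icc (-ε) (r + ε)) ∧
        WithLp.toLp 2 (fun c => ⟪b (Sum.inr c), x⟫) ∈ (ε + (m + 3) * h) • P} := by
        refine measure_mono ?_
        rintro z ⟨x, hx, _, ⟨d, hd, rfl⟩, hz⟩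
        have hz' : (z : V (m + 3)) = (x - p) + ε • d := by
          simp only [io] at hz
          rw [eq_sub_of_add_eq hz.symm]
          abel
        constructor
        · intro a
          rw [Submodule.coe_inner, hb, hz', inner_add_right, inner_smul_right]
          have h1 := hx.2.1 a
          have h2 : |⟪w a, d⟫| ≤ 1 := by
            refine (abs_real_inner_le_norm _ _).trans ?_
            rw [hw.1.1 a, one_mul]
            exact D0_norm_le (by omega) hd
          have h3 := abs_le.1 h2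
          constructor
          · nlinarith [h1.1, h3.1]
          · nlinarith [h1.2, h3.2]
        · have h1 : WithLp.toLp 2 (fun c => ⟪b (Sum.inr c), z⟫)
              = cw (fun c => (b (Sum.inr c) : V (m + 3))) (x - p)
                + ε • cw (fun c => (b (Sum.inr c) : V (m + 3))) d := by
            rw [← cw_smul, ← cw_add, ← hz']
            rfl
          rw [h1, ← hk]
          refine ball_proj (by omega) _ hF hh hε ?_ hd
          rw [rs_norm b hb (Hp_sub hx.1 hp)]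
          exact hx.2.2
    _ = ENNReal.ofReal (r + ε - -ε) ^ m * volume ((ε + (m + 3) * h) • P) := vol_prod b _ _ _
    _ = ENNReal.ofReal ((r + 2 * ε) ^ m) * (ENNReal.ofReal ((ε + (m + 3) * h) ^ 2) * volume P) := by
        rw [Measure.addHaar_smul, finrank_euclideanSpace_fin, abs_of_nonneg (by positivity),
          ← ENNReal.ofReal_pow (by linarith)]
        congr 3
        ring
    _ ≤ ENNReal.ofReal ((r + 2 * ε) ^ m) * (ENNReal.ofReal ((ε + (m + 3) * h) ^ 2) * 1) := by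
        gcongr
        exact harea _ hF
    _ = _ := by
        rw [mul_one, ← ENNReal.ofReal_mul (by positivity)]

theorem flat_cost {m : ℕ} (w : Fin m → V (m + 3)) (hw : Fr w) (p : V (m + 3))
    (hp : p ∈ Hp (m + 3)) {r h ε : ℝ} (hr : 0 ≤ r) (hh : 0 ≤ h) (hε : 0 < ε) :
    μHE[m + 2] (TC w p r h + ε • D0 (m + 3)) ≤
      ENNReal.ofReal ((r + 2 * ε) ^ m * (ε + (m + 3) * h) ^ 2) :=
  flat_cost_of (fun w hw => proj_area (by omega) w hw) w hw p hp hr hh hε

theorem ball_cost (m : ℕ) : ∃ C > 0, ∀ p ∈ Hp (m + 3), ∀ r > 0,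
    μHE[m + 2] (closure (ball p r ∩ Hp (m + 3)) + r • D0 (m + 3)) ≤
      ENNReal.ofReal (C * r ^ (m + 2)) := by
  refine ⟨al (m + 2) * 2 ^ (m + 2), by have := al_pos (m + 2); positivity, ?_⟩
  intro p hp r hr
  have hHc : IsClosed (Hp (m + 3)) := by
    unfold Hp
    exact isClosed_eq (by fun_prop) continuous_const
  have hcl : closure (ball p r ∩ Hp (m + 3)) ⊆ closedBall p r ∩ Hp (m + 3) := by
    refine closure_minimal ?_ (isClosed_closedBall.inter hHc)
    exact inter_subset_inter_left _ ball_subset_closedBall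
  have hsub : closure (ball p r ∩ Hp (m + 3)) + r • D0 (m + 3)
      ⊆ closedBall p (2 * r) ∩ Hp (m + 3) := by
    rintro _ ⟨x, hx, _, ⟨d, hd, rfl⟩, rfl⟩
    obtain ⟨hx1, hx2⟩ := hcl hx
    refine ⟨?_, Hp_add hx2 (by simp [← Finset.mul_sum, hd.1])⟩
    rw [mem_closedBall, dist_eq_norm] at hx1 ⊢
    have h1 : x + r • d - p = (x - p) + r • d := by abel
    simp only
    rw [h1]
    refine (norm_add_le _ _).trans ?_
    rw [norm_smul, Real.norm_of_nonneg hr.le]
    have := D0_norm_le (k := m + 3) (by omega) hd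
    nlinarith
  have hmu := mu_eq (k := m + 3) (by omega) hp (closedBall p (2 * r))
  have hpre : io p ⁻¹' closedBall p (2 * r) = closedBall (0 : E0 (m + 3)) (2 * r) := by
    ext x
    simp only [io, mem_preimage, mem_closedBall, dist_eq_norm]
    simp
  calc μHE[m + 2] (closure (ball p r ∩ Hp (m + 3)) + r • D0 (m + 3))
      ≤ μHE[m + 2] (closedBall p (2 * r) ∩ Hp (m + 3)) := measure_mono hsub
    _ = volume (io p ⁻¹' closedBall p (2 * r)) := hmu
    _ = ENNReal.ofReal (al (m + 2) * (2 * r) ^ (m + 2)) := by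
        rw [hpre]
        refine vol_closedBall ?_ _ (by positivity)
        rw [finrank_E0 (by omega)]
        omega
    _ = _ := by
        congr 1
        rw [mul_pow]
        ring

end SX
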