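import Pool.Agent.H27.SX.Cov
import Pool.Agent.H27.SX.Flat

/-! Project SX (MP_38b231_co), row SX-19: the lower bound without rectifiability. -/

set_option autoImplicit false
set_option linter.all false

open MeasureTheory Metric Set Filter Module
open scoped Topology MeasureTheory RealInnerProductSpace Nat Pointwise

namespace SX

open SP SP.Mea

theorem gen_al2 : al 2 = Real.pi := by
  unfold al
  rw [EuclideanSpace.volume_closedBall_fin_two, ENNReal.ofReal_one, one_pow, one_mul,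
    ENNReal.toReal_ofReal Real.pi_pos.le]

/-- the neighbourhood of `S` used with `cov` -/
theorem gen_subset {m : ℕ} {S : Set (V (m + 3))} (hS : S ⊆ Hp (m + 3)) {t ε R : ℝ}
    (ht : 0 < t) (hε : 0 < ε) (hR : 0 ≤ R) (hR2 : R ^ 2 = 1 - 1 / ((m : ℝ) + 3)) :
    closure (thickening (t * ε) S ∩ Hp (m + 3)) + ε • D0 (m + 3) ⊆
      cthickening ((t + R) * ε) S ∩ Hp (m + 3) := by
  have hHc : IsClosed (Hp (m + 3)) := by
    unfold Hp
    exact isClosed_eq (by fun_prop) continuous_const
  rintro _ ⟨x, hx, _, ⟨y, hy, rfl⟩, rfl⟩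
  have hxH : x ∈ Hp (m + 3) := by
    have := closure_mono inter_subset_right hx
    rwa [hHc.closure_eq] at this
  have hxS : x ∈ cthickening (t * ε) S := by
    have h1 := closure_mono inter_subset_left hx
    exact closure_thickening_subset_cthickening _ _ h1
  have hy2 : ‖y‖ ≤ R := by
    have h1 := D0_norm (k := m + 3) (by omega) hy
    have h2 : ‖y‖ ^ 2 ≤ R ^ 2 := by
      rw [hR2]
      push_cast at h1
      exact h1
    exact le_of_sq_le_sq h2 hR
  refine ⟨?_, ?_⟩
  · rw [mem_cthickening_iff] at hxS ⊢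
    show infEDist (x + ε • y) S ≤ _
    have h3 : edist (x + ε • y) x ≤ ENNReal.ofReal (ε * R) := by
      rw [edist_dist, dist_eq_norm, add_sub_cancel_left, norm_smul, Real.norm_eq_abs,
        abs_of_pos hε]
      exact ENNReal.ofReal_le_ofReal (mul_le_mul_of_nonneg_left hy2 hε.le)
    calc infEDist (x + ε • y) S ≤ infEDist x S + edist (x + ε • y) x := infEDist_le_infEDist_add_edist
      _ ≤ ENNReal.ofReal (t * ε) + ENNReal.ofReal (ε * R) := add_le_add hxS h3
      _ = ENNReal.ofReal ((t + R) * ε) := by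
          rw [← ENNReal.ofReal_add (by positivity) (by positivity)]
          congr 1
          ring
  · have h1 : ∑ i, x i = 1 := hxH
    have h2 : ∑ i, y i = 0 := hy.1
    show ∑ i, (x + ε • y) i = 1
    simp only [PiLp.add_apply, PiLp.smul_apply, smul_eq_mul, Finset.sum_add_distrib, h1,
      ← Finset.mul_sum, h2, mul_zero, add_zero]

theorem lower_gen {m : ℕ} {A : Fin (m + 3) → Set (V (m + 3))} (hA : Adm0 (m + 3) A) {L : ℝ}
    (hL : HasContent (m + 3) m (meet (m + 3) A 3) L) :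
    Real.sqrt ((m : ℝ) + 3) / (2 * (m ! : ℝ)) * (((m : ℝ) + 3) / (Real.pi * ((m : ℝ) + 2))) ≤ L := by
  obtain ⟨hSc, hSx⟩ := meet_compact hA 3 (by omega)
  set S := meet (m + 3) A 3 with hSdef
  have hSH : S ⊆ Hp (m + 3) := fun x hx => (hSx hx).2
  have hm3 : (0 : ℝ) < (m : ℝ) + 3 := by positivity
  set R := Real.sqrt (1 - 1 / ((m : ℝ) + 3)) with hRdef
  have hRnn : (0 : ℝ) ≤ 1 - 1 / ((m : ℝ) + 3) := by
    rw [sub_nonneg, div_le_one hm3]
    have : (0 : ℝ) ≤ m := Nat.cast_nonneg m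
    linarith
  have hR : 0 ≤ R := Real.sqrt_nonneg _
  have hR2 : R ^ 2 = 1 - 1 / ((m : ℝ) + 3) := Real.sq_sqrt hRnn
  set c := Real.sqrt ((m : ℝ) + 3) / (m ! : ℝ) with hc
  set F : ℝ → ℝ := fun δ => (μHE[m + 2] (cthickening δ S ∩ Hp (m + 3))).toReal with hF
  -- the inequality for all `t`, `ε`
  have key : ∀ t : ℝ, 0 < t → ∀ ε : ℝ, 0 < ε → c ≤ 2 * F ((t + R) * ε) / ε ^ 2 := by
    intro t ht ε hε
    have h1 := cov hA (ι := Unit) (fun _ => thickening (t * ε) S) (fun _ => isOpen_thickening)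
      (fun _ => hSc.isBounded.thickening)
      (fun x hx => mem_iUnion.2 ⟨(), self_subset_thickening (by positivity) S hx⟩)
      (fun _ => ε) (fun _ => hε)
    rw [Fintype.sum_unique] at h1
    refine h1.trans ?_
    apply div_le_div_of_nonneg_right _ (by positivity)
    apply mul_le_mul_of_nonneg_left _ (by norm_num)
    apply ENNReal.toReal_mono
    · exact (mu_fin (k := m + 3) (by omega) hSc.isBounded _).ne
    · exact measure_mono (gen_subset hSH ht hε hR hR2)
  -- the limit
  have hlim : ∀ t : ℝ, 0 < t → c ≤ 2 * Real.pi * (t + R) ^ 2 * L := by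
    intro t ht
    have htR : 0 < t + R := by linarith
    have h1 : Tendsto (fun δ : ℝ => F δ / (Real.pi * δ ^ 2)) (𝓝[>] 0) (𝓝 L) := by
      have h2 := hL
      unfold HasContent at h2
      have e1 : m + 3 - 1 = m + 2 := rfl
      have e2 : m + 3 - 1 - m = 2 := by omega
      rw [e2, e1, gen_al2] at h2
      exact h2
    have h3 : Tendsto (fun ε : ℝ => (t + R) * ε) (𝓝[>] 0) (𝓝[>] 0) := by
      rw [tendsto_nhdsWithin_iff]
      refine ⟨?_, ?_⟩
      · have : Tendsto (fun ε : ℝ => (t + R) * ε) (𝓝 0) (𝓝 ((t + R) * 0)) :=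
          (continuous_const.mul continuous_id).tendsto 0
        rw [mul_zero] at this
        exact this.mono_left nhdsWithin_le_nhds
      · filter_upwards [self_mem_nhdsWithin] with ε hε
        exact mul_pos htR hε
    have h4 := (h1.comp h3).const_mul (2 * Real.pi * (t + R) ^ 2)
    refine ge_of_tendsto h4 ?_
    filter_upwards [self_mem_nhdsWithin] with ε hε
    have hε : 0 < ε := hε
    refine (key t ht ε hε).trans (le_of_eq ?_)
    show 2 * F ((t + R) * ε) / ε ^ 2 =
      2 * Real.pi * (t + R) ^ 2 * (F ((t + R) * ε) / (Real.pi * ((t + R) * ε) ^ 2))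
    have := Real.pi_pos
    field_simp
  have hfin : c ≤ 2 * Real.pi * R ^ 2 * L := by
    have h1 : Tendsto (fun t : ℝ => 2 * Real.pi * (t + R) ^ 2 * L) (𝓝[>] 0)
        (𝓝 (2 * Real.pi * (0 + R) ^ 2 * L)) := by
      apply Tendsto.mono_left _ nhdsWithin_le_nhds
      apply Continuous.tendsto
      fun_prop
    rw [zero_add] at h1
    refine ge_of_tendsto h1 ?_
    filter_upwards [self_mem_nhdsWithin] with t ht
    exact hlim t ht
  rw [hR2, hc] at hfin
  have hm2 : (0 : ℝ) < (m : ℝ) + 2 := by positivity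
  have hpi := Real.pi_pos
  have hfac : (0 : ℝ) < (m ! : ℝ) := by positivity
  have e1 : 2 * Real.pi * (1 - 1 / ((m : ℝ) + 3)) = 2 * (Real.pi * ((m : ℝ) + 2)) / ((m : ℝ) + 3) := by
    field_simp
    ring
  rw [e1] at hfin
  have h5 : Real.sqrt ((m : ℝ) + 3) / (2 * (m ! : ℝ)) * (((m : ℝ) + 3) / (Real.pi * ((m : ℝ) + 2))) =
      Real.sqrt ((m : ℝ) + 3) / (m ! : ℝ) / (2 * (Real.pi * ((m : ℝ) + 2)) / ((m : ℝ) + 3)) := by
    field_simp
  rw [h5, div_le_iff₀ (by positivity)]
  linarith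

end SX
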