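import Pool.Agent.H27.SX.Defs

/-!
# Project SX, row SX-13: flat pieces of patches of class `C¹`
-/

set_option autoImplicit false

open MeasureTheory Metric Set Filter Module
open scoped Topology MeasureTheory RealInnerProductSpace Nat Pointwise

namespace SX

open SP SP.Mea

private theorem patch_deriv_mem {k m : ℕ} {f : EuclideanSpace ℝ (Fin m) → V k}
    (hf : ContDiff ℝ 1 f) (hH : ∀ x, f x ∈ Hp k) (x₀ v : EuclideanSpace ℝ (Fin m)) :
    fderiv ℝ f x₀ v ∈ E0 k := by
  have h1 : HasFDerivAt f (fderiv ℝ f x₀) x₀ :=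
    (hf.differentiable one_ne_zero).differentiableAt.hasFDerivAt
  have h2 : HasFDerivAt (fun x => innerSL ℝ (one k) (f x)) ((innerSL ℝ (one k)).comp (fderiv ℝ f x₀)) x₀ :=
    (innerSL ℝ (one k)).hasFDerivAt.comp x₀ h1
  have h3 : (fun x => innerSL ℝ (one k) (f x)) = fun _ => (1 : ℝ) := by
    funext x
    have := hH x
    simp only [Hp, mem_ofPred_eq] at this
    rw [innerSL_apply_apply]
    rw [← this]
    simp [one, PiLp.inner_apply]
  rw [h3] at h2
  have h4 := h2.unique (hasFDerivAt_const (1 : ℝ) x₀)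
  have h5 := congrArg (fun L => L v) h4
  simp only [ContinuousLinearMap.comp_apply, innerSL_apply_apply, zero_apply] at h5
  rw [Submodule.mem_orthogonal_singleton_iff_inner_right]
  exact h5

private theorem patch_local {k m : ℕ} {f : EuclideanSpace ℝ (Fin m) → V k}
    (hf : ContDiff ℝ 1 f) (hinj : ∀ x, Function.Injective (fderiv ℝ f x)) (hH : ∀ x, f x ∈ Hp k)
    {η : ℝ} (hη : 0 < η) (x₀ : EuclideanSpace ℝ (Fin m)) :
    ∃ (r : ℝ) (w : Fin m → V k), 0 < r ∧ Fr w ∧ Flat η w (f '' closedBall x₀ r) := by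
  set D := fderiv ℝ f x₀ with hD
  have hstrict : HasStrictFDerivAt f D x₀ :=
    (hf.contDiffAt (x := x₀)).hasStrictFDerivAt one_ne_zero
  obtain ⟨K, hK0, hK⟩ := LinearMap.exists_antilipschitzWith (D : EuclideanSpace ℝ (Fin m) →ₗ[ℝ] V k)
    (LinearMap.ker_eq_bot.2 (hinj x₀))
  have hKpos : (0 : ℝ) < K := by exact_mod_cast hK0
  have hlow : ∀ v, ‖v‖ ≤ K * ‖D v‖ := by
    intro v
    have := hK.le_mul_dist v 0
    simpa using this
  set c : ℝ := (K : ℝ)⁻¹ with hc
  have hcpos : 0 < c := inv_pos.2 hKpos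
  have hlow' : ∀ v, c * ‖v‖ ≤ ‖D v‖ := by
    intro v
    have := hlow v
    rw [hc, inv_mul_le_iff₀ hKpos]
    exact this
  set e : ℝ := min (c / 2) (η * c / 2) with he
  have hepos : 0 < e := lt_min (by positivity) (by positivity)
  have he1 : e ≤ c / 2 := min_le_left _ _
  have he2 : e ≤ η * c / 2 := min_le_right _ _
  obtain ⟨s, hs, happ⟩ := hstrict.approximates_deriv_on_nhds (c := ⟨e, hepos.le⟩) (Or.inr hepos)
  obtain ⟨r, hr, hrs⟩ := Metric.nhds_basis_closedBall.mem_iff.1 hs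
  -- the range of the derivative
  set R : Submodule ℝ (V k) := LinearMap.range (D : EuclideanSpace ℝ (Fin m) →ₗ[ℝ] V k) with hR
  have hfin : finrank ℝ R = m := by
    rw [hR, LinearMap.finrank_range_of_inj (hinj x₀), finrank_euclideanSpace_fin]
  set b : OrthonormalBasis (Fin m) ℝ R := (stdOrthonormalBasis ℝ R).reindex (finCongr hfin)
    with hb
  refine ⟨r, fun a => (b a : V k), hr, ⟨?_, ?_⟩, ?_⟩
  · exact b.orthonormal.comp_linearIsometry R.subtypeₗᵢ
  · intro a
    obtain ⟨v, hv⟩ := (b a).2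
    show (b a : V k) ∈ E0 k
    rw [← hv]
    exact patch_deriv_mem hf hH x₀ v
  · -- flatness
    have hrs' : ∀ x : V k, rs (fun a => (b a : V k)) x = x - R.starProjection x := by
      intro x
      have h := b.orthogonalProjectionOnto_apply_eq_sum x
      unfold rs
      rw [Submodule.starProjection_apply, h]
      simp
    rintro _ ⟨x, hx, rfl⟩ _ ⟨y, hy, rfl⟩
    have h1 : ‖f x - f y - D (x - y)‖ ≤ e * ‖x - y‖ := happ x (hrs hx) y (hrs hy)
    rw [hrs']
    have h2 : R.starProjection (D (x - y)) = D (x - y) := by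
      rw [Submodule.starProjection_eq_self_iff]
      exact ⟨x - y, rfl⟩
    have h3 : f x - f y - R.starProjection (f x - f y) =
        (f x - f y - D (x - y)) - R.starProjection (f x - f y - D (x - y)) := by
      rw [map_sub R.starProjection (f x - f y) (D (x - y)), h2]
      abel
    have h4 : ∀ z : V k, ‖z - R.starProjection z‖ ≤ ‖z‖ := by
      intro z
      have : z - R.starProjection z = Rᗮ.starProjection z := by
        rw [Submodule.starProjection_orthogonal']
        simp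
      rw [this]
      exact Submodule.norm_starProjection_apply_le _ _
    rw [h3]
    refine (h4 _).trans (h1.trans ?_)
    have h5 : c * ‖x - y‖ ≤ ‖f x - f y‖ + e * ‖x - y‖ := by
      calc c * ‖x - y‖ ≤ ‖D (x - y)‖ := hlow' _
        _ = ‖(f x - f y) - (f x - f y - D (x - y))‖ := by rw [sub_sub_cancel]
        _ ≤ ‖f x - f y‖ + ‖f x - f y - D (x - y)‖ := norm_sub_le _ _
        _ ≤ ‖f x - f y‖ + e * ‖x - y‖ := by linarith
    have h6 : c / 2 * ‖x - y‖ ≤ ‖f x - f y‖ := by
      have := mul_le_mul_of_nonneg_right he1 (norm_nonneg (x - y))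
      linarith
    calc e * ‖x - y‖ ≤ η * c / 2 * ‖x - y‖ := mul_le_mul_of_nonneg_right he2 (norm_nonneg _)
      _ = η * (c / 2 * ‖x - y‖) := by ring
      _ ≤ η * ‖f x - f y‖ := mul_le_mul_of_nonneg_left h6 hη.le

theorem flat_patches {k m : ℕ} {S : Set (V k)} (hS : Rect k m S) {η : ℝ} (hη : 0 < η) :
    ∃ (Q : ℕ → Set (V k)) (w : ℕ → Fin m → V k), (∀ n, IsCompact (Q n)) ∧ (∀ n, Q n ⊆ Hp k) ∧
      (∀ n, Fr (w n)) ∧ (∀ n, Flat η (w n) (Q n)) ∧ μHE[m] (S \ ⋃ n, Q n) = 0 := by
  obtain ⟨f, hf, hinj, hH, h0⟩ := hS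
  choose r w hr hw hflat using fun n => patch_local (hf n) (hinj n) (hH n) hη
  -- countable covers
  have hcov : ∀ n, ∃ g : ℕ → EuclideanSpace ℝ (Fin m), ⋃ j, closedBall (g j) (r n (g j)) = univ := by
    intro n
    obtain ⟨s, hs, hsu⟩ := TopologicalSpace.countable_cover_nhds
      (f := fun x => closedBall x (r n x)) (fun x => closedBall_mem_nhds x (hr n x))
    have hne : s.Nonempty := by
      by_contra h
      rw [not_nonempty_iff_eq_empty] at h
      subst h
      have : (0 : EuclideanSpace ℝ (Fin m)) ∈ (univ : Set (EuclideanSpace ℝ (Fin m))) := mem_univ _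
      rw [← hsu] at this
      simp at this
    obtain ⟨g, hg⟩ := hs.exists_eq_range hne
    refine ⟨g, ?_⟩
    rw [← hsu, hg, biUnion_range]
  choose g hg using hcov
  refine ⟨fun i => f i.unpair.1 '' closedBall (g i.unpair.1 i.unpair.2)
      (r i.unpair.1 (g i.unpair.1 i.unpair.2)),
    fun i => w i.unpair.1 (g i.unpair.1 i.unpair.2), ?_, ?_, ?_, ?_, ?_⟩
  · intro i
    exact (isCompact_closedBall _ _).image (hf _).continuous
  · rintro i _ ⟨x, _, rfl⟩
    exact hH _ _
  · intro i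
    exact hw _ _
  · intro i
    exact hflat _ _
  · refine measure_mono_null ?_ h0
    rintro x ⟨hxS, hx⟩
    refine ⟨hxS, fun hx' => hx ?_⟩
    obtain ⟨n, y, rfl⟩ := mem_iUnion.1 hx'
    have : y ∈ ⋃ j, closedBall (g n j) (r n (g n j)) := by rw [hg]; exact mem_univ _
    obtain ⟨j, hj⟩ := mem_iUnion.1 this
    refine mem_iUnion.2 ⟨Nat.pair n j, ?_⟩
    simp only [Nat.unpair_pair]
    exact ⟨y, hj, rfl⟩

end SX
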