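import Pool.Agent.H27.SX.Defs

/-!
SX-14 (project SX of helper27, MP_38b231_co): disjoint compact pieces (inner regularity).
-/

set_option autoImplicit false

open MeasureTheory Metric Set Filter Module
open scoped Topology MeasureTheory RealInnerProductSpace Nat Pointwise

namespace SX

open SP SP.Mea

theorem pieces {k m : ℕ} {S : Set (V k)} (hS : IsCompact S) (hf : μHE[m] S < ⊤)
    {Q : ℕ → Set (V k)} (hQ : ∀ n, IsCompact (Q n)) (h0 : μHE[m] (S \ ⋃ n, Q n) = 0)
    {η : ℝ} (hη : 0 < η) :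
    ∃ (n : ℕ) (K : Fin n → Set (V k)), (∀ i, IsCompact (K i)) ∧ (∀ i, K i ⊆ S) ∧
      (∀ i, K i ⊆ Q i) ∧ (∀ i j, i ≠ j → Disjoint (K i) (K j)) ∧
      μHE[m] (S \ ⋃ i, K i) < ENNReal.ofReal η := by
  have hSm : MeasurableSet S := hS.isClosed.measurableSet
  have hQm : ∀ n, MeasurableSet (Q n) := fun n => (hQ n).isClosed.measurableSet
  -- the disjoint Borel pieces
  set D : ℕ → Set (V k) := fun i => S ∩ disjointed Q i with hD
  have hDm : ∀ i, MeasurableSet (D i) := fun i => hSm.inter (MeasurableSet.disjointed hQm i)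
  have hDS : ∀ i, D i ⊆ S := fun i => inter_subset_left
  have hDQ : ∀ i, D i ⊆ Q i := fun i x hx => disjointed_subset Q i hx.2
  have hDd : ∀ i j, i ≠ j → Disjoint (D i) (D j) := fun i j hij =>
    (disjoint_disjointed Q hij).mono inter_subset_right inter_subset_right
  have hDU : (⋃ i, D i) = S ∩ ⋃ i, Q i := by
    rw [← inter_iUnion, iUnion_disjointed]
  -- the tails
  set E : ℕ → Set (V k) := fun n => S \ ⋃ i ∈ Finset.range n, D i with hE
  have hEm : ∀ n, MeasurableSet (E n) := fun n =>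
    hSm.diff (Finset.measurableSet_biUnion _ fun i _ => hDm i)
  have hEanti : Antitone E := by
    intro a b hab
    refine sdiff_subset_sdiff_right ?_
    refine biUnion_subset_biUnion_left ?_
    intro i hi
    exact Finset.mem_coe.mpr (Finset.mem_range.mpr
      ((Finset.mem_range.mp (Finset.mem_coe.mp hi)).trans_le hab))
  have hEI : (⋂ n, E n) = S \ ⋃ n, Q n := by
    ext x
    simp only [hE, mem_iInter, Set.mem_sdiff, mem_iUnion, Finset.mem_range, exists_prop, not_exists,
      not_and]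
    constructor
    · intro h
      refine ⟨(h 0).1, fun n hn => ?_⟩
      have h1 : x ∈ S ∩ ⋃ i, Q i := ⟨(h 0).1, mem_iUnion.mpr ⟨n, hn⟩⟩
      rw [← hDU] at h1
      obtain ⟨i, hi⟩ := mem_iUnion.mp h1
      exact (h (i + 1)).2 i (Nat.lt_succ_self i) hi
    · rintro ⟨h1, h2⟩ n
      exact ⟨h1, fun i _ hi => h2 i (hDQ i hi)⟩
  have hlim : Tendsto (fun n => μHE[m] (E n)) atTop (𝓝 (μHE[m] (⋂ n, E n))) := by
    refine tendsto_measure_iInter_atTop (fun n => (hEm n).nullMeasurableSet) hEanti ⟨0, ?_⟩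
    exact ((measure_mono sdiff_subset).trans_lt hf).ne
  rw [hEI, h0] at hlim
  have hη2 : (0 : ENNReal) < ENNReal.ofReal (η / 2) := ENNReal.ofReal_pos.mpr (by positivity)
  obtain ⟨n, hn⟩ := (hlim.eventually (gt_mem_nhds hη2)).exists
  -- compact pieces
  have hfin : IsFiniteMeasure ((μHE[m] : Measure (V k)).restrict S) :=
    ⟨by rw [Measure.restrict_apply_univ]; exact hf⟩
  have hKex : ∀ i, ∃ K : Set (V k), K ⊆ D i ∧ IsCompact K ∧
      μHE[m] (D i \ K) < ENNReal.ofReal (η / (2 * (n + 1))) := by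
    intro i
    obtain ⟨K, hK1, hK2, hK3⟩ := (hDm i).exists_isCompact_sdiff_lt
      (μ := (μHE[m] : Measure (V k)).restrict S) (measure_ne_top _ _)
      (ε := ENNReal.ofReal (η / (2 * (n + 1))))
      (ENNReal.ofReal_pos.mpr (by positivity)).ne'
    refine ⟨K, hK1, hK2, ?_⟩
    rwa [Measure.restrict_apply ((hDm i).diff hK2.isClosed.measurableSet),
      inter_eq_left.mpr (sdiff_subset.trans (hDS i))] at hK3
  choose K hK1 hK2 hK3 using hKex
  refine ⟨n, fun i => K i, fun i => hK2 i, fun i => (hK1 i).trans (hDS i),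
    fun i => (hK1 i).trans (hDQ i), fun i j hij => ?_, ?_⟩
  · exact (hDd i j (fun h => hij (Fin.ext h))).mono (hK1 i) (hK1 j)
  · have h1 : S \ ⋃ i : Fin n, K i ⊆ E n ∪ ⋃ i ∈ Finset.range n, (D i \ K i) := by
      rintro x ⟨hx1, hx2⟩
      by_cases hx3 : x ∈ ⋃ i ∈ Finset.range n, D i
      · right
        simp only [mem_iUnion, Finset.mem_range, exists_prop] at hx3 ⊢
        obtain ⟨i, hi, hxi⟩ := hx3
        refine ⟨i, hi, hxi, fun hxK => hx2 ?_⟩
        exact mem_iUnion.mpr ⟨⟨i, hi⟩, hxK⟩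
      · left
        exact ⟨hx1, hx3⟩
    have h2 : μHE[m] (⋃ i ∈ Finset.range n, (D i \ K i)) ≤ ENNReal.ofReal (η / 2) := by
      refine (measure_biUnion_finset_le _ _).trans ?_
      calc ∑ i ∈ Finset.range n, μHE[m] (D i \ K i)
          ≤ ∑ i ∈ Finset.range n, ENNReal.ofReal (η / (2 * (n + 1))) :=
            Finset.sum_le_sum fun i _ => (hK3 i).le
        _ = ENNReal.ofReal (n * (η / (2 * (n + 1)))) := by
            rw [Finset.sum_const, Finset.card_range, nsmul_eq_mul,
              ENNReal.ofReal_mul (Nat.cast_nonneg n), ENNReal.ofReal_natCast]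
        _ ≤ ENNReal.ofReal (η / 2) := by
            refine ENNReal.ofReal_le_ofReal ?_
            have h3 : (0 : ℝ) < n + 1 := by positivity
            rw [mul_div_assoc', div_le_div_iff₀ (by positivity) (by norm_num)]
            nlinarith
    calc μHE[m] (S \ ⋃ i : Fin n, K i)
        ≤ μHE[m] (E n ∪ ⋃ i ∈ Finset.range n, (D i \ K i)) := measure_mono h1
      _ ≤ μHE[m] (E n) + μHE[m] (⋃ i ∈ Finset.range n, (D i \ K i)) := measure_union_le _ _
      _ < ENNReal.ofReal (η / 2) + ENNReal.ofReal (η / 2) :=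
          ENNReal.add_lt_add_of_lt_of_le (ne_top_of_le_ne_top ENNReal.ofReal_ne_top h2) hn h2
      _ = ENNReal.ofReal η := by
          rw [← ENNReal.ofReal_add (by positivity) (by positivity), add_halves]

end SX
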