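import Pool.Agent.H27.SX.Cov
import Pool.Agent.H27.SX.Flat
import Pool.Agent.H27.SX.Proj
import Pool.Agent.H27.SX.Fin
import Pool.Agent.H27.SX.Patch
import Pool.Agent.H27.SX.Pieces
import Pool.Agent.H27.SX.Low
import Pool.Agent.H27.SX.Cubes
import Pool.Agent.H27.SX.Balls

/-!
# SX-18: the lower bound for rectifiable sets
-/

set_option autoImplicit false

open MeasureTheory Metric Set Filter Module
open scoped Topology MeasureTheory RealInnerProductSpace Nat Pointwise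

namespace SX

open SP SP.Mea

theorem low_rs_cont {k m : ℕ} (w : Fin m → V k) (p : V k) :
    Continuous (fun x : V k => rs w (x - p)) := by
  unfold rs
  fun_prop

theorem low_TCo_open {k m : ℕ} (w : Fin m → V k) (p : V k) (r h : ℝ) : IsOpen (TCo w p r h) := by
  unfold TCo
  have h1 : IsOpen {x : V k | ∀ a, ⟪w a, x - p⟫ ∈ Ioo 0 r} := by
    have : {x : V k | ∀ a, ⟪w a, x - p⟫ ∈ Ioo 0 r} =
        ⋂ a, {x : V k | ⟪w a, x - p⟫ ∈ Ioo 0 r} := by
      ext x; simp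
    rw [this]
    refine isOpen_iInter_of_finite fun a => ?_
    exact isOpen_Ioo.preimage (f := fun x : V k => ⟪w a, x - p⟫) (by fun_prop)
  have h2 : IsOpen {x : V k | ‖rs w (x - p)‖ < h} :=
    isOpen_lt (low_rs_cont w p).norm continuous_const
  exact h1.inter h2

theorem low_TCo_bdd {k m : ℕ} (w : Fin m → V k) (p : V k) (r h : ℝ) (hw : Fr w) :
    Bornology.IsBounded (TCo w p r h) := by
  refine (isBounded_iff_subset_closedBall p).2 ⟨m * |r| + h, ?_⟩
  rintro x ⟨h1, h2⟩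
  rw [mem_closedBall, dist_eq_norm]
  have h3 : x - p = (∑ a, ⟪w a, x - p⟫ • w a) + rs w (x - p) := by
    unfold rs; abel
  have h4 : ‖∑ a, ⟪w a, x - p⟫ • w a‖ ≤ m * |r| := by
    calc ‖∑ a, ⟪w a, x - p⟫ • w a‖ ≤ ∑ a, ‖⟪w a, x - p⟫ • w a‖ := norm_sum_le _ _
      _ ≤ ∑ _a : Fin m, |r| := by
        refine Finset.sum_le_sum fun a _ => ?_
        rw [norm_smul, hw.1.1 a, mul_one, Real.norm_eq_abs, abs_of_pos (h1 a).1]
        exact (h1 a).2.le.trans (le_abs_self r)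
      _ = m * |r| := by simp
  calc ‖x - p‖ = ‖(∑ a, ⟪w a, x - p⟫ • w a) + rs w (x - p)‖ := by rw [← h3]
    _ ≤ _ := norm_add_le _ _
    _ ≤ _ := add_le_add h4 h2.le

theorem low_TC_closed {k m : ℕ} (w : Fin m → V k) (p : V k) (r h : ℝ) : IsClosed (TC w p r h) := by
  unfold TC
  have h0 : IsClosed (Hp k) := by
    unfold Hp
    exact isClosed_eq (by fun_prop) continuous_const
  have h1 : IsClosed {x : V k | ∀ a, ⟪w a, x - p⟫ ∈ Icc 0 r} := by
    have : {x : V k | ∀ a, ⟪w a, x - p⟫ ∈ Icc 0 r} =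
        ⋂ a, {x : V k | ⟪w a, x - p⟫ ∈ Icc 0 r} := by
      ext x; simp
    rw [this]
    refine isClosed_iInter fun a => ?_
    exact isClosed_Icc.preimage (f := fun x : V k => ⟪w a, x - p⟫) (by fun_prop)
  have h2 : IsClosed {x : V k | ‖rs w (x - p)‖ ≤ h} :=
    isClosed_le (low_rs_cont w p).norm continuous_const
  exact h0.inter (h1.inter h2)

theorem low_closure {k m : ℕ} (w : Fin m → V k) (p : V k) (r h : ℝ) :
    closure (TCo w p r h ∩ Hp k) ⊆ TC w p r h := by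
  refine closure_minimal ?_ (low_TC_closed w p r h)
  rintro x ⟨⟨h1, h2⟩, h3⟩
  exact ⟨h3, fun a => ⟨(h1 a).1.le, (h1 a).2.le⟩, h2.le⟩

/-- the cost of a thick cube -/
theorem low_cube {m : ℕ} (w : Fin m → V (m + 3)) (hw : Fr w) (p : V (m + 3))
    (hp : p ∈ Hp (m + 3)) {r η : ℝ} (hr : 0 < r) (hη : 0 < η) :
    2 * (μHE[m + 2] (closure (TCo w p r (4 * m * η * r) ∩ Hp (m + 3)) +
      (Real.sqrt η * r) • D0 (m + 3))).toReal / (Real.sqrt η * r) ^ 2 ≤
      2 * (1 + 2 * Real.sqrt η) ^ m * (1 + 4 * m * (m + 3) * Real.sqrt η) ^ 2 * r ^ m := by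
  have hs : 0 < Real.sqrt η := Real.sqrt_pos.2 hη
  have hsq : Real.sqrt η * Real.sqrt η = η := Real.mul_self_sqrt hη.le
  have h1 := flat_cost_of (fun w hw => proj_area (by omega) w hw) w hw p hp (r := r) (h := 4 * m * η * r) (ε := Real.sqrt η * r) hr.le
    (by positivity) (by positivity)
  have h2 : μHE[m + 2] (closure (TCo w p r (4 * m * η * r) ∩ Hp (m + 3)) +
      (Real.sqrt η * r) • D0 (m + 3)) ≤
      ENNReal.ofReal ((r + 2 * (Real.sqrt η * r)) ^ m *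
        (Real.sqrt η * r + (m + 3) * (4 * m * η * r)) ^ 2) :=
    (measure_mono (Set.add_subset_add_right (low_closure w p r _))).trans h1
  have h3 := ENNReal.toReal_le_of_le_ofReal (by positivity) h2
  rw [div_le_iff₀ (by positivity)]
  have h4 : (r + 2 * (Real.sqrt η * r)) ^ m = r ^ m * (1 + 2 * Real.sqrt η) ^ m := by
    rw [← mul_pow]; ring
  have h5 : Real.sqrt η * r + (m + 3) * (4 * m * η * r) =
      (Real.sqrt η * r) * (1 + 4 * m * (m + 3) * Real.sqrt η) := by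
    have : η * r = Real.sqrt η * (Real.sqrt η * r) := by rw [← mul_assoc, hsq]
    calc Real.sqrt η * r + (m + 3) * (4 * m * η * r)
        = Real.sqrt η * r + (m + 3) * (4 * m) * (η * r) := by ring
      _ = _ := by rw [this]; ring
  rw [h4, h5] at h3
  calc 2 * (μHE[m + 2] (closure (TCo w p r (4 * m * η * r) ∩ Hp (m + 3)) +
      (Real.sqrt η * r) • D0 (m + 3))).toReal
      ≤ 2 * (r ^ m * (1 + 2 * Real.sqrt η) ^ m *
        ((Real.sqrt η * r) * (1 + 4 * m * (m + 3) * Real.sqrt η)) ^ 2) := by gcongr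
    _ = _ := by ring

/-- the estimate for fixed `η` -/
theorem low_eta {m : ℕ} (hm : 1 ≤ m) : ∃ C : ℝ, ∀ A : Fin (m + 3) → Set (V (m + 3)),
    Adm0 (m + 3) A → Rect (m + 3) m (meet (m + 3) A 3) → ∀ L : ℝ,
    HasContent (m + 3) m (meet (m + 3) A 3) L → ∀ η : ℝ, 0 < η → η ≤ 1 / 2 →
    Real.sqrt ((m : ℝ) + 3) / (m ! : ℝ) ≤
      2 * (1 + 2 * Real.sqrt η) ^ m * (1 + 4 * m * (m + 3) * Real.sqrt η) ^ 2 * (L + η)
        + C * η := by
  obtain ⟨C1, hC1, hcov⟩ := ball_cover (m + 3) m (by omega) hm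
  obtain ⟨C2, hC2, hball⟩ := ball_cost m
  refine ⟨2 * C2 * C1, ?_⟩
  intro A hA hR L hL η hη hη2
  obtain ⟨hSc, hSx⟩ := meet_compact hA 3 (by omega)
  set S := meet (m + 3) A 3 with hS
  have hSH : S ⊆ Hp (m + 3) := fun x hx => (hSx hx).2
  have hfin := meas_fin hSc hSH hL
  obtain ⟨Q, w, hQc, hQH, hw, hQf, hQ0⟩ := flat_patches hR hη
  obtain ⟨n, K, hKc, hKS, hKQ, hKd, hKm⟩ := pieces hSc hfin hQc hQ0 hη
  have hcp := content_proj hSH hSc.isBounded hL K (fun i => w i) (fun i => hw i) hKc hKS hKd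
  have hθ : 0 < η / (n + 1) := by positivity
  have hcub : ∀ i : Fin n, ∃ (r : ℝ) (T : Finset (V (m + 3))), 0 < r ∧ r < η / (n + 1) ∧
      (∀ p ∈ T, p ∈ Hp (m + 3)) ∧
      K i ⊆ ⋃ p ∈ T, TCo (w i) p r (4 * m * η * r) ∧
      (T.card : ℝ) * r ^ m ≤ (volume (cw (w i) '' K i)).toReal + η / (n + 1) := fun i =>
    cubes hm (w i) (hw i) (hKc i) ((hKS i).trans hSH) hη hη2
      (fun x hx y hy => hQf i x (hKQ i hx) y (hKQ i hy)) hθ
  choose r T hr hrθ hTH hKT hTc using hcub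
  obtain ⟨q, ρ, hqH, hρ, hZ, hsum, hts⟩ := hcov (S \ ⋃ i, K i) (sdiff_subset.trans hSH) η hη hKm
  -- the part not covered by cubes is compact
  set O : Set (V (m + 3)) := ⋃ i, ⋃ p ∈ T i, TCo (w i) p (r i) (4 * m * η * r i) with hO
  have hOo : IsOpen O := isOpen_iUnion fun i => isOpen_biUnion fun p _ => low_TCo_open _ _ _ _
  have hcomp : IsCompact (S \ O) := hSc.diff hOo
  have hsub : S \ O ⊆ ⋃ j, ball (q j) (ρ j) := by
    rintro x ⟨hx, hxO⟩
    apply hZ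
    refine ⟨hx, fun hxK => hxO ?_⟩
    obtain ⟨i, hi⟩ := mem_iUnion.1 hxK
    exact mem_iUnion.2 ⟨i, hKT i hi⟩
  obtain ⟨F, hF⟩ := hcomp.elim_finite_subcover _ (fun j => isOpen_ball) hsub
  let ι := (Σ i : Fin n, T i) ⊕ F
  let KK : ι → Set (V (m + 3)) := Sum.elim
    (fun z => TCo (w z.1) z.2.1 (r z.1) (4 * m * η * r z.1)) (fun j => ball (q j) (ρ j))
  let ee : ι → ℝ := Sum.elim (fun z => Real.sqrt η * r z.1) (fun j => ρ j)
  have hsη : 0 < Real.sqrt η := Real.sqrt_pos.2 hη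
  have h1 : ∀ i, IsOpen (KK i) := by
    rintro (z | j)
    · exact low_TCo_open _ _ _ _
    · exact isOpen_ball
  have h2 : ∀ i, Bornology.IsBounded (KK i) := by
    rintro (z | j)
    · exact low_TCo_bdd _ _ _ _ (hw _)
    · exact isBounded_ball
  have h3 : meet (m + 3) A 3 ⊆ ⋃ i, KK i := by
    intro x hx
    by_cases hxO : x ∈ O
    · obtain ⟨i, hi⟩ := mem_iUnion.1 hxO
      obtain ⟨p, hp⟩ := mem_iUnion.1 hi
      obtain ⟨hp1, hp2⟩ := mem_iUnion.1 hp
      exact mem_iUnion.2 ⟨Sum.inl ⟨i, ⟨p, hp1⟩⟩, hp2⟩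
    · have := hF ⟨hx, hxO⟩
      obtain ⟨j, hj⟩ := mem_iUnion.1 this
      obtain ⟨hj1, hj2⟩ := mem_iUnion.1 hj
      exact mem_iUnion.2 ⟨Sum.inr ⟨j, hj1⟩, hj2⟩
  have h4 : ∀ i, 0 < ee i := by
    rintro (z | j)
    · exact mul_pos hsη (hr _)
    · exact hρ _
  have hmain := cov hA KK h1 h2 h3 ee h4
  refine hmain.trans ?_
  rw [Fintype.sum_sum_type]
  refine add_le_add ?_ ?_
  · set c : ℝ := 2 * (1 + 2 * Real.sqrt η) ^ m * (1 + 4 * m * (m + 3) * Real.sqrt η) ^ 2 with hc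
    have hc0 : 0 ≤ c := by positivity
    calc ∑ z : (Σ i : Fin n, T i), 2 * (μHE[m + 2] (closure (KK (Sum.inl z) ∩ Hp (m + 3)) +
          ee (Sum.inl z) • D0 (m + 3))).toReal / ee (Sum.inl z) ^ 2
        ≤ ∑ z : (Σ i : Fin n, T i), c * r z.1 ^ m :=
          Finset.sum_le_sum fun z _ => low_cube (w z.1) (hw _) z.2.1 (hTH _ _ z.2.2) (hr _) hη
      _ = ∑ i : Fin n, c * ((T i).card * r i ^ m) := by
          rw [Fintype.sum_sigma]
          refine Finset.sum_congr rfl fun i _ => ?_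
          simp only [Finset.sum_const, Finset.card_univ, Fintype.card_coe, nsmul_eq_mul]
          ring
      _ ≤ ∑ i : Fin n, c * ((volume (cw (w i) '' K i)).toReal + η / (n + 1)) :=
          Finset.sum_le_sum fun i _ => mul_le_mul_of_nonneg_left (hTc i) hc0
      _ = c * (∑ i : Fin n, (volume (cw (w i) '' K i)).toReal + n * (η / (n + 1))) := by
          rw [← Finset.mul_sum, Finset.sum_add_distrib]
          simp
      _ ≤ c * (L + η) := by
          refine mul_le_mul_of_nonneg_left (add_le_add hcp ?_) hc0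
          rw [mul_div_assoc', div_le_iff₀ (by positivity)]
          nlinarith
  · calc ∑ j : F, 2 * (μHE[m + 2] (closure (KK (Sum.inr j) ∩ Hp (m + 3)) +
          ee (Sum.inr j) • D0 (m + 3))).toReal / ee (Sum.inr j) ^ 2
        ≤ ∑ j : F, 2 * C2 * ρ j ^ m := by
          refine Finset.sum_le_sum fun j _ => ?_
          have hj := hρ j
          have h5 := ENNReal.toReal_le_of_le_ofReal (by positivity) (hball (q j) (hqH j) (ρ j) hj)
          change 2 * (μHE[m + 2] (closure (ball (q j) (ρ j) ∩ Hp (m + 3)) +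
            ρ j • D0 (m + 3))).toReal / ρ j ^ 2 ≤ _
          rw [div_le_iff₀ (by positivity)]
          calc 2 * (μHE[m + 2] (closure (ball (q j) (ρ j) ∩ Hp (m + 3)) +
            ρ j • D0 (m + 3))).toReal ≤ 2 * (C2 * ρ j ^ (m + 2)) := by gcongr
            _ = _ := by rw [pow_add]; ring
      _ = 2 * C2 * ∑ j ∈ F, ρ j ^ m := by
          rw [← Finset.mul_sum, Finset.sum_coe_sort F (fun j => ρ j ^ m)]
      _ ≤ 2 * C2 * (C1 * η) := by
          refine mul_le_mul_of_nonneg_left ?_ (by positivity)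
          exact (hsum.sum_le_tsum F fun j _ => by have := hρ j; positivity).trans hts
      _ = 2 * C2 * C1 * η := by ring

theorem lower {m : ℕ} (hm : 1 ≤ m) {A : Fin (m + 3) → Set (V (m + 3))} (hA : Adm0 (m + 3) A)
    (hR : Rect (m + 3) m (meet (m + 3) A 3)) {L : ℝ}
    (hL : HasContent (m + 3) m (meet (m + 3) A 3) L) :
    Real.sqrt ((m : ℝ) + 3) / (2 * (m ! : ℝ)) ≤ L := by
  obtain ⟨C, hC⟩ := low_eta hm
  have h1 := hC A hA hR L hL
  have h2 : Tendsto (fun η : ℝ => 2 * (1 + 2 * Real.sqrt η) ^ m *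
      (1 + 4 * m * (m + 3) * Real.sqrt η) ^ 2 * (L + η) + C * η) (𝓝[>] 0)
      (𝓝 (2 * (1 + 2 * Real.sqrt 0) ^ m *
      (1 + 4 * m * (m + 3) * Real.sqrt 0) ^ 2 * (L + 0) + C * 0)) := by
    refine (Continuous.tendsto ?_ _).mono_left nhdsWithin_le_nhds
    fun_prop
  simp only [Real.sqrt_zero, mul_zero, add_zero, one_pow, mul_one] at h2
  have h3 : Real.sqrt ((m : ℝ) + 3) / (m ! : ℝ) ≤ 2 * L := by
    refine ge_of_tendsto h2 ?_
    have h4 : ∀ᶠ η : ℝ in 𝓝[>] 0, 0 < η ∧ η ≤ 1 / 2 := by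
      filter_upwards [self_mem_nhdsWithin,
        mem_nhdsWithin_of_mem_nhds (Iic_mem_nhds (show (0 : ℝ) < 1 / 2 by norm_num))] with δ h h'
      exact ⟨h, h'⟩
    filter_upwards [h4] with η hη
    exact h1 η hη.1 hη.2
  have h5 : (0 : ℝ) < (m ! : ℝ) := by exact_mod_cast Nat.factorial_pos m
  rw [div_le_iff₀ h5] at h3
  rw [div_le_iff₀ (by positivity)]
  linarith

end SX
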