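import Pool.Agent.H27.SX.Defs

/-!
# SX-20: the content of compact subsets of finitely many planes
-/

set_option autoImplicit false

open MeasureTheory Metric Set Filter Module
open scoped Topology MeasureTheory RealInnerProductSpace Nat Pointwise

namespace SX

open SP SP.Mea

section Plan

variable {E : Type*} [NormedAddCommGroup E] [InnerProductSpace ℝ E]
    [FiniteDimensional ℝ E] [MeasurableSpace E] [BorelSpace E]

omit [NormedAddCommGroup E] [InnerProductSpace ℝ E]
    [FiniteDimensional ℝ E] [MeasurableSpace E] [BorelSpace E] in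
/-- a subspace of small dimension is contained in one of dimension `m` -/
theorem plan_exists_sub {E : Type*} [AddCommGroup E] [Module ℝ E] [FiniteDimensional ℝ E] {m : ℕ}
    (hm : m ≤ finrank ℝ E) (U : Submodule ℝ E) (hU : finrank ℝ U ≤ m) :
    ∃ W : Submodule ℝ E, U ≤ W ∧ finrank ℝ W = m := by
  induction m with
  | zero => exact ⟨U, le_rfl, by omega⟩
  | succ n ih =>
    rcases Nat.lt_or_ge n (finrank ℝ U) with h | h
    · exact ⟨U, le_rfl, by omega⟩
    · obtain ⟨W, hUW, hW⟩ := ih (by omega) h
      have hne : W ≠ ⊤ := by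
        rintro rfl
        rw [finrank_top] at hW
        omega
      obtain ⟨v, hv⟩ : ∃ v, v ∉ W := by
        by_contra hcon
        push Not at hcon
        exact hne (Submodule.eq_top_iff'.2 hcon)
      have hv0 : v ≠ 0 := by rintro rfl; exact hv W.zero_mem
      refine ⟨W ⊔ (ℝ ∙ v), hUW.trans le_sup_left, ?_⟩
      have h1 := Submodule.finrank_sup_add_finrank_inf_eq W (ℝ ∙ v)
      have h2 : W ⊓ (ℝ ∙ v) = ⊥ := by
        rw [eq_bot_iff]
        rintro x ⟨hx1, hx2⟩
        obtain ⟨c, rfl⟩ := Submodule.mem_span_singleton.1 hx2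
        rcases eq_or_ne c 0 with rfl | hc
        · simp
        · exact absurd ((W.smul_mem_iff hc).1 hx1) hv
      rw [h2, finrank_bot, finrank_span_singleton hv0, hW] at h1
      omega

/-- the parametrization of a plane -/
noncomputable def plan_j (W : Submodule ℝ E) (q : E) : W → E := fun x => (x : E) + q

omit [FiniteDimensional ℝ E] [MeasurableSpace E] [BorelSpace E] in
theorem plan_j_isometry (W : Submodule ℝ E) (q : E) : Isometry (plan_j W q) := by
  intro x y
  simp only [plan_j]
  rw [edist_add_right]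
  rfl

omit [FiniteDimensional ℝ E] [MeasurableSpace E] [BorelSpace E] in
theorem plan_range_j (A : AffineSubspace ℝ E) {q : E} (hq : q ∈ A) :
    range (plan_j A.direction q) = A := by
  ext x
  constructor
  · rintro ⟨y, rfl⟩
    have := AffineSubspace.vadd_mem_of_mem_direction y.2 hq
    simpa [plan_j] using this
  · intro hx
    have h1 : x -ᵥ q ∈ A.direction := AffineSubspace.vsub_mem_direction hx hq
    exact ⟨⟨x - q, by simpa using h1⟩, by simp [plan_j]⟩

theorem plan_mu (A : AffineSubspace ℝ E) {q : E} (hq : q ∈ A) {m : ℕ}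
    (hm : finrank ℝ A.direction = m) (B : Set E) :
    μHE[m] (B ∩ A) = volume (plan_j A.direction q ⁻¹' B) := by
  rw [← plan_range_j A hq, ← (plan_j_isometry _ q).euclideanHausdorffMeasure_preimage]
  have h := InnerProductSpace.euclideanHausdorffMeasure_eq_volume (V := A.direction)
  rw [hm] at h
  rw [h]

theorem plan_prod {m d : ℕ} (A : AffineSubspace ℝ E) {q : E}
    (hm : finrank ℝ A.direction = m) (hd : finrank ℝ E = m + d) (F : Set A.direction) {ε : ℝ}
    (hε : 0 < ε) (hF : MeasurableSet F) :
    volume ((A.direction.measurableEquivProd q : E ≃ᵐ _) ⁻¹'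
      (F ×ˢ closedBall (0 : A.directionᗮ) ε)) = volume F * ENNReal.ofReal (al d * ε ^ d) := by
  have h := (A.direction.measurePreserving_measurableEquivProd q).measure_preimage
    (s := F ×ˢ closedBall (0 : A.directionᗮ) ε)
    (hF.prod measurableSet_closedBall).nullMeasurableSet
  rw [InnerProductSpace.euclideanHausdorffMeasure_eq_volume] at h
  rw [h, Measure.volume_eq_prod, Measure.prod_prod]
  congr 1
  refine vol_closedBall ?_ 0 hε
  have := A.direction.finrank_add_finrank_orthogonal
  omega

theorem plan_low {m d : ℕ} (A : AffineSubspace ℝ E) {q : E} (hq : q ∈ A)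
    (hm : finrank ℝ A.direction = m) (hd : finrank ℝ E = m + d) {K : Set E} (hK : IsCompact K)
    (hKA : K ⊆ A) {ε : ℝ} (hε : 0 < ε) :
    μHE[m] K * ENNReal.ofReal (al d * ε ^ d) ≤ volume (cthickening ε K) := by
  have h1 : μHE[m] K = volume (plan_j A.direction q ⁻¹' K) := by
    rw [← plan_mu A hq hm, inter_eq_left.2 hKA]
  have hcl : IsClosed (plan_j A.direction q ⁻¹' K) :=
    hK.isClosed.preimage (plan_j_isometry _ q).continuous
  rw [h1, ← plan_prod A (q := q) hm hd _ hε hcl.measurableSet]
  apply measure_mono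
  rintro y ⟨hy1, hy2⟩
  rw [Submodule.measurableEquivProd_apply] at hy1 hy2
  simp only [vsub_eq_sub, mem_preimage] at hy1 hy2
  rw [mem_closedBall, dist_zero_right] at hy2
  refine closedBall_subset_cthickening hy1 ε ?_
  rw [mem_closedBall, dist_eq_norm]
  refine le_trans (le_of_eq ?_) hy2
  rw [Submodule.coe_norm]
  congr 1
  have := A.direction.starProjection_add_starProjection_orthogonal (y - q)
  simp only [Submodule.starProjection_apply] at this
  simp only [plan_j]
  rw [add_comm _ q, ← sub_sub]
  exact sub_eq_iff_eq_add.2 (this.symm.trans (add_comm _ _))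

theorem plan_up {m d : ℕ} (A : AffineSubspace ℝ E) {q : E} (hq : q ∈ A)
    (hm : finrank ℝ A.direction = m) (hd : finrank ℝ E = m + d) {K : Set E} (hK : IsCompact K)
    (hKA : K ⊆ A) {ε : ℝ} (hε : 0 < ε) :
    volume (cthickening ε K) ≤
      volume (cthickening ε (plan_j A.direction q ⁻¹' K)) * ENNReal.ofReal (al d * ε ^ d) := by
  rw [← plan_prod A (q := q) hm hd _ hε isClosed_cthickening.measurableSet]
  apply measure_mono
  intro y hy
  rw [hK.cthickening_eq_biUnion_closedBall hε.le] at hy
  simp only [mem_iUnion, exists_prop] at hy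
  obtain ⟨z, hz, hyz⟩ := hy
  rw [mem_closedBall, dist_eq_norm] at hyz
  have hzq : z - q ∈ A.direction := by
    have := AffineSubspace.vsub_mem_direction (hKA hz) hq
    simpa using this
  rw [mem_preimage, Submodule.measurableEquivProd_apply]
  simp only [vsub_eq_sub]
  have hdec : y - q = (y - z) + (z - q) := by abel
  constructor
  · show A.direction.orthogonalProjectionOnto (y - q) ∈ _
    refine mem_cthickening_of_dist_le _ ⟨z - q, hzq⟩ ε _ ?_ ?_
    · simp [plan_j, hz]
    · have h3 : A.direction.orthogonalProjectionOnto (z - q) = ⟨z - q, hzq⟩ :=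
        Submodule.orthogonalProjectionOnto_mem_subspace_eq_self (⟨z - q, hzq⟩ : A.direction)
      rw [hdec, map_add, h3, dist_eq_norm, add_sub_cancel_right]
      exact (Submodule.norm_orthogonalProjectionOnto_apply_le _ _).trans hyz
  · show A.directionᗮ.orthogonalProjectionOnto (y - q) ∈ _
    rw [mem_closedBall, dist_zero_right, hdec, map_add]
    have h3 : A.directionᗮ.orthogonalProjectionOnto (z - q) = 0 := by
      rw [Submodule.orthogonalProjectionOnto_eq_zero_iff]
      exact Submodule.le_orthogonal_orthogonal _ hzq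
    rw [h3, add_zero]
    exact (Submodule.norm_orthogonalProjectionOnto_apply_le _ _).trans hyz

/-- two different planes of dimension `m` meet in a null set -/
theorem plan_null {m : ℕ} {A B : AffineSubspace ℝ E} (hA : (A : Set E).Nonempty)
    (hAm : finrank ℝ A.direction = m) (hBm : finrank ℝ B.direction = m) (hAB : A ≠ B) :
    μHE[m] ((B : Set E) ∩ A) = 0 := by
  obtain ⟨q, hq⟩ := hA
  rw [plan_mu A hq hAm]
  let f : A.direction →ᵃ[ℝ] E :=
    A.direction.subtype.toAffineMap + AffineMap.const ℝ A.direction q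
  have hf : ∀ x, f x = plan_j A.direction q x := fun x => rfl
  have h1 : plan_j A.direction q ⁻¹' (B : Set E) = (B.comap f : Set A.direction) := by
    ext x
    simp [hf]
  rw [h1]
  apply Measure.addHaar_affineSubspace
  intro htop
  apply hAB
  have hle : A ≤ B := by
    intro x hx
    have : x ∈ range (plan_j A.direction q) := by rw [plan_range_j A hq]; exact hx
    obtain ⟨y, rfl⟩ := this
    have hy : y ∈ B.comap f := by rw [htop]; trivial
    exact hy
  have hd : A.direction = B.direction :=
    Submodule.eq_of_le_of_finrank_eq (AffineSubspace.direction_le hle) (by rw [hAm, hBm])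
  exact AffineSubspace.eq_of_direction_eq_of_nonempty_of_le hd ⟨q, hq⟩ hle

/-- the content of a compact subset of finitely many planes of dimension `m` -/
theorem plan_content {m d : ℕ} (hd : finrank ℝ E = m + d) (T : Finset (AffineSubspace ℝ E))
    (hT : ∀ A ∈ T, (A : Set E).Nonempty ∧ finrank ℝ A.direction = m) {S : Set E}
    (hS : IsCompact S) (hST : S ⊆ ⋃ A ∈ T, (A : Set E)) :
    μHE[m] S < ⊤ ∧ Tendsto (fun ε : ℝ => (volume (cthickening ε S)).toReal /
      (al d * ε ^ d)) (𝓝[>] 0) (𝓝 (μHE[m] S).toReal) := by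
  classical
  have hcl : ∀ A : AffineSubspace ℝ E, IsClosed (A : Set E) :=
    fun A => A.closed_of_finiteDimensional
  have hSA : ∀ A : AffineSubspace ℝ E, IsCompact (S ∩ A) := fun A => hS.inter_right (hcl A)
  have hfin : ∀ A ∈ T, μHE[m] (S ∩ A) < ⊤ := by
    intro A hA
    obtain ⟨⟨q, hq⟩, hAm⟩ := hT A hA
    rw [plan_mu A hq hAm]
    exact ((plan_j_isometry A.direction q).isClosedEmbedding.isCompact_preimage hS).measure_lt_top
  -- the exclusive parts
  let D : AffineSubspace ℝ E → Set E := fun A => (S ∩ A) \ ⋃ B ∈ T.erase A, (B : Set E)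
  have hDm : ∀ A, MeasurableSet (D A) := fun A =>
    (hSA A).isClosed.measurableSet.diff
      (Finset.measurableSet_biUnion _ fun B _ => (hcl B).measurableSet)
  have hDmu : ∀ A ∈ T, μHE[m] (D A) = μHE[m] (S ∩ A) := by
    intro A hA
    refine measure_sdiff_null' ?_
    rw [inter_iUnion₂]
    refine le_antisymm ((measure_biUnion_finset_le _ _).trans
      (le_of_eq (Finset.sum_eq_zero fun B hB' => ?_))) bot_le
    rw [Finset.mem_erase] at hB'
    refine measure_mono_null ?_ (plan_null (hT A hA).1 (hT A hA).2 (hT B hB'.2).2 (Ne.symm hB'.1))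
    rintro x ⟨⟨_, hx⟩, hx2⟩
    exact ⟨hx2, hx⟩
  have hDdis : ∀ A ∈ T, ∀ B ∈ T, A ≠ B → Disjoint (D A) (D B) := by
    intro A hA B hB hAB
    rw [Set.disjoint_left]
    rintro x ⟨⟨_, hxA⟩, _⟩ ⟨_, hx2⟩
    apply hx2
    simp only [mem_iUnion, exists_prop]
    exact ⟨A, Finset.mem_erase.2 ⟨hAB, hA⟩, hxA⟩
  have hsum : μHE[m] S = ∑ A ∈ T, μHE[m] (S ∩ A) := by
    apply le_antisymm
    · calc μHE[m] S ≤ μHE[m] (⋃ A ∈ T, (S ∩ (A : Set E))) := by
            apply measure_mono
            intro x hx
            have := hST hx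
            simp only [mem_iUnion, exists_prop] at this ⊢
            obtain ⟨A, hA, hxA⟩ := this
            exact ⟨A, hA, hx, hxA⟩
        _ ≤ _ := measure_biUnion_finset_le _ _
    · calc ∑ A ∈ T, μHE[m] (S ∩ A) = ∑ A ∈ T, μHE[m] (D A) :=
            Finset.sum_congr rfl fun A hA => (hDmu A hA).symm
        _ = μHE[m] (⋃ A ∈ T, D A) := by
            rw [measure_biUnion_finset]
            · intro A hA B hB hAB
              exact hDdis A hA B hB hAB
            · exact fun A _ => hDm A
        _ ≤ μHE[m] S := by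
            apply measure_mono
            simp only [iUnion_subset_iff]
            rintro A _ x ⟨⟨hx, _⟩, _⟩
            exact hx
  have hfinS : μHE[m] S < ⊤ := by
    rw [hsum]
    exact ENNReal.sum_lt_top.2 hfin
  refine ⟨hfinS, ?_⟩
  have hLs : (μHE[m] S).toReal = ∑ A ∈ T, (μHE[m] (S ∩ A)).toReal := by
    rw [hsum, ENNReal.toReal_sum fun A hA => (hfin A hA).ne]
  have hthin : ∀ ε : ℝ, volume (cthickening ε S) < ⊤ := fun ε =>
    hS.isBounded.cthickening.measure_lt_top
  have hal := al_pos d
  rw [tendsto_order]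
  constructor
  · intro a ha
    -- lower bound
    obtain ⟨η, hη, hη2⟩ : ∃ η > 0, a < (μHE[m] S).toReal - η * T.card := by
      refine ⟨((μHE[m] S).toReal - a) / (2 * (T.card + 1)), by
        have := sub_pos.2 ha
        positivity, ?_⟩
      have h0 : 0 < (μHE[m] S).toReal - a := sub_pos.2 ha
      have h1 : ((μHE[m] S).toReal - a) / (2 * (T.card + 1)) * T.card ≤
          ((μHE[m] S).toReal - a) / 2 := by
        rw [div_mul_eq_mul_div, div_le_div_iff₀ (by positivity) (by positivity)]
        have : (0 : ℝ) ≤ T.card := by positivity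
        nlinarith
      linarith
    have hK : ∀ A ∈ T, ∃ K : Set E, IsCompact K ∧ K ⊆ D A ∧
        (μHE[m] (S ∩ A)).toReal - η ≤ (μHE[m] K).toReal := by
      intro A hA
      obtain ⟨⟨q, hq⟩, hAm⟩ := hT A hA
      have hj := plan_j_isometry A.direction q
      have hm1 : MeasurableSet (plan_j A.direction q ⁻¹' D A) :=
        (hDm A).preimage hj.continuous.measurable
      have hDA : D A ⊆ A := fun x hx => hx.1.2
      have h2 : volume (plan_j A.direction q ⁻¹' D A) = μHE[m] (S ∩ A) := by
        rw [← plan_mu A hq hAm, inter_eq_left.2 hDA, hDmu A hA]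
      obtain ⟨K, hKs, hKc, hKm⟩ := hm1.exists_isCompact_lt_add (μ := volume)
        (by rw [h2]; exact (hfin A hA).ne) (ε := ENNReal.ofReal η) (by simpa using hη)
      refine ⟨plan_j A.direction q '' K, hKc.image hj.continuous, ?_, ?_⟩
      · rintro _ ⟨x, hx, rfl⟩
        exact hKs hx
      · rw [h2] at hKm
        have h3 : μHE[m] (plan_j A.direction q '' K) = volume K := by
          rw [hj.euclideanHausdorffMeasure_image]
          have h := InnerProductSpace.euclideanHausdorffMeasure_eq_volume (V := A.direction)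
          rw [hAm] at h
          rw [h]
        rw [h3]
        have h4 := ENNReal.toReal_mono (by
          exact (ENNReal.add_lt_top.2 ⟨hKc.measure_lt_top, ENNReal.ofReal_lt_top⟩).ne) hKm.le
        rw [ENNReal.toReal_add hKc.measure_lt_top.ne ENNReal.ofReal_ne_top,
          ENNReal.toReal_ofReal hη.le] at h4
        linarith
    choose! K hKc hKD hKm using hK
    have hev : ∀ᶠ ε : ℝ in 𝓝[>] 0, ∀ A ∈ T, ∀ B ∈ T, A ≠ B →
        Disjoint (cthickening ε (K A)) (cthickening ε (K B)) := by
      rw [Filter.eventually_all_finset]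
      intro A hA
      rw [Filter.eventually_all_finset]
      intro B hB
      by_cases hAB : A = B
      · exact Filter.Eventually.of_forall fun ε h => absurd hAB h
      · have hdis : Disjoint (K A) (K B) := (hDdis A hA B hB hAB).mono (hKD A hA) (hKD B hB)
        obtain ⟨δ, hδ, hdd⟩ := hdis.exists_cthickenings (hKc A hA) (hKc B hB).isClosed
        filter_upwards [Ioo_mem_nhdsGT hδ] with ε hε _
        exact hdd.mono (cthickening_mono hε.2.le _) (cthickening_mono hε.2.le _)
    filter_upwards [hev, self_mem_nhdsWithin] with ε h1 h2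
    have hε : 0 < ε := h2
    have hpos : 0 < al d * ε ^ d := by positivity
    rw [lt_div_iff₀ hpos]
    have h3 : ∑ A ∈ T, (μHE[m] (K A)).toReal * (al d * ε ^ d) ≤
        (volume (cthickening ε S)).toReal := by
      have h4 : ∑ A ∈ T, μHE[m] (K A) * ENNReal.ofReal (al d * ε ^ d) ≤
          volume (cthickening ε S) := by
        calc ∑ A ∈ T, μHE[m] (K A) * ENNReal.ofReal (al d * ε ^ d)
            ≤ ∑ A ∈ T, volume (cthickening ε (K A)) := by
              refine Finset.sum_le_sum fun A hA => ?_
              obtain ⟨⟨q, hq⟩, hAm⟩ := hT A hA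
              exact plan_low A hq hAm hd (hKc A hA) (fun x hx => (hKD A hA hx).1.2) hε
          _ = volume (⋃ A ∈ T, cthickening ε (K A)) := by
              rw [measure_biUnion_finset]
              · intro A hA B hB hAB
                exact h1 A hA B hB hAB
              · exact fun A _ => isClosed_cthickening.measurableSet
          _ ≤ _ := by
              apply measure_mono
              simp only [iUnion_subset_iff]
              intro A hA
              exact cthickening_subset_of_subset _ fun x hx => (hKD A hA hx).1.1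
      have h5 := ENNReal.toReal_mono (hthin ε).ne h4
      rw [ENNReal.toReal_sum] at h5
      · simpa [ENNReal.toReal_mul, ENNReal.toReal_ofReal hpos.le] using h5
      · intro A hA
        refine ENNReal.mul_ne_top ?_ ENNReal.ofReal_ne_top
        exact (lt_of_le_of_lt (measure_mono fun x hx => (hKD A hA hx).1) (hfin A hA)).ne
    refine lt_of_lt_of_le ?_ h3
    rw [← Finset.sum_mul]
    refine (mul_lt_mul_iff_left₀ hpos).2 ?_
    have h6 : ∑ A ∈ T, ((μHE[m] (S ∩ A)).toReal - η) ≤ ∑ A ∈ T, (μHE[m] (K A)).toReal :=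
      Finset.sum_le_sum fun A hA => hKm A hA
    rw [Finset.sum_sub_distrib, ← hLs, Finset.sum_const, nsmul_eq_mul] at h6
    linarith
  · intro a ha
    -- upper bound
    have hq : ∀ A ∈ T, ∃ q : E, q ∈ A := fun A hA => (hT A hA).1
    choose! q hq using hq
    have hlim : Tendsto (fun ε : ℝ => ∑ A ∈ T,
        (volume (cthickening ε (plan_j A.direction (q A) ⁻¹' (S ∩ A)))).toReal) (𝓝[>] 0)
        (𝓝 (∑ A ∈ T, (μHE[m] (S ∩ A)).toReal)) := by
      refine tendsto_finsetSum _ fun A hA => ?_
      have hj := plan_j_isometry A.direction (q A)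
      have hc : IsCompact (plan_j A.direction (q A) ⁻¹' (S ∩ A)) :=
        hj.isClosedEmbedding.isCompact_preimage (hSA A)
      have h1 : volume (plan_j A.direction (q A) ⁻¹' (S ∩ A)) = μHE[m] (S ∩ A) := by
        rw [← plan_mu A (hq A hA) (hT A hA).2, inter_eq_left.2 inter_subset_right]
      rw [← h1]
      refine (ENNReal.tendsto_toReal (hc.measure_lt_top).ne).comp ?_
      exact (tendsto_measure_cthickening_of_isCompact hc).mono_left nhdsWithin_le_nhds
    rw [← hLs] at hlim
    have hev := (tendsto_order.1 hlim).2 a ha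
    filter_upwards [hev, self_mem_nhdsWithin] with ε h1 h2
    have hε : 0 < ε := h2
    have hpos : 0 < al d * ε ^ d := by positivity
    refine lt_of_le_of_lt ?_ h1
    rw [div_le_iff₀ hpos]
    have h4 : volume (cthickening ε S) ≤ ∑ A ∈ T,
        volume (cthickening ε (plan_j A.direction (q A) ⁻¹' (S ∩ A))) *
          ENNReal.ofReal (al d * ε ^ d) := by
      calc volume (cthickening ε S) ≤ volume (⋃ A ∈ T, cthickening ε (S ∩ (A : Set E))) := by
            apply measure_mono
            intro y hy
            rw [hS.cthickening_eq_biUnion_closedBall hε.le] at hy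
            simp only [mem_iUnion, exists_prop] at hy ⊢
            obtain ⟨z, hz, hyz⟩ := hy
            have := hST hz
            simp only [mem_iUnion, exists_prop] at this
            obtain ⟨A, hA, hzA⟩ := this
            exact ⟨A, hA, closedBall_subset_cthickening (show z ∈ S ∩ (A : Set E) from ⟨hz, hzA⟩) ε hyz⟩
        _ ≤ ∑ A ∈ T, volume (cthickening ε (S ∩ (A : Set E))) := measure_biUnion_finset_le _ _
        _ ≤ _ := Finset.sum_le_sum fun A hA =>
            plan_up A (hq A hA) (hT A hA).2 hd (hSA A) inter_subset_right hε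
    have hcf : ∀ A ∈ T, volume (cthickening ε (plan_j A.direction (q A) ⁻¹' (S ∩ A))) ≠ ⊤ := by
      intro A hA
      have hj := plan_j_isometry A.direction (q A)
      have hc : IsCompact (plan_j A.direction (q A) ⁻¹' (S ∩ A)) :=
        hj.isClosedEmbedding.isCompact_preimage (hSA A)
      exact hc.isBounded.cthickening.measure_lt_top.ne
    have h5 := ENNReal.toReal_mono (by
      refine (ENNReal.sum_lt_top.2 fun A hA => ?_).ne
      exact ENNReal.mul_lt_top (hcf A hA).lt_top ENNReal.ofReal_lt_top) h4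
    rw [ENNReal.toReal_sum fun A hA => ENNReal.mul_ne_top (hcf A hA) ENNReal.ofReal_ne_top] at h5
    refine h5.trans (le_of_eq ?_)
    rw [Finset.sum_mul]
    refine Finset.sum_congr rfl fun A _ => ?_
    rw [ENNReal.toReal_mul, ENNReal.toReal_ofReal hpos.le]

end Plan

/-- the linear isometry onto a subspace of dimension `m` containing given vectors -/
theorem plan_param {k m : ℕ} (hk : 2 ≤ k) (hm : m + 1 ≤ k) (v : Fin m → V k) (hv : ∀ a, v a ∈ E0 k) :
    ∃ L : EuclideanSpace ℝ (Fin m) →ₗᵢ[ℝ] V k, (∀ x, L x ∈ E0 k) ∧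
      ∀ t : Fin m → ℝ, ∃ x, L x = ∑ a, t a • v a := by
  let v' : Fin m → E0 k := fun a => ⟨v a, hv a⟩
  have hU : finrank ℝ (Submodule.span ℝ (range v')) ≤ m := by
    have := finrank_range_le_card (R := ℝ) (b := v')
    rw [Fintype.card_fin] at this
    exact this
  obtain ⟨W, hUW, hW⟩ := plan_exists_sub (E := E0 k) (m := m)
    (by rw [finrank_E0 hk]; omega) _ hU
  let b := (stdOrthonormalBasis ℝ W).reindex (finCongr hW)
  let L : EuclideanSpace ℝ (Fin m) →ₗᵢ[ℝ] V k :=
    (E0 k).subtypeₗᵢ.comp (W.subtypeₗᵢ.comp b.repr.symm.toLinearIsometry)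
  refine ⟨L, fun x => ?_, fun t => ?_⟩
  · show (((b.repr.symm x : W) : E0 k) : V k) ∈ E0 k
    exact Subtype.coe_prop _
  · have h1 : ∑ a, t a • v' a ∈ W := by
      refine Submodule.sum_mem _ fun a _ => W.smul_mem _ (hUW ?_)
      exact Submodule.subset_span (mem_range_self a)
    refine ⟨b.repr ⟨_, h1⟩, ?_⟩
    show (((b.repr.symm (b.repr ⟨_, h1⟩) : W) : E0 k) : V k) = _
    rw [LinearIsometryEquiv.symm_apply_apply]
    simp [v']

theorem planar_rect {m : ℕ} {S : Set (V (m + 3))} (hP : Planar (m + 3) m S) :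
    Rect (m + 3) m S := by
  obtain ⟨n, p, v, hp, hv, hS⟩ := hP
  have hp0 : (EuclideanSpace.single ⟨0, by omega⟩ (1 : ℝ) : V (m + 3)) ∈ Hp (m + 3) := by
    simp [Hp]
  let P : ℕ → V (m + 3) := fun i => if h : i < n then p ⟨i, h⟩ else
    EuclideanSpace.single ⟨0, by omega⟩ (1 : ℝ)
  let Q : ℕ → Fin m → V (m + 3) := fun i => if h : i < n then v ⟨i, h⟩ else fun _ => 0
  have hP : ∀ i, P i ∈ Hp (m + 3) := by
    intro i
    by_cases h : i < n
    · simp only [P, h, dif_pos]; exact hp _
    · simp only [P, h, dif_neg, not_false_iff]; exact hp0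
  have hQ : ∀ i a, Q i a ∈ E0 (m + 3) := by
    intro i a
    by_cases h : i < n
    · simp only [Q, h, dif_pos]; exact hv _ _
    · simp only [Q, h, dif_neg, not_false_iff]; exact Submodule.zero_mem _
  have hL := fun i => plan_param (k := m + 3) (m := m) (by omega) (by omega) (Q i) (hQ i)
  choose L hL1 hL2 using hL
  have hder : ∀ i x, HasFDerivAt (fun x => P i + L i x) (L i).toContinuousLinearMap x := by
    intro i x
    exact ((L i).toContinuousLinearMap.hasFDerivAt).const_add _
  refine ⟨fun i x => P i + L i x, fun i => ?_, fun i x => ?_, fun i x => ?_, ?_⟩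
  · exact contDiff_const.add (L i).toContinuousLinearMap.contDiff
  · rw [(hder i x).fderiv]
    exact (L i).injective
  · have h1 := hP i
    have h2 := mem_E0.1 (hL1 i x)
    simp only [Hp, mem_ofPred_eq] at h1 ⊢
    simp only [PiLp.add_apply, Finset.sum_add_distrib, h1, h2, add_zero]
  · have : S \ ⋃ i, range (fun x => P i + L i x) = ∅ := by
      rw [sdiff_eq_empty]
      intro x hx
      obtain ⟨i, hi⟩ := mem_iUnion.1 (hS hx)
      obtain ⟨t, rfl⟩ := hi
      obtain ⟨y, hy⟩ := hL2 i.val t
      refine mem_iUnion.2 ⟨i.val, y, ?_⟩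
      simp only [hy, P, Q, i.2, dif_pos]
    rw [this, measure_empty]

theorem planar_fin {k m : ℕ} {S : Set (V k)} (hS : Bornology.IsBounded S)
    (hP : Planar k m S) : μHE[m] S < ⊤ := by
  obtain ⟨n, p, v, -, -, hSp⟩ := hP
  have hsub : S ⊆ ⋃ i, S ∩ range (fun t : Fin m → ℝ => p i + ∑ a, t a • v i a) := by
    intro x hx
    obtain ⟨i, hi⟩ := mem_iUnion.1 (hSp hx)
    exact mem_iUnion.2 ⟨i, hx, hi⟩
  refine (measure_mono hsub).trans_lt ?_
  refine lt_of_le_of_lt (measure_iUnion_fintype_le _ _) (ENNReal.sum_lt_top.2 fun i _ => ?_)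
  let T : EuclideanSpace ℝ (Fin m) →L[ℝ] V k :=
    LinearMap.toContinuousLinearMap
      { toFun := fun t => ∑ a, t a • v i a
        map_add' := fun x y => by simp [add_smul, Finset.sum_add_distrib]
        map_smul' := fun c x => by simp [Finset.smul_sum, smul_smul] }
  have hT : ∀ t, T t = ∑ a, t a • v i a := fun t => rfl
  obtain ⟨g, hg⟩ := LinearMap.exists_rightInverse_of_surjective
    (T : EuclideanSpace ℝ (Fin m) →ₗ[ℝ] V k).rangeRestrict (LinearMap.range_rangeRestrict _)
  let g' := LinearMap.toContinuousLinearMap g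
  obtain ⟨R, hR⟩ := (isBounded_iff_subset_closedBall (p i)).1 hS
  have hlip : LipschitzWith ‖T‖₊ (fun t => p i + T t) := by
    have := T.lipschitz
    intro x y
    simpa using this x y
  have himg : S ∩ range (fun t : Fin m → ℝ => p i + ∑ a, t a • v i a) ⊆
      (fun t => p i + T t) '' closedBall 0 (‖g'‖ * R) := by
    rintro _ ⟨hx, t, rfl⟩
    have h1 := hR hx
    rw [mem_closedBall, dist_eq_norm] at h1
    simp only [add_sub_cancel_left] at h1
    set y : LinearMap.range (T : EuclideanSpace ℝ (Fin m) →ₗ[ℝ] V k) :=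
      ⟨T (WithLp.toLp 2 t), ⟨_, rfl⟩⟩ with hy
    have hyT : (y : V k) = ∑ a, t a • v i a := by
      rw [hy]; exact hT _
    have h2 : T (g y) = y := by
      have := congrArg (fun f => (f y : V k)) hg
      exact this
    refine ⟨g y, ?_, ?_⟩
    · rw [mem_closedBall, dist_zero_right]
      refine (g'.le_opNorm y).trans ?_
      gcongr
      rw [Submodule.coe_norm, hyT]
      exact h1
    · show p i + T (g y) = _
      rw [h2, hyT]
  refine (measure_mono himg).trans_lt ?_
  rw [Measure.euclideanHausdorffMeasure_def, Measure.smul_apply]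
  have h3 := hlip.hausdorffMeasure_image_le (d := (m : ℝ)) (by positivity)
    (closedBall (0 : EuclideanSpace ℝ (Fin m)) (‖g'‖ * R))
  have h4 : (μHE[m] : Measure (EuclideanSpace ℝ (Fin m))) (closedBall 0 (‖g'‖ * R)) < ⊤ := by
    rw [EuclideanSpace.euclideanHausdorffMeasure_eq_volume]
    exact measure_closedBall_lt_top
  rw [Measure.euclideanHausdorffMeasure_def, Measure.smul_apply] at h4
  have hc := Measure.addHaarScalarFactor_volume_hausdorffMeasure_ne_zero m
  have h5 : (μH[(m : ℝ)] : Measure (EuclideanSpace ℝ (Fin m))) (closedBall 0 (‖g'‖ * R)) < ⊤ := by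
    rw [ENNReal.smul_def, smul_eq_mul] at h4
    by_contra hcon
    rw [not_lt, top_le_iff] at hcon
    rw [hcon, ENNReal.mul_top (by simpa using hc)] at h4
    exact absurd h4 (lt_irrefl _)
  rw [ENNReal.smul_def, smul_eq_mul]
  refine ENNReal.mul_lt_top ENNReal.coe_lt_top (h3.trans_lt ?_)
  refine ENNReal.mul_lt_top ?_ h5
  simp

theorem planar_content {m : ℕ} (hm : 1 ≤ m) {S : Set (V (m + 3))} (hS : IsCompact S)
    (hH : S ⊆ Hp (m + 3)) (hP : Planar (m + 3) m S) :
    HasContent (m + 3) m S (μHE[m] S).toReal := by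
  classical
  obtain ⟨n, p, v, hp, hv, hSp⟩ := hP
  have hp0 : (EuclideanSpace.single ⟨0, by omega⟩ (1 : ℝ) : V (m + 3)) ∈ Hp (m + 3) := by
    simp [Hp]
  set p0 : V (m + 3) := EuclideanSpace.single ⟨0, by omega⟩ (1 : ℝ) with hp0def
  have hd : finrank ℝ (E0 (m + 3)) = m + 2 := by
    rw [finrank_E0 (by omega)]; omega
  have hq : ∀ i, p i - p0 ∈ E0 (m + 3) := by
    intro i
    rw [mem_E0]
    have h1 := hp i
    simp only [Hp, mem_ofPred_eq] at h1 hp0
    simp [h1, hp0]
  have hW : ∀ i, ∃ W : Submodule ℝ (E0 (m + 3)),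
      Submodule.span ℝ (range fun a => (⟨v i a, hv i a⟩ : E0 (m + 3))) ≤ W ∧ finrank ℝ W = m := by
    intro i
    refine plan_exists_sub (by omega) _ ?_
    have := finrank_range_le_card (R := ℝ) (b := fun a => (⟨v i a, hv i a⟩ : E0 (m + 3)))
    rw [Fintype.card_fin] at this
    exact this
  choose W hW1 hW2 using hW
  let A : Fin n → AffineSubspace ℝ (E0 (m + 3)) := fun i => AffineSubspace.mk' ⟨_, hq i⟩ (W i)
  have hT : ∀ B ∈ Finset.univ.image A, (B : Set (E0 (m + 3))).Nonempty ∧
      finrank ℝ B.direction = m := by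
    intro B hB
    obtain ⟨i, -, rfl⟩ := Finset.mem_image.1 hB
    refine ⟨⟨_, AffineSubspace.self_mem_mk' _ _⟩, ?_⟩
    rw [AffineSubspace.direction_mk', hW2]
  have hio := io_isometry p0
  have hSc : IsCompact (io p0 ⁻¹' S) := hio.isClosedEmbedding.isCompact_preimage hS
  have hST : io p0 ⁻¹' S ⊆ ⋃ B ∈ Finset.univ.image A, (B : Set (E0 (m + 3))) := by
    intro x hx
    obtain ⟨i, hi⟩ := mem_iUnion.1 (hSp hx)
    obtain ⟨t, ht⟩ := hi
    simp only [mem_iUnion, exists_prop]
    refine ⟨A i, Finset.mem_image_of_mem _ (Finset.mem_univ _), ?_⟩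
    rw [SetLike.mem_coe, AffineSubspace.mem_mk', vsub_eq_sub]
    have h1 : x - ⟨_, hq i⟩ = ∑ a, t a • (⟨v i a, hv i a⟩ : E0 (m + 3)) := by
      apply Subtype.ext
      simp only [io] at ht
      simp only [Submodule.coe_sub, Submodule.coe_sum, Submodule.coe_smul]
      have : (x : V (m + 3)) = p i + ∑ a, t a • v i a - p0 := by
        rw [ht]; abel
      rw [this]
      abel
    rw [h1]
    refine Submodule.sum_mem _ fun a _ => (W i).smul_mem _ (hW1 i ?_)
    exact Submodule.subset_span (mem_range_self a)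
  obtain ⟨-, h⟩ := plan_content hd (Finset.univ.image A) hT hSc hST
  have h2 : μHE[m] (io p0 ⁻¹' S) = μHE[m] S := by
    rw [hio.euclideanHausdorffMeasure_preimage, range_io hp0, inter_eq_left.2 hH]
  rw [h2] at h
  unfold HasContent
  have h3 : m + 3 - 1 - m = 2 := by omega
  rw [h3]
  refine h.congr fun ε => ?_
  rw [mu_eq (by omega) hp0, pre_cthick hp0 hH]

end SX
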