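import Pool.Agent.H27.SX.Defs
import Pool.Agent.H27.SX.Plan
import Pool.Agent.H27.SX.ConeAdm
import Pool.Agent.H27.SX.ConeMeet
import Pool.Agent.H27.SX.ConeMeas
import Pool.Agent.H27.SX.Base

/-!
# The induction step for good partitions (project SX, row SX-25)
-/

set_option autoImplicit false
set_option linter.all false

open MeasureTheory Metric Set Filter Module
open scoped Topology MeasureTheory RealInnerProductSpace Nat Pointwise

namespace SX

open SP SP.Mea

/-- good partitions -/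
def Good (m : ℕ) (η : ℝ) : Prop := ∃ A : Fin (m + 3) → Set (V (m + 3)), Adm (m + 3) A ∧
    Planar (m + 3) m (meet (m + 3) A 3) ∧ Planar (m + 3) (m + 1) (meet (m + 3) A 2) ∧
    μHE[m] (meet (m + 3) A 3 \ DK m) ≤ ENNReal.ofReal η

/-- small factors -/
theorem step_small {C : ENNReal} (hC : C ≠ ⊤) {η : ℝ} (hη : 0 < η) :
    ∃ s : ℝ, 0 < s ∧ s < 1 ∧ C * ENNReal.ofReal s ≤ ENNReal.ofReal η := by
  have hc : (0 : ℝ) ≤ C.toReal := ENNReal.toReal_nonneg
  refine ⟨η / (C.toReal * 1 + η + 1), by positivity, ?_, ?_⟩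
  · rw [div_lt_one (by positivity)]
    linarith
  · rw [← ENNReal.ofReal_toReal hC, ← ENNReal.ofReal_mul hc]
    refine ENNReal.ofReal_le_ofReal ?_
    rw [ENNReal.toReal_ofReal hc, mul_div_assoc', div_le_iff₀ (by positivity)]
    nlinarith

/-- the cone over a point of `DK m` lies in `DK (m + 1)` -/
theorem step_DK {m : ℕ} (hm : 1 ≤ m) {t : ℝ} (h0 : 0 ≤ t) (h1 : t ≤ 1) {y : V (m + 3)} (hy : y ∈ DK m) :
    (cn t y : V (m + 1 + 3)) ∈ DK (m + 1) := by
  obtain ⟨⟨hpos, hsum⟩, h01, h23⟩ := hy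
  have hval : ∀ i : Fin (m + 3), (cn t y : V (m + 3 + 1)) i.castSucc = (1 - t) * y i := by
    intro i
    simp [cn]
  have hlast : (cn t y : V (m + 3 + 1)) (Fin.last (m + 3)) = t := by
    simp [cn]
  refine ⟨⟨?_, ?_⟩, ?_, ?_⟩
  · intro i
    refine Fin.lastCases (n := m + 3) ?_ (fun i => ?_) i
    · exact h0.trans_eq hlast.symm
    · exact (mul_nonneg (by linarith) (hpos i)).trans_eq (hval i).symm
  · have : ∑ i : Fin (m + 3 + 1), (cn t y : V (m + 3 + 1)) i = 1 := by
      rw [Fin.sum_univ_castSucc, hlast]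
      simp only [hval]
      rw [← Finset.mul_sum, hsum]
      ring
    exact this
  · intro i j hi hj
    have hi' : i = (⟨0, by omega⟩ : Fin (m + 3)).castSucc := Fin.ext hi
    have hj' : j = (⟨1, by omega⟩ : Fin (m + 3)).castSucc := Fin.ext hj
    rw [hi', hj']
    exact (hval _).trans ((congrArg (fun z => (1 - t) * z) (h01 _ _ rfl rfl)).trans (hval _).symm)
  · intro i j hi hj
    have hi' : i = (⟨2, by omega⟩ : Fin (m + 3)).castSucc := Fin.ext hi
    have hj' : j = (⟨3, by omega⟩ : Fin (m + 3)).castSucc := Fin.ext hj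
    rw [hi', hj']
    exact (hval _).trans ((congrArg (fun z => (1 - t) * z) (h23 _ _ rfl rfl)).trans (hval _).symm)

theorem good_step {m : ℕ} (hm : 1 ≤ m) (h : ∀ η > 0, Good m η) : ∀ η > 0, Good (m + 1) η := by
  intro η hη
  obtain ⟨C, hC, hcone⟩ := cone_meas (m + 3) m hm
  obtain ⟨η', hη', -, hCη⟩ := step_small hC (half_pos hη)
  obtain ⟨A, hA, h3, h2, h4⟩ := h η' hη'
  have hfin : μHE[m + 1] (meet (m + 3) A 2) < ⊤ :=
    planar_fin ((meet_compact hA.toAdm0 2 (by omega)).1.isBounded) h2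
  obtain ⟨δ, hδ0, hδ1, hδ⟩ := step_small hfin.ne (half_pos hη)
  have h5 : meet (m + 3 + 1) (coneA δ A) 3 \ DK (m + 1) ⊆
      {x | ∃ t ∈ Icc (0 : ℝ) 1, ∃ y ∈ meet (m + 3) A 3 \ DK m, x = cn t y} ∪
      {x | ∃ y ∈ meet (m + 3) A 2, x = cn (1 - δ) y} := by
    rintro x ⟨hx, hxD⟩
    rcases cone_meet3 hδ0 hδ1 hx with ⟨t, ht, y, hy, rfl⟩ | hx
    · left
      refine ⟨t, ⟨ht.1, by linarith [ht.2]⟩, y, ⟨hy, fun hyD => hxD ?_⟩, rfl⟩
      exact step_DK hm ht.1 (by linarith [ht.2]) hyD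
    · exact Or.inr hx
  refine ⟨coneA δ A, cone_adm (by omega) hA hδ0 hδ1, cone_planar3 hδ0 hδ1 h3 h2,
    cone_planar2 hδ0 hδ1 h2, ?_⟩
  calc μHE[m + 1] (meet (m + 3 + 1) (coneA δ A) 3 \ DK (m + 1))
      ≤ _ := measure_mono h5
    _ ≤ _ := measure_union_le _ _
    _ ≤ ENNReal.ofReal (η / 2) + ENNReal.ofReal (η / 2) := by
        refine add_le_add ?_ ?_
        · refine (hcone _ fun y hy => (meet_compact hA.toAdm0 3 (by omega)).2 hy.1).trans ?_
          exact (mul_le_mul_right h4 C).trans hCη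
        · rw [copy_meas (m + 3) (m + 1) _ hδ0, mul_comm]
          refine le_trans ?_ hδ
          refine mul_le_mul_right (ENNReal.ofReal_le_ofReal ?_) _
          exact pow_le_of_le_one hδ0.le hδ1.le (by omega)
    _ = ENNReal.ofReal η := by
        rw [← ENNReal.ofReal_add (by positivity) (by positivity), add_halves]

theorem good {m : ℕ} (hm : 1 ≤ m) : ∀ η > 0, Good m η := by
  induction m, hm using Nat.le_induction with
  | base => exact fun η hη => base hη
  | succ n hn ih => exact good_step hn ih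

end SX
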