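import Mathlib
import Pool.Agent.H27.SX.Defs

/-!
# SX-26: the volume of the simplex `DK m`
-/

set_option autoImplicit false

open MeasureTheory Metric Set Filter Module
open scoped Topology MeasureTheory RealInnerProductSpace Nat Pointwise

namespace SX

open SP SP.Mea

/-- the volume of the corner simplex of size `r` -/
theorem vol_corner (n : ℕ) : ∀ r : ℝ, 0 ≤ r →
    volume {z : Fin n → ℝ | (∀ i, 0 ≤ z i) ∧ ∑ i, z i ≤ r} = ENNReal.ofReal (r ^ n / (n ! : ℝ)) := by
  induction n with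
  | zero =>
    intro r hr
    have : {z : Fin 0 → ℝ | (∀ i, 0 ≤ z i) ∧ ∑ i, z i ≤ r} = univ := by
      ext z
      simp [hr]
    rw [this]
    simp [volume_pi]
  | succ n ih =>
    intro r hr
    have hmp := MeasureTheory.volume_preserving_piFinSuccAbove (fun _ : Fin (n + 1) => ℝ) 0
    set T : Set (ℝ × (Fin n → ℝ)) := {p | 0 ≤ p.1 ∧ (∀ i, 0 ≤ p.2 i) ∧ p.1 + ∑ i, p.2 i ≤ r} with hT
    have hTm : MeasurableSet T := by
      have h1 : IsClosed {p : ℝ × (Fin n → ℝ) | 0 ≤ p.1} := isClosed_le continuous_const continuous_fst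
      have h2 : IsClosed {p : ℝ × (Fin n → ℝ) | ∀ i, 0 ≤ p.2 i} := by
        have : {p : ℝ × (Fin n → ℝ) | ∀ i, 0 ≤ p.2 i} = ⋂ i, {p | 0 ≤ p.2 i} := by
          ext p; simp
        rw [this]
        exact isClosed_iInter fun i => isClosed_le continuous_const (by fun_prop)
      have h3 : IsClosed {p : ℝ × (Fin n → ℝ) | p.1 + ∑ i, p.2 i ≤ r} :=
        isClosed_le (by fun_prop) continuous_const
      exact (h1.inter (h2.inter h3)).measurableSet
    have hpre : {z : Fin (n + 1) → ℝ | (∀ i, 0 ≤ z i) ∧ ∑ i, z i ≤ r} =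
        (MeasurableEquiv.piFinSuccAbove (fun _ : Fin (n + 1) => ℝ) 0) ⁻¹' T := by
      ext z
      simp only [mem_ofPred_eq, mem_preimage, hT, MeasurableEquiv.piFinSuccAbove_apply,
        Fin.insertNthEquiv_symm_apply, Fin.removeNth, Fin.sum_univ_succ, Fin.forall_fin_succ,
        Fin.zero_succAbove]
      tauto
    rw [hpre, hmp.measure_preimage hTm.nullMeasurableSet, Measure.volume_eq_prod,
      Measure.prod_apply hTm]
    have hsl : ∀ t : ℝ, volume (Prod.mk t ⁻¹' T) =
        (Icc (0 : ℝ) r).indicator (fun t => ENNReal.ofReal ((r - t) ^ n / (n ! : ℝ))) t := by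
      intro t
      by_cases ht : t ∈ Icc (0 : ℝ) r
      · rw [indicator_of_mem ht, ← ih (r - t) (by linarith [ht.2])]
        congr 1
        ext z
        simp only [mem_preimage, hT, mem_ofPred_eq]
        constructor
        · rintro ⟨_, h2, h3⟩
          exact ⟨h2, by linarith⟩
        · rintro ⟨h2, h3⟩
          exact ⟨ht.1, h2, by linarith⟩
      · rw [indicator_of_notMem ht]
        have : Prod.mk t ⁻¹' T = ∅ := by
          ext z
          simp only [mem_preimage, hT, mem_ofPred_eq, mem_empty_iff_false, iff_false]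
          rintro ⟨h1, h2, h3⟩
          apply ht
          have : 0 ≤ ∑ i, z i := Finset.sum_nonneg fun i _ => h2 i
          exact ⟨h1, by linarith⟩
        rw [this, measure_empty]
    simp_rw [hsl]
    rw [lintegral_indicator measurableSet_Icc]
    have hint : IntegrableOn (fun t : ℝ => (r - t) ^ n / (n ! : ℝ)) (Icc 0 r) :=
      (Continuous.continuousOn (by fun_prop)).integrableOn_Icc
    rw [← ofReal_integral_eq_lintegral_ofReal hint]
    · congr 1
      rw [integral_Icc_eq_integral_Ioc, ← intervalIntegral.integral_of_le hr]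
      have : ∀ t ∈ uIcc (0 : ℝ) r, HasDerivAt (fun t : ℝ => -(r - t) ^ (n + 1) / ((n + 1)! : ℝ))
          ((r - t) ^ n / (n ! : ℝ)) t := by
        intro t _
        have h1 : HasDerivAt (fun t : ℝ => r - t) (-1) t := by
          simpa using (hasDerivAt_id t).const_sub r
        have h2 := ((h1.pow (n + 1)).neg).div_const ((n + 1)! : ℝ)
        refine h2.congr_deriv ?_
        have h3 : ((n + 1)! : ℝ) = ((n : ℝ) + 1) * (n ! : ℝ) := by
          rw [Nat.factorial_succ]; push_cast; ring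
        have h4 : (n ! : ℝ) ≠ 0 := by positivity
        have h5 : (n : ℝ) + 1 ≠ 0 := by positivity
        rw [h3]
        simp only [Nat.add_sub_cancel]
        push_cast
        field_simp
      rw [intervalIntegral.integral_eq_sub_of_hasDerivAt this]
      · simp
        ring
      · exact (Continuous.intervalIntegrable (by fun_prop) _ _)
    · refine (ae_restrict_iff' measurableSet_Icc).2 (ae_of_all _ fun t ht => ?_)
      have : 0 ≤ r - t := by linarith [ht.2]
      positivity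

/-- the slices of a cone over a flat set -/
theorem cone_slice {E : Type*} [NormedAddCommGroup E] [InnerProductSpace ℝ E]
    [FiniteDimensional ℝ E] [MeasurableSpace E] [BorelSpace E] {m : ℕ}
    (hE : finrank ℝ E = m + 1) (ν : E) (hν : ν ≠ 0) {G D : Set E} (hG : MeasurableSet G)
    (hD : ∀ y ∈ D, ⟪ν, y⟫ = 1) (hsub : ∀ x : ℝ, 0 < x → x ≤ 1 → ∀ y ∈ D, x • y ∈ G) :
    μHE[m] D ≤ ENNReal.ofReal (((m : ℝ) + 1) * ‖ν‖) * volume G := by
  have hn : 0 < ‖ν‖ := norm_pos_iff.2 hν
  set v : E := (‖ν‖ ^ 2)⁻¹ • ν with hv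
  have hv0 : v ≠ 0 := smul_ne_zero (by positivity) hν
  have hvn : ‖v‖ = ‖ν‖⁻¹ := by
    rw [hv, norm_smul, norm_inv, norm_pow, norm_norm]
    field_simp
  have hfor := EuclideanGeometry.euclideanHausdorffMeasure_eq_lintegral (0 : E) hv0 hG
  rw [InnerProductSpace.euclideanHausdorffMeasure_eq_volume, hE, Nat.add_sub_cancel] at hfor
  have hlow : ∀ x ∈ Ioc (0 : ℝ) 1, ENNReal.ofReal (x ^ m) * μHE[m] D ≤
      μHE[m] (G ∩ AffineSubspace.mk' (x • v +ᵥ (0 : E)) (ℝ ∙ v)ᗮ) := by
    intro x hx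
    have h1 := Measure.euclideanHausdorffMeasure_smul₀ (E := E) m hx.1.ne' D
    have h2 : ENNReal.ofReal (x ^ m) * μHE[m] D = μHE[m] (x • D) := by
      rw [h1, ENNReal.smul_def, smul_eq_mul]
      congr 1
      rw [ENNReal.coe_pow, ENNReal.ofReal_pow hx.1.le, ← Real.enorm_of_nonneg hx.1.le]
      rfl
    rw [h2]
    apply measure_mono
    rintro _ ⟨y, hy, rfl⟩
    refine ⟨hsub x hx.1 hx.2 y hy, ?_⟩
    rw [mem_mk', vadd_eq_add, add_zero]
    simp only [hv]
    rw [inner_smul_left, inner_sub_right, inner_smul_right, inner_smul_right, inner_smul_right,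
      hD y hy, real_inner_self_eq_norm_sq]
    have : (‖ν‖ ^ 2)⁻¹ * ‖ν‖ ^ 2 = 1 := by field_simp
    rw [this]
    ring
  have hI : ∫⁻ x in Ioc (0 : ℝ) 1, ENNReal.ofReal (x ^ m) = ENNReal.ofReal (1 / ((m : ℝ) + 1)) := by
    rw [← ofReal_integral_eq_lintegral_ofReal]
    · congr 1
      rw [← intervalIntegral.integral_of_le zero_le_one, integral_pow]
      simp
    · exact ((Continuous.continuousOn (by fun_prop)).integrableOn_Icc).mono_set Ioc_subset_Icc_self
    · refine (ae_restrict_iff' measurableSet_Ioc).2 (ae_of_all _ fun t ht => ?_)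
      exact pow_nonneg ht.1.le _
  have h3 : ‖v‖ₑ * (ENNReal.ofReal (1 / ((m : ℝ) + 1)) * μHE[m] D) ≤ volume G := by
    rw [hfor]
    gcongr
    calc ENNReal.ofReal (1 / ((m : ℝ) + 1)) * μHE[m] D
        = ∫⁻ x in Ioc (0 : ℝ) 1, ENNReal.ofReal (x ^ m) * μHE[m] D := by
          rw [lintegral_mul_const _ (by fun_prop), hI]
      _ ≤ ∫⁻ x in Ioc (0 : ℝ) 1, μHE[m] (G ∩ AffineSubspace.mk' (x • v +ᵥ (0 : E)) (ℝ ∙ v)ᗮ) :=
          setLIntegral_mono' measurableSet_Ioc hlow
      _ ≤ _ := setLIntegral_le_lintegral _ _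
  calc μHE[m] D = ENNReal.ofReal (((m : ℝ) + 1) * ‖ν‖) *
        (‖v‖ₑ * (ENNReal.ofReal (1 / ((m : ℝ) + 1)) * μHE[m] D)) := by
        rw [← ofReal_norm, hvn, ← mul_assoc, ← mul_assoc, ← ENNReal.ofReal_mul (by positivity),
          ← ENNReal.ofReal_mul (by positivity)]
        have : ((m : ℝ) + 1) * ‖ν‖ * ‖ν‖⁻¹ * (1 / ((m : ℝ) + 1)) = 1 := by field_simp
        rw [this]
        simp
    _ ≤ _ := by gcongr

/-- the weights -/
noncomputable def volw (n : ℕ) (i : Fin (n + 2)) : ℝ := if i.val < 2 then Real.sqrt 2 else 1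

theorem volw_zero (n : ℕ) : volw n 0 = Real.sqrt 2 := by simp [volw]

theorem volw_one (n : ℕ) : volw n (Fin.succ 0) = Real.sqrt 2 := by simp [volw]

theorem volw_succ (n : ℕ) (j : Fin n) : volw n j.succ.succ = 1 := by
  simp [volw]

theorem volw_prod (n : ℕ) : ∏ i, volw n i = 2 := by
  rw [Fin.prod_univ_succ, Fin.prod_univ_succ]
  simp only [volw_zero, volw_one, volw_succ, Finset.prod_const_one, mul_one]
  exact Real.mul_self_sqrt (by norm_num)

theorem volw_sq (n : ℕ) : ∑ i, volw n i ^ 2 = (n : ℝ) + 4 := by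
  rw [Fin.sum_univ_succ, Fin.sum_univ_succ]
  simp only [volw_zero, volw_one, volw_succ]
  rw [Real.sq_sqrt (by norm_num)]
  simp
  ring

theorem volw_corner (n : ℕ) :
    volume {z : Fin (n + 2) → ℝ | (∀ i, 0 ≤ z i) ∧ ∑ i, volw n i * z i ≤ 1} =
      ENNReal.ofReal (1 / (2 * ((n + 2)! : ℝ))) := by
  have hdet : (Matrix.diagonal (volw n)).det = 2 := by
    rw [Matrix.det_diagonal, volw_prod]
  have hpos : ∀ i, 0 < volw n i := by
    intro i
    unfold volw
    split_ifs
    · positivity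
    · exact one_pos
  have h1 := Real.smul_map_diagonal_volume_pi (D := volw n) (by rw [hdet]; norm_num)
  have h2 := vol_corner (n + 2) 1 zero_le_one
  have hm : MeasurableSet {z : Fin (n + 2) → ℝ | (∀ i, 0 ≤ z i) ∧ ∑ i, z i ≤ 1} := by
    have a1 : IsClosed {z : Fin (n + 2) → ℝ | ∀ i, 0 ≤ z i} := by
      have : {z : Fin (n + 2) → ℝ | ∀ i, 0 ≤ z i} = ⋂ i, {z | 0 ≤ z i} := by
        ext p; simp
      rw [this]
      exact isClosed_iInter fun i => isClosed_le continuous_const (by fun_prop)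
    have a2 : IsClosed {z : Fin (n + 2) → ℝ | ∑ i, z i ≤ 1} :=
      isClosed_le (by fun_prop) continuous_const
    exact (a1.inter a2).measurableSet
  rw [← h1, hdet, Measure.smul_apply, Measure.map_apply (by fun_prop) hm] at h2
  have h3 : (Matrix.toLin' (Matrix.diagonal (volw n))) ⁻¹'
      {z : Fin (n + 2) → ℝ | (∀ i, 0 ≤ z i) ∧ ∑ i, z i ≤ 1} =
      {z : Fin (n + 2) → ℝ | (∀ i, 0 ≤ z i) ∧ ∑ i, volw n i * z i ≤ 1} := by
    ext z
    simp only [mem_preimage, mem_ofPred_eq, Matrix.toLin'_apply, Matrix.mulVec_diagonal]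
    constructor
    · rintro ⟨b1, b2⟩
      exact ⟨fun i => nonneg_of_mul_nonneg_right (b1 i) (hpos i), b2⟩
    · rintro ⟨b1, b2⟩
      exact ⟨fun i => mul_nonneg (hpos i).le (b1 i), b2⟩
  rw [h3] at h2
  simp only [one_pow, smul_eq_mul] at h2
  have h4 : ENNReal.ofReal (1 / 2) * (ENNReal.ofReal |2| *
      volume {z : Fin (n + 2) → ℝ | (∀ i, 0 ≤ z i) ∧ ∑ i, volw n i * z i ≤ 1}) =
      ENNReal.ofReal (1 / 2) * ENNReal.ofReal (1 / ((n + 2)! : ℝ)) := by rw [h2]
  rw [← mul_assoc, ← ENNReal.ofReal_mul (by norm_num), ← ENNReal.ofReal_mul (by norm_num)] at h4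
  rw [show (1 / 2 : ℝ) * |2| = 1 by norm_num, ENNReal.ofReal_one, one_mul] at h4
  rw [h4]
  congr 1
  field_simp

/-- the isometric parametrisation -/
noncomputable def volJ (n : ℕ) (y : V (n + 2)) : V (n + 4) :=
  WithLp.toLp 2 (Fin.cons (y 0 / Real.sqrt 2) (Fin.cons (y 0 / Real.sqrt 2)
    (Fin.cons (y (Fin.succ 0) / Real.sqrt 2) (Fin.cons (y (Fin.succ 0) / Real.sqrt 2)
      (fun j : Fin n => y j.succ.succ)))))

theorem volJ_isometry (n : ℕ) : Isometry (volJ n) := by
  refine Isometry.of_dist_eq fun y z => ?_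
  rw [EuclideanSpace.dist_eq, EuclideanSpace.dist_eq]
  congr 1
  rw [Fin.sum_univ_succ, Fin.sum_univ_succ, Fin.sum_univ_succ, Fin.sum_univ_succ,
    Fin.sum_univ_succ (n := n + 1), Fin.sum_univ_succ (n := n)]
  simp only [volJ, Fin.cons_zero, Fin.cons_succ, Real.dist_eq, sq_abs]
  have h2 : Real.sqrt 2 ^ 2 = 2 := Real.sq_sqrt (by norm_num)
  have h3 : ∀ a b : ℝ, (a / Real.sqrt 2 - b / Real.sqrt 2) ^ 2 = (a - b) ^ 2 / 2 := by
    intro a b
    rw [← sub_div, div_pow, h2]
  rw [h3, h3]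
  ring

theorem vol_DK {m : ℕ} (hm : 1 ≤ m) :
    μHE[m] (DK m) ≤ ENNReal.ofReal (Real.sqrt ((m : ℝ) + 3) / (2 * (m ! : ℝ))) := by
  obtain ⟨n, rfl⟩ : ∃ n, m = n + 1 := ⟨m - 1, by omega⟩
  set ν : V (n + 2) := WithLp.toLp 2 (volw n) with hν
  have hν2 : ‖ν‖ ^ 2 = (n : ℝ) + 4 := by
    rw [EuclideanSpace.norm_sq_eq, ← volw_sq n]
    simp [hν]
  have hνn : ‖ν‖ = Real.sqrt ((n : ℝ) + 4) := by
    rw [← hν2, Real.sqrt_sq (norm_nonneg _)]
  have hν0 : ν ≠ 0 := by
    intro h
    rw [h, norm_zero] at hν2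
    have : (0 : ℝ) ≤ n := Nat.cast_nonneg n
    nlinarith
  have hin : ∀ y : V (n + 2), ⟪ν, y⟫ = ∑ i, volw n i * y i := by
    intro y
    rw [PiLp.inner_apply]
    refine Finset.sum_congr rfl fun i _ => ?_
    simp [hν, mul_comm]
  set G : Set (V (n + 2)) := {y | (∀ i, 0 ≤ y i) ∧ ∑ i, volw n i * y i ≤ 1} with hG
  have hGm : MeasurableSet G := by
    have a1 : IsClosed {z : V (n + 2) | ∀ i, 0 ≤ z i} := by
      have : {z : V (n + 2) | ∀ i, 0 ≤ z i} = ⋂ i, {z | 0 ≤ z i} := by
        ext p; simp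
      rw [this]
      exact isClosed_iInter fun i => isClosed_le continuous_const (by fun_prop)
    have a2 : IsClosed {z : V (n + 2) | ∑ i, volw n i * z i ≤ 1} :=
      isClosed_le (by fun_prop) continuous_const
    exact (a1.inter a2).measurableSet
  have hGv : volume G = ENNReal.ofReal (1 / (2 * ((n + 2)! : ℝ))) := by
    rw [← volw_corner n]
    have hmp := EuclideanSpace.volume_preserving_symm_measurableEquiv_toLp (Fin (n + 2))
    rw [← hmp.measure_preimage_equiv]
    rfl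
  set D : Set (V (n + 2)) := {y | (∀ i, 0 ≤ y i) ∧ ∑ i, volw n i * y i = 1} with hD
  have hkey := cone_slice (m := n + 1) (by simp) ν hν0 (D := D) hGm
    (fun y hy => by rw [hin]; exact hy.2)
    (fun x hx hx1 y hy => by
      refine ⟨fun i => mul_nonneg hx.le (hy.1 i), ?_⟩
      have : ∑ i, volw n i * (x • y) i = x * ∑ i, volw n i * y i := by
        rw [Finset.mul_sum]
        refine Finset.sum_congr rfl fun i _ => ?_
        simp only [PiLp.smul_apply, smul_eq_mul]
        ring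
      rw [this, hy.2, mul_one]
      exact hx1)
  have hDK : μHE[n + 1] (DK (n + 1)) ≤ μHE[n + 1] D := by
    have h1 := (volJ_isometry n).euclideanHausdorffMeasure_image (d := n + 1) D
    rw [← h1]
    apply measure_mono
    rintro x ⟨⟨hx1, hx2⟩, hx3, hx4⟩
    have e1 : x 0 = x (Fin.succ 0) := hx3 0 (Fin.succ 0) rfl rfl
    have e2 : x (Fin.succ (Fin.succ 0)) = x (Fin.succ (Fin.succ (Fin.succ 0))) :=
      hx4 _ _ rfl rfl
    have hs2 : Real.sqrt 2 * Real.sqrt 2 = 2 := Real.mul_self_sqrt (by norm_num)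
    have hs0 : 0 < Real.sqrt 2 := by positivity
    refine ⟨WithLp.toLp 2 (Fin.cons (Real.sqrt 2 * x 0) (Fin.cons
      (Real.sqrt 2 * x (Fin.succ (Fin.succ 0))) (fun j => x j.succ.succ.succ.succ))), ⟨?_, ?_⟩, ?_⟩
    · intro i
      refine Fin.cases ?_ (fun i => ?_) i
      · simpa using mul_nonneg hs0.le (hx1 _)
      · refine Fin.cases ?_ (fun i => ?_) i
        · simpa using mul_nonneg hs0.le (hx1 _)
        · simpa using hx1 _
    · rw [Fin.sum_univ_succ, Fin.sum_univ_succ]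
      simp only [volw_zero, volw_one, volw_succ, Fin.cons_zero, Fin.cons_succ, one_mul]
      rw [← hx2, Fin.sum_univ_succ, Fin.sum_univ_succ, Fin.sum_univ_succ, Fin.sum_univ_succ,
        ← e1, ← e2, ← mul_assoc, ← mul_assoc, hs2]
      ring
    · have h5 : ∀ a : ℝ, Real.sqrt 2 * a / Real.sqrt 2 = a := fun a => by field_simp
      ext i
      refine Fin.cases ?_ (fun i => ?_) i
      · simp only [volJ, Fin.cons_zero, Fin.cons_succ, h5]
      · refine Fin.cases ?_ (fun i => ?_) i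
        · simp only [volJ, Fin.cons_zero, Fin.cons_succ, h5]
          exact e1
        · refine Fin.cases ?_ (fun i => ?_) i
          · simp only [volJ, Fin.cons_zero, Fin.cons_succ, h5]
          · refine Fin.cases ?_ (fun i => ?_) i
            · simp only [volJ, Fin.cons_zero, Fin.cons_succ, h5]
              exact e2
            · simp only [volJ, Fin.cons_succ]
  refine hDK.trans (hkey.trans (le_of_eq ?_))
  rw [hGv, ← ENNReal.ofReal_mul (by positivity), hνn]
  congr 1
  have h3 : ((n + 2)! : ℝ) = ((n : ℝ) + 2) * ((n + 1)! : ℝ) := by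
    rw [Nat.factorial_succ (n + 1)]; push_cast; ring
  have h4 : ((n + 1)! : ℝ) ≠ 0 := by positivity
  rw [h3]
  push_cast
  have h6 : (n : ℝ) + 2 ≠ 0 := by positivity
  rw [show (n : ℝ) + 1 + 3 = n + 4 by ring, show (n : ℝ) + 1 + 1 = n + 2 by ring]
  field_simp

end SX
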