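import Pool.Agent.H27.SX.Lower
import Pool.Agent.H27.SX.Gen
import Pool.Agent.H27.SX.Step
import Pool.Agent.H27.SX.Vol

/-!
# SX-27: the final theorem
-/

set_option autoImplicit false

open MeasureTheory Metric Set Filter Module
open scoped Topology MeasureTheory RealInnerProductSpace Nat Pointwise

namespace SX

open SP SP.Mea

/-- the lower bound and the value, `k = m + 3` -/
theorem main {m : ℕ} (hm : 1 ≤ m) :
    IsGLB {L : ℝ | ∃ A : Fin (m + 3) → Set (V (m + 3)), Adm (m + 3) A ∧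
      Rect (m + 3) m (meet (m + 3) A 3) ∧ HasContent (m + 3) m (meet (m + 3) A 3) L}
      (Real.sqrt ((m : ℝ) + 3) / (2 * (m ! : ℝ))) := by
  refine ⟨?_, ?_⟩
  · rintro L ⟨A, hA, hR, hL⟩
    exact lower hm hA.toAdm0 hR hL
  · intro b hb
    refine le_of_forall_pos_le_add fun η hη => ?_
    obtain ⟨A, hA, h3, h2, h4⟩ := good hm η hη
    obtain ⟨h5, h6⟩ := meet_compact hA.toAdm0 3 (by omega)
    have h7 : meet (m + 3) A 3 ⊆ Hp (m + 3) := fun x hx => (h6 hx).2
    have h8 := planar_content hm h5 h7 h3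
    refine (hb ⟨A, hA, planar_rect h3, h8⟩).trans ?_
    have h9 : μHE[m] (meet (m + 3) A 3) ≤
        ENNReal.ofReal (Real.sqrt ((m : ℝ) + 3) / (2 * (m ! : ℝ)) + η) := by
      rw [ENNReal.ofReal_add (by positivity) hη.le]
      calc μHE[m] (meet (m + 3) A 3)
          ≤ μHE[m] (DK m ∪ (meet (m + 3) A 3 \ DK m)) := by
            apply measure_mono
            intro x hx
            by_cases h : x ∈ DK m
            · exact Or.inl h
            · exact Or.inr ⟨hx, h⟩
        _ ≤ _ := measure_union_le _ _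
        _ ≤ _ := add_le_add (vol_DK hm) h4
    exact ENNReal.toReal_le_of_le_ofReal (by positivity) h9

/-- the final statement -/
theorem final {k : ℕ} (hk : 4 ≤ k) :
    IsGLB {L : ℝ | ∃ A : Fin k → Set (V k), Adm k A ∧ Rect k (k - 3) (meet k A 3) ∧
        HasContent k (k - 3) (meet k A 3) L} (Real.sqrt k / (2 * ((k - 3) ! : ℝ))) ∧
      (∀ A : Fin k → Set (V k), Adm0 k A → Rect k (k - 3) (meet k A 3) → ∀ L : ℝ,
        HasContent k (k - 3) (meet k A 3) L → Real.sqrt k / (2 * ((k - 3) ! : ℝ)) ≤ L) ∧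
      ∀ A : Fin k → Set (V k), Adm0 k A → ∀ L : ℝ, HasContent k (k - 3) (meet k A 3) L →
        Real.sqrt k / (2 * ((k - 3) ! : ℝ)) * (k / (Real.pi * (k - 1))) ≤ L := by
  obtain ⟨m, rfl⟩ : ∃ m, k = m + 3 := ⟨k - 3, by omega⟩
  have hm : 1 ≤ m := by omega
  have h1 : (m + 3) - 3 = m := by omega
  have h2 : (((m + 3 : ℕ) : ℝ)) = (m : ℝ) + 3 := by push_cast; ring
  have h3 : (m : ℝ) + 3 - 1 = (m : ℝ) + 2 := by ring
  rw [h1, h2, h3]
  exact ⟨main hm, fun A hA hR L hL => lower hm hA hR hL, fun A hA L hL => lower_gen hA hL⟩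

end SX
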