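import Pool.Agent.H27.SX.Defs

/-!
# The combinatorial spanning theorem (project SX, row SX-1)

A real function `u` on the lattice points of degree `N` which satisfies two linear relations at all
points of degree `N - 1` and vanishes on `W` is zero, if the points off `W` have colours such that
`x` has positive coordinate `c x` and every cell of degree `N - 2` shows at most two colours.
-/

set_option autoImplicit false

namespace SX

section Ops

variable {k : ℕ}

/-- the unit vectors with integer entries -/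
def spanE (s : Fin k) : Fin k → ℤ := Pi.single s 1

theorem spanE_self (s : Fin k) : spanE s s = 1 := Pi.single_eq_same _ _

theorem spanE_ne {s t : Fin k} (h : t ≠ s) : spanE s t = 0 := Pi.single_eq_of_ne h _

theorem spanE_nonneg (s t : Fin k) : 0 ≤ spanE s t := by
  by_cases h : t = s
  · rw [h, spanE_self]; exact zero_le_one
  · rw [spanE_ne h]

theorem spanE_le (s t : Fin k) : spanE s t ≤ 1 := by
  by_cases h : t = s
  · rw [h, spanE_self]
  · rw [spanE_ne h]; exact zero_le_one

theorem spanE_sum (C : Finset (Fin k)) (s : Fin k) :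
    ∑ n ∈ C, spanE s n = if s ∈ C then 1 else 0 := by
  unfold spanE
  rw [Finset.sum_pi_single']

/-- the shift operators -/
noncomputable def spanL (a : Fin k → ℝ) (f : (Fin k → ℤ) → ℝ) (y : Fin k → ℤ) : ℝ :=
  ∑ s, a s * f (y + spanE s)

theorem spanL_comm (a b : Fin k → ℝ) (f : (Fin k → ℤ) → ℝ) (y : Fin k → ℤ) :
    spanL a (spanL b f) y = spanL b (spanL a f) y := by
  unfold spanL
  simp only [Finset.mul_sum]
  rw [Finset.sum_comm]
  refine Finset.sum_congr rfl fun t _ => Finset.sum_congr rfl fun s _ => ?_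
  rw [add_right_comm]
  ring

theorem spanL_ne {a : Fin k → ℝ} {f : (Fin k → ℤ) → ℝ} {y : Fin k → ℤ} (h : spanL a f y ≠ 0) :
    ∃ s, f (y + spanE s) ≠ 0 := by
  by_contra hc
  push Not at hc
  apply h
  unfold spanL
  exact Finset.sum_eq_zero fun s _ => by rw [hc s, mul_zero]

theorem spanL_bdd {a : Fin k → ℝ} {f : (Fin k → ℤ) → ℝ} {B : ℤ}
    (hB : ∀ x, f x ≠ 0 → ∀ n, x n ≤ B) : ∀ x, spanL a f x ≠ 0 → ∀ n, x n ≤ B := by
  intro x hx n
  obtain ⟨s, hs⟩ := spanL_ne hx
  have h1 := hB _ hs n
  rw [Pi.add_apply] at h1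
  have h2 := spanE_nonneg s n
  omega

/-- the coordinates off `C` are nonnegative -/
def spanZ (C : Finset (Fin k)) (x : Fin k → ℤ) : Prop := ∀ n, n ∉ C → 0 ≤ x n

/-- the sum of the coordinates off `C` -/
def spanh (C : Finset (Fin k)) (x : Fin k → ℤ) : ℤ := ∑ n ∈ Cᶜ, x n

theorem spanh_add_in {C : Finset (Fin k)} {i : Fin k} (hi : i ∈ C) (x : Fin k → ℤ) :
    spanh C (x + spanE i) = spanh C x := by
  unfold spanh
  simp only [Pi.add_apply]
  rw [Finset.sum_add_distrib, spanE_sum, if_neg (by simpa using hi), add_zero]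

theorem spanh_add_out {C : Finset (Fin k)} {i : Fin k} (hi : i ∉ C) (x : Fin k → ℤ) :
    spanh C (x + spanE i) = spanh C x + 1 := by
  unfold spanh
  simp only [Pi.add_apply]
  rw [Finset.sum_add_distrib, spanE_sum, if_pos (by simpa using hi)]

theorem spanZ_add {C : Finset (Fin k)} {x : Fin k → ℤ} (h : spanZ C x) (s : Fin k) :
    spanZ C (x + spanE s) := by
  intro n hn
  rw [Pi.add_apply]
  have := h n hn
  have := spanE_nonneg s n
  omega

theorem spanZ_sub {C : Finset (Fin k)} {x : Fin k → ℤ} (h : spanZ C x) {i : Fin k} (hi : i ∈ C) :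
    spanZ C (x - spanE i) := by
  intro n hn
  have hne : n ≠ i := by
    rintro rfl
    exact hn hi
  rw [Pi.sub_apply, spanE_ne hne, sub_zero]
  exact h n hn

theorem spanh_nonneg {C : Finset (Fin k)} {x : Fin k → ℤ} (h : spanZ C x) : 0 ≤ spanh C x :=
  Finset.sum_nonneg fun n hn => h n (by simpa using hn)

theorem spanh_le {C : Finset (Fin k)} {x : Fin k → ℤ} {B : ℤ} (h : ∀ n, x n ≤ B) :
    spanh C x ≤ (Cᶜ.card : ℤ) * B := by
  unfold spanh
  have := Finset.sum_le_card_nsmul Cᶜ (fun n => x n) B (fun n _ => h n)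
  rwa [nsmul_eq_mul] at this

theorem span_inj {C : Finset (Fin k)} {i : Fin k} (hi : i ∈ C) {a : Fin k → ℝ} (hai : a i ≠ 0)
    (ha0 : ∀ l ∈ C, l ≠ i → a l = 0) {f : (Fin k → ℤ) → ℝ} {B : ℤ}
    (hB : ∀ x, f x ≠ 0 → ∀ n, x n ≤ B) (hL : ∀ y, spanZ C y → spanL a f y = 0) :
    ∀ x, spanZ C x → f x = 0 := by
  have key : ∀ m : ℕ, ∀ x, spanZ C x → (Cᶜ.card : ℤ) * B - m < spanh C x → f x = 0 := by
    intro m
    induction m with
    | zero =>
      intro x hx hlt
      by_contra hne
      have := spanh_le (C := C) (hB x hne)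
      push_cast at hlt
      omega
    | succ m ih =>
      intro x hx hlt
      have h1 := hL (x - spanE i) (spanZ_sub hx hi)
      unfold spanL at h1
      rw [Finset.sum_eq_single i] at h1
      · rw [sub_add_cancel] at h1
        exact (mul_eq_zero.1 h1).resolve_left hai
      · intro s _ hs
        by_cases hsC : s ∈ C
        · rw [ha0 s hsC hs, zero_mul]
        · rw [ih (x - spanE i + spanE s) (spanZ_add (spanZ_sub hx hi) s), mul_zero]
          rw [spanh_add_out hsC]
          have h2 : spanh C (x - spanE i) = spanh C x := by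
            conv_rhs => rw [← sub_add_cancel x (spanE i)]
            rw [spanh_add_in hi]
          rw [h2]
          push_cast at hlt
          omega
      · intro h
        exact absurd (Finset.mem_univ i) h
  intro x hx
  refine key ((Cᶜ.card : ℤ) * B + 1).toNat x hx ?_
  have := spanh_nonneg hx
  have := Int.self_le_toNat ((Cᶜ.card : ℤ) * B + 1)
  omega

/-- the iteration for the solution -/
noncomputable def spanS (a : Fin k → ℝ) (i : Fin k) (w : (Fin k → ℤ) → ℝ) :
    ℕ → (Fin k → ℤ) → ℝ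
  | 0 => fun _ => 0
  | p + 1 => fun x => (w (x - spanE i) -
      ∑ n ∈ Finset.univ.erase i, a n * spanS a i w p (x - spanE i + spanE n)) / a i

theorem spanS_bdd (a : Fin k → ℝ) (i : Fin k) {w : (Fin k → ℤ) → ℝ} {B : ℤ}
    (hw : ∀ y, w y ≠ 0 → ∀ n, y n ≤ B) (p : ℕ) :
    ∀ x, spanS a i w p x ≠ 0 → ∀ n, x n ≤ B + p := by
  induction p with
  | zero =>
    intro x hx
    exact absurd rfl hx
  | succ p ih =>
    intro x hx n
    have hor : w (x - spanE i) ≠ 0 ∨ ∃ m, spanS a i w p (x - spanE i + spanE m) ≠ 0 := by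
      by_contra hc
      push Not at hc
      apply hx
      show (w (x - spanE i) -
        ∑ n ∈ Finset.univ.erase i, a n * spanS a i w p (x - spanE i + spanE n)) / a i = 0
      rw [hc.1, Finset.sum_eq_zero (fun m _ => by rw [hc.2 m, mul_zero]), sub_zero, zero_div]
    have h1 := spanE_le i n
    rcases hor with h | ⟨m, hm⟩
    · have := hw _ h n
      rw [Pi.sub_apply] at this
      push_cast
      omega
    · have := ih _ hm n
      rw [Pi.add_apply, Pi.sub_apply] at this
      have := spanE_nonneg m n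
      push_cast
      omega

theorem spanS_stable {C : Finset (Fin k)} {i : Fin k} (hi : i ∈ C) {a : Fin k → ℝ}
    (ha0 : ∀ l ∈ C, l ≠ i → a l = 0) {w : (Fin k → ℤ) → ℝ} {B : ℤ}
    (hw : ∀ y, w y ≠ 0 → ∀ n, y n ≤ B) (p : ℕ) :
    ∀ x, spanZ C x → (Cᶜ.card : ℤ) * B + 1 - p ≤ spanh C x →
      spanS a i w (p + 1) x = spanS a i w p x := by
  have hsub : ∀ x, spanh C (x - spanE i) = spanh C x := by
    intro x
    conv_rhs => rw [← sub_add_cancel x (spanE i)]
    rw [spanh_add_in hi]
  induction p with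
  | zero =>
    intro x hx hlt
    show (w (x - spanE i) -
      ∑ n ∈ Finset.univ.erase i, a n * spanS a i w 0 (x - spanE i + spanE n)) / a i = 0
    have h1 : w (x - spanE i) = 0 := by
      by_contra hne
      have := spanh_le (C := C) (hw _ hne)
      rw [hsub] at this
      push_cast at hlt
      omega
    rw [h1, Finset.sum_eq_zero (fun m _ => by
      show a m * (0 : ℝ) = 0
      rw [mul_zero]), sub_zero, zero_div]
  | succ p ih =>
    intro x hx hlt
    show (w (x - spanE i) -
      ∑ n ∈ Finset.univ.erase i, a n * spanS a i w (p + 1) (x - spanE i + spanE n)) / a i =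
      (w (x - spanE i) -
      ∑ n ∈ Finset.univ.erase i, a n * spanS a i w p (x - spanE i + spanE n)) / a i
    congr 2
    refine Finset.sum_congr rfl fun n hn => ?_
    have hni : n ≠ i := Finset.ne_of_mem_erase hn
    by_cases hnC : n ∈ C
    · rw [ha0 n hnC hni, zero_mul, zero_mul]
    · rw [ih (x - spanE i + spanE n) (spanZ_add (spanZ_sub hx hi) n)]
      rw [spanh_add_out hnC, hsub]
      push_cast at hlt
      omega

theorem span_solve {C : Finset (Fin k)} {i : Fin k} (hi : i ∈ C) {a : Fin k → ℝ} (hai : a i ≠ 0)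
    (ha0 : ∀ l ∈ C, l ≠ i → a l = 0) {w : (Fin k → ℤ) → ℝ} {B : ℤ}
    (hw : ∀ y, w y ≠ 0 → ∀ n, y n ≤ B) :
    ∃ (s : (Fin k → ℤ) → ℝ) (B' : ℤ), (∀ x, s x ≠ 0 → ∀ n, x n ≤ B') ∧
      ∀ y, spanZ C y → spanL a s y = w y := by
  obtain ⟨p, hp⟩ : ∃ p : ℕ, (Cᶜ.card : ℤ) * B + 1 ≤ p :=
    ⟨((Cᶜ.card : ℤ) * B + 1).toNat, Int.self_le_toNat _⟩
  refine ⟨spanS a i w p, B + p, spanS_bdd a i hw p, ?_⟩
  intro y hy
  have h1 := spanS_stable hi ha0 hw p (y + spanE i) (spanZ_add hy i) (by
    have := spanh_nonneg (spanZ_add hy i)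
    omega)
  unfold spanL
  rw [← Finset.add_sum_erase _ _ (Finset.mem_univ i), ← h1]
  show a i * ((w (y + spanE i - spanE i) -
      ∑ n ∈ Finset.univ.erase i, a n * spanS a i w p (y + spanE i - spanE i + spanE n)) / a i) +
      ∑ n ∈ Finset.univ.erase i, a n * spanS a i w p (y + spanE n) = w y
  rw [add_sub_cancel_right, mul_div_cancel₀ _ hai, sub_add_cancel]

end Ops

section Colours

variable {k : ℕ}

/-- the lattice point with natural entries -/
def spanT (x : Fin k → ℤ) : Fin k → ℕ := fun n => (x n).toNat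

theorem spanT_cast {x : Fin k → ℤ} (h : ∀ n, 0 ≤ x n) (n : Fin k) :
    ((spanT x n : ℕ) : ℤ) = x n := Int.toNat_of_nonneg (h n)

theorem spanT_sum {x : Fin k → ℤ} (h : ∀ n, 0 ≤ x n) :
    ((∑ n, spanT x n : ℕ) : ℤ) = ∑ n, x n := by
  push_cast
  exact Finset.sum_congr rfl fun n _ => spanT_cast h n

theorem spanT_add {x : Fin k → ℤ} (h : ∀ n, 0 ≤ x n) (s : Fin k) :
    spanT (x + spanE s) = spanT x + ee s := by
  funext n
  rw [Pi.add_apply]
  unfold spanT
  rw [Pi.add_apply]
  have h1 := h n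
  by_cases hn : n = s
  · subst hn
    rw [spanE_self]
    have : (ee n : Fin k → ℕ) n = 1 := Pi.single_eq_same _ _
    rw [this]
    omega
  · rw [spanE_ne hn]
    have : (ee s : Fin k → ℕ) n = 0 := Pi.single_eq_of_ne hn _
    rw [this]
    omega

theorem spanE_add_nonneg {x : Fin k → ℤ} (h : ∀ n, 0 ≤ x n) (s n : Fin k) :
    0 ≤ (x + spanE s) n := by
  rw [Pi.add_apply]
  have := h n
  have := spanE_nonneg s n
  omega

theorem spanE_add_sum (x : Fin k → ℤ) (s : Fin k) :
    ∑ n, (x + spanE s) n = ∑ n, x n + 1 := by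
  simp only [Pi.add_apply]
  rw [Finset.sum_add_distrib, spanE_sum, if_pos (Finset.mem_univ s)]

/-- a point of degree `N` off `W` -/
def spanP (N : ℕ) (W : Set (Fin k → ℕ)) (x : Fin k → ℤ) : Prop :=
  (∀ n, 0 ≤ x n) ∧ ∑ n, x n = N ∧ spanT x ∉ W

open Classical in
/-- the function `u` on the points of colour `i` -/
noncomputable def spanU (N : ℕ) (W : Set (Fin k → ℕ)) (c : (Fin k → ℕ) → Fin k)
    (u : (Fin k → ℕ) → ℝ) (i : Fin k) (x : Fin k → ℤ) : ℝ :=
  if spanP N W x ∧ c (spanT x) = i then u (spanT x) else 0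

/-- the point `y` of degree `N - 1` sees the colour `l` -/
def spanC (N : ℕ) (W : Set (Fin k → ℕ)) (c : (Fin k → ℕ) → Fin k) (y : Fin k → ℤ)
    (l : Fin k) : Prop :=
  (∀ n, 0 ≤ y n) ∧ ∑ n, y n + 1 = N ∧ ∃ s, spanP N W (y + spanE s) ∧ c (spanT (y + spanE s)) = l

open Classical in
/-- the cocycle -/
noncomputable def spanW (N : ℕ) (W : Set (Fin k → ℕ)) (c : (Fin k → ℕ) → Fin k)
    (u : (Fin k → ℕ) → ℝ) (a : Fin k → ℝ) (i l : Fin k) (y : Fin k → ℤ) : ℝ :=
  if spanC N W c y i ∧ spanC N W c y l then spanL a (spanU N W c u i) y else 0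

/-- the coefficient vectors -/
def spanA (α β : ℝ) (s : Fin k) : ℝ := α + β * (s.val : ℝ)

variable {N : ℕ} {W : Set (Fin k → ℕ)} {c : (Fin k → ℕ) → Fin k} {u : (Fin k → ℕ) → ℝ}

theorem spanU_ne {i : Fin k} {x : Fin k → ℤ} (h : spanU N W c u i x ≠ 0) :
    spanP N W x ∧ c (spanT x) = i := by
  classical
  unfold spanU at h
  by_contra hc
  rw [if_neg hc] at h
  exact h rfl

theorem spanU_pos (h1 : ∀ x, ∑ s, x s = N → x ∉ W → 1 ≤ x (c x)) {i : Fin k} {x : Fin k → ℤ}
    (h : spanU N W c u i x ≠ 0) : 1 ≤ x i := by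
  obtain ⟨⟨hx, hs, hW⟩, hc⟩ := spanU_ne h
  have h2 : ∑ n, spanT x n = N := by
    have := spanT_sum hx
    rw [hs] at this
    exact_mod_cast this
  have h3 := h1 _ h2 hW
  rw [hc] at h3
  have h4 := spanT_cast hx i
  omega

theorem spanU_bdd {i : Fin k} {x : Fin k → ℤ} (h : spanU N W c u i x ≠ 0) (n : Fin k) :
    x n ≤ N := by
  obtain ⟨⟨hx, hs, -⟩, -⟩ := spanU_ne h
  rw [← hs]
  exact Finset.single_le_sum (fun m _ => hx m) (Finset.mem_univ n)

/-- the colours seen from the points of a cell -/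
theorem span_cell (h2 : ∀ y : Fin k → ℕ, ∑ s, y s + 2 = N → ∃ p q, ∀ s t,
      y + ee s + ee t ∉ W → c (y + ee s + ee t) = p ∨ c (y + ee s + ee t) = q)
    {z : Fin k → ℤ} (hz : ∀ n, 0 ≤ z n) (hs : ∑ n, z n + 2 = N) :
    ∃ p q, ∀ s l, spanC N W c (z + spanE s) l → l = p ∨ l = q := by
  have h3 : ∑ n, spanT z n + 2 = N := by
    have := spanT_sum hz
    omega
  obtain ⟨p, q, hpq⟩ := h2 _ h3
  refine ⟨p, q, ?_⟩
  rintro s l ⟨-, -, t, ⟨-, -, hW⟩, hc⟩
  rw [spanT_add (spanE_add_nonneg hz s), spanT_add hz] at hW hc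
  have := hpq s t hW
  rw [hc] at this
  exact this

theorem span_two (hN : 2 ≤ N) (h2 : ∀ y : Fin k → ℕ, ∑ s, y s + 2 = N → ∃ p q, ∀ s t,
      y + ee s + ee t ∉ W → c (y + ee s + ee t) = p ∨ c (y + ee s + ee t) = q)
    {y : Fin k → ℤ} (hy : ∀ n, 0 ≤ y n) (hs : ∑ n, y n + 1 = N) :
    ∃ p q, ∀ l, spanC N W c y l → l = p ∨ l = q := by
  have hr : ∃ r, 1 ≤ y r := by
    by_contra hc
    push Not at hc
    have : ∑ n, y n ≤ 0 := Finset.sum_nonpos fun n _ => by
      have := hc n
      omega
    omega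
  obtain ⟨r, hr⟩ := hr
  have hz : ∀ n, 0 ≤ (y - spanE r) n := by
    intro n
    rw [Pi.sub_apply]
    by_cases hn : n = r
    · subst hn
      rw [spanE_self]
      omega
    · rw [spanE_ne hn, sub_zero]
      exact hy n
  have hzs : ∑ n, (y - spanE r) n + 2 = N := by
    have := spanE_add_sum (y - spanE r) r
    rw [sub_add_cancel] at this
    omega
  obtain ⟨p, q, hpq⟩ := span_cell h2 hz hzs
  refine ⟨p, q, fun l hl => hpq r l ?_⟩
  rw [sub_add_cancel]
  exact hl

theorem spanU_sum (h4 : ∀ x, ∑ s, x s = N → x ∈ W → u x = 0) {x : Fin k → ℤ}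
    (hx : ∀ n, 0 ≤ x n) (hs : ∑ n, x n = N) : ∑ i, spanU N W c u i x = u (spanT x) := by
  classical
  have h2 : ∑ n, spanT x n = N := by
    have := spanT_sum hx
    rw [hs] at this
    exact_mod_cast this
  by_cases hW : spanT x ∈ W
  · rw [h4 _ h2 hW]
    refine Finset.sum_eq_zero fun i _ => ?_
    unfold spanU
    rw [if_neg]
    rintro ⟨⟨-, -, h⟩, -⟩
    exact h hW
  · rw [Finset.sum_eq_single (c (spanT x))]
    · unfold spanU
      rw [if_pos ⟨⟨hx, hs, hW⟩, rfl⟩]
    · intro i _ hi
      unfold spanU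
      rw [if_neg]
      rintro ⟨-, h⟩
      exact hi h.symm
    · intro h
      exact absurd (Finset.mem_univ _) h

theorem spanL_sum (h3 : ∀ y : Fin k → ℕ, ∑ s, y s + 1 = N →
      ∑ s, u (y + ee s) = 0 ∧ ∑ s : Fin k, (s.val : ℝ) * u (y + ee s) = 0)
    (h4 : ∀ x, ∑ s, x s = N → x ∈ W → u x = 0) (α β : ℝ) {y : Fin k → ℤ}
    (hy : ∀ n, 0 ≤ y n) (hs : ∑ n, y n + 1 = N) :
    ∑ i, spanL (spanA α β) (spanU N W c u i) y = 0 := by
  have h5 : ∑ n, spanT y n + 1 = N := by
    have := spanT_sum hy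
    omega
  obtain ⟨e1, e2⟩ := h3 _ h5
  unfold spanL
  rw [Finset.sum_comm]
  have h6 : ∀ s : Fin k, ∑ i, spanA α β s * spanU N W c u i (y + spanE s) =
      α * u (spanT y + ee s) + β * ((s.val : ℝ) * u (spanT y + ee s)) := by
    intro s
    rw [← Finset.mul_sum, spanU_sum h4 (spanE_add_nonneg hy s) (by
      rw [spanE_add_sum]
      exact_mod_cast hs), spanT_add hy, spanA]
    ring
  rw [Finset.sum_congr rfl fun s _ => h6 s, Finset.sum_add_distrib, ← Finset.mul_sum,
    ← Finset.mul_sum, e1, e2, mul_zero, mul_zero, add_zero]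

theorem spanL_unseen (a : Fin k → ℝ) {i : Fin k} {y : Fin k → ℤ}
    (hy : ∀ n, 0 ≤ y n) (hs : ∑ n, y n + 1 = N) (h : ¬ spanC N W c y i) :
    spanL a (spanU N W c u i) y = 0 := by
  by_contra hc
  obtain ⟨s, hs'⟩ := spanL_ne hc
  obtain ⟨hP, hcol⟩ := spanU_ne hs'
  exact h ⟨hy, hs, s, hP, hcol⟩

/-- (i): antisymmetry -/
theorem spanW_antisymm (hN : 2 ≤ N)
    (h2 : ∀ y : Fin k → ℕ, ∑ s, y s + 2 = N → ∃ p q, ∀ s t,
      y + ee s + ee t ∉ W → c (y + ee s + ee t) = p ∨ c (y + ee s + ee t) = q)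
    (h3 : ∀ y : Fin k → ℕ, ∑ s, y s + 1 = N →
      ∑ s, u (y + ee s) = 0 ∧ ∑ s : Fin k, (s.val : ℝ) * u (y + ee s) = 0)
    (h4 : ∀ x, ∑ s, x s = N → x ∈ W → u x = 0) (α β : ℝ) {i l : Fin k} (hil : i ≠ l)
    (y : Fin k → ℤ) :
    spanW N W c u (spanA α β) i l y + spanW N W c u (spanA α β) l i y = 0 := by
  classical
  unfold spanW
  by_cases h : spanC N W c y i ∧ spanC N W c y l
  · rw [if_pos h, if_pos ⟨h.2, h.1⟩]
    obtain ⟨hy, hs, -⟩ := h.1
    have h5 := spanL_sum (c := c) h3 h4 α β hy hs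
    obtain ⟨p, q, hpq⟩ := span_two hN h2 hy hs
    have hother : ∀ j, j ≠ i → j ≠ l → spanL (spanA α β) (spanU N W c u j) y = 0 := by
      intro j hji hjl
      refine spanL_unseen _ hy hs ?_
      intro hj
      have e1 := hpq i h.1
      have e2 := hpq l h.2
      have e3 := hpq j hj
      rcases e1 with rfl | rfl <;> rcases e2 with rfl | rfl <;> rcases e3 with rfl | rfl <;>
        simp_all
    rw [← Finset.add_sum_erase _ _ (Finset.mem_univ i),
      ← Finset.add_sum_erase _ _ (Finset.mem_erase.2 ⟨hil.symm, Finset.mem_univ l⟩),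
      Finset.sum_eq_zero, add_zero] at h5
    · exact h5
    · intro j hj
      have hj1 := Finset.mem_erase.1 hj
      have hj2 := Finset.mem_erase.1 hj1.2
      exact hother j hj2.1 hj1.1
  · rw [if_neg h, if_neg (fun h' => h ⟨h'.2, h'.1⟩), add_zero]

/-- (ii): decomposition -/
theorem spanW_sum (hN : 2 ≤ N) (h1 : ∀ x, ∑ s, x s = N → x ∉ W → 1 ≤ x (c x))
    (h2 : ∀ y : Fin k → ℕ, ∑ s, y s + 2 = N → ∃ p q, ∀ s t,
      y + ee s + ee t ∉ W → c (y + ee s + ee t) = p ∨ c (y + ee s + ee t) = q)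
    (h3 : ∀ y : Fin k → ℕ, ∑ s, y s + 1 = N →
      ∑ s, u (y + ee s) = 0 ∧ ∑ s : Fin k, (s.val : ℝ) * u (y + ee s) = 0)
    (h4 : ∀ x, ∑ s, x s = N → x ∈ W → u x = 0) (α β : ℝ) (i : Fin k)
    {y : Fin k → ℤ} (hy : spanZ {i} y) :
    spanL (spanA α β) (spanU N W c u i) y =
      ∑ l ∈ Finset.univ.erase i, spanW N W c u (spanA α β) i l y := by
  classical
  by_cases hy0 : (∀ n, 0 ≤ y n) ∧ ∑ n, y n + 1 = N
  · obtain ⟨hyn, hs⟩ := hy0
    obtain ⟨p, q, hpq⟩ := span_two hN h2 hyn hs
    by_cases hi : spanC N W c y i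
    · by_cases hex : ∃ l, l ≠ i ∧ spanC N W c y l
      · obtain ⟨l, hli, hl⟩ := hex
        rw [Finset.sum_eq_single l]
        · unfold spanW
          rw [if_pos ⟨hi, hl⟩]
        · intro j hj hjl
          unfold spanW
          rw [if_neg]
          rintro ⟨-, hj'⟩
          have hji := Finset.ne_of_mem_erase hj
          have e1 := hpq i hi
          have e2 := hpq l hl
          have e3 := hpq j hj'
          rcases e1 with rfl | rfl <;> rcases e2 with rfl | rfl <;> rcases e3 with rfl | rfl <;>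
            simp_all
        · intro h
          exact absurd (Finset.mem_erase.2 ⟨hli, Finset.mem_univ l⟩) h
      · push Not at hex
        rw [Finset.sum_eq_zero]
        · have h5 := spanL_sum (c := c) h3 h4 α β hyn hs
          rw [← Finset.add_sum_erase _ _ (Finset.mem_univ i), Finset.sum_eq_zero, add_zero] at h5
          · exact h5
          · intro j hj
            exact spanL_unseen _ hyn hs (hex j (Finset.ne_of_mem_erase hj))
        · intro j hj
          unfold spanW
          rw [if_neg]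
          rintro ⟨-, hj'⟩
          exact hex j (Finset.ne_of_mem_erase hj) hj'
    · rw [spanL_unseen _ hyn hs hi, Finset.sum_eq_zero]
      intro j _
      unfold spanW
      rw [if_neg]
      rintro ⟨h, -⟩
      exact hi h
  · rw [Finset.sum_eq_zero]
    · by_contra hne
      obtain ⟨s, hs⟩ := spanL_ne hne
      obtain ⟨⟨hx, hxs, -⟩, -⟩ := spanU_ne hs
      have hpos := spanU_pos h1 hs
      rw [spanE_add_sum] at hxs
      apply hy0
      refine ⟨?_, by omega⟩
      intro n
      by_cases hn : n = i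
      · subst hn
        rw [Pi.add_apply] at hpos
        have := spanE_le s n
        omega
      · exact hy n (by simpa using hn)
    · intro j _
      unfold spanW
      rw [if_neg]
      rintro ⟨⟨h, h', -⟩, -⟩
      exact hy0 ⟨h, h'⟩

theorem spanL_edge (h1 : ∀ x, ∑ s, x s = N → x ∉ W → 1 ≤ x (c x)) (a : Fin k → ℝ) {i : Fin k}
    {y : Fin k → ℤ} (hy : y i = 0) :
    spanL a (spanU N W c u i) y = a i * spanU N W c u i (y + spanE i) := by
  unfold spanL
  rw [Finset.sum_eq_single i]
  · intro s _ hs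
    by_contra hne
    have h5 : spanU N W c u i (y + spanE s) ≠ 0 := right_ne_zero_of_mul hne
    have h6 := spanU_pos h1 h5
    rw [Pi.add_apply, hy, spanE_ne (fun h => hs h.symm)] at h6
    omega
  · intro h
    exact absurd (Finset.mem_univ i) h

/-- (iii): the cocycle is closed -/
theorem spanW_closed (hN : 2 ≤ N) (h1 : ∀ x, ∑ s, x s = N → x ∉ W → 1 ≤ x (c x))
    (h2 : ∀ y : Fin k → ℕ, ∑ s, y s + 2 = N → ∃ p q, ∀ s t,
      y + ee s + ee t ∉ W → c (y + ee s + ee t) = p ∨ c (y + ee s + ee t) = q)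
    (h3 : ∀ y : Fin k → ℕ, ∑ s, y s + 1 = N →
      ∑ s, u (y + ee s) = 0 ∧ ∑ s : Fin k, (s.val : ℝ) * u (y + ee s) = 0)
    (h4 : ∀ x, ∑ s, x s = N → x ∈ W → u x = 0) (α β α' β' : ℝ) {i l : Fin k} (hil : i ≠ l)
    {z : Fin k → ℤ} (hz : spanZ {i, l} z) :
    spanL (spanA α' β') (spanW N W c u (spanA α β) i l) z =
      spanL (spanA α β) (spanW N W c u (spanA α' β') i l) z := by
  classical
  by_cases hz0 : ∀ n, 0 ≤ z n
  · by_cases hzs : ∑ n, z n + 2 = N
    · obtain ⟨p, q, hpq⟩ := span_cell h2 hz0 hzs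
      by_cases hboth : (∃ s, spanC N W c (z + spanE s) i) ∧ ∃ s, spanC N W c (z + spanE s) l
      · obtain ⟨⟨s1, hs1⟩, s2, hs2⟩ := hboth
        have e1 := hpq s1 i hs1
        have e2 := hpq s2 l hs2
        have hcol : ∀ s j, spanC N W c (z + spanE s) j → j = i ∨ j = l := by
          intro s j hj
          have e3 := hpq s j hj
          rcases e1 with rfl | rfl <;> rcases e2 with rfl | rfl <;> rcases e3 with rfl | rfl <;>
            simp_all
        have hcl : ∀ (α β : ℝ) (s : Fin k), spanW N W c u (spanA α β) i l (z + spanE s) =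
            spanL (spanA α β) (spanU N W c u i) (z + spanE s) := by
          intro α β s
          have hyn := spanE_add_nonneg hz0 s
          have hys : ∑ n, (z + spanE s) n + 1 = N := by
            rw [spanE_add_sum]
            omega
          unfold spanW
          by_cases hi : spanC N W c (z + spanE s) i
          · by_cases hl : spanC N W c (z + spanE s) l
            · rw [if_pos ⟨hi, hl⟩]
            · rw [if_neg (fun h => hl h.2)]
              have h5 := spanL_sum (c := c) h3 h4 α β hyn hys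
              rw [← Finset.add_sum_erase _ _ (Finset.mem_univ i), Finset.sum_eq_zero,
                add_zero] at h5
              · exact h5.symm
              · intro j hj
                refine spanL_unseen _ hyn hys ?_
                intro hj'
                rcases hcol s j hj' with h | h
                · exact Finset.ne_of_mem_erase hj h
                · rw [h] at hj'
                  exact hl hj'
          · rw [if_neg (fun h => hi h.1), spanL_unseen _ hyn hys hi]
        have e5 : spanL (spanA α' β') (spanW N W c u (spanA α β) i l) z =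
            spanL (spanA α' β') (spanL (spanA α β) (spanU N W c u i)) z := by
          show ∑ s, _ = ∑ s, _
          exact Finset.sum_congr rfl fun s _ => by rw [hcl α β s]
        have e6 : spanL (spanA α β) (spanW N W c u (spanA α' β') i l) z =
            spanL (spanA α β) (spanL (spanA α' β') (spanU N W c u i)) z := by
          show ∑ s, _ = ∑ s, _
          exact Finset.sum_congr rfl fun s _ => by rw [hcl α' β' s]
        rw [e5, e6, spanL_comm]
      · have hzero : ∀ (α β : ℝ) (s : Fin k),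
            spanW N W c u (spanA α β) i l (z + spanE s) = 0 := by
          intro α β s
          unfold spanW
          rw [if_neg]
          rintro ⟨ha, hb⟩
          exact hboth ⟨⟨s, ha⟩, ⟨s, hb⟩⟩
        unfold spanL
        rw [Finset.sum_eq_zero fun s _ => by rw [hzero α β s, mul_zero],
          Finset.sum_eq_zero fun s _ => by rw [hzero α' β' s, mul_zero]]
    · have hzero : ∀ (α β : ℝ) (s : Fin k),
          spanW N W c u (spanA α β) i l (z + spanE s) = 0 := by
        intro α β s
        unfold spanW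
        rw [if_neg]
        rintro ⟨⟨-, ha, -⟩, -⟩
        rw [spanE_add_sum] at ha
        apply hzs
        omega
      unfold spanL
      rw [Finset.sum_eq_zero fun s _ => by rw [hzero α β s, mul_zero],
        Finset.sum_eq_zero fun s _ => by rw [hzero α' β' s, mul_zero]]
  · push Not at hz0
    obtain ⟨r, hr⟩ := hz0
    have hr' : r = i ∨ r = l := by
      by_contra hc
      push Not at hc
      have := hz r (by simp [hc.1, hc.2])
      omega
    show ∑ s, _ = ∑ s, _
    refine Finset.sum_congr rfl fun s _ => ?_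
    by_cases hsn : ∀ n, 0 ≤ (z + spanE s) n
    · have hsr : s = r := by
        by_contra hc
        have := hsn r
        rw [Pi.add_apply, spanE_ne (fun h => hc h.symm)] at this
        omega
      subst hsr
      have hz1 : (z + spanE s) s = 0 := by
        have := hsn s
        rw [Pi.add_apply, spanE_self] at this ⊢
        omega
      rcases hr' with rfl | rfl
      · unfold spanW
        split_ifs
        · rw [spanL_edge h1 _ hz1, spanL_edge h1 _ hz1]
          ring
        · ring
      · have e1 := spanW_antisymm hN h2 h3 h4 α β hil (z + spanE s)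
        have e2 := spanW_antisymm hN h2 h3 h4 α' β' hil (z + spanE s)
        have e3 : spanW N W c u (spanA α β) i s (z + spanE s) =
            - spanW N W c u (spanA α β) s i (z + spanE s) := by linarith
        have e4 : spanW N W c u (spanA α' β') i s (z + spanE s) =
            - spanW N W c u (spanA α' β') s i (z + spanE s) := by linarith
        rw [e3, e4]
        unfold spanW
        split_ifs
        · rw [spanL_edge h1 _ hz1, spanL_edge h1 _ hz1]
          ring
        · ring
    · have hzero : ∀ α β : ℝ, spanW N W c u (spanA α β) i l (z + spanE s) = 0 := by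
        intro α β
        unfold spanW
        rw [if_neg]
        rintro ⟨⟨ha, -, -⟩, -⟩
        exact hsn ha
      rw [hzero, hzero, mul_zero, mul_zero]

theorem spanW_bdd {a : Fin k → ℝ} {i l : Fin k} :
    ∀ x, spanW N W c u a i l x ≠ 0 → ∀ n, x n ≤ N := by
  classical
  intro x hx
  have h : spanL a (spanU N W c u i) x ≠ 0 := by
    unfold spanW at hx
    split_ifs at hx with h
    · exact hx
    · exact absurd rfl hx
  exact spanL_bdd (fun x hx n => spanU_bdd hx n) x h

/-- (iv): the cocycle is a coboundary -/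
theorem span_pair (hN : 2 ≤ N) (h1 : ∀ x, ∑ s, x s = N → x ∉ W → 1 ≤ x (c x))
    (h2 : ∀ y : Fin k → ℕ, ∑ s, y s + 2 = N → ∃ p q, ∀ s t,
      y + ee s + ee t ∉ W → c (y + ee s + ee t) = p ∨ c (y + ee s + ee t) = q)
    (h3 : ∀ y : Fin k → ℕ, ∑ s, y s + 1 = N →
      ∑ s, u (y + ee s) = 0 ∧ ∑ s : Fin k, (s.val : ℝ) * u (y + ee s) = 0)
    (h4 : ∀ x, ∑ s, x s = N → x ∈ W → u x = 0) (i l : Fin k) (hil : i ≠ l) :
    ∃ (s : (Fin k → ℤ) → ℝ) (B : ℤ), (∀ x, s x ≠ 0 → ∀ n, x n ≤ B) ∧
      ∀ α β : ℝ, ∀ y, spanZ {i, l} y →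
        spanL (spanA α β) s y = spanW N W c u (spanA α β) i l y := by
  classical
  obtain ⟨a, ha⟩ : ∃ a : Fin k → ℝ, a = spanA (-(l.val : ℝ)) 1 := ⟨_, rfl⟩
  have hai : a i ≠ 0 := by
    rw [ha, spanA]
    intro h
    have h5 : (i.val : ℝ) = l.val := by linarith
    exact hil (Fin.ext (by exact_mod_cast h5))
  have ha0 : ∀ j ∈ ({i, l} : Finset (Fin k)), j ≠ i → a j = 0 := by
    intro j hj hji
    have hjl : j = l := by simpa [hji] using hj
    rw [ha, hjl, spanA]
    ring
  have hi : i ∈ ({i, l} : Finset (Fin k)) := by simp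
  obtain ⟨s, B, hsB, hs⟩ := span_solve hi hai ha0
    (w := spanW N W c u a i l) (B := N) spanW_bdd
  refine ⟨s, B, hsB, ?_⟩
  intro α β y hy
  have hf := span_inj hi hai ha0 (f := fun x => spanL (spanA α β) s x -
    spanW N W c u (spanA α β) i l x) (B := max B N) ?_ ?_ y hy
  · exact sub_eq_zero.1 hf
  · intro x hx n
    have hor : spanL (spanA α β) s x ≠ 0 ∨ spanW N W c u (spanA α β) i l x ≠ 0 := by
      by_contra hc
      push Not at hc
      apply hx
      simp only [hc.1, hc.2, sub_zero]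
    rcases hor with h | h
    · exact (spanL_bdd hsB x h n).trans (le_max_left _ _)
    · exact (spanW_bdd x h n).trans (le_max_right _ _)
  · intro z hz
    have e1 : spanL a (fun x => spanL (spanA α β) s x -
        spanW N W c u (spanA α β) i l x) z =
        spanL a (spanL (spanA α β) s) z - spanL a (spanW N W c u (spanA α β) i l) z := by
      unfold spanL
      rw [← Finset.sum_sub_distrib]
      exact Finset.sum_congr rfl fun t _ => by ring
    have e2 : spanL (spanA α β) (spanL a s) z =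
        spanL (spanA α β) (spanW N W c u a i l) z := by
      show ∑ t, _ = ∑ t, _
      exact Finset.sum_congr rfl fun t _ => by rw [hs _ (spanZ_add hz t)]
    rw [e1, spanL_comm, e2, ha, spanW_closed hN h1 h2 h3 h4 _ _ _ _ hil hz, sub_self]

end Colours

theorem span2 {k N : ℕ} (hN : 2 ≤ N) (W : Set (Fin k → ℕ)) (c : (Fin k → ℕ) → Fin k)
    (u : (Fin k → ℕ) → ℝ)
    (h1 : ∀ x, ∑ s, x s = N → x ∉ W → 1 ≤ x (c x))
    (h2 : ∀ y : Fin k → ℕ, ∑ s, y s + 2 = N → ∃ p q, ∀ s t, y + ee s + ee t ∉ W →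
      c (y + ee s + ee t) = p ∨ c (y + ee s + ee t) = q)
    (h3 : ∀ y : Fin k → ℕ, ∑ s, y s + 1 = N →
      ∑ s, u (y + ee s) = 0 ∧ ∑ s : Fin k, (s.val : ℝ) * u (y + ee s) = 0)
    (h4 : ∀ x, ∑ s, x s = N → x ∈ W → u x = 0) :
    ∀ x, ∑ s, x s = N → u x = 0 := by
  classical
  have hS : ∀ i l : Fin k, ∃ (s : (Fin k → ℤ) → ℝ) (B : ℤ), i ≠ l →
      ((∀ x, s x ≠ 0 → ∀ n, x n ≤ B) ∧ ∀ α β : ℝ, ∀ y, spanZ {i, l} y →
        spanL (spanA α β) s y = spanW N W c u (spanA α β) i l y) := by
    intro i l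
    by_cases hil : i = l
    · exact ⟨0, 0, fun h => absurd hil h⟩
    · obtain ⟨s, B, hs⟩ := span_pair hN h1 h2 h3 h4 i l hil
      exact ⟨s, B, fun _ => hs⟩
  choose S B hSB using hS
  obtain ⟨σ, hσ⟩ : ∃ σ : Fin k → Fin k → (Fin k → ℤ) → ℝ,
      σ = fun i l x => if i < l then S i l x else - S l i x := ⟨_, rfl⟩
  have hanti : ∀ i l, i ≠ l → ∀ x, σ i l x + σ l i x = 0 := by
    intro i l hil x
    rw [hσ]
    simp only
    rcases lt_or_gt_of_ne hil with h | h
    · rw [if_pos h, if_neg (not_lt.2 h.le)]; ring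
    · rw [if_neg (not_lt.2 h.le), if_pos h]; ring
  have hσL : ∀ i l, i ≠ l → ∀ α β : ℝ, ∀ y, spanZ {i, l} y →
      spanL (spanA α β) (σ i l) y = spanW N W c u (spanA α β) i l y := by
    intro i l hil α β y hy
    rcases lt_or_gt_of_ne hil with h | h
    · have e : σ i l = S i l := by
        rw [hσ]
        funext x
        simp only
        rw [if_pos h]
      rw [e]
      exact (hSB i l hil).2 α β y hy
    · have e : σ i l = fun x => - S l i x := by
        rw [hσ]
        funext x
        simp only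
        rw [if_neg (not_lt.2 h.le)]
      have hy' : spanZ {l, i} y := by
        rw [Finset.pair_comm]
        exact hy
      have e2 := (hSB l i hil.symm).2 α β y hy'
      have e3 := spanW_antisymm hN h2 h3 h4 α β hil y
      have e4 : spanL (spanA α β) (fun x => - S l i x) y =
          - spanL (spanA α β) (S l i) y := by
        unfold spanL
        rw [← Finset.sum_neg_distrib]
        exact Finset.sum_congr rfl fun t _ => by ring
      rw [e, e4, e2]
      linarith
  obtain ⟨D, hD⟩ : ∃ D : ℤ, ∀ i l, i ≠ l → ∀ x, σ i l x ≠ 0 → ∀ n, x n ≤ D := by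
    refine ⟨∑ i, ∑ l, |B i l|, ?_⟩
    intro i l hil x hx n
    have hle : ∀ i l, |B i l| ≤ ∑ i, ∑ l, |B i l| := by
      intro i l
      have e1 : |B i l| ≤ ∑ l, |B i l| :=
        Finset.single_le_sum (f := fun l => |B i l|) (fun l _ => abs_nonneg _)
          (Finset.mem_univ l)
      have e2 : ∑ l, |B i l| ≤ ∑ i, ∑ l, |B i l| :=
        Finset.single_le_sum (f := fun i => ∑ l, |B i l|)
          (fun i _ => Finset.sum_nonneg fun l _ => abs_nonneg _) (Finset.mem_univ i)
      exact e1.trans e2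
    rw [hσ] at hx
    simp only at hx
    split_ifs at hx with h
    · exact ((hSB i l hil).1 x hx n).trans ((le_abs_self _).trans (hle i l))
    · exact ((hSB l i hil.symm).1 x (neg_ne_zero.1 hx) n).trans
        ((le_abs_self _).trans (hle l i))
  have hU : ∀ i x, spanZ {i} x →
      spanU N W c u i x = ∑ l ∈ Finset.univ.erase i, σ i l x := by
    intro i x hx
    have hf := span_inj (C := {i}) (i := i) (by simp) (a := spanA (1 : ℝ) 0)
      (by rw [spanA]; norm_num) (by
        intro l hl hli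
        exact absurd (by simpa using hl) hli)
      (f := fun x => spanU N W c u i x - ∑ l ∈ Finset.univ.erase i, σ i l x)
      (B := max N D) ?_ ?_ x hx
    · exact sub_eq_zero.1 hf
    · intro x hx n
      have hor : spanU N W c u i x ≠ 0 ∨ ∃ l, l ≠ i ∧ σ i l x ≠ 0 := by
        by_contra hc
        push Not at hc
        apply hx
        rw [hc.1, Finset.sum_eq_zero fun l hl => hc.2 l (Finset.ne_of_mem_erase hl), sub_zero]
      rcases hor with h | ⟨l, hl, h⟩
      · exact (spanU_bdd h n).trans (le_max_left _ _)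
      · exact (hD i l hl.symm x h n).trans (le_max_right _ _)
    · intro y hy
      have e1 : spanL (spanA (1 : ℝ) 0) (fun x => spanU N W c u i x -
          ∑ l ∈ Finset.univ.erase i, σ i l x) y =
          spanL (spanA (1 : ℝ) 0) (spanU N W c u i) y -
          ∑ l ∈ Finset.univ.erase i, spanL (spanA (1 : ℝ) 0) (σ i l) y := by
        unfold spanL
        rw [Finset.sum_comm, ← Finset.sum_sub_distrib]
        refine Finset.sum_congr rfl fun t _ => ?_
        rw [mul_sub, Finset.mul_sum]
      rw [e1, spanW_sum hN h1 h2 h3 h4 1 0 i hy, sub_eq_zero]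
      refine Finset.sum_congr rfl fun l hl => ?_
      have hli := Finset.ne_of_mem_erase hl
      rw [hσL i l hli.symm 1 0 y]
      intro n hn
      exact hy n (by
        simp only [Finset.mem_insert, Finset.mem_singleton, not_or] at hn ⊢
        exact hn.1)
  intro x hx
  obtain ⟨X, hX⟩ : ∃ X : Fin k → ℤ, X = fun n => (x n : ℤ) := ⟨_, rfl⟩
  have hX0 : ∀ n, 0 ≤ X n := by
    intro n
    rw [hX]
    positivity
  have hXT : spanT X = x := by
    funext n
    rw [hX]
    exact Int.toNat_natCast _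
  have hXs : ∑ n, X n = N := by
    rw [hX, ← hx]
    push_cast
    rfl
  have e1 := spanU_sum (c := c) h4 hX0 hXs
  rw [hXT] at e1
  rw [← e1, Finset.sum_congr rfl fun i _ => hU i X fun n _ => hX0 n]
  have e2 : ∀ i, ∑ l ∈ Finset.univ.erase i, σ i l X = ∑ l, if i = l then 0 else σ i l X := by
    intro i
    rw [← Finset.add_sum_erase _ _ (Finset.mem_univ i), if_pos rfl, zero_add]
    refine Finset.sum_congr rfl fun l hl => ?_
    rw [if_neg (Finset.ne_of_mem_erase hl).symm]
  rw [Finset.sum_congr rfl fun i _ => e2 i]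
  have e3 : ∑ i, ∑ l, (if i = l then 0 else σ i l X) =
      - ∑ i, ∑ l, (if i = l then 0 else σ i l X) := by
    conv_lhs => rw [Finset.sum_comm]
    rw [← Finset.sum_neg_distrib]
    refine Finset.sum_congr rfl fun i _ => ?_
    rw [← Finset.sum_neg_distrib]
    refine Finset.sum_congr rfl fun l _ => ?_
    by_cases h : i = l
    · rw [if_pos h, if_pos h.symm, neg_zero]
    · rw [if_neg h, if_neg (fun h' => h h'.symm)]
      have := hanti i l h X
      linarith
  linarith

end SX
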