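import Pool.Agent.H27.SX.Defs
import Pool.Agent.H27.SX.Span

/-!
# The rank of the set of exponents is full (SX-2)
-/

set_option autoImplicit false

open MeasureTheory Metric Set Filter Module
open scoped Topology MeasureTheory RealInnerProductSpace Nat Pointwise

namespace SX

open SP SP.Mea

theorem ell_castSucc (m : ℕ) (i : Fin (m + 1)) :
    ell m i.castSucc.castSucc = MvPolynomial.X i := by
  unfold ell
  rw [dif_pos (by simpa using i.isLt)]
  congr 1

theorem ell_mid (m : ℕ) : ell m (Fin.last (m + 1)).castSucc =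
    (∑ i : Fin (m + 1), MvPolynomial.C (i.val : ℝ) * MvPolynomial.X i)
      - MvPolynomial.C ((m : ℝ) + 2) * ∑ i : Fin (m + 1), MvPolynomial.X i := by
  unfold ell
  rw [dif_neg (by simp), if_pos (by simp)]

theorem ell_last (m : ℕ) : ell m (Fin.last (m + 2)) =
    MvPolynomial.C ((m : ℝ) + 1) * (∑ i : Fin (m + 1), MvPolynomial.X i)
      - ∑ i : Fin (m + 1), MvPolynomial.C (i.val : ℝ) * MvPolynomial.X i := by
  unfold ell
  rw [dif_neg (by simp), if_neg (by simp)]

theorem sum_ell (m : ℕ) : ∑ s, ell m s = 0 := by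
  rw [Fin.sum_univ_castSucc, Fin.sum_univ_castSucc, ell_mid, ell_last]
  simp only [ell_castSucc]
  have h : (MvPolynomial.C ((m : ℝ) + 2) : MvPolynomial (Fin (m + 1)) ℝ) =
      MvPolynomial.C ((m : ℝ) + 1) + 1 := by
    rw [← MvPolynomial.C_1, ← MvPolynomial.C_add]
    congr 1
    ring
  rw [h]
  ring

theorem sum_ell' (m : ℕ) : ∑ s : Fin (m + 3), MvPolynomial.C (s.val : ℝ) * ell m s = 0 := by
  rw [Fin.sum_univ_castSucc, Fin.sum_univ_castSucc, ell_mid, ell_last]
  simp only [ell_castSucc, Fin.val_castSucc, Fin.val_last]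
  have h1 : (MvPolynomial.C (((m + 1 : ℕ)) : ℝ) : MvPolynomial (Fin (m + 1)) ℝ) =
      MvPolynomial.C (m : ℝ) + 1 := by
    rw [← MvPolynomial.C_1, ← MvPolynomial.C_add]
    congr 1
    push_cast
    ring
  have h2 : (MvPolynomial.C (((m + 2 : ℕ)) : ℝ) : MvPolynomial (Fin (m + 1)) ℝ) =
      MvPolynomial.C (m : ℝ) + 1 + 1 := by
    rw [← MvPolynomial.C_1, ← MvPolynomial.C_add, ← MvPolynomial.C_add]
    congr 1
    push_cast
    ring
  have h3 : (MvPolynomial.C ((m : ℝ) + 1) : MvPolynomial (Fin (m + 1)) ℝ) =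
      MvPolynomial.C (m : ℝ) + 1 := by
    rw [← MvPolynomial.C_1, ← MvPolynomial.C_add]
  have h4 : (MvPolynomial.C ((m : ℝ) + 2) : MvPolynomial (Fin (m + 1)) ℝ) =
      MvPolynomial.C (m : ℝ) + 1 + 1 := by
    rw [← MvPolynomial.C_1, ← MvPolynomial.C_add, ← MvPolynomial.C_add]
    congr 1
    ring
  rw [h1, h2, h3, h4]
  ring

theorem mon_add (m : ℕ) (x y : Fin (m + 3) → ℕ) : mon m (x + y) = mon m x * mon m y := by
  unfold mon
  rw [← Finset.prod_mul_distrib]
  exact Finset.prod_congr rfl fun s _ => by rw [Pi.add_apply, pow_add]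

theorem mon_ee (m : ℕ) (s : Fin (m + 3)) : mon m (ee s) = ell m s := by
  unfold mon ee
  rw [Finset.prod_eq_single s]
  · simp
  · intro t _ hts
    rw [Pi.single_eq_of_ne hts, pow_zero]
  · intro h
    exact absurd (Finset.mem_univ s) h

/-- the exponent with two zeros added at the end -/
def ext0 {m : ℕ} (α : Fin (m + 1) → ℕ) : Fin (m + 3) → ℕ :=
  Fin.snoc (α := fun _ => ℕ) (Fin.snoc (α := fun _ => ℕ) α 0) 0

theorem sum_ext0 {m : ℕ} (α : Fin (m + 1) → ℕ) : ∑ s, ext0 α s = ∑ i, α i := by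
  rw [Fin.sum_univ_castSucc, Fin.sum_univ_castSucc]
  simp [ext0]

theorem mon_ext0 {m : ℕ} (α : Fin (m + 1) → ℕ) :
    mon m (ext0 α) = ∏ i, MvPolynomial.X i ^ α i := by
  unfold mon
  rw [Fin.prod_univ_castSucc, Fin.prod_univ_castSucc]
  simp [ext0, ell_castSucc]

theorem rank_full {m N : ℕ} (hN : 2 ≤ N) (W : Finset (Fin (m + 3) → ℕ))
    (c : (Fin (m + 3) → ℕ) → Fin (m + 3))
    (h1 : ∀ x, ∑ s, x s = N → x ∉ W → 1 ≤ x (c x))
    (h2 : ∀ y : Fin (m + 3) → ℕ, ∑ s, y s + 2 = N → ∃ p q, ∀ s t, y + ee s + ee t ∉ W →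
      c (y + ee s + ee t) = p ∨ c (y + ee s + ee t) = q) :
    (N + m).choose m ≤ rk m W := by
  classical
  set Sp : Submodule ℝ (MvPolynomial (Fin (m + 1)) ℝ) :=
    Submodule.span ℝ (mon m '' (W : Set (Fin (m + 3) → ℕ))) with hSp
  -- all `mon x` of degree `N` are in the span
  have hall : ∀ x : Fin (m + 3) → ℕ, ∑ s, x s = N → mon m x ∈ Sp := by
    intro x0 hx0
    by_contra hcon
    obtain ⟨g, hg, hle⟩ := Submodule.exists_le_ker_of_notMem hcon
    have h3 : ∀ y : Fin (m + 3) → ℕ, ∑ s, y s + 1 = N →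
        ∑ s, g (mon m (y + ee s)) = 0 ∧
          ∑ s : Fin (m + 3), (s.val : ℝ) * g (mon m (y + ee s)) = 0 := by
      intro y _
      refine ⟨?_, ?_⟩
      · rw [← map_sum]
        have : ∑ s, mon m (y + ee s) = 0 := by
          calc ∑ s, mon m (y + ee s) = ∑ s, mon m y * ell m s :=
                Finset.sum_congr rfl fun s _ => by rw [mon_add, mon_ee]
            _ = mon m y * ∑ s, ell m s := by rw [Finset.mul_sum]
            _ = 0 := by rw [sum_ell, mul_zero]
        rw [this, map_zero]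
      · have : ∑ s : Fin (m + 3), (s.val : ℝ) • mon m (y + ee s) = 0 := by
          calc ∑ s : Fin (m + 3), (s.val : ℝ) • mon m (y + ee s)
              = ∑ s : Fin (m + 3), mon m y * (MvPolynomial.C (s.val : ℝ) * ell m s) :=
                Finset.sum_congr rfl fun s _ => by
                  rw [mon_add, mon_ee, MvPolynomial.smul_eq_C_mul]; ring
            _ = mon m y * ∑ s : Fin (m + 3), MvPolynomial.C (s.val : ℝ) * ell m s := by
                rw [Finset.mul_sum]
            _ = 0 := by rw [sum_ell', mul_zero]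
        calc ∑ s : Fin (m + 3), (s.val : ℝ) * g (mon m (y + ee s))
            = g (∑ s : Fin (m + 3), (s.val : ℝ) • mon m (y + ee s)) := by
              rw [map_sum]
              exact Finset.sum_congr rfl fun s _ => by rw [map_smul, smul_eq_mul]
          _ = 0 := by rw [this, map_zero]
    have h4 : ∀ x : Fin (m + 3) → ℕ, ∑ s, x s = N → x ∈ (W : Set (Fin (m + 3) → ℕ)) →
        g (mon m x) = 0 := by
      intro x _ hxW
      exact hle (Submodule.subset_span ⟨x, hxW, rfl⟩)
    exact hg (span2 hN (W : Set (Fin (m + 3) → ℕ)) c (fun x => g (mon m x))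
      (fun x hx hxW => h1 x hx (by simpa using hxW))
      (fun y hy => by
        obtain ⟨p, q, hpq⟩ := h2 y hy
        exact ⟨p, q, fun s t hst => hpq s t (by simpa using hst)⟩) h3 h4 x0 hx0)
  -- the monomials of degree `N`
  let A : Finset (Fin (m + 1) →₀ ℕ) := Finset.finsuppAntidiag Finset.univ N
  have hA : A.card = (N + m).choose m := by
    rw [Finset.card_finsuppAntidiag_nat_eq_choose]
    simp only [Finset.card_univ, Fintype.card_fin]
    rw [show m + 1 + N - 1 = N + m by omega]
    exact Nat.choose_symm_add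
  have hmem : ∀ a : A, (MvPolynomial.monomial a.1 (1 : ℝ)) ∈ Sp := by
    intro a
    have ha : ∑ i, a.1 i = N := by
      have := a.2
      simp only [A, Finset.mem_finsuppAntidiag] at this
      exact this.1
    have h := hall (ext0 a.1) (by rw [sum_ext0, ha])
    rw [mon_ext0] at h
    have he : (MvPolynomial.monomial a.1 (1 : ℝ)) =
        ∏ i, (MvPolynomial.X i : MvPolynomial (Fin (m + 1)) ℝ) ^ a.1 i := by
      rw [MvPolynomial.monomial_eq, MvPolynomial.C_1, one_mul, Finsupp.prod_fintype]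
      intro i
      rw [pow_zero]
    rw [he]
    exact h
  have hfin : Module.Finite ℝ Sp := by
    rw [hSp]
    exact Module.Finite.span_of_finite ℝ (W.finite_toSet.image _)
  have hli : LinearIndependent ℝ (fun a : A => (⟨MvPolynomial.monomial a.1 (1 : ℝ), hmem a⟩ : Sp)) := by
    have h0 : LinearIndependent ℝ (fun a : A => (MvPolynomial.monomial a.1 (1 : ℝ) :
        MvPolynomial (Fin (m + 1)) ℝ)) := by
      have hb := (MvPolynomial.basisMonomials (Fin (m + 1)) ℝ).linearIndependent
      have hb' := hb.comp (fun a : A => a.1) Subtype.val_injective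
      have he : (⇑(MvPolynomial.basisMonomials (Fin (m + 1)) ℝ) ∘ fun a : A => a.1) =
          (fun a : A => (MvPolynomial.monomial a.1 (1 : ℝ) : MvPolynomial (Fin (m + 1)) ℝ)) := by
        funext a
        simp [MvPolynomial.coe_basisMonomials]
      rw [he] at hb'
      exact hb'
    exact LinearIndependent.of_comp Sp.subtype h0
  have hcard := hli.fintype_card_le_finrank
  rw [Fintype.card_coe, hA] at hcard
  exact hcard

end SX
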